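import Mathlib

set_option autoImplicit false

/-!
# ETA-13: disjoint blocks of letters moved by a permutation

PROOF.  Let `M = {i | w i ≠ i}`, `|M| ≥ n/2` (`2 |M| ≥ n`).  Let `Q ⊆ M` be maximal (for inclusion,
or of maximal size) with `w i ∉ Q` for all `i ∈ Q`.  Every `m ∈ M \ Q` has `w m ∈ Q` or
`w⁻¹ m ∈ Q` (otherwise `insert m Q` is larger; note `w m ≠ m`), so
`M ⊆ Q ∪ w⁻¹ Q ∪ w Q` and `|M| ≤ 3 |Q|`.  Thus `6 |Q| ≥ n ≥ 12 b`, `|Q| ≥ 2 b`.  Choose an injective
`p : Fin b × Fin 2 → Q`.  The `4 b` letters `p i 0, p i 1, w (p i 0), w (p i 1)` are distinct: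
`p` and `w ∘ p` are injective and `w (p x) ≠ p y` since `w Q` is disjoint from `Q`.
-/

open Finset

namespace Pool.Agent.RS

private theorem blocks_free {n b : ℕ} (w : Equiv.Perm (Fin n)) (hb : 12 * b ≤ n)
    (hw : 2 * (univ.filter (fun i => w i = i)).card ≤ n) :
    ∃ Q : Finset (Fin n), (∀ i ∈ Q, w i ∉ Q) ∧ 2 * b ≤ Q.card := by
  classical
  set M : Finset (Fin n) := univ.filter (fun i => w i ≠ i) with hM
  have hcard : (univ.filter (fun i => w i = i)).card + M.card = n := by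
    have h := Finset.card_filter_add_card_filter_not (s := (univ : Finset (Fin n)))
      (fun i => w i = i)
    rw [Finset.card_univ, Fintype.card_fin] at h
    exact h
  obtain ⟨Q, hQ, hmax⟩ := Finset.exists_max_image
    (M.powerset.filter (fun Q => ∀ i ∈ Q, w i ∉ Q)) Finset.card
    ⟨∅, by simp⟩
  rw [mem_filter, mem_powerset] at hQ
  refine ⟨Q, hQ.2, ?_⟩
  have hsub : M ⊆ Q ∪ (Q.image w ∪ Q.image w.symm) := by
    intro m hm
    by_contra hcon
    rw [mem_union, mem_union, not_or, not_or] at hcon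
    obtain ⟨h1, h2, h3⟩ := hcon
    have h2' : ∀ i ∈ Q, w i ≠ m := fun i hi h => h2 (mem_image.2 ⟨i, hi, h⟩)
    have h3' : w m ∉ Q := fun h => h3 (mem_image.2 ⟨w m, h, w.symm_apply_apply m⟩)
    have hm' : w m ≠ m := (mem_filter.1 hm).2
    have hins : insert m Q ∈ M.powerset.filter (fun Q => ∀ i ∈ Q, w i ∉ Q) := by
      rw [mem_filter, mem_powerset]
      refine ⟨insert_subset hm hQ.1, fun i hi => ?_⟩
      rw [mem_insert] at hi ⊢
      rw [not_or]
      rcases hi with rfl | hi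
      · exact ⟨hm', h3'⟩
      · exact ⟨h2' i hi, hQ.2 i hi⟩
    have h4 := hmax _ hins
    rw [card_insert_of_notMem h1] at h4
    omega
  have h5 := card_le_card hsub
  have h6 := card_union_le Q (Q.image w ∪ Q.image w.symm)
  have h7 := card_union_le (Q.image w) (Q.image w.symm)
  have h8 : (Q.image w).card ≤ Q.card := card_image_le
  have h9 : (Q.image w.symm).card ≤ Q.card := card_image_le
  omega

theorem blocks {n b : ℕ} (w : Equiv.Perm (Fin n)) (hb : 12 * b ≤ n)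
    (hw : 2 * (univ.filter (fun i => w i = i)).card ≤ n) :
    ∃ p : Fin b → Fin 2 → Fin n, Function.Injective (fun q : Fin b × Fin 4 =>
      (![p q.1 0, p q.1 1, w (p q.1 0), w (p q.1 1)] : Fin 4 → Fin n) q.2) := by
  classical
  obtain ⟨Q, hQ1, hQ2⟩ := blocks_free w hb hw
  have hne : Nonempty ((Fin b × Fin 2) ↪ {x // x ∈ Q}) := by
    refine Function.Embedding.nonempty_of_card_le ?_
    rw [Fintype.card_prod, Fintype.card_fin, Fintype.card_fin, Fintype.card_coe]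
    omega
  obtain ⟨f⟩ := hne
  have hne : ∀ x y, w (f x).1 ≠ (f y).1 := fun x y h => hQ1 _ (f x).2 (h ▸ (f y).2)
  have hinj : ∀ x y, (f x).1 = (f y).1 → x = y := fun x y h => f.injective (Subtype.ext h)
  have hinj' : ∀ x y, w (f x).1 = w (f y).1 → x = y := fun x y h => hinj x y (w.injective h)
  have h01 : ¬ (0 : Fin 2) = 1 := by decide
  have h10 : ¬ (1 : Fin 2) = 0 := by decide
  refine ⟨fun i j => (f (i, j)).1, ?_⟩
  rintro ⟨i, k⟩ ⟨j, l⟩ h
  match k, l, h with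
  | 0, 0, h => exact Prod.ext (Prod.ext_iff.1 (hinj (i, 0) (j, 0) h)).1 rfl
  | 0, 1, h => exact absurd (Prod.ext_iff.1 (hinj (i, 0) (j, 1) h)).2 h01
  | 0, 2, h => exact absurd h.symm (hne (j, 0) (i, 0))
  | 0, 3, h => exact absurd h.symm (hne (j, 1) (i, 0))
  | 1, 0, h => exact absurd (Prod.ext_iff.1 (hinj (i, 1) (j, 0) h)).2 h10
  | 1, 1, h => exact Prod.ext (Prod.ext_iff.1 (hinj (i, 1) (j, 1) h)).1 rfl
  | 1, 2, h => exact absurd h.symm (hne (j, 0) (i, 1))
  | 1, 3, h => exact absurd h.symm (hne (j, 1) (i, 1))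
  | 2, 0, h => exact absurd h (hne (i, 0) (j, 0))
  | 2, 1, h => exact absurd h (hne (i, 0) (j, 1))
  | 2, 2, h => exact Prod.ext (Prod.ext_iff.1 (hinj' (i, 0) (j, 0) h)).1 rfl
  | 2, 3, h => exact absurd (Prod.ext_iff.1 (hinj' (i, 0) (j, 1) h)).2 h01
  | 3, 0, h => exact absurd h (hne (i, 1) (j, 0))
  | 3, 1, h => exact absurd h (hne (i, 1) (j, 1))
  | 3, 2, h => exact absurd (Prod.ext_iff.1 (hinj' (i, 1) (j, 0) h)).2 h10
  | 3, 3, h => exact Prod.ext (Prod.ext_iff.1 (hinj' (i, 1) (j, 1) h)).1 rfl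

end Pool.Agent.RS
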