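import Pool.Agent.Helper36.RS.Level

set_option autoImplicit false

/-!
# ETA-06: all averaging steps

PROOF.  Induction on `l`, for all `A`, `θ > 0` and `ρ ≥ 0`.
`l = 0`: `(Z ρ)^1 / Z = ρ`, the low space is that of `A` at `θ`; no `y` is bad (`hρ`).
`l + 1`: let `A' = avgConj L (y 0) A`, `θ' = θ (1 - 2/K) > 0` (`K ≥ 3`), `ρ' = Z ρ^2`.
If `y 0` is not in the bad set of `level`, then for all `i`
`dim (low A' θ' ⊓ B i) ≤ Z (ρ d_i)^2 / d_i = ρ' d_i`, so the induction hypothesis applies to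
`A'` (admissible by `Adm.avg`), `θ'`, `ρ'`: the number of tails `y' : Fin l → Fin K → G` with
`∃ i, (Z ρ')^(2^l) / Z d_i < dim (low (iter L l y' A') (θ' (1 - 2/K)^l) ⊓ B i)`, times `4 Z`, is
at most `l q K^4 |G|^(K l)`.  Note `(Z ρ')^(2^l) = (Z ρ)^(2^(l+1))` and
`θ' (1-2/K)^l = θ (1-2/K)^(l+1)`, and `iter L (l+1) y A = iter L l (tail y) A'` by definition.
So (bijection `Fin.consEquiv` or `Fin.cons`) the number of bad `y` is at most
`#bad(level) · |G|^(K l) + |G|^K · max`, times `4 Z`: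
`≤ q K^4 |G|^K |G|^(K l) + |G|^K l q K^4 |G|^(K l) = (l+1) q K^4 |G|^(K (l+1))`.
-/

open Finset

namespace Pool.Agent.RS

open scoped InnerProductSpace

private theorem natCard_eq {α : Type*} [Fintype α] (P : α → Prop) [DecidablePred P] :
    (Nat.card {y // P y} : ℝ) = ∑ y, if P y then (1 : ℝ) else 0 := by
  rw [Nat.card_eq_fintype_card, Fintype.card_subtype, Finset.card_filter]
  push_cast
  rfl

private theorem count_cons {X : Type*} [Fintype X] {l : ℕ} (P : (Fin (l + 1) → X) → Prop)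
    (b : X → Prop) (Q : X → (Fin l → X) → Prop)
    (hPQ : ∀ y, P y → ¬ b (y 0) → Q (y 0) (fun i => y i.succ)) (M : ℝ) (c : ℝ) (hM : 0 ≤ M)
    (hc : 0 ≤ c) (hQ : ∀ x, ¬ b x → (Nat.card {y' // Q x y'} : ℝ) * c ≤ M) :
    (Nat.card {y // P y} : ℝ) * c ≤
      (Nat.card {x // b x} : ℝ) * c * (Fintype.card X : ℝ) ^ l + (Fintype.card X : ℝ) * M := by
  classical
  rw [natCard_eq P, natCard_eq b, ← (Fin.consEquiv (fun _ : Fin (l + 1) => X)).sum_comp,
    Fintype.sum_prod_type, sum_mul]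
  have hx : ∀ x : X, (∑ y : Fin l → X,
      if P ((Fin.consEquiv (fun _ : Fin (l + 1) => X)) (x, y)) then (1 : ℝ) else 0) * c ≤
      (if b x then (1 : ℝ) else 0) * c * (Fintype.card X : ℝ) ^ l + M := by
    intro x
    by_cases hb : b x
    · rw [if_pos hb, one_mul]
      have h1 : (∑ y : Fin l → X,
          if P ((Fin.consEquiv (fun _ : Fin (l + 1) => X)) (x, y)) then (1 : ℝ) else 0) ≤
          (Fintype.card X : ℝ) ^ l := by
        calc (∑ y : Fin l → X,
            if P ((Fin.consEquiv (fun _ : Fin (l + 1) => X)) (x, y)) then (1 : ℝ) else 0) ≤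
            ∑ _y : Fin l → X, (1 : ℝ) := by
              refine sum_le_sum fun y _ => ?_
              split_ifs
              · exact le_rfl
              · exact zero_le_one
          _ = (Fintype.card X : ℝ) ^ l := by
              rw [sum_const, nsmul_eq_mul, mul_one, card_univ, Fintype.card_fun,
                Fintype.card_fin]
              push_cast
              rfl
      nlinarith [mul_le_mul_of_nonneg_right h1 hc]
    · rw [if_neg hb, zero_mul, zero_mul, zero_add]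
      refine le_trans ?_ (hQ x hb)
      rw [natCard_eq (Q x)]
      refine mul_le_mul_of_nonneg_right ?_ hc
      refine sum_le_sum fun y _ => ?_
      by_cases hP : P ((Fin.consEquiv (fun _ : Fin (l + 1) => X)) (x, y))
      · have hq : Q x y := hPQ _ hP hb
        rw [if_pos hP, if_pos hq]
      · rw [if_neg hP]
        split_ifs
        · exact zero_le_one
        · exact le_rfl
  calc ∑ x : X, (∑ y : Fin l → X,
        if P ((Fin.consEquiv (fun _ : Fin (l + 1) => X)) (x, y)) then (1 : ℝ) else 0) * c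
      ≤ ∑ x : X, ((if b x then (1 : ℝ) else 0) * c * (Fintype.card X : ℝ) ^ l + M) :=
        sum_le_sum fun x _ => hx x
    _ = _ := by
        rw [sum_add_distrib, ← sum_mul, ← sum_mul, sum_const, nsmul_eq_mul, card_univ]

theorem chain {E : Type*} [NormedAddCommGroup E] [InnerProductSpace ℝ E]
    [FiniteDimensional ℝ E] {G : Type*} [Group G] [Fintype G] (L R : G →* (E →ₗ[ℝ] E))
    (hL : ∀ g v, ‖L g v‖ = ‖v‖) (hR : ∀ g v, ‖R g v‖ = ‖v‖)
    (hLR : ∀ g h v, L g (R h v) = R h (L g v)) {q : ℕ} (B : Fin q → Submodule ℝ E)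
    (hB : ∀ i, MinInv L R (B i)) {K : ℕ} (hK : 3 ≤ K) (Z : ℝ) (hZ : 0 < Z) (l : ℕ) :
    ∀ (A : E →ₗ[ℝ] E) (θ ρ : ℝ), Adm R B A → 0 < θ → 0 ≤ ρ →
      (∀ i, (Module.finrank ℝ (RC.low A θ ⊓ B i : Submodule ℝ E) : ℝ) ≤
        ρ * Module.finrank ℝ (B i)) →
      (Nat.card {y : Fin l → Fin K → G // ∃ i : Fin q,
        (Z * ρ) ^ (2 ^ l) / Z * (Module.finrank ℝ (B i) : ℝ) <
          (Module.finrank ℝ (RC.low (iter L l y A) (θ * (1 - 2 / K) ^ l) ⊓ B i :
            Submodule ℝ E) : ℝ)} : ℝ) * (4 * Z) ≤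
        l * q * (K : ℝ) ^ 4 * (Fintype.card G : ℝ) ^ (K * l) := by
  have hKR : (3 : ℝ) ≤ K := by exact_mod_cast hK
  have hfac : (0 : ℝ) < 1 - 2 / K := by
    rw [sub_pos, div_lt_one (by linarith)]
    linarith
  have hd : ∀ i, (0 : ℝ) < (Module.finrank ℝ (B i) : ℝ) := by
    intro i
    have h1 : Module.finrank ℝ (B i) ≠ 0 := fun h => (hB i).ne_bot (Submodule.finrank_eq_zero.1 h)
    exact_mod_cast Nat.pos_of_ne_zero h1
  induction l with
  | zero =>
    intro A θ ρ hA hθ hρ0 hρ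
    have h0 : ∀ y : Fin 0 → Fin K → G, ¬ ∃ i : Fin q,
        (Z * ρ) ^ (2 ^ 0) / Z * (Module.finrank ℝ (B i) : ℝ) <
          (Module.finrank ℝ (RC.low (iter L 0 y A) (θ * (1 - 2 / K) ^ 0) ⊓ B i :
            Submodule ℝ E) : ℝ) := by
      rintro y ⟨i, hi⟩
      have h1 : iter L 0 y A = A := rfl
      rw [h1, pow_zero, pow_zero, pow_one, mul_one, mul_div_cancel_left₀ _ hZ.ne'] at hi
      exact absurd (hρ i) (not_le.2 hi)
    rw [Nat.card_eq_zero.2 (Or.inl ⟨fun y => h0 y.1 y.2⟩)]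
    simp
  | succ l ih =>
    intro A θ ρ hA hθ hρ0 hρ
    have hG0 : (0 : ℝ) ≤ (Fintype.card G : ℝ) := Nat.cast_nonneg _
    have hKl : (Fintype.card (Fin K → G) : ℝ) = (Fintype.card G : ℝ) ^ K := by
      rw [Fintype.card_fun, Fintype.card_fin]
      push_cast
      rfl
    have hmain := count_cons (X := Fin K → G) (l := l)
      (fun y => ∃ i : Fin q, (Z * ρ) ^ (2 ^ (l + 1)) / Z * (Module.finrank ℝ (B i) : ℝ) <
          (Module.finrank ℝ (RC.low (iter L (l + 1) y A) (θ * (1 - 2 / K) ^ (l + 1)) ⊓ B i :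
            Submodule ℝ E) : ℝ))
      (fun y => ∃ i : Fin q,
        Z * (Module.finrank ℝ (RC.low A θ ⊓ B i : Submodule ℝ E) : ℝ) ^ 2 /
          (Module.finrank ℝ (B i) : ℝ) <
        (Module.finrank ℝ (RC.low (avgConj L y A) (θ * (1 - 2 / K)) ⊓ B i : Submodule ℝ E) : ℝ))
      (fun y0 y => ∃ i : Fin q,
        (Z * (Z * ρ ^ 2)) ^ (2 ^ l) / Z * (Module.finrank ℝ (B i) : ℝ) <
          (Module.finrank ℝ (RC.low (iter L l y (avgConj L y0 A))
            (θ * (1 - 2 / K) * (1 - 2 / K) ^ l) ⊓ B i : Submodule ℝ E) : ℝ))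
      (by
        rintro y ⟨i, hi⟩ _
        refine ⟨i, ?_⟩
        have e1 : (Z * (Z * ρ ^ 2)) ^ (2 ^ l) = (Z * ρ) ^ (2 ^ (l + 1)) := by
          rw [pow_succ 2 l, mul_comm (2 ^ l) 2, pow_mul]
          congr 1
          ring
        have e2 : θ * (1 - 2 / (K : ℝ)) * (1 - 2 / K) ^ l = θ * (1 - 2 / K) ^ (l + 1) := by ring
        rw [e1, e2]
        exact hi)
      (l * q * (K : ℝ) ^ 4 * (Fintype.card G : ℝ) ^ (K * l)) (4 * Z) (by positivity)
      (by positivity)
      (by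
        intro y0 hy0
        refine ih (avgConj L y0 A) (θ * (1 - 2 / K)) (Z * ρ ^ 2)
          (Adm.avg L R hL hLR (fun i => (hB i).left) hA (by omega) y0) (mul_pos hθ hfac)
          (by positivity) ?_
        intro i
        have h1 := not_lt.1 (fun h => hy0 ⟨i, h⟩)
        refine h1.trans ?_
        rw [div_le_iff₀ (hd i)]
        have h2 : (Module.finrank ℝ (RC.low A θ ⊓ B i : Submodule ℝ E) : ℝ) ^ 2 ≤
            (ρ * Module.finrank ℝ (B i)) ^ 2 := by
          have := hρ i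
          gcongr
        calc Z * (Module.finrank ℝ (RC.low A θ ⊓ B i : Submodule ℝ E) : ℝ) ^ 2
            ≤ Z * (ρ * Module.finrank ℝ (B i)) ^ 2 := by gcongr
          _ = Z * ρ ^ 2 * (Module.finrank ℝ (B i)) * (Module.finrank ℝ (B i)) := by ring)
    refine hmain.trans ?_
    have hlev := level L R hL hR hLR B hB hA hK θ hθ Z hZ
    rw [hKl]
    calc _ ≤ (q * (K : ℝ) ^ 4 * (Fintype.card G : ℝ) ^ K) * ((Fintype.card G : ℝ) ^ K) ^ l +
          (Fintype.card G : ℝ) ^ K * (l * q * (K : ℝ) ^ 4 * (Fintype.card G : ℝ) ^ (K * l)) := by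
          gcongr
      _ = _ := by
          push_cast
          ring

end Pool.Agent.RS
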