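import Mathlib

set_option autoImplicit false

/-!
# ETA-08a: the alternating group has at most twice as many classes as there are partitions

PROOF.  `n ≤ 1`: the group is trivial, one class, and `Nat.Partition n` is nonempty.  `n ≥ 2`: let
`τ` be a transposition.  The map `c : Alt(n) → Nat.Partition n`, `g ↦ (g : Perm (Fin n)).partition`
(cast along `Fintype.card (Fin n) = n`; or use cycle types).  For every partition `p` in the range
choose `g_p` with `c (g_p) = p`.  The surjection from `Nat.Partition n × Bool` (or from the range of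
`c` times `Bool`) onto `ConjClasses`: `(p, false) ↦ [g_p]`, `(p, true) ↦ [τ g_p τ⁻¹]` (and anything
outside the range).  Surjective: if `g` has `c g = p` then `g = σ g_p σ⁻¹` with `σ : Perm (Fin n)`
(`Equiv.Perm.isConj_iff_cycleType_eq`, or `Equiv.Perm.partition_eq_of_isConj`).  If `σ` is even,
`g` is conjugate to `g_p` in `Alt(n)`; if `σ` is odd, `σ = (σ τ⁻¹) τ` and `σ τ⁻¹` is even, so `g` is
conjugate in `Alt(n)` to `τ g_p τ⁻¹`.
-/

open Finset

namespace Pool.Agent.RS

theorem card_classes (n : ℕ) : Nat.card (ConjClasses (alternatingGroup (Fin n))) ≤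
    2 * Fintype.card (Nat.Partition n) := by
  classical
  rcases Nat.lt_or_ge n 2 with hn | hn
  · have h1 : Subsingleton (Fin n) := by
      rw [← Fintype.card_le_one_iff_subsingleton, Fintype.card_fin]
      omega
    have h2 : Nat.card (ConjClasses (alternatingGroup (Fin n))) ≤ 1 := by
      rw [Finite.card_le_one_iff_subsingleton]
      refine ⟨fun a b => ?_⟩
      obtain ⟨a, rfl⟩ := ConjClasses.mk_surjective a
      obtain ⟨b, rfl⟩ := ConjClasses.mk_surjective b
      rw [Subsingleton.elim a b]
    have h3 : 0 < Fintype.card (Nat.Partition n) := Fintype.card_pos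
    omega
  · have hcard : Fintype.card (Nat.Partition n) =
        Fintype.card (Nat.Partition (Fintype.card (Fin n))) := by
      rw [Fintype.card_fin]
    obtain ⟨τ, hτ⟩ : ∃ τ : Equiv.Perm (Fin n), Equiv.Perm.sign τ = -1 := by
      refine ⟨Equiv.swap ⟨0, by omega⟩ ⟨1, by omega⟩, Equiv.Perm.sign_swap ?_⟩
      simp
    have hnorm : ∀ g : alternatingGroup (Fin n), τ * g * τ⁻¹ ∈ alternatingGroup (Fin n) := by
      intro g
      rw [Equiv.Perm.mem_alternatingGroup, Equiv.Perm.sign_mul, Equiv.Perm.sign_mul,
        Equiv.Perm.mem_alternatingGroup.1 g.2, Equiv.Perm.sign_inv, hτ]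
      simp
    let f : Nat.Partition (Fintype.card (Fin n)) × Bool →
        ConjClasses (alternatingGroup (Fin n)) := fun q =>
      if h : ∃ g : alternatingGroup (Fin n), (g : Equiv.Perm (Fin n)).partition = q.1 then
        (if q.2 then ConjClasses.mk ⟨τ * (h.choose : Equiv.Perm (Fin n)) * τ⁻¹, hnorm _⟩
          else ConjClasses.mk h.choose)
      else ConjClasses.mk 1
    have hf : Function.Surjective f := by
      intro a
      obtain ⟨g, rfl⟩ := ConjClasses.mk_surjective a
      have h : ∃ g' : alternatingGroup (Fin n),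
          (g' : Equiv.Perm (Fin n)).partition = (g : Equiv.Perm (Fin n)).partition := ⟨g, rfl⟩
      have h1 := h.choose_spec
      rw [← Equiv.Perm.partition_eq_of_isConj, isConj_iff] at h1
      obtain ⟨σ, hσ⟩ := h1
      rcases Int.units_eq_one_or (Equiv.Perm.sign σ) with hs | hs
      · refine ⟨((g : Equiv.Perm (Fin n)).partition, false), ?_⟩
        have h2 : f ((g : Equiv.Perm (Fin n)).partition, false) = ConjClasses.mk h.choose := by
          simp only [f, dif_pos h]
          simp
        rw [h2, ConjClasses.mk_eq_mk_iff_isConj, isConj_iff]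
        exact ⟨⟨σ, Equiv.Perm.mem_alternatingGroup.2 hs⟩, Subtype.ext hσ⟩
      · refine ⟨((g : Equiv.Perm (Fin n)).partition, true), ?_⟩
        have h2 : f ((g : Equiv.Perm (Fin n)).partition, true) =
            ConjClasses.mk ⟨τ * (h.choose : Equiv.Perm (Fin n)) * τ⁻¹, hnorm _⟩ := by
          simp only [f, dif_pos h]
          simp
        rw [h2, ConjClasses.mk_eq_mk_iff_isConj, isConj_iff]
        refine ⟨⟨σ * τ⁻¹, ?_⟩, Subtype.ext ?_⟩
        · rw [Equiv.Perm.mem_alternatingGroup, Equiv.Perm.sign_mul, Equiv.Perm.sign_inv, hs, hτ]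
          simp
        · refine Eq.trans ?_ hσ
          simp only [Subgroup.coe_mul, Subgroup.coe_inv]
          group
    have h4 := Nat.card_le_card_of_surjective f hf
    rw [Nat.card_prod, Nat.card_eq_fintype_card (α := Nat.Partition _), ← hcard,
      Nat.card_eq_fintype_card (α := Bool), Fintype.card_bool] at h4
    omega

end Pool.Agent.RS
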