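import Pool.Agent.Helper36.RS.TwoSided
import Pool.Agent.Helper46.RC.Final

set_option autoImplicit false

/-!
# ETA-19: the functions of degree at most `r`

`degE n r`: the functions of degree at most `r`, as a subspace of `L²(Alt(n))`.

PROOFS.  `degE_lt`, `degE_rt`: span induction; left translate of `g ↦ φ (g • a)` is
`g ↦ φ (x⁻¹ • (g • a))`, right translate is `g ↦ φ (g • (x • a))`.  Orthogonal complements of
invariant subspaces are invariant (isometries; adjoint of `lt g` is `lt g⁻¹`).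
`one_mem`: a constant function is `φ (g • a)` with `φ` constant and any `a : Fin r → Fin n`
(exists as `r ≤ n`).
`dpart`: `V = {f ∈ degE n r : ∑ f g = 0}` is invariant under the symmetric operator
`D = ∑_i (2 - lt (x i) - lt (x i)⁻¹)`, `⟪D f, f⟫ = ∑ ‖lt (x i) f - f‖^2`.  It suffices that every
eigenvalue `l` of `D` on `V` is at least `2 ε` (eigenvector basis of `D.restrict V`).  If
`D f = l f`, `0 ≠ f ∈ V` then `∑_i (f ((x i)⁻¹ g) + f (x i g)) = (2 m - l) f g` for all `g`, so
`RC.FinalAux.real_bound` (with `m₁ = m`) gives `2 m - l ≤ 2 m - 2 ε`.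
-/

open Finset

namespace Pool.Agent.RS

open scoped InnerProductSpace

/-- The functions of degree at most `r` as a subspace of `L²(Alt(n))`. -/
def degE (n r : ℕ) : Submodule ℝ (EuclideanSpace ℝ (alternatingGroup (Fin n))) where
  carrier := {f | (fun g => f g) ∈ RC.FinalAux.degR n r}
  add_mem' := fun ha hb => (RC.FinalAux.degR n r).add_mem ha hb
  zero_mem' := (RC.FinalAux.degR n r).zero_mem
  smul_mem' := fun c _ ha => (RC.FinalAux.degR n r).smul_mem c ha

private theorem eta19_inner_lt (n : ℕ) (x : alternatingGroup (Fin n))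
    (u f : EuclideanSpace ℝ (alternatingGroup (Fin n))) :
    ⟪lt (alternatingGroup (Fin n)) x u, lt (alternatingGroup (Fin n)) x f⟫_ℝ = ⟪u, f⟫_ℝ := by
  rw [PiLp.inner_apply, PiLp.inner_apply]
  exact Equiv.sum_comp (Equiv.mulLeft x⁻¹) (fun g => ⟪u g, f g⟫_ℝ)

private theorem eta19_inner_rt (n : ℕ) (x : alternatingGroup (Fin n))
    (u f : EuclideanSpace ℝ (alternatingGroup (Fin n))) :
    ⟪rt (alternatingGroup (Fin n)) x u, rt (alternatingGroup (Fin n)) x f⟫_ℝ = ⟪u, f⟫_ℝ := by
  rw [PiLp.inner_apply, PiLp.inner_apply]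
  exact Equiv.sum_comp (Equiv.mulRight x) (fun g => ⟪u g, f g⟫_ℝ)

private theorem eta19_lt_inv (n : ℕ) (x : alternatingGroup (Fin n))
    (u : EuclideanSpace ℝ (alternatingGroup (Fin n))) :
    lt (alternatingGroup (Fin n)) x (lt (alternatingGroup (Fin n)) x⁻¹ u) = u := by
  ext g
  rw [lt_apply, lt_apply]
  group

private theorem eta19_lt_inv' (n : ℕ) (x : alternatingGroup (Fin n))
    (u : EuclideanSpace ℝ (alternatingGroup (Fin n))) :
    lt (alternatingGroup (Fin n)) x⁻¹ (lt (alternatingGroup (Fin n)) x u) = u := by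
  ext g
  rw [lt_apply, lt_apply]
  group

private theorem eta19_rt_inv (n : ℕ) (x : alternatingGroup (Fin n))
    (u : EuclideanSpace ℝ (alternatingGroup (Fin n))) :
    rt (alternatingGroup (Fin n)) x (rt (alternatingGroup (Fin n)) x⁻¹ u) = u := by
  ext g
  rw [rt_apply, rt_apply]
  group

theorem degE_lt (n r : ℕ) (g : alternatingGroup (Fin n)) :
    ∀ f ∈ degE n r, lt (alternatingGroup (Fin n)) g f ∈ degE n r := by
  intro f hf
  have hle : RC.FinalAux.degR n r ≤
      (RC.FinalAux.degR n r).comap (LinearMap.funLeft ℝ ℝ fun h => g⁻¹ * h) := by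
    rw [RC.FinalAux.degR, Submodule.span_le]
    rintro h ⟨a, φ, rfl⟩
    refine Submodule.subset_span ⟨a, fun z => φ (((g : Equiv.Perm (Fin n))⁻¹) • z), ?_⟩
    funext h
    change φ (((g⁻¹ * h : alternatingGroup (Fin n)) : Equiv.Perm (Fin n)) • a) = _
    rw [Subgroup.coe_mul, Subgroup.coe_inv, mul_smul]
  exact hle hf

theorem degE_rt (n r : ℕ) (g : alternatingGroup (Fin n)) :
    ∀ f ∈ degE n r, rt (alternatingGroup (Fin n)) g f ∈ degE n r := by
  intro f hf
  have hle : RC.FinalAux.degR n r ≤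
      (RC.FinalAux.degR n r).comap (LinearMap.funLeft ℝ ℝ fun h => h * g) := by
    rw [RC.FinalAux.degR, Submodule.span_le]
    rintro h ⟨a, φ, rfl⟩
    refine Submodule.subset_span ⟨(g : Equiv.Perm (Fin n)) • a, φ, ?_⟩
    funext h
    change φ (((h * g : alternatingGroup (Fin n)) : Equiv.Perm (Fin n)) • a) = _
    rw [Subgroup.coe_mul, mul_smul]
  exact hle hf

theorem degE_orth_lt (n r : ℕ) (g : alternatingGroup (Fin n)) :
    ∀ f ∈ (degE n r)ᗮ, lt (alternatingGroup (Fin n)) g f ∈ (degE n r)ᗮ := by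
  intro f hf
  rw [Submodule.mem_orthogonal] at hf ⊢
  intro u hu
  have h1 := hf _ (degE_lt n r g⁻¹ u hu)
  rw [← eta19_inner_lt n g, eta19_lt_inv] at h1
  exact h1

theorem degE_orth_rt (n r : ℕ) (g : alternatingGroup (Fin n)) :
    ∀ f ∈ (degE n r)ᗮ, rt (alternatingGroup (Fin n)) g f ∈ (degE n r)ᗮ := by
  intro f hf
  rw [Submodule.mem_orthogonal] at hf ⊢
  intro u hu
  have h1 := hf _ (degE_rt n r g⁻¹ u hu)
  rw [← eta19_inner_rt n g, eta19_rt_inv] at h1
  exact h1

/-- The constant functions have degree at most `r`. -/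
theorem const_mem {n r : ℕ} (hrn : r ≤ n) (c : ℝ) (f : EuclideanSpace ℝ (alternatingGroup (Fin n)))
    (hf : ∀ g, f g = c) : f ∈ degE n r := by
  refine Submodule.subset_span ⟨Fin.castLE hrn, fun _ => c, ?_⟩
  funext g
  exact hf g

theorem orth_sum {n r : ℕ} (f : EuclideanSpace ℝ (alternatingGroup (Fin n)))
    (hf : f ∈ (degE n r)ᗮ) (h : alternatingGroup (Fin n) → ℝ) (hh : h ∈ RC.FinalAux.degR n r) :
    ∑ g, f g * h g = 0 := by
  rw [Submodule.mem_orthogonal] at hf
  have h1 := hf (WithLp.toLp 2 h) (show (WithLp.toLp 2 h) ∈ degE n r from hh)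
  rw [PiLp.inner_apply] at h1
  rw [← h1]
  refine Finset.sum_congr rfl fun g _ => ?_
  rfl

/-- the functions of degree at most `r` with sum zero -/
private def V0 (n r : ℕ) : Submodule ℝ (EuclideanSpace ℝ (alternatingGroup (Fin n))) where
  carrier := {f | f ∈ degE n r ∧ ∑ g, f g = 0}
  add_mem' := by
    rintro a b ⟨ha, ha'⟩ ⟨hb, hb'⟩
    refine ⟨(degE n r).add_mem ha hb, ?_⟩
    simp only [PiLp.add_apply, Finset.sum_add_distrib, ha', hb', add_zero]
  zero_mem' := ⟨(degE n r).zero_mem, by simp⟩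
  smul_mem' := by
    rintro c a ⟨ha, ha'⟩
    refine ⟨(degE n r).smul_mem c ha, ?_⟩
    simp only [PiLp.smul_apply, smul_eq_mul, ← Finset.mul_sum, ha', mul_zero]

/-- the Laplace operator -/
private noncomputable def DD {n m : ℕ} (x : Fin m → alternatingGroup (Fin n)) :
    EuclideanSpace ℝ (alternatingGroup (Fin n)) →ₗ[ℝ] EuclideanSpace ℝ (alternatingGroup (Fin n)) :=
  ∑ i, ((2 : ℝ) • LinearMap.id - lt (alternatingGroup (Fin n)) (x i) -
    lt (alternatingGroup (Fin n)) (x i)⁻¹)

private theorem DD_apply {n m : ℕ} (x : Fin m → alternatingGroup (Fin n))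
    (f : EuclideanSpace ℝ (alternatingGroup (Fin n))) :
    DD x f = ∑ i, ((2 : ℝ) • f - lt (alternatingGroup (Fin n)) (x i) f -
      lt (alternatingGroup (Fin n)) (x i)⁻¹ f) := by
  unfold DD
  rw [LinearMap.sum_apply]
  rfl

private theorem adj {n : ℕ} (x : alternatingGroup (Fin n))
    (u f : EuclideanSpace ℝ (alternatingGroup (Fin n))) :
    ⟪lt (alternatingGroup (Fin n)) x u, f⟫_ℝ = ⟪u, lt (alternatingGroup (Fin n)) x⁻¹ f⟫_ℝ := by
  rw [← eta19_inner_lt n x u, eta19_lt_inv]

private theorem DD_symm {n m : ℕ} (x : Fin m → alternatingGroup (Fin n)) :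
    (DD x).IsSymmetric := by
  intro u f
  rw [DD_apply, DD_apply, sum_inner, inner_sum]
  refine Finset.sum_congr rfl fun i _ => ?_
  rw [inner_sub_left, inner_sub_left, inner_sub_right, inner_sub_right, adj, adj, inv_inv,
    real_inner_smul_left, real_inner_smul_right]
  ring

private theorem DD_inner {n m : ℕ} (x : Fin m → alternatingGroup (Fin n))
    (f : EuclideanSpace ℝ (alternatingGroup (Fin n))) :
    ⟪DD x f, f⟫_ℝ = ∑ i, ‖lt (alternatingGroup (Fin n)) (x i) f - f‖ ^ 2 := by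
  rw [DD_apply, sum_inner]
  refine Finset.sum_congr rfl fun i _ => ?_
  have h1 : ‖lt (alternatingGroup (Fin n)) (x i) f‖ ^ 2 = ‖f‖ ^ 2 := by
    rw [← real_inner_self_eq_norm_sq, ← real_inner_self_eq_norm_sq, eta19_inner_lt]
  have h2 : ⟪lt (alternatingGroup (Fin n)) (x i)⁻¹ f, f⟫_ℝ =
      ⟪lt (alternatingGroup (Fin n)) (x i) f, f⟫_ℝ := by
    rw [adj, inv_inv, real_inner_comm]
  rw [norm_sub_sq_real, h1, inner_sub_left, inner_sub_left, h2, real_inner_smul_left,
    real_inner_self_eq_norm_sq]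
  ring

private theorem V0_inv {n m r : ℕ} (x : Fin m → alternatingGroup (Fin n)) :
    ∀ f ∈ V0 n r, DD x f ∈ V0 n r := by
  intro f hf
  rw [DD_apply]
  refine Submodule.sum_mem _ fun i _ => ?_
  have hlt : ∀ y : alternatingGroup (Fin n), lt (alternatingGroup (Fin n)) y f ∈ V0 n r := by
    intro y
    refine ⟨degE_lt n r y f hf.1, ?_⟩
    rw [← hf.2]
    exact Equiv.sum_comp (Equiv.mulLeft y⁻¹) (fun g => f g)
  exact Submodule.sub_mem _ (Submodule.sub_mem _ (Submodule.smul_mem _ _ hf) (hlt _)) (hlt _)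

theorem dpart {n m r : ℕ} {ε : ℝ} (x : Fin m → alternatingGroup (Fin n))
    (hx : RC.GapUpTo n m r ε (fun i => (x i : Equiv.Perm (Fin n))))
    (f : EuclideanSpace ℝ (alternatingGroup (Fin n))) (hf : f ∈ degE n r) (h0 : ∑ g, f g = 0) :
    2 * ε * ‖f‖ ^ 2 ≤ ∑ i, ‖lt (alternatingGroup (Fin n)) (x i) f - f‖ ^ 2 := by
  rw [← DD_inner]
  set T : V0 n r →ₗ[ℝ] V0 n r := (DD x).restrict (V0_inv (r := r) x) with hT
  have hTs : T.IsSymmetric := (DD_symm x).restrict_invariant (V0_inv x)
  have hn : Module.finrank ℝ (V0 n r) = Module.finrank ℝ (V0 n r) := rfl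
  have hev : ∀ i, 2 * ε ≤ hTs.eigenvalues hn i := by
    intro i
    set b : V0 n r := hTs.eigenvectorBasis hn i with hb
    set l := hTs.eigenvalues hn i with hl
    have h1 : T b = l • b := hTs.apply_eigenvectorBasis hn i
    have hne : b ≠ 0 := by
      intro h
      have h2 := (hTs.eigenvectorBasis hn).norm_eq_one i
      rw [← hb, h, norm_zero] at h2
      exact zero_ne_one h2
    have h2 : DD x b.1 = l • b.1 := by
      have h3 := congrArg Subtype.val h1
      exact h3
    set u : EuclideanSpace ℝ (alternatingGroup (Fin n)) := b.1 with hu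
    have hu0 : (fun g => u g) ≠ 0 := by
      intro h
      apply hne
      apply Subtype.ext
      ext g
      exact congrFun h g
    have h4 : ∀ g, ∑ i, (u ((x i)⁻¹ * g) + u (x i * g)) = (2 * m - l) * u g := by
      intro g
      have h5 := congrArg (fun v : EuclideanSpace ℝ (alternatingGroup (Fin n)) => v g) h2
      simp only [DD_apply] at h5
      have h6 : (∑ i, ((2 : ℝ) • u - lt (alternatingGroup (Fin n)) (x i) u -
          lt (alternatingGroup (Fin n)) (x i)⁻¹ u)) g =
          ∑ i, (2 * u g - u ((x i)⁻¹ * g) - u (x i * g)) := by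
        rw [WithLp.ofLp_sum, Finset.sum_apply]
        refine Finset.sum_congr rfl fun i _ => ?_
        rw [PiLp.sub_apply, PiLp.sub_apply, PiLp.smul_apply, lt_apply, lt_apply, inv_inv, smul_eq_mul]
      rw [h6, PiLp.smul_apply, smul_eq_mul, Finset.sum_sub_distrib, Finset.sum_sub_distrib,
        Finset.sum_const, Finset.card_univ, Fintype.card_fin, nsmul_eq_mul] at h5
      rw [Finset.sum_add_distrib]
      linarith
    have h5 := RC.FinalAux.real_bound (le_refl m) x hx (2 * m - l) (fun g => u g) b.2.1 b.2.2 hu0 h4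
    linarith
  set v : V0 n r := ⟨f, hf, h0⟩ with hv
  have h1 := RC.low_inner_pow T T hTs hTs hn _ (fun i => hTs.apply_eigenvectorBasis hn i) v
  have h2 := RC.low_norm_sq T hTs hn v
  have h3 : ⟪T v, v⟫_ℝ = ⟪DD x f, f⟫_ℝ := rfl
  have h4 : ‖v‖ ^ 2 = ‖f‖ ^ 2 := rfl
  rw [← h3, ← h4, h1, h2, Finset.mul_sum]
  exact Finset.sum_le_sum fun i _ => mul_le_mul_of_nonneg_right (hev i) (sq_nonneg _)

end Pool.Agent.RS
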