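import Pool.Agent.Helper36.RS.Transp

set_option autoImplicit false

/-!
# ETA-11: the average of the double transpositions

PROOF.  `N = |X|`, `S = ∑_{i,j ∈ X} π (swap i j)` (symmetric, preserves `F`).
(1) `⟪S v, v⟫ ≤ N a ‖v‖^2` on `F` by `transp_le`: a vector fixed by all transpositions of `A` is
fixed by the products of two of them; `a < A.card`.
(2) `⟪S v, v⟫ ≥ - N a ‖v‖^2` on `F`: apply `transp_le` to the representation
`π' σ = (sign σ) • π σ` (`MonoidHom` by `map_mul` and `Equiv.Perm.sign_mul`; isometric):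
`S' = ∑_{i,j ∈ X} π' (swap i j) = ∑_i 1 - ∑_{i ≠ j} π (swap i j) = 2 N - S`; a vector of `F` with
`π' (swap i j) v = v` for `i, j ∈ A` has `π (swap i j) v = - v` for `i ≠ j` in `A`, so it is fixed
by products of two transpositions.  So `2N - ⟪S v, v⟫/‖v‖^2 ≤ N a`, and `N ≥ 0`.
(3) `‖S v‖ ≤ N a ‖v‖` on `F`: `c = N a`; for `v, w ∈ F`,
`4 ⟪S v, w⟫ = ⟪S (v+w), v+w⟫ - ⟪S (v-w), v-w⟫ ≤ c (‖v+w‖^2 + ‖v-w‖^2) = 2 c (‖v‖^2 + ‖w‖^2)`; take
`w = (‖v‖/‖S v‖) • S v`.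
(4) `‖S v‖^2 = ⟪S S v, v⟫ = ∑_{c ∈ X^4} ⟪π (dbl c) v, v⟫` (all `c : Fin 4 → Fin n` with values in
`X`).  The non-injective `c` number `N^4 - N(N-1)(N-2)(N-3) ≤ 6 N^3` (for each of the six pairs of
indices at most `N^3` functions), each term is at least `- ‖v‖^2`.  So
`∑_{c injective} ⟪π (dbl c) v, v⟫ ≤ ‖S v‖^2 + 6 N^3 ‖v‖^2 ≤ (N^2 a^2 + 6 N^3) ‖v‖^2`.
-/

open Finset

namespace Pool.Agent.RS

open scoped InnerProductSpace

section Aux2

variable {E : Type*} [NormedAddCommGroup E] [InnerProductSpace ℝ E]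

/-- The representation twisted by the sign. -/
private noncomputable def twist {n : ℕ} (π : Equiv.Perm (Fin n) →* (E →ₗ[ℝ] E)) :
    Equiv.Perm (Fin n) →* (E →ₗ[ℝ] E) where
  toFun σ := (((Equiv.Perm.sign σ : ℤˣ) : ℤ) : ℝ) • π σ
  map_one' := by
    rw [Equiv.Perm.sign_one, map_one]
    simp
  map_mul' σ τ := by
    rw [Equiv.Perm.sign_mul, map_mul, smul_mul_smul_comm]
    push_cast
    rfl

private theorem twist_apply {n : ℕ} (π : Equiv.Perm (Fin n) →* (E →ₗ[ℝ] E))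
    (σ : Equiv.Perm (Fin n)) (v : E) :
    twist π σ v = (((Equiv.Perm.sign σ : ℤˣ) : ℤ) : ℝ) • π σ v := rfl

private theorem twist_norm {n : ℕ} (π : Equiv.Perm (Fin n) →* (E →ₗ[ℝ] E))
    (hπ : ∀ g v, ‖π g v‖ = ‖v‖) (g : Equiv.Perm (Fin n)) (v : E) : ‖twist π g v‖ = ‖v‖ := by
  rw [twist_apply, norm_smul, hπ]
  rcases Int.units_eq_one_or (Equiv.Perm.sign g) with h | h
  · rw [h]; simp
  · rw [h]; simp

private theorem twist_swap {n : ℕ} (π : Equiv.Perm (Fin n) →* (E →ₗ[ℝ] E)) {i j : Fin n}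
    (hij : i ≠ j) (v : E) : twist π (Equiv.swap i j) v = - π (Equiv.swap i j) v := by
  rw [twist_apply, Equiv.Perm.sign_swap hij]
  simp

private theorem twist_sum {n : ℕ} (π : Equiv.Perm (Fin n) →* (E →ₗ[ℝ] E)) (X : Finset (Fin n))
    (v : E) : transpSum (twist π) X v = (2 * (X.card : ℝ)) • v - transpSum π X v := by
  classical
  rw [transpSum_apply, transpSum_apply]
  have h1 : ∀ i ∈ X, ∑ j ∈ X, twist π (Equiv.swap i j) v
      = (2 : ℝ) • v - ∑ j ∈ X, π (Equiv.swap i j) v := by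
    intro i hi
    rw [← Finset.add_sum_erase X _ hi, ← Finset.add_sum_erase X _ hi, transp_self, transp_self,
      Finset.sum_congr rfl (fun j hj => twist_swap π (Finset.ne_of_mem_erase hj).symm v),
      Finset.sum_neg_distrib, two_smul]
    abel
  rw [Finset.sum_congr rfl h1, Finset.sum_sub_distrib, Finset.sum_const,
    ← Nat.cast_smul_eq_nsmul ℝ, smul_smul, mul_comm]

/-- A symmetric operator with small quadratic form on an invariant subspace is small there. -/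
private theorem norm_le_of_form (S : E →ₗ[ℝ] E) (hS : S.IsSymmetric) (F : Submodule ℝ E)
    (hF : ∀ v ∈ F, S v ∈ F) (c : ℝ) (h1 : ∀ v ∈ F, ⟪S v, v⟫_ℝ ≤ c * ‖v‖ ^ 2)
    (h2 : ∀ v ∈ F, - (c * ‖v‖ ^ 2) ≤ ⟪S v, v⟫_ℝ) (hc : 0 ≤ c) (v : E) (hv : v ∈ F) :
    ‖S v‖ ≤ c * ‖v‖ := by
  rcases eq_or_ne v 0 with rfl | hv0
  · simp
  rcases eq_or_ne (S v) 0 with hs0 | hs0
  · rw [hs0, norm_zero]
    positivity
  have hvp : 0 < ‖v‖ := norm_pos_iff.2 hv0
  have hsp : 0 < ‖S v‖ := norm_pos_iff.2 hs0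
  set x : E := ‖S v‖ • v with hx
  set w : E := ‖v‖ • S v with hw
  have hxF : x ∈ F := F.smul_mem _ hv
  have hwF : w ∈ F := F.smul_mem _ (hF v hv)
  have hsym : ⟪S w, x⟫_ℝ = ⟪S x, w⟫_ℝ := by
    rw [hS w x, real_inner_comm]
  have e1 : ⟪S (x + w), x + w⟫_ℝ - ⟪S (x - w), x - w⟫_ℝ = 4 * ⟪S x, w⟫_ℝ := by
    rw [map_add, map_sub, inner_add_left, inner_add_right, inner_add_right, inner_sub_left,
      inner_sub_right, inner_sub_right, hsym]
    ring
  have e2 := h1 (x + w) (F.add_mem hxF hwF)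
  have e3 := h2 (x - w) (F.sub_mem hxF hwF)
  have e4 : ‖x + w‖ ^ 2 + ‖x - w‖ ^ 2 = 2 * (‖x‖ ^ 2 + ‖w‖ ^ 2) := by
    have := parallelogram_law_with_norm ℝ x w
    nlinarith [this]
  have e5 : ‖x‖ = ‖S v‖ * ‖v‖ := by
    rw [hx, norm_smul, Real.norm_of_nonneg hsp.le]
  have e6 : ‖w‖ = ‖v‖ * ‖S v‖ := by
    rw [hw, norm_smul, Real.norm_of_nonneg hvp.le]
  have e7 : ⟪S x, w⟫_ℝ = ‖S v‖ * ‖v‖ * ‖S v‖ ^ 2 := by
    rw [hx, hw, map_smul, real_inner_smul_left, real_inner_smul_right, real_inner_self_eq_norm_sq]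
    ring
  have e8 : 4 * (‖S v‖ * ‖v‖ * ‖S v‖ ^ 2) ≤ c * (2 * ((‖S v‖ * ‖v‖) ^ 2 + (‖v‖ * ‖S v‖) ^ 2)) := by
    rw [← e7, ← e1, ← e5, ← e6, ← e4]
    linarith
  have e9 : (‖v‖ * ‖S v‖ ^ 2) * ‖S v‖ ≤ (‖v‖ * ‖S v‖ ^ 2) * (c * ‖v‖) := by nlinarith [e8]
  exact le_of_mul_le_mul_left e9 (by positivity)

private theorem card_pair {n : ℕ} (X : Finset (Fin n)) (a b : Fin 4) (hab : a ≠ b) :
    ((Fintype.piFinset (fun _ : Fin 4 => X)).filter (fun c => c a = c b)).card ≤ X.card ^ 3 := by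
  have h3 : (Fintype.piFinset (fun _ : Fin 3 => X)).card = X.card ^ 3 := by
    rw [Fintype.card_piFinset]
    simp
  rw [← h3]
  refine Finset.card_le_card_of_injOn (fun c l => c (b.succAbove l)) ?_ ?_
  · intro c hc
    rw [Finset.mem_coe, Finset.mem_filter, Fintype.mem_piFinset] at hc
    rw [Finset.mem_coe, Fintype.mem_piFinset]
    exact fun l => hc.1 _
  · intro c hc c' hc' hcc
    rw [Finset.mem_coe, Finset.mem_filter] at hc hc'
    have hk : ∀ l, l ≠ b → c l = c' l := by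
      intro l hl
      obtain ⟨l', rfl⟩ := Fin.exists_succAbove_eq hl
      exact congrFun hcc l'
    funext l
    rcases eq_or_ne l b with rfl | hl
    · rw [← hc.2, ← hc'.2]
      exact hk a hab
    · exact hk l hl

open Classical in
private theorem card_noninj {n : ℕ} (X : Finset (Fin n)) :
    ((Fintype.piFinset (fun _ : Fin 4 => X)).filter (fun c => ¬ Function.Injective c)).card
      ≤ 6 * X.card ^ 3 := by
  have hsub : (Fintype.piFinset (fun _ : Fin 4 => X)).filter (fun c => ¬ Function.Injective c) ⊆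
      (univ.filter (fun p : Fin 4 × Fin 4 => p.1 < p.2)).biUnion (fun p =>
        (Fintype.piFinset (fun _ : Fin 4 => X)).filter (fun c => c p.1 = c p.2)) := by
    intro c hc
    rw [Finset.mem_filter] at hc
    obtain ⟨hcX, hni⟩ := hc
    unfold Function.Injective at hni
    push Not at hni
    obtain ⟨a, b, hab, hne⟩ := hni
    rw [Finset.mem_biUnion]
    rcases lt_or_gt_of_ne hne with h | h
    · exact ⟨(a, b), Finset.mem_filter.2 ⟨Finset.mem_univ _, h⟩, Finset.mem_filter.2 ⟨hcX, hab⟩⟩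
    · exact ⟨(b, a), Finset.mem_filter.2 ⟨Finset.mem_univ _, h⟩,
        Finset.mem_filter.2 ⟨hcX, hab.symm⟩⟩
  refine (Finset.card_le_card hsub).trans ?_
  have hsix : (univ.filter (fun p : Fin 4 × Fin 4 => p.1 < p.2)).card = 6 := by decide
  refine (Finset.card_biUnion_le_card_mul _ _ (X.card ^ 3) ?_).trans_eq (by rw [hsix])
  intro p hp
  exact card_pair X p.1 p.2 (ne_of_lt (Finset.mem_filter.1 hp).2)

private theorem sum_four {n : ℕ} (X : Finset (Fin n)) (f : (Fin 4 → Fin n) → ℝ) :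
    ∑ i ∈ X, ∑ j ∈ X, ∑ k ∈ X, ∑ l ∈ X, f ![i, j, k, l]
      = ∑ c ∈ Fintype.piFinset (fun _ : Fin 4 => X), f c := by
  have h1 : ∑ i ∈ X, ∑ j ∈ X, ∑ k ∈ X, ∑ l ∈ X, f ![i, j, k, l]
      = ∑ p ∈ X ×ˢ X ×ˢ X ×ˢ X, f ![p.1, p.2.1, p.2.2.1, p.2.2.2] := by
    rw [Finset.sum_product]
    refine Finset.sum_congr rfl fun i _ => ?_
    rw [Finset.sum_product]
    refine Finset.sum_congr rfl fun j _ => ?_
    rw [Finset.sum_product]
  rw [h1]
  refine Finset.sum_nbij' (fun p => ![p.1, p.2.1, p.2.2.1, p.2.2.2])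
    (fun c => (c 0, c 1, c 2, c 3)) ?_ ?_ ?_ ?_ ?_
  · intro p hp
    rw [Finset.mem_product, Finset.mem_product, Finset.mem_product] at hp
    rw [Fintype.mem_piFinset]
    intro l
    fin_cases l
    · exact hp.1
    · exact hp.2.1
    · exact hp.2.2.1
    · exact hp.2.2.2
  · intro c hc
    rw [Fintype.mem_piFinset] at hc
    rw [Finset.mem_product, Finset.mem_product, Finset.mem_product]
    exact ⟨hc 0, hc 1, hc 2, hc 3⟩
  · intro p _
    rfl
  · intro c _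
    funext l
    fin_cases l <;> rfl
  · intro p _
    rfl

end Aux2

open Classical in
theorem dbl_le {E : Type*} [NormedAddCommGroup E] [InnerProductSpace ℝ E]
    [FiniteDimensional ℝ E] {n : ℕ} (π : Equiv.Perm (Fin n) →* (E →ₗ[ℝ] E))
    (hπ : ∀ g v, ‖π g v‖ = ‖v‖) (X : Finset (Fin n)) (a : ℕ) (ha : 1 ≤ a) (F : Submodule ℝ E)
    (hF : ∀ i ∈ X, ∀ j ∈ X, ∀ v ∈ F, π (Equiv.swap i j) v ∈ F)
    (hno : ∀ A ⊆ X, a < A.card → ∀ v ∈ F,
      (∀ i ∈ A, ∀ j ∈ A, ∀ i' ∈ A, ∀ j' ∈ A, i ≠ j → i' ≠ j' →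
        π (Equiv.swap i j * Equiv.swap i' j') v = v) → v = 0)
    (v : E) (hv : v ∈ F) :
    ∑ c ∈ univ.filter (fun c : Fin 4 → Fin n => Function.Injective c ∧ ∀ l, c l ∈ X),
      ⟪π (dbl c) v, v⟫_ℝ ≤ ((X.card : ℝ) ^ 2 * a ^ 2 + 6 * (X.card : ℝ) ^ 3) * ‖v‖ ^ 2 := by
  set N : ℝ := (X.card : ℝ) with hN
  have hN0 : 0 ≤ N := Nat.cast_nonneg _
  have ha0 : (0 : ℝ) ≤ a := Nat.cast_nonneg _
  have hSF : ∀ w ∈ F, transpSum π X w ∈ F := by
    intro w hw
    rw [transpSum_apply]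
    exact F.sum_mem (fun i hi => F.sum_mem (fun j hj => hF i hi j hj w hw))
  have hup : ∀ w ∈ F, ⟪transpSum π X w, w⟫_ℝ ≤ N * a * ‖w‖ ^ 2 := by
    intro w hw
    refine transp_aux π hπ X.card X rfl a ha F hF ?_ w hw
    intro A hA hAc u hu hinv
    refine hno A hA hAc u hu ?_
    intro i hi j hj i' hi' j' hj' _ _
    rw [← transp_mul, hinv i' hi' j' hj', hinv i hi j hj]
  have hlow : ∀ w ∈ F, - (N * a * ‖w‖ ^ 2) ≤ ⟪transpSum π X w, w⟫_ℝ := by
    intro w hw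
    have h := transp_aux (twist π) (twist_norm π hπ) X.card X rfl a ha F ?_ ?_ w hw
    · rw [twist_sum, inner_sub_left, real_inner_smul_left, real_inner_self_eq_norm_sq] at h
      have h0 : 0 ≤ 2 * N * ‖w‖ ^ 2 := by positivity
      rw [← hN] at h
      linarith
    · intro i hi j hj u hu
      rw [twist_apply]
      exact F.smul_mem _ (hF i hi j hj u hu)
    · intro A hA hAc u hu hinv
      refine hno A hA hAc u hu ?_
      have hm : ∀ i ∈ A, ∀ j ∈ A, i ≠ j → π (Equiv.swap i j) u = - u := by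
        intro i hi j hj hij
        have h1 := hinv i hi j hj
        rw [twist_swap π hij] at h1
        exact neg_eq_iff_eq_neg.1 h1
      intro i hi j hj i' hi' j' hj' h1 h2
      rw [← transp_mul, hm i' hi' j' hj' h2, map_neg, hm i hi j hj h1, neg_neg]
  have hnorm : ‖transpSum π X v‖ ≤ N * a * ‖v‖ :=
    norm_le_of_form (transpSum π X) (transpSum_symm π hπ X) F hSF (N * a) hup hlow
      (by positivity) v hv
  have hsq : ‖transpSum π X v‖ ^ 2 ≤ N ^ 2 * a ^ 2 * ‖v‖ ^ 2 := by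
    have := pow_le_pow_left₀ (norm_nonneg _) hnorm 2
    calc ‖transpSum π X v‖ ^ 2 ≤ (N * a * ‖v‖) ^ 2 := this
      _ = N ^ 2 * a ^ 2 * ‖v‖ ^ 2 := by ring
  have htot : ‖transpSum π X v‖ ^ 2
      = ∑ c ∈ Fintype.piFinset (fun _ : Fin 4 => X), ⟪π (dbl c) v, v⟫_ℝ := by
    rw [← sum_four X (fun c => ⟪π (dbl c) v, v⟫_ℝ), ← real_inner_self_eq_norm_sq,
      ← transpSum_symm π hπ X (transpSum π X v) v, transpSum_apply, sum_inner]
    refine Finset.sum_congr rfl fun i _ => ?_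
    rw [sum_inner]
    refine Finset.sum_congr rfl fun j _ => ?_
    rw [transpSum_apply, map_sum, sum_inner]
    refine Finset.sum_congr rfl fun k _ => ?_
    rw [map_sum, sum_inner]
    refine Finset.sum_congr rfl fun l _ => ?_
    rw [transp_mul]
    rfl
  have hset : univ.filter (fun c : Fin 4 → Fin n => Function.Injective c ∧ ∀ l, c l ∈ X)
      = (Fintype.piFinset (fun _ : Fin 4 => X)).filter (fun c => Function.Injective c) := by
    ext c
    rw [Finset.mem_filter, Finset.mem_filter, Fintype.mem_piFinset]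
    constructor
    · rintro ⟨-, h1, h2⟩
      exact ⟨h2, h1⟩
    · rintro ⟨h1, h2⟩
      exact ⟨Finset.mem_univ _, h2, h1⟩
  have hge : ∀ g : Equiv.Perm (Fin n), - ‖v‖ ^ 2 ≤ ⟪π g v, v⟫_ℝ := by
    intro g
    have h1 := abs_real_inner_le_norm (π g v) v
    rw [hπ] at h1
    have h2 := neg_abs_le ⟪π g v, v⟫_ℝ
    nlinarith [h1, h2]
  have hbad : - (6 * N ^ 3 * ‖v‖ ^ 2) ≤ ∑ c ∈ (Fintype.piFinset (fun _ : Fin 4 => X)).filter
      (fun c => ¬ Function.Injective c), ⟪π (dbl c) v, v⟫_ℝ := by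
    have h1 : ∑ c ∈ (Fintype.piFinset (fun _ : Fin 4 => X)).filter
        (fun c => ¬ Function.Injective c), (- ‖v‖ ^ 2) ≤
        ∑ c ∈ (Fintype.piFinset (fun _ : Fin 4 => X)).filter
        (fun c => ¬ Function.Injective c), ⟪π (dbl c) v, v⟫_ℝ :=
      Finset.sum_le_sum fun c _ => hge _
    rw [Finset.sum_const, nsmul_eq_mul] at h1
    have h2 : (((Fintype.piFinset (fun _ : Fin 4 => X)).filter
        (fun c => ¬ Function.Injective c)).card : ℝ) ≤ 6 * N ^ 3 := by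
      have := card_noninj X
      rw [hN]
      exact_mod_cast this
    have h3 : 0 ≤ ‖v‖ ^ 2 := sq_nonneg _
    nlinarith [mul_le_mul_of_nonneg_right h2 h3]
  rw [hset]
  have hsplit := Finset.sum_filter_add_sum_filter_not (Fintype.piFinset (fun _ : Fin 4 => X))
    (fun c => Function.Injective c) (fun c => ⟪π (dbl c) v, v⟫_ℝ)
  rw [← htot] at hsplit
  have hfin : (N ^ 2 * a ^ 2 + 6 * N ^ 3) * ‖v‖ ^ 2
      = N ^ 2 * a ^ 2 * ‖v‖ ^ 2 + 6 * N ^ 3 * ‖v‖ ^ 2 := by ring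
  rw [hfin]
  linarith

end Pool.Agent.RS
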