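import Pool.Agent.Helper46.RC.Low
import Pool.Agent.Helper46.RC.Equiv
import Pool.Agent.Helper46.RC.Pow

set_option autoImplicit false

/-!
# Project ETA: definitions

Random Cayley graphs of alternating groups with `η (log n) ^ 2` generators.
Everything is over the real numbers, in a finite dimensional real inner product space `E`.
`RC.low A θ` is the span of the eigenspaces of `A` with eigenvalue below `θ`.
-/

open Finset

namespace Pool.Agent.RS

open scoped InnerProductSpace

section Abstract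

variable {E : Type*} [NormedAddCommGroup E] [InnerProductSpace ℝ E] [FiniteDimensional ℝ E]

/-- The trace of the operator `X` on the subspace `B` (the trace of `X` composed with the
orthogonal projection onto `B`). -/
noncomputable def trP (B : Submodule ℝ E) (X : E →ₗ[ℝ] E) : ℝ :=
  LinearMap.trace ℝ E (X ∘ₗ B.starProjection.toLinearMap)

/-- The average of the conjugates of `A` by the elements `y 0, ..., y (K - 1)`. -/
noncomputable def avgConj {G : Type*} [Group G] (L : G →* (E →ₗ[ℝ] E)) {K : ℕ} (y : Fin K → G)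
    (A : E →ₗ[ℝ] E) : E →ₗ[ℝ] E :=
  (K : ℝ)⁻¹ • ∑ j, L (y j) * A * L (y j)⁻¹

/-- `l` averaging steps, starting from the operator `A`; the first step uses `y 0`. -/
noncomputable def iter {G : Type*} [Group G] (L : G →* (E →ₗ[ℝ] E)) {K : ℕ} :
    (l : ℕ) → (Fin l → Fin K → G) → (E →ₗ[ℝ] E) → (E →ₗ[ℝ] E)
  | 0, _, A => A
  | l + 1, y, A => iter L l (fun i => y i.succ) (avgConj L (y 0) A)

/-- Admissible operators: symmetric, between `0` and `1`, commuting with the right action, and
preserving the subspaces `B i`. -/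
structure Adm {G : Type*} [Group G] (R : G →* (E →ₗ[ℝ] E)) {ι : Type*} (B : ι → Submodule ℝ E)
    (A : E →ₗ[ℝ] E) : Prop where
  symm : A.IsSymmetric
  nonneg : ∀ v, 0 ≤ ⟪A v, v⟫_ℝ
  le : ∀ v, ⟪A v, v⟫_ℝ ≤ ‖v‖ ^ 2
  comm : ∀ g v, A (R g v) = R g (A v)
  pres : ∀ i, ∀ v ∈ B i, A v ∈ B i

/-- `B` is a minimal nonzero subspace invariant under both actions. -/
structure MinInv {G : Type*} [Group G] (L R : G →* (E →ₗ[ℝ] E)) (B : Submodule ℝ E) : Prop where
  ne_bot : B ≠ ⊥
  left : ∀ g, ∀ v ∈ B, L g v ∈ B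
  right : ∀ g, ∀ v ∈ B, R g v ∈ B
  min : ∀ F ≤ B, (∀ g, ∀ v ∈ F, L g v ∈ F) → (∀ g, ∀ v ∈ F, R g v ∈ F) → F = ⊥ ∨ F = B

/-- The operator `(1 / 4m) ∑ (2 - x_i - x_i⁻¹)` of the elements `x`. -/
noncomputable def lapl {G : Type*} [Group G] (L : G →* (E →ₗ[ℝ] E)) {m : ℕ} (x : Fin m → G) :
    E →ₗ[ℝ] E :=
  (4 * (m : ℝ))⁻¹ • ∑ i, ((2 : ℝ) • 1 - L (x i) - L (x i)⁻¹)

/-- The pairing-type element of the block `c : Fin 4 → Fin n`: the double transposition
`(c 0 c 1) (c 2 c 3)`. -/
def dbl {n : ℕ} (c : Fin 4 → Fin n) : Equiv.Perm (Fin n) :=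
  Equiv.swap (c 0) (c 1) * Equiv.swap (c 2) (c 3)

/-- The vectors of `F` fixed by the double transpositions of the `t` blocks `e i`. -/
def fixD {n : ℕ} (π : Equiv.Perm (Fin n) →* (E →ₗ[ℝ] E)) (F : Submodule ℝ E) {t : ℕ}
    (e : Fin t → Fin 4 → Fin n) : Submodule ℝ E where
  carrier := {v | v ∈ F ∧ ∀ i, π (dbl (e i)) v = v}
  add_mem' := fun ha hb => ⟨F.add_mem ha.1 hb.1, fun i => by rw [map_add, ha.2, hb.2]⟩
  zero_mem' := ⟨F.zero_mem, fun i => map_zero _⟩
  smul_mem' := fun c _ ha => ⟨F.smul_mem c ha.1, fun i => by rw [map_smul, ha.2]⟩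

/-- `F` contains no nonzero vector fixed by all products of two transpositions of letters of a
set `A` of at least `k` letters (no vector invariant under `Alt(A)`). -/
def NoInv {n : ℕ} (π : Equiv.Perm (Fin n) →* (E →ₗ[ℝ] E)) (F : Submodule ℝ E) (k : ℕ) : Prop :=
  ∀ A : Finset (Fin n), k ≤ A.card → ∀ v ∈ F,
    (∀ i ∈ A, ∀ j ∈ A, ∀ i' ∈ A, ∀ j' ∈ A, i ≠ j → i' ≠ j' →
      π (Equiv.swap i j * Equiv.swap i' j') v = v) → v = 0

end Abstract

section Regular

variable (G : Type*) [Group G] [Fintype G]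

/-- Left translation on `L²(G)`. -/
noncomputable def lt : G →* (EuclideanSpace ℝ G →ₗ[ℝ] EuclideanSpace ℝ G) where
  toFun x :=
    { toFun := fun f => WithLp.toLp 2 (fun g => f (x⁻¹ * g))
      map_add' := fun f f' => by ext g; simp
      map_smul' := fun c f => by ext g; simp }
  map_one' := by ext f g; simp
  map_mul' x y := by ext f g; simp [mul_assoc]

/-- Right translation on `L²(G)`. -/
noncomputable def rt : G →* (EuclideanSpace ℝ G →ₗ[ℝ] EuclideanSpace ℝ G) where
  toFun x :=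
    { toFun := fun f => WithLp.toLp 2 (fun g => f (g * x))
      map_add' := fun f f' => by ext g; simp
      map_smul' := fun c f => by ext g; simp }
  map_one' := by ext f g; simp
  map_mul' x y := by ext f g; simp [mul_assoc]

theorem lt_apply (x g : G) (f : EuclideanSpace ℝ G) : lt G x f g = f (x⁻¹ * g) := rfl

theorem rt_apply (x g : G) (f : EuclideanSpace ℝ G) : rt G x f g = f (g * x) := rfl

theorem lt_rt (x y : G) (f : EuclideanSpace ℝ G) : lt G x (rt G y f) = rt G y (lt G x f) := by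
  ext g
  simp [lt_apply, rt_apply, mul_assoc]

end Regular

end Pool.Agent.RS
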