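import Pool.Agent.Helper36.RS.Defs

set_option autoImplicit false

/-!
# ETA-01: energy transfer

PROOF.  One step.  Let `0 ≤ A ≤ 1` be symmetric, `A' = avgConj L y A`.  For `v` put
`d_j = L (y j)⁻¹ v - v`, so `‖d_j‖ = ‖L (y j) v - v‖` (apply the isometry `L (y j)`).  `L g⁻¹` is the
adjoint of `L g` (isometry, `RC.Equiv.inner_pres`, `L g (L g⁻¹ v) = v`), hence
`⟪A' v, v⟫ = K⁻¹ ∑ j, ⟪A (v + d_j), v + d_j⟫`.  Since `A` is symmetric and nonnegative,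
`2 ⟪A v, d⟫ ≤ (1/s) ⟪A v, v⟫ + s ⟪A d, d⟫` (expand `0 ≤ ⟪A (v - s d), v - s d⟫ / s`), so
`⟪A (v+d), v+d⟫ ≤ (1 + 1/s) ⟪A v, v⟫ + (1 + s) ⟪A d, d⟫ ≤ (1 + 1/s) ⟪A v, v⟫ + (1+s) ‖d‖ ^ 2`.
Also `A'` is symmetric with `0 ≤ A' ≤ 1` (average of conjugates by isometries).
Induction on `l` (`iter` applies `y 0` first; `Fin.sum_univ_succ` for the sum over `i`):
`⟪iter l tail A' v, v⟫ ≤ (1+1/s)^l (⟪A' v, v⟫ + (1+s)/K ∑_{tail})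
 ≤ (1+1/s)^l ((1+1/s) ⟪A v, v⟫ + (1+s)/K ∑_j ‖L (y 0 j) v - v‖^2 + (1+s)/K ∑_{tail})`
and `1 ≤ 1 + 1/s`, all sums are nonnegative.
-/

open Finset

namespace Pool.Agent.RS

open scoped InnerProductSpace

private theorem L_inv {E : Type*} [NormedAddCommGroup E] [InnerProductSpace ℝ E]
    {G : Type*} [Group G] (L : G →* (E →ₗ[ℝ] E)) (g : G) (v : E) : L g (L g⁻¹ v) = v := by
  rw [← Module.End.mul_apply, ← map_mul, mul_inv_cancel, map_one]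
  rfl

private theorem adj {E : Type*} [NormedAddCommGroup E] [InnerProductSpace ℝ E]
    [FiniteDimensional ℝ E] {G : Type*} [Group G] (L : G →* (E →ₗ[ℝ] E))
    (hL : ∀ g v, ‖L g v‖ = ‖v‖) (g : G) (v w : E) : ⟪L g v, w⟫_ℝ = ⟪v, L g⁻¹ w⟫_ℝ := by
  have h := RC.Equiv.inner_pres (L g) (hL g) v (L g⁻¹ w)
  rwa [L_inv] at h

/-- the quadratic inequality -/
private theorem quad {E : Type*} [NormedAddCommGroup E] [InnerProductSpace ℝ E]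
    (A : E →ₗ[ℝ] E) (hA : A.IsSymmetric) (hA0 : ∀ v, 0 ≤ ⟪A v, v⟫_ℝ)
    (hA1 : ∀ v, ⟪A v, v⟫_ℝ ≤ ‖v‖ ^ 2) {s : ℝ} (hs : 0 < s) (v d : E) :
    ⟪A (v + d), v + d⟫_ℝ ≤ (1 + 1 / s) * ⟪A v, v⟫_ℝ + (1 + s) * ‖d‖ ^ 2 := by
  have hsym : ⟪A d, v⟫_ℝ = ⟪A v, d⟫_ℝ := by
    rw [hA d v, real_inner_comm]
  have h1 : ⟪A (v - s • d), v - s • d⟫_ℝ =
      ⟪A v, v⟫_ℝ - 2 * s * ⟪A v, d⟫_ℝ + s ^ 2 * ⟪A d, d⟫_ℝ := by
    rw [map_sub, map_smul, inner_sub_left, inner_sub_right, inner_sub_right, real_inner_smul_left,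
      real_inner_smul_left, real_inner_smul_right, real_inner_smul_right, hsym]
    ring
  have h2 : ⟪A (v + d), v + d⟫_ℝ = ⟪A v, v⟫_ℝ + 2 * ⟪A v, d⟫_ℝ + ⟪A d, d⟫_ℝ := by
    rw [map_add, inner_add_left, inner_add_right, inner_add_right, hsym]
    ring
  have h3 := hA0 (v - s • d)
  rw [h1] at h3
  have h4 : 2 * ⟪A v, d⟫_ℝ ≤ 1 / s * ⟪A v, v⟫_ℝ + s * ⟪A d, d⟫_ℝ := by
    have h5 : s * (2 * ⟪A v, d⟫_ℝ) ≤ s * (1 / s * ⟪A v, v⟫_ℝ + s * ⟪A d, d⟫_ℝ) := by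
      have h6 : s * (1 / s * ⟪A v, v⟫_ℝ + s * ⟪A d, d⟫_ℝ) =
          ⟪A v, v⟫_ℝ + s ^ 2 * ⟪A d, d⟫_ℝ := by
        field_simp
      rw [h6]
      linarith
    exact le_of_mul_le_mul_left h5 hs
  rw [h2]
  have h7 := mul_le_mul_of_nonneg_left (hA1 d) (show 0 ≤ 1 + s by linarith)
  linarith

/-- the quadratic form of the average -/
private theorem form_avg {E : Type*} [NormedAddCommGroup E] [InnerProductSpace ℝ E]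
    [FiniteDimensional ℝ E] {G : Type*} [Group G] (L : G →* (E →ₗ[ℝ] E))
    (hL : ∀ g v, ‖L g v‖ = ‖v‖) {K : ℕ} (y : Fin K → G) (A : E →ₗ[ℝ] E) (v w : E) :
    ⟪avgConj L y A v, w⟫_ℝ = (K : ℝ)⁻¹ * ∑ j, ⟪A (L (y j)⁻¹ v), L (y j)⁻¹ w⟫_ℝ := by
  have h : avgConj L y A v = (K : ℝ)⁻¹ • ∑ j, L (y j) (A (L (y j)⁻¹ v)) := by
    rw [avgConj, LinearMap.smul_apply, LinearMap.sum_apply]
    rfl
  rw [h, real_inner_smul_left, sum_inner]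
  congr 1
  exact sum_congr rfl fun j _ => adj L hL _ _ _

private theorem avg_symm {E : Type*} [NormedAddCommGroup E] [InnerProductSpace ℝ E]
    [FiniteDimensional ℝ E] {G : Type*} [Group G] (L : G →* (E →ₗ[ℝ] E))
    (hL : ∀ g v, ‖L g v‖ = ‖v‖) {K : ℕ} (y : Fin K → G) (A : E →ₗ[ℝ] E) (hA : A.IsSymmetric) :
    (avgConj L y A).IsSymmetric := by
  intro v w
  rw [form_avg L hL, real_inner_comm, form_avg L hL]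
  congr 1
  refine sum_congr rfl fun j _ => ?_
  rw [hA, real_inner_comm]

private theorem avg_nonneg {E : Type*} [NormedAddCommGroup E] [InnerProductSpace ℝ E]
    [FiniteDimensional ℝ E] {G : Type*} [Group G] (L : G →* (E →ₗ[ℝ] E))
    (hL : ∀ g v, ‖L g v‖ = ‖v‖) {K : ℕ} (y : Fin K → G) (A : E →ₗ[ℝ] E)
    (hA0 : ∀ v, 0 ≤ ⟪A v, v⟫_ℝ) (v : E) : 0 ≤ ⟪avgConj L y A v, v⟫_ℝ := by
  rw [form_avg L hL]
  exact mul_nonneg (by positivity) (sum_nonneg fun j _ => hA0 _)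

private theorem avg_le {E : Type*} [NormedAddCommGroup E] [InnerProductSpace ℝ E]
    [FiniteDimensional ℝ E] {G : Type*} [Group G] (L : G →* (E →ₗ[ℝ] E))
    (hL : ∀ g v, ‖L g v‖ = ‖v‖) {K : ℕ} (hK : 0 < K) (y : Fin K → G) (A : E →ₗ[ℝ] E)
    (hA1 : ∀ v, ⟪A v, v⟫_ℝ ≤ ‖v‖ ^ 2) (v : E) : ⟪avgConj L y A v, v⟫_ℝ ≤ ‖v‖ ^ 2 := by
  have hK' : (0 : ℝ) < K := by exact_mod_cast hK
  rw [form_avg L hL]
  have h : ∑ j, ⟪A (L (y j)⁻¹ v), L (y j)⁻¹ v⟫_ℝ ≤ ∑ _j : Fin K, ‖v‖ ^ 2 :=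
    sum_le_sum fun j _ => (hA1 _).trans (le_of_eq (by rw [hL]))
  rw [sum_const, card_univ, Fintype.card_fin, nsmul_eq_mul] at h
  calc (K : ℝ)⁻¹ * ∑ j, ⟪A (L (y j)⁻¹ v), L (y j)⁻¹ v⟫_ℝ ≤ (K : ℝ)⁻¹ * (K * ‖v‖ ^ 2) := by gcongr
    _ = ‖v‖ ^ 2 := by field_simp

private theorem avg_energy {E : Type*} [NormedAddCommGroup E] [InnerProductSpace ℝ E]
    [FiniteDimensional ℝ E] {G : Type*} [Group G] (L : G →* (E →ₗ[ℝ] E))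
    (hL : ∀ g v, ‖L g v‖ = ‖v‖) {K : ℕ} (hK : 0 < K) (y : Fin K → G) (A : E →ₗ[ℝ] E)
    (hA : A.IsSymmetric) (hA0 : ∀ v, 0 ≤ ⟪A v, v⟫_ℝ)
    (hA1 : ∀ v, ⟪A v, v⟫_ℝ ≤ ‖v‖ ^ 2) {s : ℝ} (hs : 0 < s) (v : E) :
    ⟪avgConj L y A v, v⟫_ℝ ≤ (1 + 1 / s) * ⟪A v, v⟫_ℝ +
      (1 + s) / K * ∑ j, ‖L (y j) v - v‖ ^ 2 := by
  have hK' : (0 : ℝ) < K := by exact_mod_cast hK
  rw [form_avg L hL]
  have h1 : ∀ j, ‖L (y j)⁻¹ v - v‖ = ‖L (y j) v - v‖ := by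
    intro j
    rw [← hL (y j) (L (y j)⁻¹ v - v), map_sub, L_inv, norm_sub_rev]
  have h2 : ∀ j, ⟪A (L (y j)⁻¹ v), L (y j)⁻¹ v⟫_ℝ ≤
      (1 + 1 / s) * ⟪A v, v⟫_ℝ + (1 + s) * ‖L (y j) v - v‖ ^ 2 := by
    intro j
    have h3 := quad A hA hA0 hA1 hs v (L (y j)⁻¹ v - v)
    rw [add_sub_cancel, h1] at h3
    exact h3
  calc (K : ℝ)⁻¹ * ∑ j, ⟪A (L (y j)⁻¹ v), L (y j)⁻¹ v⟫_ℝ
      ≤ (K : ℝ)⁻¹ * ∑ j : Fin K, ((1 + 1 / s) * ⟪A v, v⟫_ℝ + (1 + s) * ‖L (y j) v - v‖ ^ 2) := by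
        gcongr with j _
        exact h2 j
    _ = _ := by
        rw [sum_add_distrib, sum_const, card_univ, Fintype.card_fin, nsmul_eq_mul, ← mul_sum]
        field_simp

theorem energy {E : Type*} [NormedAddCommGroup E] [InnerProductSpace ℝ E] [FiniteDimensional ℝ E]
    {G : Type*} [Group G] (L : G →* (E →ₗ[ℝ] E)) (hL : ∀ g v, ‖L g v‖ = ‖v‖)
    {K s : ℕ} (hK : 0 < K) (hs : 0 < s) (l : ℕ) (y : Fin l → Fin K → G) (A : E →ₗ[ℝ] E)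
    (hA : A.IsSymmetric) (hA0 : ∀ v, 0 ≤ ⟪A v, v⟫_ℝ) (hA1 : ∀ v, ⟪A v, v⟫_ℝ ≤ ‖v‖ ^ 2) (v : E) :
    ⟪iter L l y A v, v⟫_ℝ ≤ (1 + 1 / (s : ℝ)) ^ l *
      (⟪A v, v⟫_ℝ + (1 + (s : ℝ)) / K * ∑ i, ∑ j, ‖L (y i j) v - v‖ ^ 2) := by
  have hs' : (0 : ℝ) < s := by exact_mod_cast hs
  induction l generalizing A with
  | zero =>
    rw [iter, pow_zero, one_mul, Finset.univ_eq_empty, sum_empty, mul_zero, add_zero]
  | succ l ih =>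
    rw [iter]
    refine (ih (fun i => y i.succ) _ (avg_symm L hL (y 0) A hA) (avg_nonneg L hL (y 0) A hA0)
      (avg_le L hL hK (y 0) A hA1)).trans ?_
    have h1 := avg_energy L hL hK (y 0) A hA hA0 hA1 hs' v
    rw [Fin.sum_univ_succ, pow_succ, mul_assoc]
    refine mul_le_mul_of_nonneg_left ?_ (by positivity)
    have hS : 0 ≤ (1 + (s : ℝ)) / K * ∑ i : Fin l, ∑ j, ‖L (y i.succ j) v - v‖ ^ 2 := by
      positivity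
    have hS0 : 0 ≤ (1 + (s : ℝ)) / K * ∑ j, ‖L (y 0 j) v - v‖ ^ 2 := by
      positivity
    have hq : 0 ≤ 1 / (s : ℝ) := by positivity
    rw [mul_add ((1 + (s : ℝ)) / K)]
    nlinarith [mul_nonneg hq hS, mul_nonneg hq hS0]

end Pool.Agent.RS
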