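import Pool.Agent.Helper36.RS.Defs

set_option autoImplicit false

/-!
# ETA-15: elementary facts about the operator `lapl L x = (1/4m) ∑ (2 - x_i - x_i⁻¹)`

PROOF.  `L g⁻¹` is the adjoint of `L g` (isometries, `L g (L g⁻¹ v) = v`; `RC.Equiv.inner_pres`), so
the operator is symmetric, and `⟪(2 - L g - L g⁻¹) v, v⟫ = 2 ‖v‖^2 - 2 ⟪L g v, v⟫ = ‖L g v - v‖^2`, which
is at most `4 ‖v‖^2`.  Summation gives `lapl_inner` and `0 ≤ ⟪A v, v⟫ ≤ ‖v‖^2` (for `m = 0` the
operator is `0`).  The remaining fields of `Adm` are immediate from the commutation of `L` and `R`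
and the invariance of the `B i`.
-/

open Finset

namespace Pool.Agent.RS

open scoped InnerProductSpace

variable {E : Type*} [NormedAddCommGroup E] [InnerProductSpace ℝ E] [FiniteDimensional ℝ E]
  {G : Type*} [Group G]

private theorem adj_inv (L : G →* (E →ₗ[ℝ] E)) (hL : ∀ g v, ‖L g v‖ = ‖v‖) (g : G) (v w : E) :
    ⟪L g⁻¹ v, w⟫_ℝ = ⟪v, L g w⟫_ℝ := by
  have h1 : L g (L g⁻¹ v) = v := by
    rw [← Module.End.mul_apply, ← map_mul, mul_inv_cancel, map_one, Module.End.one_apply]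
  have h2 := RC.Equiv.inner_pres (L g) (hL g) (L g⁻¹ v) w
  rw [h1] at h2
  exact h2.symm

theorem two_sub_inner (L : G →* (E →ₗ[ℝ] E)) (hL : ∀ g v, ‖L g v‖ = ‖v‖) (g : G) (v : E) :
    2 * ‖v‖ ^ 2 - ⟪L g v, v⟫_ℝ - ⟪L g⁻¹ v, v⟫_ℝ = ‖L g v - v‖ ^ 2 := by
  rw [adj_inv L hL, real_inner_comm (L g v) v, @norm_sub_sq_real, hL]
  ring

private theorem lapl_apply (L : G →* (E →ₗ[ℝ] E)) {m : ℕ} (x : Fin m → G) (v : E) :
    lapl L x v = (4 * (m : ℝ))⁻¹ • ∑ i, ((2 : ℝ) • v - L (x i) v - L (x i)⁻¹ v) := by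
  unfold lapl
  rw [LinearMap.smul_apply, LinearMap.sum_apply]
  rfl

theorem lapl_inner (L : G →* (E →ₗ[ℝ] E)) (hL : ∀ g v, ‖L g v‖ = ‖v‖) {m : ℕ} (x : Fin m → G)
    (v : E) : ⟪lapl L x v, v⟫_ℝ = (4 * (m : ℝ))⁻¹ * ∑ i, ‖L (x i) v - v‖ ^ 2 := by
  rw [lapl_apply, real_inner_smul_left, sum_inner]
  congr 1
  refine Finset.sum_congr rfl fun i _ => ?_
  rw [inner_sub_left, inner_sub_left, real_inner_smul_left, real_inner_self_eq_norm_sq]
  exact two_sub_inner L hL (x i) v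

theorem lapl_symm (L : G →* (E →ₗ[ℝ] E)) (hL : ∀ g v, ‖L g v‖ = ‖v‖) {m : ℕ} (x : Fin m → G) :
    (lapl L x).IsSymmetric := by
  intro v w
  rw [lapl_apply, lapl_apply, real_inner_smul_left, real_inner_smul_right, sum_inner, inner_sum]
  congr 1
  refine Finset.sum_congr rfl fun i _ => ?_
  rw [inner_sub_left, inner_sub_left, inner_sub_right, inner_sub_right, real_inner_smul_left,
    real_inner_smul_right]
  have h1 := adj_inv L hL (x i) v w
  have h2 := adj_inv L hL (x i) w v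
  rw [real_inner_comm] at h2
  rw [h1, h2, real_inner_comm w (L (x i) v)]
  ring

theorem lapl_adm (L R : G →* (E →ₗ[ℝ] E)) (hL : ∀ g v, ‖L g v‖ = ‖v‖)
    (hLR : ∀ g h v, L g (R h v) = R h (L g v)) {ι : Type*} (B : ι → Submodule ℝ E)
    (hB : ∀ i, ∀ g, ∀ v ∈ B i, L g v ∈ B i) {m : ℕ} (x : Fin m → G) :
    Adm R B (lapl L x) where
  symm := lapl_symm L hL x
  nonneg v := by
    rw [lapl_inner L hL]
    exact mul_nonneg (by positivity) (Finset.sum_nonneg fun i _ => sq_nonneg _)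
  le v := by
    rw [lapl_inner L hL]
    have h1 : ∑ i, ‖L (x i) v - v‖ ^ 2 ≤ 4 * (m : ℝ) * ‖v‖ ^ 2 := by
      have h2 : ∀ i ∈ (Finset.univ : Finset (Fin m)), ‖L (x i) v - v‖ ^ 2 ≤ 4 * ‖v‖ ^ 2 := by
        intro i _
        have h3 : ‖L (x i) v - v‖ ≤ 2 * ‖v‖ := by
          refine (norm_sub_le _ _).trans (le_of_eq ?_)
          rw [hL]
          ring
        have h4 := pow_le_pow_left₀ (norm_nonneg _) h3 2
        refine h4.trans (le_of_eq ?_)
        ring
      refine (Finset.sum_le_card_nsmul _ _ _ h2).trans (le_of_eq ?_)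
      rw [Finset.card_univ, Fintype.card_fin, nsmul_eq_mul]
      ring
    rcases Nat.eq_zero_or_pos m with hm | hm
    · subst hm
      simp
    · have hm' : (0 : ℝ) < 4 * m := by positivity
      rw [inv_mul_le_iff₀ hm']
      exact h1
  comm g v := by
    rw [lapl_apply, lapl_apply, map_smul, map_sum]
    congr 1
    refine Finset.sum_congr rfl fun i _ => ?_
    rw [map_sub, map_sub, map_smul, hLR, hLR]
  pres i v hv := by
    rw [lapl_apply]
    refine (B i).smul_mem _ ((B i).sum_mem fun j _ => ?_)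
    exact (B i).sub_mem ((B i).sub_mem ((B i).smul_mem _ hv) (hB i _ v hv)) (hB i _ v hv)

end Pool.Agent.RS
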