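import Pool.Agent.Helper36.RS.Chain
import Pool.Agent.Helper36.RS.Energy
import Pool.Agent.Helper36.RS.Lapl
import Pool.Agent.Helper36.RS.DPart

set_option autoImplicit false

/-!
# ETA: the total energy of the generators (deterministic part of T2)
-/

open Finset

namespace Pool.Agent.RS

open scoped InnerProductSpace

section Abs

variable {E : Type*} [NormedAddCommGroup E] [InnerProductSpace ℝ E] [FiniteDimensional ℝ E]
  {G : Type*} [Group G]

theorem iter_adm (L R : G →* (E →ₗ[ℝ] E))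
    (hL : ∀ g v, ‖L g v‖ = ‖v‖) (hLR : ∀ g h v, L g (R h v) = R h (L g v)) {ι : Type*}
    {B : ι → Submodule ℝ E} (hB : ∀ i, ∀ g, ∀ v ∈ B i, L g v ∈ B i) {K : ℕ} (hK : 0 < K)
    (l : ℕ) : ∀ (y : Fin l → Fin K → G) {A : E →ₗ[ℝ] E}, Adm R B A → Adm R B (iter L l y A) := by
  induction l with
  | zero => intro y A hA; exact hA
  | succ l ih => intro y A hA; exact ih _ (Adm.avg L R hL hLR hB hA hK (y 0))

theorem energy_sup (L R : G →* (E →ₗ[ℝ] E))
    (hL : ∀ g v, ‖L g v‖ = ‖v‖) (hLR : ∀ g h v, L g (R h v) = R h (L g v)) {q : ℕ}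
    (B : Fin q → Submodule ℝ E) (hB : ∀ i, ∀ g, ∀ v ∈ B i, L g v ∈ B i) {m s : ℕ} (hs : 1 ≤ s)
    (x : Fin m → G) (y : Fin s → Fin (3 * s) → G) {θ : ℝ} (hθ : 0 < θ)
    (hlow : ∀ i, RC.low (iter L s y (lapl L x)) (θ * (1 - 2 / ((3 * s : ℕ) : ℝ)) ^ s) ⊓ B i = ⊥)
    (v : E) (hv : v ∈ ⨆ i, B i) :
    θ / 9 * ‖v‖ ^ 2 ≤ ∑ i, ‖L (x i) v - v‖ ^ 2 + ∑ i, ∑ j, ‖L (y i j) v - v‖ ^ 2 := by
  have hs0 : (0 : ℝ) < s := by exact_mod_cast hs
  have hs1 : (1 : ℝ) ≤ s := by exact_mod_cast hs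
  set A := lapl L x with hAdef
  have hA : Adm R B A := lapl_adm L R hL hLR B hB x
  set C := iter L s y A with hC
  have hCa : Adm R B C := iter_adm L R hL hLR hB (by omega) s y hA
  set θs := θ * (1 - 2 / ((3 * s : ℕ) : ℝ)) ^ s with hθs
  have hcast : ((3 * s : ℕ) : ℝ) = 3 * s := by push_cast; ring
  have hθs3 : θ / 3 ≤ θs := by
    have h1 : 1 + (s : ℝ) * (-(2 / (3 * s))) ≤ (1 + -(2 / (3 * (s : ℝ)))) ^ s := by
      apply one_add_mul_le_pow
      have : 2 / (3 * (s : ℝ)) ≤ 2 := by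
        rw [div_le_iff₀ (by positivity)]
        nlinarith
      linarith
    have h2 : 1 + (s : ℝ) * (-(2 / (3 * s))) = 1 / 3 := by
      field_simp
      ring
    rw [h2] at h1
    rw [hθs, hcast, sub_eq_add_neg]
    calc θ / 3 = θ * (1 / 3) := by ring
      _ ≤ _ := mul_le_mul_of_nonneg_left h1 hθ.le
  have hθs0 : 0 < θs := by linarith
  -- the low projection kills v
  have hP : (RC.low C θs).starProjection v = 0 := by
    have hle : (⨆ i, B i) ≤ LinearMap.ker (RC.low C θs).starProjection.toLinearMap := by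
      refine iSup_le fun i w hw => ?_
      rw [LinearMap.mem_ker]
      have h1 : (RC.low C θs).starProjection w ∈ B i :=
        RC.Equiv.proj_mem hCa.symm (hCa.pres i) θs hw
      have h2 : (RC.low C θs).starProjection w ∈ RC.low C θs ⊓ B i :=
        ⟨Submodule.starProjection_apply_mem _ _, h1⟩
      rw [hlow i] at h2
      exact (Submodule.mem_bot ℝ).1 h2
    exact LinearMap.mem_ker.1 (hle hv)
  have h1 := RC.low_proj C hCa.symm hCa.nonneg θs hθs0 v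
  rw [hP, sub_zero] at h1
  have h2 := energy L hL (K := 3 * s) (s := s) (by omega) (by omega) s y A hA.symm hA.nonneg
    hA.le v
  rw [← hC, hcast] at h2
  have hpow : (1 + 1 / (s : ℝ)) ^ s ≤ 3 := by
    have h3 : 1 + 1 / (s : ℝ) ≤ Real.exp (1 / s) := by
      have := Real.add_one_le_exp (1 / (s : ℝ))
      linarith
    calc (1 + 1 / (s : ℝ)) ^ s ≤ Real.exp (1 / s) ^ s := by gcongr
      _ = Real.exp 1 := by
          rw [← Real.exp_nat_mul]
          congr 1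
          field_simp
      _ ≤ 3 := by
          have := Real.exp_one_lt_d9
          linarith
  have hfrac : (1 + (s : ℝ)) / (3 * s) ≤ 2 / 3 := by
    rw [div_le_div_iff₀ (by positivity) (by norm_num)]
    linarith
  set Q1 := ∑ i, ‖L (x i) v - v‖ ^ 2 with hQ1
  set Q2 := ∑ i, ∑ j, ‖L (y i j) v - v‖ ^ 2 with hQ2
  have hQ1n : 0 ≤ Q1 := Finset.sum_nonneg fun _ _ => by positivity
  have hQ2n : 0 ≤ Q2 := Finset.sum_nonneg fun _ _ => Finset.sum_nonneg fun _ _ => by positivity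
  have hAv : ⟪A v, v⟫_ℝ ≤ Q1 := by
    rw [hAdef, lapl_inner L hL x v, ← hQ1]
    rcases Nat.eq_zero_or_pos m with hm | hm
    · subst hm
      simp
      exact hQ1n
    · have hm1 : (1 : ℝ) ≤ m := by exact_mod_cast hm
      have : (4 * (m : ℝ))⁻¹ ≤ 1 := inv_le_one_of_one_le₀ (by linarith)
      nlinarith
  have hAv0 := hA.nonneg v
  have h4 : ⟪C v, v⟫_ℝ ≤ 3 * (⟪A v, v⟫_ℝ + 2 / 3 * Q2) := by
    refine h2.trans ?_
    have h5 : ⟪A v, v⟫_ℝ + (1 + (s : ℝ)) / (3 * s) * Q2 ≤ ⟪A v, v⟫_ℝ + 2 / 3 * Q2 := by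
      have := mul_le_mul_of_nonneg_right hfrac hQ2n
      linarith
    have h6 : 0 ≤ ⟪A v, v⟫_ℝ + 2 / 3 * Q2 := by positivity
    have h7 : 0 ≤ (1 + 1 / (s : ℝ)) ^ s := by positivity
    calc _ ≤ (1 + 1 / (s : ℝ)) ^ s * (⟪A v, v⟫_ℝ + 2 / 3 * Q2) :=
          mul_le_mul_of_nonneg_left h5 h7
      _ ≤ _ := mul_le_mul_of_nonneg_right hpow h6
  have h8 : θ / 3 * ‖v‖ ^ 2 ≤ θs * ‖v‖ ^ 2 := by gcongr
  linarith

end Abs

theorem total_energy {n m s r q : ℕ} {ε θ : ℝ} (hs : 1 ≤ s) (hrn : r ≤ n) (hθ : 0 < θ)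
    (x : Fin m → alternatingGroup (Fin n)) (y : Fin s → Fin (3 * s) → alternatingGroup (Fin n))
    (hx : RC.GapUpTo n m r ε (fun i => (x i : Equiv.Perm (Fin n))))
    (B : Fin q → Submodule ℝ (EuclideanSpace ℝ (alternatingGroup (Fin n))))
    (hB : ∀ i, MinInv (lt (alternatingGroup (Fin n))) (rt (alternatingGroup (Fin n))) (B i))
    (hsup : (⨆ i, B i) = (degE n r)ᗮ)
    (hlow : ∀ i, RC.low (iter (lt (alternatingGroup (Fin n))) s y
      (lapl (lt (alternatingGroup (Fin n))) x)) (θ * (1 - 2 / ((3 * s : ℕ) : ℝ)) ^ s) ⊓ B i = ⊥)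
    (f : EuclideanSpace ℝ (alternatingGroup (Fin n))) (h0 : ∑ g, f g = 0) :
    min (θ / 9) (2 * ε) * ‖f‖ ^ 2 ≤
      ∑ i, ‖lt (alternatingGroup (Fin n)) (x i) f - f‖ ^ 2 +
        ∑ i, ∑ j, ‖lt (alternatingGroup (Fin n)) (y i j) f - f‖ ^ 2 := by
  set f₁ := (degE n r).starProjection f with hf₁
  set f₂ := f - f₁ with hf₂
  have hm₁ : f₁ ∈ degE n r := Submodule.starProjection_apply_mem _ _
  have hm₂ : f₂ ∈ (degE n r)ᗮ := Submodule.sub_starProjection_mem_orthogonal f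
  have hf : f = f₁ + f₂ := by rw [hf₂]; abel
  have horth : ∀ u ∈ degE n r, ∀ w ∈ (degE n r)ᗮ, ‖u + w‖ ^ 2 = ‖u‖ ^ 2 + ‖w‖ ^ 2 := by
    intro u hu w hw
    have h1 : ⟪u, w⟫_ℝ = 0 := (Submodule.mem_orthogonal _ _).1 hw u hu
    have := norm_add_sq_eq_norm_sq_add_norm_sq_of_inner_eq_zero u w h1
    rw [pow_two, pow_two, pow_two]
    exact this
  have hone : (fun _ => (1 : ℝ)) ∈ RC.FinalAux.degR n r :=
    const_mem hrn 1 (WithLp.toLp 2 (fun _ => (1 : ℝ))) (fun g => rfl)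
  have hs₂ : ∑ g, f₂ g = 0 := by
    have := orth_sum f₂ hm₂ _ hone
    simpa using this
  have hs₁ : ∑ g, f₁ g = 0 := by
    have h1 : ∑ g, f g = ∑ g, f₁ g + ∑ g, f₂ g := by
      rw [← Finset.sum_add_distrib]
      refine Finset.sum_congr rfl fun g _ => ?_
      rw [hf]; rfl
    rw [h0, hs₂, add_zero] at h1
    exact h1.symm
  have hnorm : ‖f‖ ^ 2 = ‖f₁‖ ^ 2 + ‖f₂‖ ^ 2 := by
    conv_lhs => rw [hf]
    exact horth _ hm₁ _ hm₂
  have hlt : ∀ g : alternatingGroup (Fin n), ‖lt (alternatingGroup (Fin n)) g f - f‖ ^ 2 = ‖lt (alternatingGroup (Fin n)) g f₁ - f₁‖ ^ 2 + ‖lt (alternatingGroup (Fin n)) g f₂ - f₂‖ ^ 2 := by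
    intro g
    have h1 : lt (alternatingGroup (Fin n)) g f - f = (lt (alternatingGroup (Fin n)) g f₁ - f₁) + (lt (alternatingGroup (Fin n)) g f₂ - f₂) := by
      conv_lhs => rw [hf]
      rw [map_add]
      abel
    rw [h1]
    exact horth _ ((degE n r).sub_mem (degE_lt n r g _ hm₁) hm₁) _
      ((degE n r)ᗮ.sub_mem (degE_orth_lt n r g _ hm₂) hm₂)
  have e1 := dpart x hx f₁ hm₁ hs₁
  have e2 := energy_sup (lt (alternatingGroup (Fin n))) (rt (alternatingGroup (Fin n))) (lt_norm (alternatingGroup (Fin n))) (fun g h v => lt_rt (alternatingGroup (Fin n)) g h v) B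
    (fun i => (hB i).left) hs x y hθ hlow f₂ (by rw [hsup]; exact hm₂)
  have e3 : 0 ≤ ∑ i, ∑ j, ‖lt (alternatingGroup (Fin n)) (y i j) f₁ - f₁‖ ^ 2 :=
    Finset.sum_nonneg fun _ _ => Finset.sum_nonneg fun _ _ => by positivity
  simp_rw [hlt, Finset.sum_add_distrib]
  rw [hnorm]
  have e4 : min (θ / 9) (2 * ε) * ‖f₁‖ ^ 2 ≤ 2 * ε * ‖f₁‖ ^ 2 :=
    mul_le_mul_of_nonneg_right (min_le_right _ _) (by positivity)
  have e5 : min (θ / 9) (2 * ε) * ‖f₂‖ ^ 2 ≤ θ / 9 * ‖f₂‖ ^ 2 :=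
    mul_le_mul_of_nonneg_right (min_le_left _ _) (by positivity)
  rw [mul_add]
  linarith

end Pool.Agent.RS
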