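import Pool.Agent.Helper36.RS.Tr

set_option autoImplicit false

/-!
# ETA-03: doubling, deterministic part

PROOF.  `P` = projection onto `low A θ`, `P_j = L (y j) P L (y j)⁻¹` (an orthogonal projection:
symmetric, `P_j P_j = P_j`; it preserves `B` by `RC.Equiv.proj_mem`).  `A' = avgConj L y A`.
Let `U = low A' θ' ⊓ B`, `θ' = θ (1 - 2/K)`.  For `u ∈ U`: by `RC.low_le` (A' is symmetric)
`θ' ‖u‖^2 ≥ ⟪A' u, u⟫ = K⁻¹ ∑_j ⟪A u_j, u_j⟫`, `u_j = L (y j)⁻¹ u`, and by `RC.low_proj`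
`⟪A u_j, u_j⟫ ≥ θ ‖u_j - P u_j‖^2 = θ (‖u‖^2 - ‖P u_j‖^2) = θ (‖u‖^2 - ⟪P_j u, u⟫)`.  So
`∑_j ⟪P_j u, u⟫ ≥ K (1 - θ'/θ) ‖u‖^2 = 2 ‖u‖^2`.  With `S = ∑_j P_j` and
`N = ∑_{j ≠ k} P_j P_k = S^2 - S` (symmetric): for `‖u‖ = 1`, `μ = ⟪S u, u⟫ ≥ 2`,
`⟪N u, u⟫ = ‖S u‖^2 - μ ≥ μ^2 - μ ≥ 2`, so `‖N u‖ ≥ 2`, `‖N u‖^2 ≥ 4`.
By Cauchy-Schwarz over the at most `K^2` ordered pairs `j ≠ k`,
`‖N u‖^2 ≤ K^2 ∑_{j ≠ k} ‖P_j P_k u‖^2 = K^2 ∑_{j ≠ k} ⟪P_k P_j P_k u, u⟫`.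
Hence `4 dim U ≤ K^2 ∑_{j≠k} trP U (P_k P_j P_k) ≤ K^2 ∑_{j≠k} trP B (P_k P_j P_k)`
(`le_trP`, `trP_sub_le`; the operator is nonnegative) and
`trP B (P_k P_j P_k) = trP B (P_j P_k P_k) = trP B (P_j P_k)` by `trP_comm`.
-/

open Finset

namespace Pool.Agent.RS

open scoped InnerProductSpace

section Aux

variable {E : Type*} [NormedAddCommGroup E] [InnerProductSpace ℝ E]

/-- Elementary inequality behind `‖N u‖ ≥ 2 ‖u‖`. -/
theorem doubling_real {a s ν μ : ℝ} (ha : 0 ≤ a) (hs : 0 ≤ s) (hν : 0 ≤ ν) (h1 : 2 * a ^ 2 ≤ μ)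
    (h2 : μ ≤ s * a) (h3 : s ^ 2 - μ ≤ ν * a) : 4 * a ^ 2 ≤ ν ^ 2 := by
  rcases ha.eq_or_lt with h0 | h0
  · rw [← h0]
    nlinarith
  · have h4 : 2 * a ≤ s := by
      have : 2 * a * a ≤ s * a := by nlinarith
      exact le_of_mul_le_mul_right this h0
    have h5 : 2 * a * a ≤ ν * a := by nlinarith
    have h6 : 2 * a ≤ ν := le_of_mul_le_mul_right h5 h0
    nlinarith

theorem norm_sum_sq_le {ι : Type*} (s : Finset ι) (f : ι → E) :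
    ‖∑ i ∈ s, f i‖ ^ 2 ≤ (s.card : ℝ) * ∑ i ∈ s, ‖f i‖ ^ 2 := by
  have h1 : ‖∑ i ∈ s, f i‖ ≤ ∑ i ∈ s, ‖f i‖ := norm_sum_le _ _
  calc ‖∑ i ∈ s, f i‖ ^ 2 ≤ (∑ i ∈ s, ‖f i‖) ^ 2 := by gcongr
    _ ≤ (s.card : ℝ) * ∑ i ∈ s, ‖f i‖ ^ 2 := sq_sum_le_card_mul_sum_sq

/-- The deterministic inequality for `K` orthogonal projections. -/
theorem doubling_proj {K : ℕ} (Q : Fin K → E →ₗ[ℝ] E) (hs : ∀ j u v, ⟪Q j u, v⟫_ℝ = ⟪u, Q j v⟫_ℝ)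
    (hi : ∀ j u, Q j (Q j u) = Q j u) (u : E) (hu : 2 * ‖u‖ ^ 2 ≤ ∑ j, ⟪Q j u, u⟫_ℝ) :
    4 * ‖u‖ ^ 2 ≤ (K : ℝ) ^ 2 * ∑ j, ∑ k ∈ univ.filter (fun k => j ≠ k),
      ⟪Q k (Q j (Q k u)), u⟫_ℝ := by
  set S : E := ∑ j, Q j u with hS
  set N : E := ∑ j, ∑ k ∈ univ.filter (fun k => j ≠ k), Q j (Q k u) with hN
  have hSS : ∑ j, Q j S = N + S := by
    rw [hN, hS, ← Finset.sum_add_distrib]
    refine Finset.sum_congr rfl fun j _ => ?_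
    rw [map_sum, ← Finset.sum_filter_add_sum_filter_not univ (fun k => j ≠ k)]
    congr 1
    have : univ.filter (fun k => ¬ j ≠ k) = {j} := by
      ext k
      simp [eq_comm]
    rw [this, Finset.sum_singleton, hi]
  have hμ : ⟪S, u⟫_ℝ = ∑ j, ⟪Q j u, u⟫_ℝ := by rw [hS, sum_inner]
  have hSn : ⟪∑ j, Q j S, u⟫_ℝ = ‖S‖ ^ 2 := by
    rw [sum_inner, ← real_inner_self_eq_norm_sq]
    conv_rhs => rw [hS, inner_sum]
    simp only [hs]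
    rfl
  have hNn : ⟪N, u⟫_ℝ = ‖S‖ ^ 2 - ⟪S, u⟫_ℝ := by
    rw [← hSn, hSS, inner_add_left]
    ring
  have h1 : 4 * ‖u‖ ^ 2 ≤ ‖N‖ ^ 2 := by
    refine doubling_real (norm_nonneg u) (norm_nonneg S) (norm_nonneg N) (μ := ⟪S, u⟫_ℝ) ?_ ?_ ?_
    · rw [hμ]; exact hu
    · exact real_inner_le_norm S u
    · rw [← hNn]; exact real_inner_le_norm N u
  have h2 : ∀ j k, ‖Q j (Q k u)‖ ^ 2 = ⟪Q k (Q j (Q k u)), u⟫_ℝ := by
    intro j k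
    rw [← real_inner_self_eq_norm_sq, hs j, hi, ← hs j, hs k]
  refine h1.trans ?_
  have h3 : N = ∑ p ∈ (univ : Finset (Fin K)).sigma (fun j => univ.filter (fun k => j ≠ k)),
      Q p.1 (Q p.2 u) := by
    rw [Finset.sum_sigma]
  have h4 : (((univ : Finset (Fin K)).sigma (fun j => univ.filter (fun k => j ≠ k))).card : ℝ) ≤
      (K : ℝ) ^ 2 := by
    have : ((univ : Finset (Fin K)).sigma (fun j => univ.filter (fun k => j ≠ k))).card ≤ K ^ 2 := by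
      rw [Finset.card_sigma]
      calc ∑ j : Fin K, (univ.filter (fun k => j ≠ k)).card ≤ ∑ _j : Fin K, K := by
            refine Finset.sum_le_sum fun j _ => ?_
            exact (Finset.card_le_univ _).trans (by simp)
        _ = K ^ 2 := by simp [sq]
    exact_mod_cast this
  have h5 : ∑ p ∈ (univ : Finset (Fin K)).sigma (fun j => univ.filter (fun k => j ≠ k)),
      ‖Q p.1 (Q p.2 u)‖ ^ 2 = ∑ j, ∑ k ∈ univ.filter (fun k => j ≠ k),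
      ⟪Q k (Q j (Q k u)), u⟫_ℝ := by
    rw [Finset.sum_sigma]
    exact Finset.sum_congr rfl fun j _ => Finset.sum_congr rfl fun k _ => h2 j k
  rw [← h5]
  conv_lhs => rw [h3]
  refine (norm_sum_sq_le _ _).trans ?_
  exact mul_le_mul_of_nonneg_right h4 (Finset.sum_nonneg fun _ _ => sq_nonneg _)

end Aux

theorem doubling {E : Type*} [NormedAddCommGroup E] [InnerProductSpace ℝ E]
    [FiniteDimensional ℝ E] {G : Type*} [Group G] (L : G →* (E →ₗ[ℝ] E))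
    (hL : ∀ g v, ‖L g v‖ = ‖v‖) {K : ℕ} (hK : 3 ≤ K) (y : Fin K → G) (A : E →ₗ[ℝ] E)
    (hA : A.IsSymmetric) (hA0 : ∀ v, 0 ≤ ⟪A v, v⟫_ℝ) (B : Submodule ℝ E)
    (hB : ∀ g, ∀ v ∈ B, L g v ∈ B) (hAB : ∀ v ∈ B, A v ∈ B) (θ : ℝ) (hθ : 0 < θ) :
    4 * (Module.finrank ℝ (RC.low (avgConj L y A) (θ * (1 - 2 / K)) ⊓ B : Submodule ℝ E) : ℝ) ≤
      (K : ℝ) ^ 2 * ∑ j, ∑ k ∈ univ.filter (fun k => j ≠ k),
        trP B ((L (y j) * (RC.low A θ).starProjection.toLinearMap * L (y j)⁻¹) *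
          (L (y k) * (RC.low A θ).starProjection.toLinearMap * L (y k)⁻¹)) := by
  set W := RC.low A θ with hW
  set Q : Fin K → E →ₗ[ℝ] E := fun j =>
    L (y j) * W.starProjection.toLinearMap * L (y j)⁻¹ with hQ
  have hLL : ∀ g v, L g (L g⁻¹ v) = v := by
    intro g v
    rw [← Module.End.mul_apply, ← map_mul, mul_inv_cancel, map_one, Module.End.one_apply]
  have hLL' : ∀ g v, L g⁻¹ (L g v) = v := by
    intro g v
    rw [← Module.End.mul_apply, ← map_mul, inv_mul_cancel, map_one, Module.End.one_apply]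
  have hLi : ∀ g u v, ⟪L g u, v⟫_ℝ = ⟪u, L g⁻¹ v⟫_ℝ := by
    intro g u v
    have := RC.Equiv.inner_pres (L g) (hL g) u (L g⁻¹ v)
    rw [hLL] at this
    exact this
  have hLi' : ∀ g u v, ⟪L g⁻¹ u, v⟫_ℝ = ⟪u, L g v⟫_ℝ := by
    intro g u v
    have := hLi g⁻¹ u v
    rwa [inv_inv] at this
  have hQa : ∀ j u, Q j u = L (y j) (W.starProjection (L (y j)⁻¹ u)) := fun j u => rfl
  have hPs : ∀ u v : E, ⟪W.starProjection u, v⟫_ℝ = ⟪u, W.starProjection v⟫_ℝ :=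
    fun u v => Submodule.starProjection_isSymmetric W u v
  have hPi : ∀ u : E, W.starProjection (W.starProjection u) = W.starProjection u := fun u =>
    Submodule.starProjection_eq_self_iff.2 (Submodule.starProjection_apply_mem W u)
  have hQs : ∀ j u v, ⟪Q j u, v⟫_ℝ = ⟪u, Q j v⟫_ℝ := by
    intro j u v
    rw [hQa, hQa, hLi, hPs, hLi']
  have hQi : ∀ j u, Q j (Q j u) = Q j u := by
    intro j u
    rw [hQa, hQa, hLL', hPi]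
  have hQB : ∀ j, ∀ v ∈ B, Q j v ∈ B := by
    intro j v hv
    rw [hQa]
    exact hB _ _ (RC.Equiv.proj_mem hA hAB θ (hB _ _ hv))
  have hK0 : (0 : ℝ) < K := by exact_mod_cast (by omega : 0 < K)
  set A' := avgConj L y A with hA'
  have hA'a : ∀ u, A' u = (K : ℝ)⁻¹ • ∑ j, L (y j) (A (L (y j)⁻¹ u)) := by
    intro u
    rw [hA', avgConj, LinearMap.smul_apply, LinearMap.sum_apply]
    rfl
  have hA's : A'.IsSymmetric := by
    intro u v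
    rw [hA'a, hA'a, real_inner_smul_left, real_inner_smul_right, sum_inner, inner_sum]
    congr 1
    refine Finset.sum_congr rfl fun j _ => ?_
    rw [hLi, hA, hLi']
  have hen : ∀ u ∈ RC.low A' (θ * (1 - 2 / K)), 2 * ‖u‖ ^ 2 ≤ ∑ j, ⟪Q j u, u⟫_ℝ := by
    intro u hu
    have h1 := RC.low_le A' hA's _ u hu
    rw [hA'a, real_inner_smul_left, sum_inner] at h1
    have h2 : ∀ j, θ * (‖u‖ ^ 2 - ⟪Q j u, u⟫_ℝ) ≤ ⟪L (y j) (A (L (y j)⁻¹ u)), u⟫_ℝ := by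
      intro j
      have h3 := RC.low_proj A hA hA0 θ hθ (L (y j)⁻¹ u)
      have h4 : ‖L (y j)⁻¹ u - W.starProjection (L (y j)⁻¹ u)‖ ^ 2 = ‖u‖ ^ 2 - ⟪Q j u, u⟫_ℝ := by
        have h5 : ⟪Q j u, u⟫_ℝ = ⟪W.starProjection (L (y j)⁻¹ u), L (y j)⁻¹ u⟫_ℝ := by
          rw [hQa, hLi]
        have h6 : ⟪W.starProjection (L (y j)⁻¹ u), W.starProjection (L (y j)⁻¹ u)⟫_ℝ =
            ⟪W.starProjection (L (y j)⁻¹ u), L (y j)⁻¹ u⟫_ℝ := by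
          rw [← hPs, hPi]
        rw [h5, ← hL (y j)⁻¹ u, @norm_sub_sq_real, ← real_inner_self_eq_norm_sq
          (W.starProjection (L (y j)⁻¹ u)), h6,
          real_inner_comm (W.starProjection (L (y j)⁻¹ u)) (L (y j)⁻¹ u)]
        ring
      rw [← h4, hLi]
      exact h3
    have h7 : ∑ j, θ * (‖u‖ ^ 2 - ⟪Q j u, u⟫_ℝ) ≤
        ∑ j, ⟪L (y j) (A (L (y j)⁻¹ u)), u⟫_ℝ := Finset.sum_le_sum fun j _ => h2 j
    rw [← Finset.mul_sum, Finset.sum_sub_distrib, Finset.sum_const, Finset.card_univ,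
      Fintype.card_fin, nsmul_eq_mul] at h7
    have h8 : (K : ℝ)⁻¹ * (θ * (K * ‖u‖ ^ 2 - ∑ j, ⟪Q j u, u⟫_ℝ)) ≤
        θ * (1 - 2 / K) * ‖u‖ ^ 2 := (mul_le_mul_of_nonneg_left h7 (by positivity)).trans h1
    have h9 : θ * (2 * ‖u‖ ^ 2) ≤ θ * ∑ j, ⟪Q j u, u⟫_ℝ := by
      have h10 := mul_le_mul_of_nonneg_left h8 hK0.le
      have h11 : (K : ℝ) * ((K : ℝ)⁻¹ * (θ * (K * ‖u‖ ^ 2 - ∑ j, ⟪Q j u, u⟫_ℝ))) =
          θ * (K * ‖u‖ ^ 2 - ∑ j, ⟪Q j u, u⟫_ℝ) := by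
        rw [← mul_assoc, mul_inv_cancel₀ hK0.ne', one_mul]
      have h12 : (K : ℝ) * (θ * (1 - 2 / K) * ‖u‖ ^ 2) = θ * ((K - 2) * ‖u‖ ^ 2) := by
        field_simp
      rw [h11, h12] at h10
      nlinarith
    exact le_of_mul_le_mul_left h9 hθ
  set X : E →ₗ[ℝ] E := (K : ℝ) ^ 2 • ∑ j, ∑ k ∈ univ.filter (fun k => j ≠ k),
    Q k * (Q j * Q k) with hX
  have hXa : ∀ u, ⟪X u, u⟫_ℝ = (K : ℝ) ^ 2 * ∑ j, ∑ k ∈ univ.filter (fun k => j ≠ k),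
      ⟪Q k (Q j (Q k u)), u⟫_ℝ := by
    intro u
    rw [hX, LinearMap.smul_apply, LinearMap.sum_apply, real_inner_smul_left, sum_inner]
    congr 1
    refine Finset.sum_congr rfl fun j _ => ?_
    rw [LinearMap.sum_apply, sum_inner]
    rfl
  have hX0 : ∀ u, 0 ≤ ⟪X u, u⟫_ℝ := by
    intro u
    rw [hXa]
    refine mul_nonneg (by positivity) (Finset.sum_nonneg fun j _ => Finset.sum_nonneg fun k _ => ?_)
    rw [hQs k, ← hQi j, hQs j]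
    exact real_inner_self_nonneg
  have h1 := le_trP (RC.low A' (θ * (1 - 2 / K)) ⊓ B) X 4 (fun u hu => by
    rw [hXa]
    exact doubling_proj Q hQs hQi u (hen u hu.1))
  have h2 := trP_sub_le (RC.low A' (θ * (1 - 2 / K)) ⊓ B) B inf_le_right X (fun u _ => hX0 u)
  refine (h1.trans h2).trans (le_of_eq ?_)
  rw [hX, trP_smul, trP_sum]
  congr 1
  refine Finset.sum_congr rfl fun j _ => ?_
  rw [trP_sum]
  refine Finset.sum_congr rfl fun k _ => ?_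
  rw [trP_comm B (Q k) (Q j * Q k) (hQB k) (fun v hv => hQB j _ (hQB k _ hv)), mul_assoc]
  refine trP_congr _ _ _ fun v _ => ?_
  change Q j (Q k (Q k v)) = Q j (Q k v)
  rw [hQi]

end Pool.Agent.RS
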