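import Pool.Agent.Helper36.RS.Lapl

set_option autoImplicit false

/-!
# ETA-23: counting the eigenvalues above `2 m - ε` in a unitary representation

`E` is a complex inner product space, also viewed as a real one
(`InnerProductSpace.complexToReal`, a local instance; `⟪u, v⟫_ℝ = re ⟪u, v⟫_ℂ`); `realRep π` is the
real representation.

PROOF of `high`.  `Δ = ∑_{i < m} (π (x i) + π (x i)⁻¹)` is symmetric.  Let `U` be the supremum of the
eigenspaces for the real eigenvalues `μ > 2m - ε`.  For `v ∈ U`, `v ≠ 0`: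
`re ⟪Δ v, v⟫ > (2m - ε) ‖v‖^2` (`v` is a sum of eigenvectors `v_μ`, pairwise orthogonal as `Δ` is
symmetric).  With `two_sub_inner`, `∑_{i < m} ‖π (x i) v - v‖^2 = 2 m ‖v‖^2 - re ⟪Δ v, v⟫ < ε ‖v‖^2`, so
by `lapl_inner` for the first `m₀` elements, `4 m₀ ⟪A v, v⟫ = ∑_{i < m₀} ‖π (x i) v - v‖^2
< ε ‖v‖^2 ≤ 4 m₀ θ ‖v‖^2`, where `A = lapl (realRep π) (x restricted)`, hence `⟪A v, v⟫ < θ ‖v‖^2`
(`m₀ ≥ 1`).  Let `P` be the projection onto `low A θ`.  If `v ∈ U` and `P v = 0`, then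
`θ ‖v‖^2 ≤ ⟪A v, v⟫` by `RC.low_proj`, so `v = 0`.  So `P` is injective on `U` (as a real
subspace) and `2 dim_ℂ U = dim_ℝ U ≤ dim_ℝ (low A θ) ≤ c dim_ℝ E = 2 c dim_ℂ E`.
-/

open Finset

namespace Pool.Agent.RS

open scoped InnerProductSpace

attribute [local instance] InnerProductSpace.complexToReal

/-- The real representation underlying a complex one. -/
noncomputable def realRep {G : Type*} [Group G] {E : Type*} [NormedAddCommGroup E]
    [InnerProductSpace ℂ E] (π : G →* (E →ₗ[ℂ] E)) : G →* (E →ₗ[ℝ] E) where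
  toFun g := (π g).restrictScalars ℝ
  map_one' := by ext v; simp
  map_mul' g h := by ext v; simp

theorem realRep_apply {G : Type*} [Group G] {E : Type*} [NormedAddCommGroup E]
    [InnerProductSpace ℂ E] (π : G →* (E →ₗ[ℂ] E)) (g : G) (v : E) : realRep π g v = π g v := rfl

theorem low_lt {E : Type*} [NormedAddCommGroup E] [InnerProductSpace ℝ E]
    [FiniteDimensional ℝ E] (D : E →ₗ[ℝ] E) (hD : D.IsSymmetric) (ε : ℝ) (v : E)
    (hv : v ∈ RC.low D ε) (h0 : v ≠ 0) : ⟪D v, v⟫_ℝ < ε * ‖v‖ ^ 2 := by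
  have hn : Module.finrank ℝ E = Module.finrank ℝ E := rfl
  have hz : ∀ i, ¬ hD.eigenvalues hn i < ε → ⟪hD.eigenvectorBasis hn i, v⟫_ℝ = 0 := by
    intro i h
    have h1 := RC.low_inner_proj D hD hn ε v i
    rw [if_neg h, Submodule.starProjection_eq_self_iff.2 hv] at h1
    exact h1
  have hex : ∃ i, ⟪hD.eigenvectorBasis hn i, v⟫_ℝ ≠ 0 := by
    by_contra hc
    push Not at hc
    apply h0
    have h1 := RC.low_norm_sq D hD hn v
    have h2 : ‖v‖ ^ 2 = 0 := by
      rw [h1]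
      exact Finset.sum_eq_zero fun i _ => by rw [hc i]; ring
    exact norm_eq_zero.1 (pow_eq_zero_iff (two_ne_zero) |>.1 h2)
  obtain ⟨i₀, hi₀⟩ := hex
  rw [RC.low_inner_pow D D hD hD hn _ (fun i => hD.apply_eigenvectorBasis hn i) v,
    RC.low_norm_sq D hD hn, Finset.mul_sum]
  refine Finset.sum_lt_sum (fun i _ => ?_) ⟨i₀, Finset.mem_univ _, ?_⟩
  · by_cases h : hD.eigenvalues hn i < ε
    · exact mul_le_mul_of_nonneg_right h.le (sq_nonneg _)
    · rw [hz i h]
      simp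
  · by_cases h : hD.eigenvalues hn i₀ < ε
    · exact mul_lt_mul_of_pos_right h (by positivity)
    · exact absurd (hz i₀ h) hi₀

theorem high {G : Type*} [Group G] {E : Type*} [NormedAddCommGroup E] [InnerProductSpace ℂ E]
    [FiniteDimensional ℂ E] (π : G →* (E →ₗ[ℂ] E)) (hπ : ∀ g v, ‖π g v‖ = ‖v‖)
    {m m₀ : ℕ} (hm₀ : 1 ≤ m₀) (hm : m₀ ≤ m) (x : Fin m → G) {ε θ c : ℝ} (hθ : 0 < θ)
    (hε : ε ≤ 4 * m₀ * θ)
    (hlow : (Module.finrank ℝ
      (RC.low (lapl (realRep π) (fun i : Fin m₀ => x (Fin.castLE hm i))) θ : Submodule ℝ E) : ℝ) ≤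
        c * Module.finrank ℝ E) :
    (Module.finrank ℂ (⨆ μ : {μ : ℝ // 2 * (m : ℝ) - ε < μ},
      Module.End.eigenspace (∑ i, (π (x i) + π (x i)⁻¹)) (μ.1 : ℂ) : Submodule ℂ E) : ℝ) ≤
        c * Module.finrank ℂ E := by
  have : FiniteDimensional ℝ E := FiniteDimensional.complexToReal E
  set U : Submodule ℂ E := ⨆ μ : {μ : ℝ // 2 * (m : ℝ) - ε < μ},
      Module.End.eigenspace (∑ i, (π (x i) + π (x i)⁻¹)) (μ.1 : ℂ) with hU
  set L := realRep π with hL
  have hLn : ∀ g v, ‖L g v‖ = ‖v‖ := fun g v => hπ g v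
  have hm1 : (0 : ℝ) < m := by
    have : 1 ≤ m := hm₀.trans hm
    exact_mod_cast this
  have hm2 : (0 : ℝ) < m₀ := by exact_mod_cast hm₀
  set D' : E →ₗ[ℝ] E := (4 * (m : ℝ)) • lapl L x with hD'
  have hD's : D'.IsSymmetric := by
    intro v w
    rw [hD', LinearMap.smul_apply, LinearMap.smul_apply, real_inner_smul_left,
      real_inner_smul_right, lapl_symm L hLn x v w]
  have hD'v : ∀ v, D' v = (2 * (m : ℝ)) • v - ∑ i, (π (x i) v + π (x i)⁻¹ v) := by
    intro v
    rw [hD']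
    unfold lapl
    rw [LinearMap.smul_apply, LinearMap.smul_apply, smul_smul, mul_inv_cancel₀ (by positivity),
      one_smul, LinearMap.sum_apply]
    have : ∀ i, ((2 : ℝ) • (1 : E →ₗ[ℝ] E) - L (x i) - L (x i)⁻¹) v =
        (2 : ℝ) • v - (π (x i) v + π (x i)⁻¹ v) := by
      intro i
      rw [LinearMap.sub_apply, LinearMap.sub_apply, LinearMap.smul_apply, Module.End.one_apply,
        hL, realRep_apply, realRep_apply]
      abel
    rw [Finset.sum_congr rfl (fun i _ => this i), Finset.sum_sub_distrib, Finset.sum_const,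
      Finset.card_univ, Fintype.card_fin, ← Nat.cast_smul_eq_nsmul ℝ, smul_smul, mul_comm]
  have hin : ∀ v ∈ U, v ∈ RC.low D' ε := by
    intro v hv
    rw [hU] at hv
    induction hv using Submodule.iSup_induction' with
    | mem μ v hv =>
      have h1 := Module.End.mem_eigenspace_iff.1 hv
      have h2 : ∑ i, (π (x i) v + π (x i)⁻¹ v) = (μ.1 : ℝ) • v := by
        rw [← Complex.coe_smul, ← h1, LinearMap.sum_apply]
        rfl
      have h3 : D' v = (2 * (m : ℝ) - μ.1) • v := by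
        rw [hD'v, h2, sub_smul]
      have hlt : 2 * (m : ℝ) - μ.1 < ε := by
        have := μ.2
        linarith
      exact Submodule.mem_iSup_of_mem (⟨_, hlt⟩ : {μ : ℝ // μ < ε})
        (Module.End.mem_eigenspace_iff.2 h3)
    | zero => exact Submodule.zero_mem _
    | add v w _ _ hv hw => exact Submodule.add_mem _ hv hw
  set x₀ : Fin m₀ → G := fun i => x (Fin.castLE hm i) with hx₀
  set A := lapl L x₀ with hA
  have key : ∀ v ∈ U, v ≠ 0 → ⟪A v, v⟫_ℝ < θ * ‖v‖ ^ 2 := by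
    intro v hv h0
    have h1 := low_lt D' hD's ε v (hin v hv) h0
    rw [hD', LinearMap.smul_apply, real_inner_smul_left, lapl_inner L hLn x v, ← mul_assoc,
      mul_inv_cancel₀ (by positivity), one_mul] at h1
    have h2 : ∑ i : Fin m₀, ‖L (x₀ i) v - v‖ ^ 2 ≤ ∑ i : Fin m, ‖L (x i) v - v‖ ^ 2 := by
      have : ∑ i : Fin m₀, ‖L (x₀ i) v - v‖ ^ 2 =
          ∑ i ∈ Finset.univ.map (Fin.castLEEmb hm), ‖L (x i) v - v‖ ^ 2 := by
        rw [Finset.sum_map]
        rfl
      rw [this]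
      exact Finset.sum_le_univ_sum_of_nonneg fun i => by positivity
    rw [hA, lapl_inner L hLn x₀ v, inv_mul_lt_iff₀ (by positivity)]
    have h3 : ε * ‖v‖ ^ 2 ≤ 4 * m₀ * θ * ‖v‖ ^ 2 := by gcongr
    calc _ ≤ _ := h2
      _ < _ := h1
      _ ≤ _ := h3
      _ = _ := by ring
  have hAs : A.IsSymmetric := lapl_symm L hLn x₀
  have hA0 : ∀ v, 0 ≤ ⟪A v, v⟫_ℝ := by
    intro v
    rw [hA, lapl_inner L hLn x₀ v]
    positivity
  set F := RC.low A θ with hF
  set UR : Submodule ℝ E := U.restrictScalars ℝ with hUR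
  let f : UR →ₗ[ℝ] F := F.orthogonalProjectionOnto.toLinearMap ∘ₗ UR.subtype
  have hf : Function.Injective f := by
    rw [← LinearMap.ker_eq_bot, LinearMap.ker_eq_bot']
    rintro ⟨v, hv⟩ h
    have h1 : F.starProjection v = 0 := by
      have := congrArg (fun w : F => (w : E)) h
      exact this
    have h2 := RC.low_proj A hAs hA0 θ hθ v
    rw [← hF, h1, sub_zero] at h2
    by_contra hne
    have hv0 : v ≠ 0 := fun e => hne (by simp [e])
    have := key v hv hv0
    linarith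
  have h4 : Module.finrank ℝ UR ≤ Module.finrank ℝ F :=
    LinearMap.finrank_le_finrank_of_injective hf
  have h5 : Module.finrank ℝ UR = 2 * Module.finrank ℂ U := finrank_real_of_complex U
  have h6 : Module.finrank ℝ E = 2 * Module.finrank ℂ E := finrank_real_of_complex E
  have h7 : ((Module.finrank ℝ UR : ℕ) : ℝ) ≤ c * Module.finrank ℝ E :=
    le_trans (by exact_mod_cast h4) hlow
  rw [h5, h6] at h7
  push_cast at h7
  linarith

end Pool.Agent.RS
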