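import Pool.Agent.Helper36.RS.NoLeft

set_option autoImplicit false

/-!
# ETA-17: induction from `Alt(n)` to `Perm (Fin n)`

PROOF.  Let `τ = swap 0 1` (`n ≥ 2`), odd, `τ τ = 1`.  `E' = WithLp 2 (E × E)`, `ι u = (u, 0)`,
`F' = {(u, v) : u ∈ F, v ∈ F}`.  The pair `(u, v)` stands for `u + τ v`.  Define `π' σ` by
* `σ` even: `(u, v) ↦ (π σ u, π (τ σ τ) v)`;
* `σ` odd: `(u, v) ↦ (π (σ τ) v, π (τ σ) u)`
(all arguments of `π` are even, as elements of `alternatingGroup (Fin n)` with their membership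
proofs; it is convenient to use the function `π₀ : Perm (Fin n) → (E →ₗ E)` which is `π` on even
permutations and `0` on odd ones, `π₀ (σ σ') = π₀ σ π₀ σ'` for even `σ, σ'`).
`π'` is a homomorphism: four cases, for example `σ, σ'` odd: `π' σ (π' σ' (u, v))
= π' σ (π (σ' τ) v, π (τ σ') u) = (π (σ τ) π (τ σ') u, π (τ σ) π (σ' τ) v)
= (π (σ σ') u, π (τ σ σ' τ) v)`.  Isometric: `‖(u, v)‖^2 = ‖u‖^2 + ‖v‖^2`
(`WithLp.prod_norm_sq_eq_of_L2`).  `π' g (ι u) = ι (π g u)` for `g` even.
`finrank F' = 2 finrank F` (`F'` is linearly equivalent to `F × F`).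
NO INVARIANTS: let `(u, v) ∈ F'` be fixed by `π' (swap i j * swap i' j')` for all `i ≠ j`,
`i' ≠ j'` in `A`, `k ≤ |A|`.  LEMMA: an even permutation `g` fixing every letter outside `A` is a
product of elements `swap i j * swap i' j'` with `i ≠ j`, `i' ≠ j'` in `A` (it is a product of
transpositions of letters of `A`, `Equiv.Perm.swap_induction_on` for the corresponding permutation
of the subtype `A`, see `Equiv.Perm.subtypePerm`, `Equiv.Perm.ofSubtype`; the number of factors is
even by the sign; group them in pairs).  So `(u, v)` is fixed by `π' g` for all those `g`: for the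
first component `π g u = u`, so `u = 0` by `hno`.  For the second: `π (τ g τ) v = v` for all even `g`
fixing the letters outside `A`; the elements `τ g τ` are all the even permutations fixing the
letters outside `τ A`, `|τ A| = |A|`; so `v = 0` by `hno` for the set `A.map τ`.
-/

open Finset

namespace Pool.Agent.RS

open scoped InnerProductSpace

universe u

/-- An even permutation of the letters of `A` is a product of pairs of transpositions. -/
theorem pair_induction {n : ℕ} (A : Finset (Fin n)) (P : Equiv.Perm (Fin n) → Prop) (h1 : P 1)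
    (hm : ∀ g h, P g → P h → P (g * h))
    (hs : ∀ i ∈ A, ∀ j ∈ A, ∀ i' ∈ A, ∀ j' ∈ A, i ≠ j → i' ≠ j' →
      P (Equiv.swap i j * Equiv.swap i' j')) (g : Equiv.Perm (Fin n))
    (hg : g ∈ alternatingGroup (Fin n)) (hA : ∀ x, x ∉ A → g x = x) : P g := by
  classical
  have main : ∀ f : Equiv.Perm {x // x ∈ A},
      (Equiv.Perm.sign (Equiv.Perm.ofSubtype f) = 1 → P (Equiv.Perm.ofSubtype f)) ∧
      (Equiv.Perm.sign (Equiv.Perm.ofSubtype f) = -1 → ∀ i ∈ A, ∀ j ∈ A, i ≠ j →
        P (Equiv.swap i j * Equiv.Perm.ofSubtype f)) := by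
    intro f
    induction f using Equiv.Perm.swap_induction_on with
    | one =>
      constructor
      · intro _
        simpa using h1
      · intro h
        simp at h
    | swap_mul f x y hxy ih =>
      have hxy' : (x : Fin n) ≠ y := fun h => hxy (Subtype.ext h)
      have e : Equiv.Perm.ofSubtype (Equiv.swap x y * f)
          = Equiv.swap (x : Fin n) y * Equiv.Perm.ofSubtype f := by
        rw [map_mul, Equiv.Perm.ofSubtype_swap_eq]
      rw [e, map_mul, Equiv.Perm.sign_swap hxy']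
      constructor
      · intro h
        exact ih.2 (by
          have := congrArg (fun z => -1 * z) h
          simpa using this) _ x.2 _ y.2 hxy'
      · intro h i hi j hj hij
        rw [← mul_assoc]
        exact hm _ _ (hs i hi j hj _ x.2 _ y.2 hij hxy') (ih.1 (by simpa using h))
  have hmem : ∀ x, g x ∈ A ↔ x ∈ A := by
    intro x
    constructor
    · intro h
      by_contra hx
      rw [hA x hx] at h
      exact hx h
    · intro h
      by_contra hx
      have := hA _ hx
      have h' := g.injective this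
      rw [h'] at hx
      exact hx h
  have e := Equiv.Perm.ofSubtype_subtypePerm (f := g) (p := fun x => x ∈ A) hmem
    (fun x hx => by
      by_contra h
      exact hx (hA x h))
  have := (main (Equiv.Perm.subtypePerm g hmem)).1
  rw [e] at this
  exact this (Equiv.Perm.mem_alternatingGroup.1 hg)

namespace IndAux

variable {n : ℕ} {E : Type u} [NormedAddCommGroup E] [InnerProductSpace ℝ E]

/-- `π` on even permutations, `0` on odd ones. -/
noncomputable def ext0 (π : alternatingGroup (Fin n) →* (E →ₗ[ℝ] E)) (σ : Equiv.Perm (Fin n)) :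
    E →ₗ[ℝ] E := by
  classical
  exact if h : σ ∈ alternatingGroup (Fin n) then π ⟨σ, h⟩ else 0

theorem ext0_even (π : alternatingGroup (Fin n) →* (E →ₗ[ℝ] E)) {σ : Equiv.Perm (Fin n)}
    (h : σ ∈ alternatingGroup (Fin n)) : ext0 π σ = π ⟨σ, h⟩ := by
  simp [ext0, h]

theorem ext0_odd (π : alternatingGroup (Fin n) →* (E →ₗ[ℝ] E)) {σ : Equiv.Perm (Fin n)}
    (h : σ ∉ alternatingGroup (Fin n)) : ext0 π σ = 0 := by
  simp [ext0, h]

theorem mem_mul {σ τ : Equiv.Perm (Fin n)} :
    σ * τ ∈ alternatingGroup (Fin n) ↔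
      (σ ∈ alternatingGroup (Fin n) ↔ τ ∈ alternatingGroup (Fin n)) := by
  simp only [Equiv.Perm.mem_alternatingGroup, map_mul]
  rcases Int.units_eq_one_or (Equiv.Perm.sign σ) with h | h <;>
  rcases Int.units_eq_one_or (Equiv.Perm.sign τ) with h' | h' <;> simp [h, h']

theorem key (π : alternatingGroup (Fin n) →* (E →ₗ[ℝ] E)) {τ : Equiv.Perm (Fin n)}
    (hτ : τ ∉ alternatingGroup (Fin n)) (hττ : τ * τ = 1) (σ σ' : Equiv.Perm (Fin n)) :
    ext0 π (σ * σ') = ext0 π σ * ext0 π σ' + ext0 π (σ * τ) * ext0 π (τ * σ') := by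
  by_cases h : σ ∈ alternatingGroup (Fin n) <;> by_cases h' : σ' ∈ alternatingGroup (Fin n)
  · have h2 : σ * τ ∉ alternatingGroup (Fin n) := by rw [mem_mul]; tauto
    have h3 : σ * σ' ∈ alternatingGroup (Fin n) := by rw [mem_mul]; tauto
    rw [ext0_even π h3, ext0_even π h, ext0_even π h', ext0_odd π h2, zero_mul, add_zero,
      ← map_mul]
    rfl
  · have h2 : σ * τ ∉ alternatingGroup (Fin n) := by rw [mem_mul]; tauto
    have h3 : σ * σ' ∉ alternatingGroup (Fin n) := by rw [mem_mul]; tauto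
    rw [ext0_odd π h3, ext0_odd π h', ext0_odd π h2, zero_mul, add_zero, mul_zero]
  · have h2 : τ * σ' ∉ alternatingGroup (Fin n) := by rw [mem_mul]; tauto
    have h3 : σ * σ' ∉ alternatingGroup (Fin n) := by rw [mem_mul]; tauto
    rw [ext0_odd π h3, ext0_odd π h, ext0_odd π h2, zero_mul, mul_zero, add_zero]
  · have h2 : σ * τ ∈ alternatingGroup (Fin n) := by rw [mem_mul]; tauto
    have h4 : τ * σ' ∈ alternatingGroup (Fin n) := by rw [mem_mul]; tauto
    have h3 : σ * σ' ∈ alternatingGroup (Fin n) := by rw [mem_mul]; tauto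
    rw [ext0_odd π h, zero_mul, zero_add, ext0_even π h3, ext0_even π h2, ext0_even π h4,
      ← map_mul]
    congr 1
    apply Subtype.ext
    show σ * σ' = (σ * τ) * (τ * σ')
    rw [mul_assoc, ← mul_assoc τ, hττ, one_mul]

theorem ext0_one (π : alternatingGroup (Fin n) →* (E →ₗ[ℝ] E)) : ext0 π 1 = 1 := by
  rw [ext0_even π (one_mem _)]
  exact map_one π

omit [NormedAddCommGroup E] [InnerProductSpace ℝ E] in
theorem l2_ext {x y : WithLp 2 (E × E)} (h1 : x.fst = y.fst) (h2 : x.snd = y.snd) : x = y := by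
  apply WithLp.ofLp_injective
  exact Prod.ext h1 h2

/-- The action of `σ` on the pairs. -/
noncomputable def mat (π : alternatingGroup (Fin n) →* (E →ₗ[ℝ] E)) (τ σ : Equiv.Perm (Fin n)) :
    WithLp 2 (E × E) →ₗ[ℝ] WithLp 2 (E × E) where
  toFun x := WithLp.toLp 2 (ext0 π σ x.fst + ext0 π (σ * τ) x.snd,
    ext0 π (τ * σ) x.fst + ext0 π (τ * σ * τ) x.snd)
  map_add' x y := by
    apply l2_ext
    · show ext0 π σ (x.fst + y.fst) + ext0 π (σ * τ) (x.snd + y.snd)
        = (ext0 π σ x.fst + ext0 π (σ * τ) x.snd) + (ext0 π σ y.fst + ext0 π (σ * τ) y.snd)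
      simp only [map_add]; abel
    · show ext0 π (τ * σ) (x.fst + y.fst) + ext0 π (τ * σ * τ) (x.snd + y.snd)
        = (ext0 π (τ * σ) x.fst + ext0 π (τ * σ * τ) x.snd)
          + (ext0 π (τ * σ) y.fst + ext0 π (τ * σ * τ) y.snd)
      simp only [map_add]; abel
  map_smul' c x := by
    apply l2_ext
    · simp
    · simp

theorem mat_fst (π : alternatingGroup (Fin n) →* (E →ₗ[ℝ] E)) (τ σ : Equiv.Perm (Fin n))
    (x : WithLp 2 (E × E)) :
    (mat π τ σ x).fst = ext0 π σ x.fst + ext0 π (σ * τ) x.snd := rfl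

theorem mat_snd (π : alternatingGroup (Fin n) →* (E →ₗ[ℝ] E)) (τ σ : Equiv.Perm (Fin n))
    (x : WithLp 2 (E × E)) :
    (mat π τ σ x).snd = ext0 π (τ * σ) x.fst + ext0 π (τ * σ * τ) x.snd := rfl

/-- The induced representation. -/
noncomputable def rep (π : alternatingGroup (Fin n) →* (E →ₗ[ℝ] E)) (τ : Equiv.Perm (Fin n))
    (hτ : τ ∉ alternatingGroup (Fin n)) (hττ : τ * τ = 1) :
    Equiv.Perm (Fin n) →* (WithLp 2 (E × E) →ₗ[ℝ] WithLp 2 (E × E)) where
  toFun σ := mat π τ σ
  map_one' := by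
    apply LinearMap.ext
    intro x
    apply l2_ext
    · rw [mat_fst, one_mul, ext0_one, ext0_odd π hτ]
      simp
    · rw [mat_snd, mul_one, hττ, ext0_one, ext0_odd π hτ]
      simp
  map_mul' σ σ' := by
    apply LinearMap.ext
    intro x
    apply l2_ext
    · rw [mat_fst, Module.End.mul_apply, mat_fst, mat_fst, mat_snd]
      rw [key π hτ hττ σ σ', mul_assoc σ σ' τ, key π hτ hττ σ (σ' * τ), ← mul_assoc τ σ' τ]
      simp only [LinearMap.add_apply, Module.End.mul_apply, map_add]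
      abel
    · rw [mat_snd, Module.End.mul_apply, mat_snd, mat_fst, mat_snd]
      rw [← mul_assoc τ σ σ', key π hτ hττ (τ * σ) σ', mul_assoc (τ * σ) σ' τ,
        key π hτ hττ (τ * σ) (σ' * τ), ← mul_assoc τ σ' τ]
      simp only [LinearMap.add_apply, Module.End.mul_apply, map_add]
      abel

theorem rep_apply (π : alternatingGroup (Fin n) →* (E →ₗ[ℝ] E)) (τ : Equiv.Perm (Fin n))
    (hτ : τ ∉ alternatingGroup (Fin n)) (hττ : τ * τ = 1) (σ : Equiv.Perm (Fin n)) :
    rep π τ hτ hττ σ = mat π τ σ := rfl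

theorem mat_even (π : alternatingGroup (Fin n) →* (E →ₗ[ℝ] E)) {τ σ : Equiv.Perm (Fin n)}
    (hτ : τ ∉ alternatingGroup (Fin n)) (h : σ ∈ alternatingGroup (Fin n))
    (h' : τ * σ * τ ∈ alternatingGroup (Fin n)) (x : WithLp 2 (E × E)) :
    mat π τ σ x = WithLp.toLp 2 (π ⟨σ, h⟩ x.fst, π ⟨τ * σ * τ, h'⟩ x.snd) := by
  have h2 : σ * τ ∉ alternatingGroup (Fin n) := by rw [mem_mul]; tauto
  have h3 : τ * σ ∉ alternatingGroup (Fin n) := by rw [mem_mul]; tauto
  apply l2_ext
  · rw [mat_fst, ext0_even π h, ext0_odd π h2]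
    simp
  · rw [mat_snd, ext0_even π h', ext0_odd π h3]
    simp

theorem mat_norm (π : alternatingGroup (Fin n) →* (E →ₗ[ℝ] E)) {τ : Equiv.Perm (Fin n)}
    (hπ : ∀ g v, ‖π g v‖ = ‖v‖)
    (hτ : τ ∉ alternatingGroup (Fin n)) (σ : Equiv.Perm (Fin n))
    (x : WithLp 2 (E × E)) :
    ‖mat π τ σ x‖ = ‖x‖ := by
  have : ‖mat π τ σ x‖ ^ 2 = ‖x‖ ^ 2 := by
    rw [WithLp.prod_norm_sq_eq_of_L2, WithLp.prod_norm_sq_eq_of_L2, mat_fst, mat_snd]
    by_cases h : σ ∈ alternatingGroup (Fin n)
    · have h2 : σ * τ ∉ alternatingGroup (Fin n) := by rw [mem_mul]; tauto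
      have h3 : τ * σ ∉ alternatingGroup (Fin n) := by rw [mem_mul]; tauto
      have h4 : τ * σ * τ ∈ alternatingGroup (Fin n) := by rw [mem_mul]; tauto
      rw [ext0_even π h, ext0_odd π h2, ext0_odd π h3, ext0_even π h4]
      simp only [LinearMap.zero_apply, add_zero, zero_add, hπ]
    · have h2 : σ * τ ∈ alternatingGroup (Fin n) := by rw [mem_mul]; tauto
      have h3 : τ * σ ∈ alternatingGroup (Fin n) := by rw [mem_mul]; tauto
      have h4 : τ * σ * τ ∉ alternatingGroup (Fin n) := by rw [mem_mul]; tauto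
      rw [ext0_odd π h, ext0_even π h2, ext0_even π h3, ext0_odd π h4]
      simp only [LinearMap.zero_apply, add_zero, zero_add, hπ]
      ring
  exact (pow_left_inj₀ (norm_nonneg _) (norm_nonneg _) (by norm_num)).1 this

/-- pairs of vectors of `F` -/
noncomputable def pairs (F : Submodule ℝ E) : Submodule ℝ (WithLp 2 (E × E)) where
  carrier := {x | x.fst ∈ F ∧ x.snd ∈ F}
  add_mem' := fun ha hb => ⟨F.add_mem ha.1 hb.1, F.add_mem ha.2 hb.2⟩
  zero_mem' := ⟨F.zero_mem, F.zero_mem⟩
  smul_mem' := fun c _ ha => ⟨F.smul_mem c ha.1, F.smul_mem c ha.2⟩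

theorem mem_pairs {F : Submodule ℝ E} {x : WithLp 2 (E × E)} :
    x ∈ pairs F ↔ x.fst ∈ F ∧ x.snd ∈ F := Iff.rfl

theorem finrank_pairs [FiniteDimensional ℝ E] (F : Submodule ℝ E) :
    Module.finrank ℝ (pairs F) = 2 * Module.finrank ℝ F := by
  let e : pairs F ≃ₗ[ℝ] F × F :=
    { toFun := fun x => (⟨x.1.fst, x.2.1⟩, ⟨x.1.snd, x.2.2⟩)
      map_add' := fun x y => rfl
      map_smul' := fun c x => rfl
      invFun := fun p => ⟨WithLp.toLp 2 (p.1.1, p.2.1), ⟨p.1.2, p.2.2⟩⟩
      left_inv := fun x => rfl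
      right_inv := fun p => rfl }
  rw [e.finrank_eq, Module.finrank_prod]
  ring

end IndAux

theorem ind {n : ℕ} (hn : 2 ≤ n) {E : Type u} [NormedAddCommGroup E] [InnerProductSpace ℝ E]
    [FiniteDimensional ℝ E] (π : alternatingGroup (Fin n) →* (E →ₗ[ℝ] E))
    (hπ : ∀ g v, ‖π g v‖ = ‖v‖) (F : Submodule ℝ E) (hF : ∀ g, ∀ v ∈ F, π g v ∈ F) (k : ℕ)
    (hno : NoInvA π F k) :
    ∃ (E' : Type u) (_ : NormedAddCommGroup E') (_ : InnerProductSpace ℝ E')
      (_ : FiniteDimensional ℝ E') (π' : Equiv.Perm (Fin n) →* (E' →ₗ[ℝ] E'))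
      (F' : Submodule ℝ E') (i : E →ₗ[ℝ] E'),
      (∀ g v, ‖π' g v‖ = ‖v‖) ∧ (∀ g, ∀ v ∈ F', π' g v ∈ F') ∧ (∀ v, ‖i v‖ = ‖v‖) ∧
      (∀ v ∈ F, i v ∈ F') ∧
      (∀ (g : alternatingGroup (Fin n)) (v : E), π' (g : Equiv.Perm (Fin n)) (i v) = i (π g v)) ∧
      Module.finrank ℝ F' = 2 * Module.finrank ℝ F ∧ NoInv π' F' k := by
  classical
  set τ : Equiv.Perm (Fin n) := Equiv.swap ⟨0, by omega⟩ ⟨1, by omega⟩ with hτdef
  have hττ : τ * τ = 1 := Equiv.swap_mul_self _ _
  have hτ : τ ∉ alternatingGroup (Fin n) := by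
    rw [Equiv.Perm.mem_alternatingGroup, hτdef, Equiv.Perm.sign_swap]
    · decide
    · intro h
      have := congrArg Fin.val h
      simp at this
  have hconj : ∀ {σ : Equiv.Perm (Fin n)}, σ ∈ alternatingGroup (Fin n) →
      τ * σ * τ ∈ alternatingGroup (Fin n) := by
    intro σ h
    rw [IndAux.mem_mul, IndAux.mem_mul]
    tauto
  let i : E →ₗ[ℝ] WithLp 2 (E × E) :=
    { toFun := fun v => WithLp.toLp 2 (v, 0)
      map_add' := fun v w => by
        apply IndAux.l2_ext
        · simp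
        · simp
      map_smul' := fun c v => by
        apply IndAux.l2_ext
        · simp
        · simp }
  have hif : ∀ v, (i v).fst = v := fun v => rfl
  have his : ∀ v, (i v).snd = 0 := fun v => rfl
  refine ⟨WithLp 2 (E × E), inferInstance, inferInstance, inferInstance,
    IndAux.rep π τ hτ hττ, IndAux.pairs F, i, ?_, ?_, ?_, ?_, ?_, IndAux.finrank_pairs F, ?_⟩
  · intro g v
    exact IndAux.mat_norm π hπ hτ g v
  · intro g v hv
    have hF0 : ∀ σ : Equiv.Perm (Fin n), ∀ v ∈ F, IndAux.ext0 π σ v ∈ F := by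
      intro σ v hv
      by_cases h : σ ∈ alternatingGroup (Fin n)
      · rw [IndAux.ext0_even π h]
        exact hF _ _ hv
      · rw [IndAux.ext0_odd π h]
        exact F.zero_mem
    rw [IndAux.rep_apply]
    rw [IndAux.mem_pairs] at hv ⊢
    rw [IndAux.mat_fst, IndAux.mat_snd]
    exact ⟨F.add_mem (hF0 _ _ hv.1) (hF0 _ _ hv.2), F.add_mem (hF0 _ _ hv.1) (hF0 _ _ hv.2)⟩
  · intro v
    have : ‖i v‖ ^ 2 = ‖v‖ ^ 2 := by
      rw [WithLp.prod_norm_sq_eq_of_L2, hif, his]
      simp
    exact (pow_left_inj₀ (norm_nonneg _) (norm_nonneg _) (by norm_num)).1 this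
  · intro v hv
    exact ⟨hv, F.zero_mem⟩
  · intro g v
    rw [IndAux.rep_apply, IndAux.mat_even π hτ g.2 (hconj g.2)]
    apply IndAux.l2_ext
    · rfl
    · simp [his]
  · intro A hA v hv hfix
    -- all the even permutations of `A` fix `v`
    have hall : ∀ g : Equiv.Perm (Fin n), g ∈ alternatingGroup (Fin n) →
        (∀ x, x ∉ A → g x = x) → IndAux.rep π τ hτ hττ g v = v := by
      intro g hg hgA
      refine pair_induction A (fun g => IndAux.rep π τ hτ hττ g v = v) ?_ ?_ ?_ g hg hgA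
      · simp
      · intro g h hg hh
        show IndAux.rep π τ hτ hττ (g * h) v = v
        rw [map_mul, Module.End.mul_apply]
        rw [hh, hg]
      · intro i hi j hj i' hi' j' hj' hij hij'
        exact hfix i hi j hj i' hi' j' hj' hij hij'
    have hv1 : v.fst = 0 := by
      apply hno A hA v.fst hv.1
      intro g hgA
      have := hall g g.2 hgA
      rw [IndAux.rep_apply, IndAux.mat_even π hτ g.2 (hconj g.2)] at this
      exact congrArg WithLp.fst this
    have hv2 : v.snd = 0 := by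
      apply hno (A.map τ.toEmbedding) (by rw [Finset.card_map]; exact hA) v.snd hv.2
      intro g hgA
      have hg' : τ * (g : Equiv.Perm (Fin n)) * τ ∈ alternatingGroup (Fin n) := hconj g.2
      have h1 := hall _ hg' (by
        intro x hx
        rw [Equiv.Perm.mul_apply, Equiv.Perm.mul_apply, hgA]
        · rw [← Equiv.Perm.mul_apply, hττ, Equiv.Perm.one_apply]
        · intro h
          rw [Finset.mem_map] at h
          obtain ⟨y, hy, hyx⟩ := h
          have : y = x := τ.injective hyx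
          exact hx (this ▸ hy))
      rw [IndAux.rep_apply, IndAux.mat_even π hτ hg' (hconj hg')] at h1
      have h2 := congrArg WithLp.snd h1
      have h3 : (⟨τ * (τ * (g : Equiv.Perm (Fin n)) * τ) * τ, hconj hg'⟩ :
          alternatingGroup (Fin n)) = g := by
        apply Subtype.ext
        show τ * (τ * (g : Equiv.Perm (Fin n)) * τ) * τ = g
        rw [← mul_assoc τ, ← mul_assoc τ τ, hττ, one_mul, mul_assoc, hττ, mul_one]
      have h4 : π ⟨τ * (τ * (g : Equiv.Perm (Fin n)) * τ) * τ, hconj hg'⟩ v.snd = v.snd := h2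
      rw [h3] at h4
      exact h4
    exact IndAux.l2_ext hv1 hv2

end Pool.Agent.RS
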