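import Pool.Agent.Helper36.RS.Defs

set_option autoImplicit false

/-!
# ETA-02: tools for the trace on a subspace

`trP B X = trace (X ∘ P_B)`, `P_B = B.starProjection`.

PROOFS.
* `trP_eq_sum`: Take the orthonormal basis of `E` obtained from `b` and an orthonormal basis of
  `Bᗮ`, or: `LinearMap.trace ℝ E (X ∘ P_B) = LinearMap.trace ℝ B (P_B X restricted)` by
  `LinearMap.trace_comp_comm'` for the maps `B.subtype : B → E` and `B.orthogonalProjection ∘ X`
  (note `B.starProjection = B.subtype ∘ B.orthogonalProjection`), then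
  `LinearMap.trace_eq_sum_inner` (trace of an operator in an orthonormal basis) and
  `⟪orthogonalProjection u, b i⟫ = ⟪u, b i⟫`.
* `trP_comm`: if `X` preserves `B` then `X P_B = P_B X P_B`; so
  `tr (X Y P) = tr ((X P) (Y P)) = tr ((Y P) (X P)) = tr (Y X P)`.  (Or through bases.)
* `trP_mono`, `trP_le_finrank`: from `trP_eq_sum` with `stdOrthonormalBasis ℝ B`.
* `trP_sub_le`: `B' ≤ B`, `X` nonnegative on `B`: an orthonormal basis of `B'` and one of
  `B'ᗮ ⊓ B` together form one of `B`; or: `P_B - P_B'` is the projection onto `B'ᗮ ⊓ B`, so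
  `trP B X - trP B' X = trP (B'ᗮ ⊓ B) X ≥ 0`.
* `trP_proj`: if the projection `P` onto `L` preserves `B` then `P P_B` is the projection onto
  `L ⊓ B`; its trace is the dimension of `L ⊓ B` (take `b` an orthonormal basis of `L ⊓ B`:
  `trP (L ⊓ B) 1`).
* `trP_map`: image of an orthonormal basis of `F` under the isometry is one of `F.map ι`.
-/

open Finset

namespace Pool.Agent.RS

open scoped InnerProductSpace

variable {E : Type*} [NormedAddCommGroup E] [InnerProductSpace ℝ E] [FiniteDimensional ℝ E]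

private theorem h86_trP (B : Submodule ℝ E) (X : E →ₗ[ℝ] E) :
    trP B X = LinearMap.trace ℝ B
      (B.orthogonalProjectionOnto.toLinearMap ∘ₗ (X ∘ₗ B.subtype)) := by
  unfold trP
  have e : X ∘ₗ B.starProjection.toLinearMap =
      (X ∘ₗ B.subtype) ∘ₗ B.orthogonalProjectionOnto.toLinearMap := by
    ext v
    rfl
  rw [e, LinearMap.trace_comp_comm']

theorem trP_eq_sum (B : Submodule ℝ E) (X : E →ₗ[ℝ] E) {ι : Type*} [Fintype ι]
    (b : OrthonormalBasis ι ℝ B) : trP B X = ∑ i, ⟪X (b i : E), (b i : E)⟫_ℝ := by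
  rw [h86_trP, LinearMap.trace_eq_sum_inner _ b]
  refine Finset.sum_congr rfl fun i _ => ?_
  show ⟪b i, B.orthogonalProjectionOnto (X (b i))⟫_ℝ = _
  rw [B.inner_orthogonalProjectionOnto_eq_of_mem_left, real_inner_comm]

theorem trP_add (B : Submodule ℝ E) (X Y : E →ₗ[ℝ] E) : trP B (X + Y) = trP B X + trP B Y := by
  unfold trP
  rw [LinearMap.add_comp, map_add]

theorem trP_smul (B : Submodule ℝ E) (c : ℝ) (X : E →ₗ[ℝ] E) : trP B (c • X) = c * trP B X := by
  unfold trP
  rw [LinearMap.smul_comp, map_smul, smul_eq_mul]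

theorem trP_sum (B : Submodule ℝ E) {ι : Type*} (s : Finset ι) (X : ι → E →ₗ[ℝ] E) :
    trP B (∑ i ∈ s, X i) = ∑ i ∈ s, trP B (X i) := by
  classical
  induction s using Finset.induction_on with
  | empty =>
    unfold trP
    simp
  | insert a s ha ih => rw [Finset.sum_insert ha, Finset.sum_insert ha, trP_add, ih]

private theorem h86_res (B : Submodule ℝ E) (X : E →ₗ[ℝ] E) (hX : ∀ v ∈ B, X v ∈ B) :
    trP B X = LinearMap.trace ℝ B (X.restrict hX) := by
  rw [h86_trP]
  congr 1
  ext v
  have h1 := B.orthogonalProjectionOnto_mem_subspace_eq_self ⟨X v, hX v v.2⟩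
  show ((B.orthogonalProjectionOnto (X v) : B) : E) = X v
  exact congrArg Subtype.val h1

theorem trP_comm (B : Submodule ℝ E) (X Y : E →ₗ[ℝ] E) (hX : ∀ v ∈ B, X v ∈ B)
    (hY : ∀ v ∈ B, Y v ∈ B) : trP B (X * Y) = trP B (Y * X) := by
  have h1 : ∀ v ∈ B, (X * Y) v ∈ B := fun v hv => hX _ (hY v hv)
  have h2 : ∀ v ∈ B, (Y * X) v ∈ B := fun v hv => hY _ (hX v hv)
  rw [h86_res B _ h1, h86_res B _ h2]
  have e1 : (X * Y).restrict h1 = X.restrict hX * Y.restrict hY := rfl
  have e2 : (Y * X).restrict h2 = Y.restrict hY * X.restrict hX := rfl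
  rw [e1, e2, LinearMap.trace_mul_comm]

/-- The trace on `B` only depends on the restriction to `B`. -/
theorem trP_congr (B : Submodule ℝ E) (X Y : E →ₗ[ℝ] E) (h : ∀ v ∈ B, X v = Y v) :
    trP B X = trP B Y := by
  rw [trP_eq_sum B X (stdOrthonormalBasis ℝ B), trP_eq_sum B Y (stdOrthonormalBasis ℝ B)]
  exact Finset.sum_congr rfl fun i _ => by rw [h _ (Subtype.mem _)]

theorem trP_mono (B : Submodule ℝ E) (X Y : E →ₗ[ℝ] E) (h : ∀ v ∈ B, ⟪X v, v⟫_ℝ ≤ ⟪Y v, v⟫_ℝ) :
    trP B X ≤ trP B Y := by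
  rw [trP_eq_sum B X (stdOrthonormalBasis ℝ B), trP_eq_sum B Y (stdOrthonormalBasis ℝ B)]
  exact Finset.sum_le_sum fun i _ => h _ (Subtype.mem _)

private theorem h86_norm (B : Submodule ℝ E) (i : Fin (Module.finrank ℝ B)) :
    ‖((stdOrthonormalBasis ℝ B i : B) : E)‖ = 1 :=
  (stdOrthonormalBasis ℝ B).orthonormal.1 i

theorem trP_one (B : Submodule ℝ E) : trP B 1 = Module.finrank ℝ B := by
  rw [trP_eq_sum B 1 (stdOrthonormalBasis ℝ B)]
  have h1 : ∀ i, ⟪(1 : E →ₗ[ℝ] E) ((stdOrthonormalBasis ℝ B i : B) : E),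
      ((stdOrthonormalBasis ℝ B i : B) : E)⟫_ℝ = 1 := by
    intro i
    rw [Module.End.one_apply, real_inner_self_eq_norm_sq, h86_norm, one_pow]
  rw [Finset.sum_congr rfl fun i _ => h1 i, Finset.sum_const, Finset.card_univ, Fintype.card_fin,
    nsmul_eq_mul, mul_one]

theorem trP_le_finrank (B : Submodule ℝ E) (X : E →ₗ[ℝ] E) (c : ℝ)
    (h : ∀ v ∈ B, ⟪X v, v⟫_ℝ ≤ c * ‖v‖ ^ 2) : trP B X ≤ c * Module.finrank ℝ B := by
  rw [← trP_one, ← trP_smul]
  refine trP_mono B _ _ fun v hv => (h v hv).trans (le_of_eq ?_)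
  rw [LinearMap.smul_apply, Module.End.one_apply, real_inner_smul_left,
    real_inner_self_eq_norm_sq]

theorem le_trP (B : Submodule ℝ E) (X : E →ₗ[ℝ] E) (c : ℝ)
    (h : ∀ v ∈ B, c * ‖v‖ ^ 2 ≤ ⟪X v, v⟫_ℝ) : c * Module.finrank ℝ B ≤ trP B X := by
  rw [← trP_one, ← trP_smul]
  refine trP_mono B _ _ fun v hv => (le_of_eq ?_).trans (h v hv)
  rw [LinearMap.smul_apply, Module.End.one_apply, real_inner_smul_left,
    real_inner_self_eq_norm_sq]

theorem trP_sub_le (B' B : Submodule ℝ E) (hB : B' ≤ B) (X : E →ₗ[ℝ] E)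
    (h : ∀ v ∈ B, 0 ≤ ⟪X v, v⟫_ℝ) : trP B' X ≤ trP B X := by
  set C : Submodule ℝ E := B'ᗮ ⊓ B with hC
  have key : ∀ u, C.starProjection u = B.starProjection u - B'.starProjection u := by
    intro u
    have m1 : B.starProjection u ∈ B := B.starProjection_apply_mem u
    have m2 : B'.starProjection u ∈ B' := B'.starProjection_apply_mem u
    have o1 : u - B.starProjection u ∈ Bᗮ := B.sub_starProjection_mem_orthogonal u
    have o2 : u - B'.starProjection u ∈ B'ᗮ := B'.sub_starProjection_mem_orthogonal u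
    have hmem : B.starProjection u - B'.starProjection u ∈ C := by
      refine ⟨?_, B.sub_mem m1 (hB m2)⟩
      have o3 := B'ᗮ.sub_mem o2 (Submodule.orthogonal_le hB o1)
      have e : u - B'.starProjection u - (u - B.starProjection u) =
          B.starProjection u - B'.starProjection u := by abel
      rwa [e] at o3
    have horth : u - (B.starProjection u - B'.starProjection u) ∈ Cᗮ := by
      have e : u - (B.starProjection u - B'.starProjection u) =
          (u - B.starProjection u) + B'.starProjection u := by abel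
      rw [e]
      refine Cᗮ.add_mem (Submodule.orthogonal_le inf_le_right o1) ?_
      exact Submodule.orthogonal_le inf_le_left (Submodule.le_orthogonal_orthogonal B' m2)
    exact (Submodule.eq_starProjection_of_mem_orthogonal hmem horth)
  have hsum : trP B X = trP B' X + trP C X := by
    unfold trP
    rw [← map_add, ← LinearMap.comp_add]
    congr 2
    ext u
    show B.starProjection u = B'.starProjection u + C.starProjection u
    rw [key u]
    abel
  have hC0 := le_trP C X 0 (fun v hv => by rw [zero_mul]; exact h v hv.2)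
  rw [zero_mul] at hC0
  linarith

theorem trP_proj (L B : Submodule ℝ E) (h : ∀ v ∈ B, L.starProjection v ∈ B) :
    trP B L.starProjection.toLinearMap = Module.finrank ℝ (L ⊓ B : Submodule ℝ E) := by
  rw [← trP_one (L ⊓ B)]
  unfold trP
  congr 1
  ext u
  show L.starProjection (B.starProjection u) = (L ⊓ B).starProjection u
  have m1 : B.starProjection u ∈ B := B.starProjection_apply_mem u
  have hmem : L.starProjection (B.starProjection u) ∈ L ⊓ B :=
    ⟨L.starProjection_apply_mem _, h _ m1⟩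
  have horth : u - L.starProjection (B.starProjection u) ∈ (L ⊓ B)ᗮ := by
    have e : u - L.starProjection (B.starProjection u) =
        (u - B.starProjection u) + (B.starProjection u - L.starProjection (B.starProjection u)) := by
      abel
    rw [e]
    exact (L ⊓ B)ᗮ.add_mem
      (Submodule.orthogonal_le inf_le_right (B.sub_starProjection_mem_orthogonal u))
      (Submodule.orthogonal_le inf_le_left (L.sub_starProjection_mem_orthogonal _))
  exact (Submodule.eq_starProjection_of_mem_orthogonal hmem horth).symm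

theorem trP_map {E' : Type*} [NormedAddCommGroup E'] [InnerProductSpace ℝ E']
    [FiniteDimensional ℝ E'] (i : E →ₗ[ℝ] E') (hi : ∀ v, ‖i v‖ = ‖v‖) (F : Submodule ℝ E)
    (X : E →ₗ[ℝ] E) (X' : E' →ₗ[ℝ] E') (h : ∀ v ∈ F, X' (i v) = i (X v)) :
    trP (F.map i) X' = trP F X := by
  let I : E →ₗᵢ[ℝ] E' := ⟨i, hi⟩
  let φ : F →ₗᵢ[ℝ] (F.map i) := ⟨i.submoduleMap F, fun v => hi v⟩
  have hφ : Function.Surjective φ := i.submoduleMap_surjective F
  let e : F ≃ₗᵢ[ℝ] (F.map i) := LinearIsometryEquiv.ofSurjective φ hφ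
  let b := stdOrthonormalBasis ℝ F
  rw [trP_eq_sum (F.map i) X' (b.map e), trP_eq_sum F X b]
  refine Finset.sum_congr rfl fun j _ => ?_
  have h1 : (((b.map e) j : F.map i) : E') = i (b j : E) := by
    rw [OrthonormalBasis.map_apply]
    rfl
  rw [h1, h _ (Subtype.mem _)]
  exact I.inner_map_map (X (b j : E)) (b j : E)

end Pool.Agent.RS
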