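import Pool.Agent.Helper36.RS.DblAvg
import Pool.Agent.Helper36.RS.Tr
import Pool.Agent.Helper46.RC.Op

set_option autoImplicit false

/-!
# ETA-12: peeling

`fixD π F e` = vectors of `F` fixed by the double transpositions `dbl (e 0), dbl (e 1), ...` of
pairwise disjoint blocks of four letters.

PROOF of `fixD_card`.  Two injective families `e, e'` of `t` blocks differ by a permutation `σ` of
`Fin n` (`RC.Op.exists_perm` for the embeddings of `Fin t × Fin 4`): `e' i l = σ (e i l)`, so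
`dbl (e' i) = σ * dbl (e i) * σ⁻¹` (conjugate of a swap), and `π σ` maps `fixD π F e` isomorphically
onto `fixD π F e'` (`F` is invariant).  So the dimensions agree.

PROOF of `peel`.  Induction on `b`.  `b = 0`: `fixD π F e ≤ F`.  Let `e : Fin (b+1) → Fin 4 → Fin n`,
`e₀ = fun i => e i.castSucc` (`b` blocks), `X` = complement of the range of `e₀`,
`N = |X| = n - 4 b`, `U = fixD π F e₀`.  By induction `dim U ≤ (1 - r/(4n))^b dim F`.
`U` is invariant under `π (swap i j)`, `i, j ∈ X` (disjoint from the blocks, so it commutes with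
`dbl (e₀ i)`).  With `a = n - r - 1 ≥ 1`, `hno` holds for `U` and `A ⊆ X`, `a < |A|` (that is
`n - r ≤ |A|`), so by `dbl_le` for `u ∈ U`
`∑_{c} ⟪π (dbl c) u, u⟫ ≤ (N^2 a^2 + 6 N^3) ‖u‖^2`, `c` over the `M = N(N-1)(N-2)(N-3)` injective
blocks in `X`.
NUMBERS: `4 b ≤ r/2` (from `8 (b+1) ≤ r`), so `a ≤ N - r/2`, `N ≥ n - r/2 ≥ r`,
`a^2 ≤ N^2 - r N + r^2/4 ≤ N^2 - (3/4) r N`, `M ≥ N^4 - 6 N^3`, and
`(1 - r/(2N)) M ≥ N^4 - 6 N^3 - (r/2) N^3 ≥ N^4 - (3/4) r N^3 + 6 N^3 ≥ N^2 a^2 + 6 N^3` as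
`r ≥ 48`.  So the average over `c` of `⟪π (dbl c) u, u⟫` is at most
`(1 - r/(2N)) ‖u‖^2 ≤ (1 - r/(2n)) ‖u‖^2`.
For every such `c` let `e_c` be `e₀` followed by `c` (`Fin.snoc`): `fixD π F e_c` is
`{u ∈ U : π (dbl c) u = u}`; `(1 + π (dbl c))/2` maps `U` to itself and is the orthogonal projection
onto it on `U` (`dbl c` is an involution commuting with the `dbl (e₀ i)`), so
`dim (fixD π F e_c) = trP U ((1 + π (dbl c))/2)`, and this is `dim (fixD π F e)` by `fixD_card`.
Average over `c` (`M > 0` as `N ≥ 24`):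
`dim (fixD π F e) = trP U (average of (1 + π (dbl c))/2) ≤ (1 - r/(4n)) dim U` (`trP_le_finrank`).
-/

open Finset

namespace Pool.Agent.RS

open scoped InnerProductSpace

private theorem dbl_conj {n : ℕ} (σ : Equiv.Perm (Fin n)) (c : Fin 4 → Fin n) :
    dbl (fun l => σ (c l)) = σ * dbl c * σ⁻¹ := by
  unfold dbl
  rw [Equiv.swap_apply_apply, Equiv.swap_apply_apply]
  group

private theorem dbl_comm {n : ℕ} (σ : Equiv.Perm (Fin n)) (c : Fin 4 → Fin n)
    (h : ∀ l, σ (c l) = c l) : dbl c * σ = σ * dbl c := by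
  have h1 := dbl_conj σ c
  have h2 : (fun l => σ (c l)) = c := funext h
  rw [h2] at h1
  calc dbl c * σ = σ * dbl c * σ⁻¹ * σ := by rw [← h1]
    _ = σ * dbl c := inv_mul_cancel_right _ _

private theorem dbl_apply_of_notMem {n : ℕ} (c : Fin 4 → Fin n) (x : Fin n)
    (h : ∀ l, c l ≠ x) : dbl c x = x := by
  unfold dbl
  rw [Equiv.Perm.mul_apply, Equiv.swap_apply_of_ne_of_ne (h 2).symm (h 3).symm,
    Equiv.swap_apply_of_ne_of_ne (h 0).symm (h 1).symm]

private theorem dbl_sq {n : ℕ} (c : Fin 4 → Fin n) (hc : Function.Injective c) :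
    dbl c * dbl c = 1 := by
  have h1 : Equiv.swap (c 0) (c 1) (c 2) = c 2 :=
    Equiv.swap_apply_of_ne_of_ne (fun h => absurd (hc h) (by decide))
      (fun h => absurd (hc h) (by decide))
  have h2 : Equiv.swap (c 0) (c 1) (c 3) = c 3 :=
    Equiv.swap_apply_of_ne_of_ne (fun h => absurd (hc h) (by decide))
      (fun h => absurd (hc h) (by decide))
  have h3 := Equiv.swap_apply_apply (Equiv.swap (c 0) (c 1)) (c 2) (c 3)
  rw [h1, h2] at h3
  have h4 : Equiv.swap (c 2) (c 3) * Equiv.swap (c 0) (c 1) =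
      Equiv.swap (c 0) (c 1) * Equiv.swap (c 2) (c 3) := by
    conv_lhs => rw [h3]
    rw [mul_assoc, mul_assoc, inv_mul_cancel, mul_one]
  unfold dbl
  calc Equiv.swap (c 0) (c 1) * Equiv.swap (c 2) (c 3) *
        (Equiv.swap (c 0) (c 1) * Equiv.swap (c 2) (c 3)) =
      Equiv.swap (c 0) (c 1) * (Equiv.swap (c 2) (c 3) * Equiv.swap (c 0) (c 1)) *
        Equiv.swap (c 2) (c 3) := by group
    _ = Equiv.swap (c 0) (c 1) * Equiv.swap (c 0) (c 1) *
        (Equiv.swap (c 2) (c 3) * Equiv.swap (c 2) (c 3)) := by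
      rw [h4]
      group
    _ = 1 := by rw [Equiv.swap_mul_self, Equiv.swap_mul_self, one_mul]

private theorem mem_fixD {E : Type*} [NormedAddCommGroup E] [InnerProductSpace ℝ E]
    [FiniteDimensional ℝ E] {n : ℕ} (π : Equiv.Perm (Fin n) →* (E →ₗ[ℝ] E))
    (F : Submodule ℝ E) {t : ℕ} (e : Fin t → Fin 4 → Fin n) (v : E) :
    v ∈ fixD π F e ↔ v ∈ F ∧ ∀ i, π (dbl (e i)) v = v := Iff.rfl

private theorem fixD_le {E : Type*} [NormedAddCommGroup E] [InnerProductSpace ℝ E]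
    [FiniteDimensional ℝ E] {n : ℕ} (π : Equiv.Perm (Fin n) →* (E →ₗ[ℝ] E))
    (F : Submodule ℝ E) (hF : ∀ g, ∀ v ∈ F, π g v ∈ F) {t : ℕ} (e e' : Fin t → Fin 4 → Fin n)
    (σ : Equiv.Perm (Fin n)) (hσ : ∀ i l, σ (e i l) = e' i l) :
    Module.finrank ℝ (fixD π F e) ≤ Module.finrank ℝ (fixD π F e') := by
  have hinj : Function.Injective (π σ) := by
    intro v w hvw
    have h1 : ∀ u : E, π σ⁻¹ (π σ u) = u := by
      intro u
      rw [← Module.End.mul_apply, ← map_mul, inv_mul_cancel, map_one, Module.End.one_apply]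
    rw [← h1 v, hvw, h1 w]
  have h1 : (fixD π F e).map (π σ) ≤ fixD π F e' := by
    rintro _ ⟨v, hv, rfl⟩
    refine ⟨hF σ v hv.1, fun i => ?_⟩
    have h2 : dbl (e' i) = σ * dbl (e i) * σ⁻¹ := by
      rw [← dbl_conj]
      congr 1
      funext l
      exact (hσ i l).symm
    rw [h2, ← Module.End.mul_apply, ← map_mul, inv_mul_cancel_right, map_mul,
      Module.End.mul_apply, hv.2 i]
  calc Module.finrank ℝ (fixD π F e) = Module.finrank ℝ ((fixD π F e).map (π σ)) :=
        (Submodule.equivMapOfInjective (π σ) hinj (fixD π F e)).finrank_eq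
    _ ≤ _ := Submodule.finrank_mono h1

theorem fixD_card {E : Type*} [NormedAddCommGroup E] [InnerProductSpace ℝ E]
    [FiniteDimensional ℝ E] {n : ℕ} (π : Equiv.Perm (Fin n) →* (E →ₗ[ℝ] E))
    (F : Submodule ℝ E) (hF : ∀ g, ∀ v ∈ F, π g v ∈ F) {t : ℕ} (e e' : Fin t → Fin 4 → Fin n)
    (he : Function.Injective (fun p : Fin t × Fin 4 => e p.1 p.2))
    (he' : Function.Injective (fun p : Fin t × Fin 4 => e' p.1 p.2)) :
    Module.finrank ℝ (fixD π F e) = Module.finrank ℝ (fixD π F e') := by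
  obtain ⟨σ, hσ⟩ := RC.Op.exists_perm (⟨_, he⟩ : Fin t × Fin 4 ↪ Fin n) ⟨_, he'⟩
  obtain ⟨τ, hτ⟩ := RC.Op.exists_perm (⟨_, he'⟩ : Fin t × Fin 4 ↪ Fin n) ⟨_, he⟩
  exact le_antisymm (fixD_le π F hF e e' σ fun i l => hσ (i, l))
    (fixD_le π F hF e' e τ fun i l => hτ (i, l))

/-- numbers -/
private theorem peel_num {n r b N a M : ℝ} (hr : 48 ≤ r) (hrn : 2 * r ≤ n)
    (hb : 8 * (b + 1) ≤ r) (hb0 : 0 ≤ b) (hN : N = n - 4 * b) (ha : a = n - r - 1)
    (hM : N ^ 4 - 6 * N ^ 3 ≤ M) :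
    N ^ 2 * a ^ 2 + 6 * N ^ 3 ≤ (1 - r / (2 * n)) * M := by
  have hNr : r ≤ N := by rw [hN]; linarith
  have hN0 : 0 < N := by linarith
  have hn0 : 0 < n := by linarith
  have hNn : N ≤ n := by rw [hN]; linarith
  have ha1 : a ≤ N - r / 2 := by rw [ha, hN]; linarith
  have ha0 : 0 ≤ a := by rw [ha]; linarith
  have ha2 : a ^ 2 ≤ N ^ 2 - 3 / 4 * r * N := by
    have h1 : a ^ 2 ≤ (N - r / 2) ^ 2 := pow_le_pow_left₀ ha0 ha1 2
    nlinarith
  have h1 : N ^ 2 * a ^ 2 + 6 * N ^ 3 ≤ N ^ 4 - 3 / 4 * r * N ^ 3 + 6 * N ^ 3 := by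
    have := mul_le_mul_of_nonneg_left ha2 (by positivity : (0 : ℝ) ≤ N ^ 2)
    nlinarith
  have h2 : N ^ 4 - 3 / 4 * r * N ^ 3 + 6 * N ^ 3 ≤ (1 - r / (2 * N)) * (N ^ 4 - 6 * N ^ 3) := by
    have h3 : (1 - r / (2 * N)) * (N ^ 4 - 6 * N ^ 3) =
        N ^ 4 - 6 * N ^ 3 - r / 2 * N ^ 3 + 3 * r * N ^ 2 := by
      field_simp
      ring
    rw [h3]
    have h4 : 0 ≤ (r - 48) * N ^ 3 := mul_nonneg (by linarith) (by positivity)
    have h5 : 0 ≤ r * N ^ 2 := by positivity
    nlinarith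
  have h6 : r / (2 * n) ≤ r / (2 * N) :=
    div_le_div_of_nonneg_left (by linarith) (by linarith) (by linarith)
  have h7 : r / (2 * N) ≤ 1 := by
    rw [div_le_one (by linarith)]
    linarith
  have h8 : 0 ≤ N ^ 4 - 6 * N ^ 3 := by
    have : N ^ 4 - 6 * N ^ 3 = (N - 6) * N ^ 3 := by ring
    rw [this]
    exact mul_nonneg (by linarith) (by positivity)
  calc N ^ 2 * a ^ 2 + 6 * N ^ 3 ≤ (1 - r / (2 * N)) * (N ^ 4 - 6 * N ^ 3) := h1.trans h2
    _ ≤ (1 - r / (2 * n)) * (N ^ 4 - 6 * N ^ 3) :=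
        mul_le_mul_of_nonneg_right (by linarith) h8
    _ ≤ (1 - r / (2 * n)) * M := mul_le_mul_of_nonneg_left hM (by linarith)

open Classical in
private theorem card_blocks {n : ℕ} (X : Finset (Fin n)) (hX : 3 ≤ X.card) :
    (X.card : ℝ) ^ 4 - 6 * (X.card : ℝ) ^ 3 ≤
      ((univ.filter (fun c : Fin 4 → Fin n => Function.Injective c ∧ ∀ l, c l ∈ X)).card : ℝ) := by
  have h1 : (univ : Finset (Fin 4 ↪ {x // x ∈ X})).card ≤
      (univ.filter (fun c : Fin 4 → Fin n => Function.Injective c ∧ ∀ l, c l ∈ X)).card := by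
    refine card_le_card_of_injOn (fun f l => (f l : Fin n)) ?_ ?_
    · intro f _
      have : Function.Injective (fun l => ((f l : {x // x ∈ X}) : Fin n)) ∧
          ∀ l, ((f l : {x // x ∈ X}) : Fin n) ∈ X :=
        ⟨fun l l' hll => f.injective (Subtype.ext hll), fun l => (f l).2⟩
      exact mem_coe.2 (mem_filter.2 ⟨mem_univ _, this⟩)
    · intro f _ g _ hfg
      ext l
      have := congrFun hfg l
      exact congrArg Fin.val this
  rw [card_univ, Fintype.card_embedding_eq, Fintype.card_coe, Fintype.card_fin] at h1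
  have h2 : ((X.card.descFactorial 4 : ℕ) : ℝ) ≤
      ((univ.filter (fun c : Fin 4 → Fin n => Function.Injective c ∧ ∀ l, c l ∈ X)).card : ℝ) := by
    exact_mod_cast h1
  refine le_trans ?_ h2
  obtain ⟨k, hk⟩ := Nat.exists_eq_add_of_le hX
  rw [hk]
  have h3 : (3 + k).descFactorial 4 = k * (k + 1) * (k + 2) * (k + 3) := by
    simp only [Nat.descFactorial_succ, Nat.descFactorial_zero]
    have e1 : 3 + k - 3 = k := by omega
    have e2 : 3 + k - 2 = k + 1 := by omega
    have e3 : 3 + k - 1 = k + 2 := by omega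
    have e4 : 3 + k - 0 = k + 3 := by omega
    rw [e1, e2, e3, e4]
    ring
  rw [h3]
  push_cast
  have : (0 : ℝ) ≤ k := Nat.cast_nonneg k
  nlinarith [mul_nonneg this this]

/-- The dimension of the fixed space as a trace. -/
private theorem fix_trace {E : Type*} [NormedAddCommGroup E] [InnerProductSpace ℝ E]
    [FiniteDimensional ℝ E] {n : ℕ} (π : Equiv.Perm (Fin n) →* (E →ₗ[ℝ] E))
    (hπ : ∀ g v, ‖π g v‖ = ‖v‖) (F : Submodule ℝ E) (hF : ∀ g, ∀ v ∈ F, π g v ∈ F)
    {b : ℕ} (e : Fin b → Fin 4 → Fin n) (c : Fin 4 → Fin n) (hc : Function.Injective c)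
    (hd : ∀ i l l', e i l ≠ c l') (ec : Fin (b + 1) → Fin 4 → Fin n)
    (h1 : ∀ i, ec (Fin.castSucc i) = e i) (h2 : ec (Fin.last b) = c) :
    trP (fixD π F e) ((2 : ℝ)⁻¹ • (1 + π (dbl c))) = Module.finrank ℝ (fixD π F ec) := by
  have hle : fixD π F ec ≤ fixD π F e := by
    intro v hv
    refine ⟨hv.1, fun i => ?_⟩
    rw [← h1 i]
    exact hv.2 _
  have hcomm : ∀ i v, π (dbl (e i)) (π (dbl c) v) = π (dbl c) (π (dbl (e i)) v) := by
    intro i v
    rw [← Module.End.mul_apply, ← Module.End.mul_apply, ← map_mul, ← map_mul,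
      dbl_comm (dbl c) (e i) fun l => dbl_apply_of_notMem c _ fun l' => (hd i l l').symm]
  have hsq : ∀ v, π (dbl c) (π (dbl c) v) = v := by
    intro v
    rw [← Module.End.mul_apply, ← map_mul, dbl_sq c hc, map_one, Module.End.one_apply]
  have hproj : ∀ v ∈ fixD π F e,
      ((2 : ℝ)⁻¹ • (1 + π (dbl c)) : E →ₗ[ℝ] E) v =
        (fixD π F ec).starProjection.toLinearMap v := by
    intro v hv
    have hX : ((2 : ℝ)⁻¹ • (1 + π (dbl c)) : E →ₗ[ℝ] E) v =
        (2 : ℝ)⁻¹ • (v + π (dbl c) v) := rfl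
    rw [hX]
    refine (Submodule.eq_starProjection_of_mem_of_inner_eq_zero ?_ ?_).symm
    · refine ⟨F.smul_mem _ (F.add_mem hv.1 (hF _ v hv.1)), fun i => ?_⟩
      rw [map_smul, map_add]
      congr 1
      refine Fin.lastCases ?_ (fun i => ?_) i
      · rw [h2, hsq, add_comm]
      · rw [h1, hcomm, hv.2 i]
    · intro w hw
      have h3 : π (dbl c) w = w := by
        have := hw.2 (Fin.last b)
        rwa [h2] at this
      have h4 : ⟪π (dbl c) v, w⟫_ℝ = ⟪v, w⟫_ℝ := by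
        conv_lhs => rw [← h3]
        exact RC.Equiv.inner_pres (π (dbl c)) (hπ _) v w
      rw [inner_sub_left, inner_smul_left, inner_add_left, h4]
      simp only [map_inv₀, conj_trivial]
      ring
  rw [trP_congr _ _ _ hproj, trP_proj]
  · congr 1
    rw [inf_eq_left.2 hle]
  · intro v _
    exact hle (Submodule.starProjection_apply_mem _ v)

theorem peel {E : Type*} [NormedAddCommGroup E] [InnerProductSpace ℝ E]
    [FiniteDimensional ℝ E] {n : ℕ} (π : Equiv.Perm (Fin n) →* (E →ₗ[ℝ] E))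
    (hπ : ∀ g v, ‖π g v‖ = ‖v‖) (F : Submodule ℝ E) (hF : ∀ g, ∀ v ∈ F, π g v ∈ F)
    {r : ℕ} (hr : 48 ≤ r) (hrn : 2 * r ≤ n) (hno : NoInv π F (n - r)) {b : ℕ} (hb : 8 * b ≤ r)
    (e : Fin b → Fin 4 → Fin n)
    (he : Function.Injective (fun p : Fin b × Fin 4 => e p.1 p.2)) :
    (Module.finrank ℝ (fixD π F e) : ℝ) ≤
      (1 - (r : ℝ) / (4 * n)) ^ b * Module.finrank ℝ F := by
  classical
  induction b with
  | zero =>
    rw [pow_zero, one_mul]
    have h : fixD π F e ≤ F := fun v hv => hv.1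
    exact_mod_cast Submodule.finrank_mono h
  | succ b ih =>
    have hrR : (48 : ℝ) ≤ r := by exact_mod_cast hr
    have hrnR : 2 * (r : ℝ) ≤ n := by exact_mod_cast hrn
    have hbR : 8 * ((b : ℝ) + 1) ≤ r := by exact_mod_cast hb
    have hn0 : (0 : ℝ) < n := by linarith
    have hb0 : (0 : ℝ) ≤ b := Nat.cast_nonneg b
    have hq0 : 0 ≤ 1 - (r : ℝ) / (4 * n) := by
      rw [sub_nonneg, div_le_one (by linarith)]
      linarith
    have he₀ : Function.Injective (fun p : Fin b × Fin 4 => e (Fin.castSucc p.1) p.2) := by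
      intro p q hpq
      have := he (a₁ := (Fin.castSucc p.1, p.2)) (a₂ := (Fin.castSucc q.1, q.2)) hpq
      rw [Prod.mk.injEq] at this
      exact Prod.ext (Fin.castSucc_injective b this.1) this.2
    have hU := ih (by omega) (fun i => e (Fin.castSucc i)) he₀
    set e₀ : Fin b → Fin 4 → Fin n := fun i => e (Fin.castSucc i) with he₀def
    set X : Finset (Fin n) := (univ.image (fun p : Fin b × Fin 4 => e₀ p.1 p.2))ᶜ with hX
    have hmemX : ∀ x, x ∈ X → ∀ i l, e₀ i l ≠ x := by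
      intro x hx i l h
      rw [hX, mem_compl] at hx
      exact hx (mem_image.2 ⟨(i, l), mem_univ _, h⟩)
    have hXc : X.card = n - 4 * b := by
      rw [hX, card_compl, card_image_of_injective _ he₀, card_univ, Fintype.card_prod,
        Fintype.card_fin, Fintype.card_fin, Fintype.card_fin, mul_comm b 4]
    have hXR : (X.card : ℝ) = n - 4 * b := by
      rw [hXc, Nat.cast_sub (by omega)]
      push_cast
      ring
    have haR : ((n - r - 1 : ℕ) : ℝ) = n - r - 1 := by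
      rw [Nat.cast_sub (by omega), Nat.cast_sub (by omega)]
      push_cast
      ring
    set C : Finset (Fin 4 → Fin n) :=
      univ.filter (fun c : Fin 4 → Fin n => Function.Injective c ∧ ∀ l, c l ∈ X) with hC
    have hM := card_blocks X (by omega)
    have hnum := peel_num hrR hrnR hbR hb0 hXR haR hM
    have hdbl : ∀ v ∈ fixD π F e₀, ∑ c ∈ C, ⟪π (dbl c) v, v⟫_ℝ ≤
        (1 - (r : ℝ) / (2 * n)) * (C.card : ℝ) * ‖v‖ ^ 2 := by
      intro v hv
      have h1 := dbl_le π hπ X (n - r - 1) (by omega) (fixD π F e₀) (by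
        intro i hi j hj u hu
        refine ⟨hF _ u hu.1, fun k => ?_⟩
        rw [← Module.End.mul_apply, ← map_mul, dbl_comm (Equiv.swap i j) (e₀ k) fun l =>
          Equiv.swap_apply_of_ne_of_ne (hmemX i hi k l) (hmemX j hj k l), map_mul,
          Module.End.mul_apply, hu.2 k]) (by
        intro A _ hAc u hu hfix
        exact hno A (by omega) u hu.1 hfix) v hv
      refine h1.trans (mul_le_mul_of_nonneg_right ?_ (by positivity))
      exact hnum
    have hM0 : (0 : ℝ) < (C.card : ℝ) := by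
      refine lt_of_lt_of_le ?_ hM
      have h3 : (X.card : ℝ) ^ 4 - 6 * (X.card : ℝ) ^ 3 =
          ((X.card : ℝ) - 6) * (X.card : ℝ) ^ 3 := by ring
      rw [h3]
      have h4 : (6 : ℝ) < X.card := by
        rw [hXR]
        linarith
      exact mul_pos (by linarith) (by positivity)
    -- every block gives the same dimension
    have hdim : ∀ c ∈ C, trP (fixD π F e₀) ((2 : ℝ)⁻¹ • (1 + π (dbl c))) =
        Module.finrank ℝ (fixD π F e) := by
      intro c hc
      obtain ⟨hci, hcX⟩ := (mem_filter.1 hc).2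
      have hd : ∀ i l l', e₀ i l ≠ c l' := fun i l l' => hmemX _ (hcX l') i l
      rw [fix_trace π hπ F hF e₀ c hci hd (Fin.snoc (α := fun _ => Fin 4 → Fin n) e₀ c)
        (fun i => Fin.snoc_castSucc (α := fun _ => Fin 4 → Fin n) _ _ _)
        (Fin.snoc_last (α := fun _ => Fin 4 → Fin n) _ _)]
      have hinj : Function.Injective (fun p : Fin (b + 1) × Fin 4 =>
          (Fin.snoc (α := fun _ => Fin 4 → Fin n) e₀ c : Fin (b + 1) → Fin 4 → Fin n) p.1 p.2) := by
        rintro ⟨i, l⟩ ⟨j, l'⟩ h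
        simp only at h
        induction i using Fin.lastCases with
        | last =>
          induction j using Fin.lastCases with
          | last =>
            rw [Fin.snoc_last] at h
            rw [hci h]
          | cast j =>
            rw [Fin.snoc_last, Fin.snoc_castSucc] at h
            exact absurd h.symm (hd j l' l)
        | cast i =>
          induction j using Fin.lastCases with
          | last =>
            rw [Fin.snoc_last, Fin.snoc_castSucc] at h
            exact absurd h (hd i l l')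
          | cast j =>
            rw [Fin.snoc_castSucc, Fin.snoc_castSucc] at h
            have := he₀ (a₁ := (i, l)) (a₂ := (j, l')) h
            rw [Prod.mk.injEq] at this
            rw [this.1, this.2]
      exact congrArg Nat.cast (fixD_card π F hF _ e hinj he)
    have hsum : (C.card : ℝ) * Module.finrank ℝ (fixD π F e) =
        trP (fixD π F e₀) (∑ c ∈ C, (2 : ℝ)⁻¹ • (1 + π (dbl c))) := by
      rw [trP_sum, sum_congr rfl hdim, sum_const, nsmul_eq_mul]
    have htr : trP (fixD π F e₀) (∑ c ∈ C, (2 : ℝ)⁻¹ • (1 + π (dbl c))) ≤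
        ((C.card : ℝ) * (1 - (r : ℝ) / (4 * n))) * Module.finrank ℝ (fixD π F e₀) := by
      refine trP_le_finrank _ _ _ fun v hv => ?_
      have h1 : ⟪(∑ c ∈ C, (2 : ℝ)⁻¹ • (1 + π (dbl c)) : E →ₗ[ℝ] E) v, v⟫_ℝ =
          2⁻¹ * ((C.card : ℝ) * ‖v‖ ^ 2 + ∑ c ∈ C, ⟪π (dbl c) v, v⟫_ℝ) := by
        rw [LinearMap.sum_apply, sum_inner]
        have h2 : ∀ c ∈ C, ⟪((2 : ℝ)⁻¹ • (1 + π (dbl c)) : E →ₗ[ℝ] E) v, v⟫_ℝ =
            2⁻¹ * (‖v‖ ^ 2 + ⟪π (dbl c) v, v⟫_ℝ) := by
          intro c _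
          have hX : ((2 : ℝ)⁻¹ • (1 + π (dbl c)) : E →ₗ[ℝ] E) v =
            (2 : ℝ)⁻¹ • (v + π (dbl c) v) := rfl
          rw [hX, inner_smul_left, inner_add_left, real_inner_self_eq_norm_sq]
          simp only [map_inv₀, conj_trivial]
        rw [sum_congr rfl h2, ← mul_sum, sum_add_distrib, sum_const, nsmul_eq_mul]
      rw [h1]
      have h2 := hdbl v hv
      have h3 : (C.card : ℝ) * (1 - (r : ℝ) / (4 * n)) * ‖v‖ ^ 2 =
          2⁻¹ * ((C.card : ℝ) * ‖v‖ ^ 2 +
            (1 - (r : ℝ) / (2 * n)) * (C.card : ℝ) * ‖v‖ ^ 2) := by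
        field_simp
        ring
      rw [h3]
      linarith
    have hfin : (Module.finrank ℝ (fixD π F e) : ℝ) ≤
        (1 - (r : ℝ) / (4 * n)) * Module.finrank ℝ (fixD π F e₀) := by
      rw [← hsum, mul_assoc] at htr
      exact le_of_mul_le_mul_left htr hM0
    calc (Module.finrank ℝ (fixD π F e) : ℝ) ≤
          (1 - (r : ℝ) / (4 * n)) * Module.finrank ℝ (fixD π F e₀) := hfin
      _ ≤ (1 - (r : ℝ) / (4 * n)) *
          ((1 - (r : ℝ) / (4 * n)) ^ b * Module.finrank ℝ F) :=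
          mul_le_mul_of_nonneg_left hU hq0
      _ = (1 - (r : ℝ) / (4 * n)) ^ (b + 1) * Module.finrank ℝ F := by
          rw [pow_succ]
          ring

end Pool.Agent.RS
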