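import Pool.Agent.Helper36.RS.Tr

set_option autoImplicit false

/-!
# ETA-14: the trace of a permutation is at most the dimension of a joint fixed space

PROOF.  Write `c i = swap (p i 0) (p i 1)` and `d i = dbl (block i)`, where the block is
`![p i 0, p i 1, w (p i 0), w (p i 1)]`: `d i = swap (p i 0) (p i 1) * swap (w (p i 0)) (w (p i 1))
= c i * (w * c i * w⁻¹)`.  All the letters `p i 0, p i 1, w (p i 0), w (p i 1)` are distinct.
For `t ≤ b` let `U_t` be the subspace of `F` of the vectors fixed by `π (d i)`, `i < t`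
(`fixD π F` of the first `t` blocks; or define it directly), `P_t` the projection onto `U_t`.
CLAIM: `trP U_t (π w) = trP U_{t+1} (π w)` for `t < b`; here `trP U (π w) = tr (π w P_U)`.
`c t` commutes with `d i` for `i < t` (disjoint supports), so the isometric involution `C = π (c t)`
preserves `U_t` and commutes with `P_t`.  So, by cyclicity of `LinearMap.trace` and `C C = 1`,
`tr (π w P_t) = tr (C π w P_t C) = tr (C π w C P_t)` and `c t w c t = c t (w c t w⁻¹) w = d t w`, so it
equals `tr (π (d t) π w P_t) = tr (π w P_t π (d t))`.  Averaging, `tr (π w P_t) = tr (π w P_t (1 + D)/2)`,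
`D = π (d t)`.  And `P_t (1 + D)/2 = P_{t+1}`: `D` is a symmetric involution preserving `U_t`
(`d t` commutes with the `d i`), so `P_t` and `(1+D)/2` are commuting orthogonal projections with
product the projection onto `U_t ⊓ ker (D - 1) = U_{t+1}`.
Hence `trP F (π w) = trP U_0 (π w) = trP U_b (π w) ≤ dim U_b` by `trP_le_finrank` with `c = 1`
(`⟪π w v, v⟫ ≤ ‖v‖^2`), and `U_b = fixD π F e`.
-/

open Finset

namespace Pool.Agent.RS

open scoped InnerProductSpace

set_option linter.unusedSectionVars false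

namespace TrLe

variable {E : Type*} [NormedAddCommGroup E] [InnerProductSpace ℝ E] [FiniteDimensional ℝ E]

/-- An isometric involution is symmetric. -/
theorem symm_of_invol (C : E →ₗ[ℝ] E) (hC : ∀ v, ‖C v‖ = ‖v‖) (hCC : C * C = 1) (u v : E) :
    ⟪C u, v⟫_ℝ = ⟪u, C v⟫_ℝ := by
  have hinner : ∀ a b : E, ⟪C a, C b⟫_ℝ = ⟪a, b⟫_ℝ := by
    intro a b
    rw [real_inner_eq_norm_add_mul_self_sub_norm_mul_self_sub_norm_mul_self_div_two,
      real_inner_eq_norm_add_mul_self_sub_norm_mul_self_sub_norm_mul_self_div_two a b,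
      ← map_add, hC, hC, hC]
  have h1 : C (C v) = v := by
    have := LinearMap.congr_fun hCC v
    simpa using this
  calc ⟪C u, v⟫_ℝ = ⟪C u, C (C v)⟫_ℝ := by rw [h1]
    _ = ⟪u, C v⟫_ℝ := hinner _ _

/-- A symmetric operator preserving `U` commutes with the projection onto `U`. -/
theorem comm_proj (C : E →ₗ[ℝ] E) (hs : ∀ u v, ⟪C u, v⟫_ℝ = ⟪u, C v⟫_ℝ) (U : Submodule ℝ E)
    (hU : ∀ v ∈ U, C v ∈ U) : U.starProjection.toLinearMap * C = C * U.starProjection.toLinearMap := by
  ext v
  change U.starProjection (C v) = C (U.starProjection v)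
  refine Submodule.eq_starProjection_of_mem_of_inner_eq_zero (hU _ (Submodule.starProjection_apply_mem U v)) ?_
  intro z hz
  rw [← map_sub, hs]
  exact Submodule.starProjection_inner_eq_zero v (C z) (hU z hz)

theorem proj_half (D : E →ₗ[ℝ] E) (hs : ∀ u v, ⟪D u, v⟫_ℝ = ⟪u, D v⟫_ℝ) (hDD : D * D = 1)
    (U U' : Submodule ℝ E) (hU : ∀ v ∈ U, D v ∈ U) (hU' : ∀ v, v ∈ U' ↔ v ∈ U ∧ D v = v) :
    U.starProjection.toLinearMap * (1 + D) = (2 : ℝ) • U'.starProjection.toLinearMap := by
  have hc := comm_proj D hs U hU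
  have hc' : ∀ v, U.starProjection (D v) = D (U.starProjection v) := fun v =>
    LinearMap.congr_fun hc v
  have h1 : ∀ v, D (D v) = v := fun v => by
    have := LinearMap.congr_fun hDD v
    simpa using this
  have hUs : ∀ x y, ⟪U.starProjection x, y⟫_ℝ = ⟪x, U.starProjection y⟫_ℝ := fun x y =>
    Submodule.inner_starProjection_left_eq_right U x y
  ext v
  change U.starProjection (v + D v) = (2 : ℝ) • U'.starProjection v
  have h2 : (2 : ℝ)⁻¹ • U.starProjection (v + D v) = U'.starProjection v := by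
    symm
    refine Submodule.eq_starProjection_of_mem_of_inner_eq_zero ?_ ?_
    · rw [hU']
      refine ⟨U.smul_mem _ (Submodule.starProjection_apply_mem U _), ?_⟩
      rw [map_smul, ← hc', map_add, h1, add_comm]
    · intro z hz
      obtain ⟨hz1, hz2⟩ := (hU' z).1 hz
      have hz3 : U.starProjection z = z := Submodule.starProjection_eq_self_iff.2 hz1
      rw [inner_sub_left, inner_smul_left, hUs, hz3, inner_add_left, hs, hz2]
      simp
      ring
  rw [← h2, smul_smul]
  norm_num

theorem step (W C D : E →ₗ[ℝ] E) (hC : ∀ v, ‖C v‖ = ‖v‖) (hCC : C * C = 1)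
    (hD : ∀ v, ‖D v‖ = ‖v‖) (hDD : D * D = 1) (hW : C * W * C = D * W)
    (U U' : Submodule ℝ E) (hCU : ∀ v ∈ U, C v ∈ U) (hDU : ∀ v ∈ U, D v ∈ U)
    (hU' : ∀ v, v ∈ U' ↔ v ∈ U ∧ D v = v) : trP U W = trP U' W := by
  have hcC := comm_proj C (symm_of_invol C hC hCC) U hCU
  have hh := proj_half D (symm_of_invol D hD hDD) hDD U U' hDU hU'
  unfold trP
  change LinearMap.trace ℝ E (W * U.starProjection.toLinearMap)
    = LinearMap.trace ℝ E (W * U'.starProjection.toLinearMap)
  set P := U.starProjection.toLinearMap with hP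
  set P' := U'.starProjection.toLinearMap with hP'
  have e1 : LinearMap.trace ℝ E (W * P) = LinearMap.trace ℝ E (W * P * D) := by
    calc LinearMap.trace ℝ E (W * P) = LinearMap.trace ℝ E ((W * P * C) * C) := by
          rw [mul_assoc, hCC, mul_one]
      _ = LinearMap.trace ℝ E (C * (W * P * C)) := LinearMap.trace_mul_comm ℝ _ _
      _ = LinearMap.trace ℝ E (C * W * C * P) := by
          rw [mul_assoc W P C, hcC]
          simp only [mul_assoc]
      _ = LinearMap.trace ℝ E (D * (W * P)) := by rw [hW]; simp only [mul_assoc]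
      _ = LinearMap.trace ℝ E (W * P * D) := LinearMap.trace_mul_comm ℝ _ _
  have e2 : W * P * (1 + D) = (2 : ℝ) • (W * P') := by
    rw [mul_assoc, hh, mul_smul_comm]
  have e3 := congrArg (LinearMap.trace ℝ E) e2
  rw [mul_add, mul_one, map_add, ← e1, map_smul, smul_eq_mul] at e3
  linarith

theorem swap_comm {n : ℕ} {a b c d : Fin n} (h1 : c ≠ a) (h2 : c ≠ b) (h3 : d ≠ a) (h4 : d ≠ b) :
    Equiv.swap a b * Equiv.swap c d = Equiv.swap c d * Equiv.swap a b := by
  rw [Equiv.mul_swap_eq_swap_mul, Equiv.swap_apply_of_ne_of_ne h1 h2,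
    Equiv.swap_apply_of_ne_of_ne h3 h4]

/-- The vectors of `F` fixed by the first `t` elements. -/
def Ut {n b : ℕ} (π : Equiv.Perm (Fin n) →* (E →ₗ[ℝ] E)) (F : Submodule ℝ E)
    (e : Fin b → Fin 4 → Fin n) (t : ℕ) : Submodule ℝ E where
  carrier := {v | v ∈ F ∧ ∀ i : Fin b, (i : ℕ) < t → π (dbl (e i)) v = v}
  add_mem' := fun ha hb => ⟨F.add_mem ha.1 hb.1, fun i hi => by rw [map_add, ha.2 i hi, hb.2 i hi]⟩
  zero_mem' := ⟨F.zero_mem, fun i _ => map_zero _⟩
  smul_mem' := fun c _ ha => ⟨F.smul_mem c ha.1, fun i hi => by rw [map_smul, ha.2 i hi]⟩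

end TrLe

open TrLe in
theorem trace_le {E : Type*} [NormedAddCommGroup E] [InnerProductSpace ℝ E]
    [FiniteDimensional ℝ E] {n : ℕ} (π : Equiv.Perm (Fin n) →* (E →ₗ[ℝ] E))
    (hπ : ∀ g v, ‖π g v‖ = ‖v‖) (F : Submodule ℝ E) (hF : ∀ g, ∀ v ∈ F, π g v ∈ F)
    (w : Equiv.Perm (Fin n)) {b : ℕ} (p : Fin b → Fin 2 → Fin n)
    (hp : Function.Injective (fun q : Fin b × Fin 4 =>
      (![p q.1 0, p q.1 1, w (p q.1 0), w (p q.1 1)] : Fin 4 → Fin n) q.2)) :
    trP F (π w) ≤ Module.finrank ℝ
      (fixD π F (fun i => ![p i 0, p i 1, w (p i 0), w (p i 1)])) := by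
  set e : Fin b → Fin 4 → Fin n := fun i => ![p i 0, p i 1, w (p i 0), w (p i 1)] with he
  have hne : ∀ (i j : Fin b) (k l : Fin 4), (i, k) ≠ (j, l) → e i k ≠ e j l := by
    intro i j k l h1 h2
    exact h1 (hp h2)
  have hne1 : ∀ (i j : Fin b) (k l : Fin 4), i ≠ j → e i k ≠ e j l := by
    intro i j k l h1
    exact hne i j k l (fun h => h1 (congrArg Prod.fst h))
  -- commutation
  have hsw : ∀ (i j : Fin b) (k l k' l' : Fin 4), i ≠ j →
      Equiv.swap (e i k) (e i l) * Equiv.swap (e j k') (e j l')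
        = Equiv.swap (e j k') (e j l') * Equiv.swap (e i k) (e i l) := by
    intro i j k l k' l' hij
    exact swap_comm (hne1 j i _ _ hij.symm) (hne1 j i _ _ hij.symm) (hne1 j i _ _ hij.symm)
      (hne1 j i _ _ hij.symm)
  have hcd : ∀ i j : Fin b, i ≠ j → Commute (dbl (e i)) (Equiv.swap (e j 0) (e j 1)) := by
    intro i j hij
    exact Commute.mul_left (hsw i j 0 1 0 1 hij) (hsw i j 2 3 0 1 hij)
  have hdd : ∀ i j : Fin b, i ≠ j → Commute (dbl (e i)) (dbl (e j)) := by
    intro i j hij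
    exact Commute.mul_left (Commute.mul_right (hsw i j 0 1 0 1 hij) (hsw i j 0 1 2 3 hij))
      (Commute.mul_right (hsw i j 2 3 0 1 hij) (hsw i j 2 3 2 3 hij))
  have hd1 : ∀ i : Fin b, dbl (e i) * dbl (e i) = 1 := by
    intro i
    have h1 : Equiv.swap (e i 0) (e i 1) * Equiv.swap (e i 2) (e i 3)
        = Equiv.swap (e i 2) (e i 3) * Equiv.swap (e i 0) (e i 1) := by
      refine swap_comm (hne _ _ _ _ ?_) (hne _ _ _ _ ?_) (hne _ _ _ _ ?_) (hne _ _ _ _ ?_) <;>
        simp
    have h2 : dbl (e i) = Equiv.swap (e i 0) (e i 1) * Equiv.swap (e i 2) (e i 3) := rfl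
    rw [h2]
    nth_rewrite 1 [h1]
    rw [mul_assoc, ← mul_assoc (Equiv.swap (e i 0) (e i 1)), Equiv.swap_mul_self, one_mul,
      Equiv.swap_mul_self]
  have hcw : ∀ i : Fin b, Equiv.swap (e i 0) (e i 1) * w * Equiv.swap (e i 0) (e i 1)
      = dbl (e i) * w := by
    intro i
    rw [mul_assoc, Equiv.mul_swap_eq_swap_mul, ← mul_assoc]
    rfl
  -- the chain
  have hchain : ∀ t : ℕ, t ≤ b → trP F (π w) = trP (Ut π F e t) (π w) := by
    intro t
    induction t with
    | zero =>
      intro _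
      have h0 : Ut π F e 0 = F := by
        ext v
        constructor
        · intro hv
          exact hv.1
        · intro hv
          exact ⟨hv, fun i hi => absurd hi (Nat.not_lt_zero _)⟩
      rw [h0]
    | succ t ih =>
      intro ht
      rw [ih (by omega)]
      have htb : t < b := by omega
      let j : Fin b := ⟨t, htb⟩
      have hij : ∀ i : Fin b, (i : ℕ) < t → i ≠ j := by
        intro i hi h
        rw [h] at hi
        exact lt_irrefl _ hi
      refine step (π w) (π (Equiv.swap (e j 0) (e j 1))) (π (dbl (e j))) (hπ _) ?_ (hπ _) ?_ ?_ _ _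
        ?_ ?_ ?_
      · rw [← map_mul, Equiv.swap_mul_self, map_one]
      · rw [← map_mul, hd1, map_one]
      · rw [← map_mul, ← map_mul, hcw, map_mul]
      · intro v hv
        refine ⟨hF _ _ hv.1, fun i hi => ?_⟩
        have h1 : π (dbl (e i)) (π (Equiv.swap (e j 0) (e j 1)) v)
            = π (Equiv.swap (e j 0) (e j 1)) (π (dbl (e i)) v) := by
          have h2 := congrArg π (hcd i j (hij i hi)).eq
          rw [map_mul, map_mul] at h2
          exact LinearMap.congr_fun h2 v
        rw [h1, hv.2 i hi]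
      · intro v hv
        refine ⟨hF _ _ hv.1, fun i hi => ?_⟩
        have h1 : π (dbl (e i)) (π (dbl (e j)) v) = π (dbl (e j)) (π (dbl (e i)) v) := by
          have h2 := congrArg π (hdd i j (hij i hi)).eq
          rw [map_mul, map_mul] at h2
          exact LinearMap.congr_fun h2 v
        rw [h1, hv.2 i hi]
      · intro v
        constructor
        · intro hv
          exact ⟨⟨hv.1, fun i hi => hv.2 i (by omega)⟩, hv.2 j (Nat.lt_succ_self t)⟩
        · intro hv
          refine ⟨hv.1.1, fun i hi => ?_⟩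
          rcases Nat.lt_succ_iff_lt_or_eq.1 hi with h | h
          · exact hv.1.2 i h
          · have : i = j := Fin.ext h
            rw [this]
            exact hv.2
  have hb : Ut π F e b = fixD π F e := by
    ext v
    constructor
    · intro hv
      exact ⟨hv.1, fun i => hv.2 i i.2⟩
    · intro hv
      exact ⟨hv.1, fun i _ => hv.2 i⟩
  rw [hchain b le_rfl, hb]
  have h1 := trP_le_finrank (fixD π F e) (π w) 1 (fun v _ => by
    rw [one_mul]
    calc ⟪π w v, v⟫_ℝ ≤ ‖π w v‖ * ‖v‖ := real_inner_le_norm _ _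
      _ = ‖v‖ ^ 2 := by rw [hπ, sq])
  rw [one_mul] at h1
  exact h1

end Pool.Agent.RS
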