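import Pool.Agent.Helper46.RC.Mix

set_option autoImplicit false
set_option linter.unusedVariables false

/-!
# ETA-16: few words have many fixed letters

PROOF.  `T₀ = ∑_c rho n t (letter x c)` on `EuclideanSpace ℝ (Fin t ↪ Fin n)` (symmetric,
`RC.Mix.sum_letter_symm`); `T₀^T = ∑_U rho n t (wrd (letter x) T U)` (`RC.sum_pow_wrd`).
TRACE: the trace of `rho n t w` is the number of `y : Fin t ↪ Fin n` with `w • y = y` (it is a
permutation operator; `LinearMap.trace_eq_sum_inner` in the standard basis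
`EuclideanSpace.basisFun`), and for `w` with `f` fixed letters this is the number of embeddings
into the fixed letters, `f (f-1) ... (f-t+1)`.  If `n < 2 f` then, as `4 t ≤ n`, it is at least
`(f - t)^t ≥ (n/4)^t`.  All terms are nonnegative, so
`#{U : n < 2 fix} (n/4)^t ≤ trace (T₀^T)`.
SPECTRUM: eigenvector basis of `T₀` on the subspace `V` of functions of sum zero
(`LinearMap.ker (RC.Mix.tot n t)`), which `T₀` preserves, and the constant functions, with
eigenvalue `4 s`: `trace (T₀^T) = (4s)^T + ∑` over the eigenvalues `l` on `V` of `l^T`, and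
`0 ≤ l ≤ 4 s - 2 ε` by `RC.Mix.eig_bound`.  So
`trace (T₀^T) ≤ (4s)^T + n^t (4s - 2ε)^T` as `dim V ≤ (n)_t ≤ n^t`.
(An alternative to the basis of eigenvectors: for every `y`, with `δ_y` the indicator, `one` the
constant function, `M = (n)_t`: `⟪T₀^T δ_y, δ_y⟫ = (4s)^T/M + ⟪T₀^T F_y, δ_y⟫`, `F_y = δ_y - one/M`,
`|⟪T₀^T F_y, δ_y⟫| ≤ (4s-2ε)^T`; this is exactly the computation in the proof of `RC.mix`, which
gives for all `y`: `#{U | wrd U • y = y} ≤ (4s)^T/M + (4s-2ε)^T`; sum over the `M ≤ n^t`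
embeddings `y`.)
-/

open Finset

namespace Pool.Agent.RS

open scoped InnerProductSpace

open RC RC.Mix in
/-- The number of words of length `T` fixing the tuple `y`. -/
private theorem cnt {n s r r' a : ℕ} {ε : ℝ} (hs : 1 ≤ s) (x : Fin s → Equiv.Perm (Fin n))
    (hx : GapUpTo n s r ε x) (hr' : r' ≤ r) (hrn : r' ≤ n) (hε : 0 ≤ ε) (hεs : ε ≤ 2 * s)
    (y' : Fin r' ↪ Fin n) :
    (Nat.card {u : Fin a → Bool × Fin s × Bool // wrd (letter x) a u • y' = y'} : ℝ) ≤
      1 / (n.descFactorial r' : ℝ) * (4 * (s : ℝ)) ^ a + (4 * (s : ℝ) - 2 * ε) ^ a := by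
  classical
  have hs0 : (0 : ℝ) < s := by exact_mod_cast hs
  let T : EuclideanSpace ℝ (Fin r' ↪ Fin n) →ₗ[ℝ] EuclideanSpace ℝ (Fin r' ↪ Fin n) := ∑ c, rho n r' (letter x c)
  have hTs : T.IsSymmetric := sum_letter_symm x
  let V : Submodule ℝ (EuclideanSpace ℝ (Fin r' ↪ Fin n)) := LinearMap.ker (tot n r')
  have hTtot : ∀ F : EuclideanSpace ℝ (Fin r' ↪ Fin n), tot n r' (T F) = 4 * s * tot n r' F := by
    intro F
    show tot n r' ((∑ c, rho n r' (letter x c)) F) = _
    rw [LinearMap.sum_apply, map_sum]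
    rw [Finset.sum_congr rfl (fun c _ => tot_rho (letter x c) F)]
    rw [Finset.sum_const, nsmul_eq_mul]
    congr 1
    simp [Fintype.card_prod]
    ring
  have hV : ∀ F ∈ V, T F ∈ V := by
    intro F hF
    rw [LinearMap.mem_ker] at hF ⊢
    rw [hTtot, hF, mul_zero]
  have hTV : ∀ F ∈ V, ‖T F‖ ≤ (4 * s - 2 * ε) * ‖F‖ := by
    intro F hF
    have h1 := norm_le_of_eig (T.restrict hV) (hTs.restrict_invariant hV) (4 * s - 2 * ε)
      (by linarith) (by
        intro l v hv hl
        apply eig_bound x hx hr' hrn l v.1 (fun h => hv (Subtype.ext h)) (LinearMap.mem_ker.1 v.2)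
        exact congrArg Subtype.val hl) ⟨F, hF⟩
    exact h1
  have hTa : ∀ (k : ℕ) (F : EuclideanSpace ℝ (Fin r' ↪ Fin n)), F ∈ V → (T ^ k) F ∈ V ∧ ‖(T ^ k) F‖ ≤ (4 * s - 2 * ε) ^ k * ‖F‖ := by
    intro k
    induction k with
    | zero => intro F hF; simpa using hF
    | succ k ih =>
      intro F hF
      obtain ⟨h1, h2⟩ := ih F hF
      rw [pow_succ', Module.End.mul_apply]
      refine ⟨hV _ h1, (hTV _ h1).trans ?_⟩
      calc (4 * s - 2 * ε) * ‖(T ^ k) F‖ ≤ (4 * s - 2 * ε) * ((4 * s - 2 * ε) ^ k * ‖F‖) :=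
            mul_le_mul_of_nonneg_left h2 (by linarith)
        _ = (4 * s - 2 * ε) ^ (k + 1) * ‖F‖ := by ring
  -- the constant function and the delta function
  let one : EuclideanSpace ℝ (Fin r' ↪ Fin n) := WithLp.toLp 2 (fun _ => 1)
  have hTone : ∀ k, (T ^ k) one = ((4 * s : ℝ) ^ k) • one := by
    intro k
    induction k with
    | zero => simp
    | succ k ih =>
      rw [pow_succ', Module.End.mul_apply, ih, map_smul]
      have h1 : T one = (4 * s : ℝ) • one := by
        ext w
        show ((∑ c, rho n r' (letter x c)) one) w = _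
        rw [LinearMap.sum_apply]
        simp only [WithLp.ofLp_sum, Finset.sum_apply, rho_apply]
        simp [one]
        ring
      rw [h1, smul_smul, pow_succ]
  let dl : EuclideanSpace ℝ (Fin r' ↪ Fin n) := WithLp.toLp 2 (fun w => if w = y' then 1 else 0)
  have hN0 : 0 < (n.descFactorial r' : ℝ) := by
    have : 0 < n.descFactorial r' := Nat.pos_of_ne_zero (fun h => by
      rw [Nat.descFactorial_eq_zero_iff_lt] at h
      omega)
    exact_mod_cast this
  have hN : ((univ : Finset (Fin r' ↪ Fin n)).card : ℝ) = n.descFactorial r' := by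
    rw [Finset.card_univ, Fintype.card_embedding_eq]
    simp
  let F : EuclideanSpace ℝ (Fin r' ↪ Fin n) := dl - (1 / (n.descFactorial r' : ℝ)) • one
  have htone : tot n r' one = n.descFactorial r' := by
    show ∑ w : Fin r' ↪ Fin n, (1 : ℝ) = _
    simp only [Finset.sum_const, nsmul_eq_mul, mul_one]
    exact hN
  have htdl : tot n r' dl = 1 := by
    show ∑ w : Fin r' ↪ Fin n, (if w = y' then (1 : ℝ) else 0) = _
    simp
  have hFV : F ∈ V := by
    rw [LinearMap.mem_ker]
    simp only [F, map_sub, map_smul, htone, htdl, smul_eq_mul]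
    field_simp
    ring
  have hFn : ‖F‖ ≤ 1 := by
    have h1 : dl = F + (1 / (n.descFactorial r' : ℝ)) • one := by simp [F]
    have h2 : ⟪F, (1 / (n.descFactorial r' : ℝ)) • one⟫_ℝ = 0 := by
      rw [real_inner_smul_right, inner_eq]
      have : ∑ w, F w * one w = tot n r' F := by
        show ∑ w, F w * one w = ∑ w, F w
        simp [one]
      rw [this, LinearMap.mem_ker.1 hFV, mul_zero]
    have h3 : ‖dl‖ ^ 2 = ‖F‖ ^ 2 + ‖(1 / (n.descFactorial r' : ℝ)) • one‖ ^ 2 := by
      rw [h1, pow_two, pow_two, pow_two]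
      exact norm_add_sq_eq_norm_sq_add_norm_sq_real h2
    have h4 : ‖dl‖ ^ 2 = 1 := by
      rw [← real_inner_self_eq_norm_sq, inner_eq]
      simp [dl]
    have h5 : ‖F‖ ^ 2 ≤ 1 := by nlinarith [sq_nonneg ‖(1 / (n.descFactorial r' : ℝ)) • one‖]
    nlinarith [norm_nonneg F]
  -- counting
  have hcount : (Nat.card {u : Fin a → Bool × Fin s × Bool // wrd (letter x) a u • y' = y'} : ℝ) =
      ((T ^ a) dl) y' := by
    have h1 : T ^ a = ∑ U : Fin a → Bool × Fin s × Bool, rho n r' (wrd (letter x) a U) :=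
      sum_pow_wrd (rho n r') (letter x) a
    rw [h1, LinearMap.sum_apply]
    simp only [WithLp.ofLp_sum, Finset.sum_apply, rho_apply]
    rw [Nat.card_eq_fintype_card, Fintype.card_subtype]
    rw [Finset.card_filter]
    push_cast
    apply Finset.sum_congr rfl
    intro U _
    have h2 : wrd (letter x) a U • y' = y' ↔ (wrd (letter x) a U)⁻¹ • y' = y' := by
      rw [inv_smul_eq_iff, eq_comm]
    by_cases h3 : wrd (letter x) a U • y' = y'
    · rw [if_pos h3]
      simp [dl, h2.1 h3]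
    · rw [if_neg h3]
      simp only [dl]
      rw [if_neg (fun h => h3 (h2.2 h))]
  have hdl : (T ^ a) dl = (T ^ a) F + (1 / (n.descFactorial r' : ℝ) * (4 * s : ℝ) ^ a) • one := by
    have h1 : dl = F + (1 / (n.descFactorial r' : ℝ)) • one := by simp [F]
    rw [h1, map_add, map_smul, hTone, smul_smul]
  have hz' : ((T ^ a) F) y' ≤ (4 * s - 2 * ε) ^ a := by
    calc ((T ^ a) F) y' ≤ |((T ^ a) F) y'| := le_abs_self _
      _ = ‖((T ^ a) F) y'‖ := rfl
      _ ≤ ‖(T ^ a) F‖ := PiLp.norm_apply_le _ _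
      _ ≤ (4 * s - 2 * ε) ^ a * ‖F‖ := (hTa a F hFV).2
      _ ≤ (4 * s - 2 * ε) ^ a * 1 := mul_le_mul_of_nonneg_left hFn (pow_nonneg (by linarith) _)
      _ = _ := mul_one _
  rw [hcount, hdl]
  simp only [PiLp.add_apply, PiLp.smul_apply, smul_eq_mul]
  have hone : one y' = 1 := rfl
  rw [hone, mul_one]
  linarith

/-- The number of tuples fixed by a permutation with many fixed letters. -/
private theorem fixcnt {n t : ℕ} (htn : 4 * t ≤ n) (σ : Equiv.Perm (Fin n))
    (hσ : n < 2 * (univ.filter (fun i => σ i = i)).card) :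
    ((n : ℝ) / 4) ^ t ≤ (Nat.card {y : Fin t ↪ Fin n // σ • y = y} : ℝ) := by
  classical
  set f := (univ.filter (fun i => σ i = i)).card with hf
  have h1 : f.descFactorial t ≤ Nat.card {y : Fin t ↪ Fin n // σ • y = y} := by
    have h2 : f.descFactorial t = Nat.card (Fin t ↪ {i : Fin n // σ i = i}) := by
      rw [Nat.card_eq_fintype_card, Fintype.card_embedding_eq, Fintype.card_subtype]
      simp [hf]
    rw [h2]
    refine Nat.card_le_card_of_injective
      (fun e => ⟨e.trans (Function.Embedding.subtype _), ?_⟩) ?_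
    · ext i
      simp [Function.Embedding.smul_apply, (e i).2]
    · intro e e' h
      ext i
      have := congrArg (fun y : {y : Fin t ↪ Fin n // σ • y = y} => (y.1 i : ℕ)) h
      simpa using this
  have h2 : (f + 1 - t) ^ t ≤ f.descFactorial t := Nat.pow_sub_le_descFactorial f t
  have h3 : ((n : ℝ) / 4) ≤ ((f + 1 - t : ℕ) : ℝ) := by
    have h4 : n ≤ 4 * (f + 1 - t) := by omega
    have h5 : (n : ℝ) ≤ ((4 * (f + 1 - t) : ℕ) : ℝ) := by exact_mod_cast h4
    rw [Nat.cast_mul] at h5
    push_cast at h5 ⊢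
    linarith
  calc ((n : ℝ) / 4) ^ t ≤ ((f + 1 - t : ℕ) : ℝ) ^ t := pow_le_pow_left₀ (by positivity) h3 t
    _ = (((f + 1 - t) ^ t : ℕ) : ℝ) := by push_cast; rfl
    _ ≤ (f.descFactorial t : ℝ) := by exact_mod_cast h2
    _ ≤ _ := by exact_mod_cast h1

open RC in
theorem walk {n s r t T : ℕ} {ε : ℝ} (hs : 1 ≤ s) (x : Fin s → Equiv.Perm (Fin n))
    (hx : GapUpTo n s r ε x) (ht : t ≤ r) (htn : 4 * t ≤ n) (hε : 0 ≤ ε) (hεs : ε ≤ 2 * s) :
    (Nat.card {U : Fin T → Bool × Fin s × Bool //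
      n < 2 * (univ.filter (fun i => wrd (letter x) T U i = i)).card} : ℝ) *
        ((n : ℝ) / 4) ^ t ≤ (4 * (s : ℝ)) ^ T + (n : ℝ) ^ t * (4 * (s : ℝ) - 2 * ε) ^ T := by
  classical
  have htn' : t ≤ n := by omega
  have hM0 : 0 < (n.descFactorial t : ℝ) := by
    have : 0 < n.descFactorial t := Nat.pos_of_ne_zero (fun h => by
      rw [Nat.descFactorial_eq_zero_iff_lt] at h
      omega)
    exact_mod_cast this
  have hMn : (n.descFactorial t : ℝ) ≤ (n : ℝ) ^ t := by
    exact_mod_cast Nat.descFactorial_le_pow n t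
  have hcard : ((univ : Finset (Fin t ↪ Fin n)).card : ℝ) = n.descFactorial t := by
    rw [Finset.card_univ, Fintype.card_embedding_eq]
    simp
  -- double counting
  have hdc : ∑ y : Fin t ↪ Fin n,
      (Nat.card {U : Fin T → Bool × Fin s × Bool // wrd (letter x) T U • y = y} : ℝ) =
      ∑ U : Fin T → Bool × Fin s × Bool,
        (Nat.card {y : Fin t ↪ Fin n // wrd (letter x) T U • y = y} : ℝ) := by
    have e1 : ∀ y : Fin t ↪ Fin n,
        (Nat.card {U : Fin T → Bool × Fin s × Bool // wrd (letter x) T U • y = y} : ℝ) =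
        ∑ U : Fin T → Bool × Fin s × Bool, if wrd (letter x) T U • y = y then (1 : ℝ) else 0 := by
      intro y
      rw [Nat.card_eq_fintype_card, Fintype.card_subtype, Finset.card_filter]
      push_cast
      rfl
    have e2 : ∀ U : Fin T → Bool × Fin s × Bool,
        (Nat.card {y : Fin t ↪ Fin n // wrd (letter x) T U • y = y} : ℝ) =
        ∑ y : Fin t ↪ Fin n, if wrd (letter x) T U • y = y then (1 : ℝ) else 0 := by
      intro U
      rw [Nat.card_eq_fintype_card, Fintype.card_subtype, Finset.card_filter]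
      push_cast
      rfl
    rw [Finset.sum_congr rfl (fun y _ => e1 y), Finset.sum_congr rfl (fun U _ => e2 U),
      Finset.sum_comm]
  have hup : ∑ y : Fin t ↪ Fin n,
      (Nat.card {U : Fin T → Bool × Fin s × Bool // wrd (letter x) T U • y = y} : ℝ) ≤
      (4 * (s : ℝ)) ^ T + (n : ℝ) ^ t * (4 * (s : ℝ) - 2 * ε) ^ T := by
    calc _ ≤ ∑ y : Fin t ↪ Fin n, (1 / (n.descFactorial t : ℝ) * (4 * (s : ℝ)) ^ T +
          (4 * (s : ℝ) - 2 * ε) ^ T) :=
          Finset.sum_le_sum (fun y _ => cnt hs x hx ht htn' hε hεs y)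
      _ = (4 * (s : ℝ)) ^ T + (n.descFactorial t : ℝ) * (4 * (s : ℝ) - 2 * ε) ^ T := by
          rw [Finset.sum_const, nsmul_eq_mul, hcard]
          field_simp
      _ ≤ _ := by
          have := mul_le_mul_of_nonneg_right hMn
            (pow_nonneg (by linarith : (0 : ℝ) ≤ 4 * (s : ℝ) - 2 * ε) T)
          linarith
  have hlow : (Nat.card {U : Fin T → Bool × Fin s × Bool //
      n < 2 * (univ.filter (fun i => wrd (letter x) T U i = i)).card} : ℝ) *
        ((n : ℝ) / 4) ^ t ≤ ∑ U : Fin T → Bool × Fin s × Bool,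
        (Nat.card {y : Fin t ↪ Fin n // wrd (letter x) T U • y = y} : ℝ) := by
    rw [Nat.card_eq_fintype_card, Fintype.card_subtype, ← nsmul_eq_mul, ← Finset.sum_const]
    calc _ ≤ ∑ U ∈ (univ : Finset (Fin T → Bool × Fin s × Bool)).filter
          (fun U => n < 2 * (univ.filter (fun i => wrd (letter x) T U i = i)).card),
          (Nat.card {y : Fin t ↪ Fin n // wrd (letter x) T U • y = y} : ℝ) := by
          apply Finset.sum_le_sum
          intro U hU
          exact fixcnt htn _ (Finset.mem_filter.1 hU).2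
      _ ≤ _ := Finset.sum_le_sum_of_subset_of_nonneg (Finset.filter_subset _ _)
          (fun U _ _ => Nat.cast_nonneg _)
  rw [hdc] at hup
  exact hlow.trans hup

end Pool.Agent.RS
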