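import Pool.Agent.Helper36.RS.Ind
import Pool.Agent.Helper36.RS.Peel
import Pool.Agent.Helper36.RS.Blocks
import Pool.Agent.Helper36.RS.TrLe
import Pool.Agent.Helper36.RS.Walk
import Pool.Agent.Helper36.RS.Lapl

set_option autoImplicit false

/-!
# ETA-18: the initial bound for the dimension of the low space

PROOF of `char_bound`.  If `2 fix(w) ≤ n`: `blocks` (with `12 b ≤ n` from `8 b ≤ r`, `2 r ≤ n`)
gives `p`; `trace_le` and `peel`.

PROOF of `init`.  Let `M = ∑_c π (letter x c)`, `c : Bool × Fin s × Bool`; as in `RC.Mix.sum_letter`,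
`M = 2 s • 1 + ∑_i (π (x i) + π (x i)⁻¹) = 4 s • (1 - lapl π x)`.  `A = lapl π x` is symmetric;
`M^T = ∑_U π (wrd (letter x) T U)` (`RC.sum_pow_wrd`).
(1) `RC.low_pow` for the symmetric operator `1 - A` (so `1 - (1 - A) = A`):
`(1-θ')^T ‖P v‖^2 ≤ ⟪(1-A)^T v, v⟫` for all `v`, `P` the projection onto `low A θ'`.  So for
`W = low A θ' ⊓ F`: `(1-θ')^T dim W ≤ trP W ((1-A)^T) ≤ trP F ((1-A)^T)` (`le_trP`, `trP_sub_le`;
`T` even gives `⟪(1-A)^T v, v⟫ ≥ 0`).
(2) Let `E', π', F', ι` be as in `ind` for `k = n - r`.  `M' = ∑_c π' (letter x' c)` with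
`x' i = (x i : Perm (Fin n))`; `M'` is symmetric, `M'^T = ∑_U π' (wrd (letter x') T U)` is
nonnegative (`T` even), and `M'^T (ι v) = ι (M^T v)` (`wrd (letter x') T U` is the coercion of
`wrd (letter x) T U`).  So
`trP F (M^T) = trP (F.map ι) (M'^T) ≤ trP F' (M'^T) = ∑_U trP F' (π' (w_U))`.
(3) If `n < 2 fix(w_U)`: `trP F' (π' w_U) ≤ dim F'` (`trP_le_finrank`).  Their number is at most
`(4/n)^t ((4s)^T + n^t (4s - 2ε)^T)` by `walk`.  Otherwise
`trP F' (π' w_U) ≤ (1 - r/(4n))^b dim F'` by `char_bound`; there are at most `(4s)^T` words.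
Divide by `(4s)^T`: `((4s - 2ε)/(4s))^T = (1 - ε/(2s))^T`, `dim F' = 2 dim F`.
-/

open Finset

namespace Pool.Agent.RS

open scoped InnerProductSpace

theorem char_bound {E : Type*} [NormedAddCommGroup E] [InnerProductSpace ℝ E]
    [FiniteDimensional ℝ E] {n : ℕ} (π : Equiv.Perm (Fin n) →* (E →ₗ[ℝ] E))
    (hπ : ∀ g v, ‖π g v‖ = ‖v‖) (F : Submodule ℝ E) (hF : ∀ g, ∀ v ∈ F, π g v ∈ F)
    {r : ℕ} (hr : 48 ≤ r) (hrn : 2 * r ≤ n) (hno : NoInv π F (n - r)) {b : ℕ} (hb : 8 * b ≤ r)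
    (w : Equiv.Perm (Fin n)) (hw : 2 * (univ.filter (fun i => w i = i)).card ≤ n) :
    trP F (π w) ≤ (1 - (r : ℝ) / (4 * n)) ^ b * Module.finrank ℝ F := by
  obtain ⟨p, hp⟩ := blocks w (show 12 * b ≤ n by omega) hw
  exact (trace_le π hπ F hF w p hp).trans (peel π hπ F hF hr hrn hno hb _ hp)

private theorem in_letter {E : Type*} [NormedAddCommGroup E] [InnerProductSpace ℝ E]
    [FiniteDimensional ℝ E] {G : Type*} [Group G] (π : G →* (E →ₗ[ℝ] E)) {s : ℕ} (hs : 1 ≤ s)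
    (x : Fin s → G) : ∑ c, π (RC.letter x c) = (4 * (s : ℝ)) • (1 - lapl π x) := by
  have hs1 : (0 : ℝ) < s := by exact_mod_cast hs
  have hs0 : (4 * (s : ℝ)) ≠ 0 := by positivity
  rw [lapl, smul_sub, smul_inv_smul₀ hs0]
  rw [Fintype.sum_prod_type]
  simp only [RC.letter, Fintype.sum_bool, if_true, Bool.false_eq_true, if_false, map_one,
    Fintype.sum_prod_type, Finset.sum_const, Finset.card_univ, Fintype.card_fin]
  rw [Finset.sum_sub_distrib, Finset.sum_sub_distrib, Finset.sum_add_distrib, Finset.sum_const,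
    Finset.card_univ, Fintype.card_fin, ← Nat.cast_smul_eq_nsmul ℝ s, ← Nat.cast_smul_eq_nsmul ℝ s]
  module

private theorem in_wrd {n s : ℕ} (x : Fin s → alternatingGroup (Fin n)) (T : ℕ)
    (U : Fin T → Bool × Fin s × Bool) :
    ((RC.wrd (RC.letter x) T U : alternatingGroup (Fin n)) : Equiv.Perm (Fin n)) =
      RC.wrd (RC.letter (fun i => (x i : Equiv.Perm (Fin n)))) T U := by
  induction T with
  | zero => rfl
  | succ T ih =>
    rw [RC.wrd, RC.wrd, Subgroup.coe_mul, ih]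
    congr 1
    rw [RC.letter, RC.letter]
    split_ifs <;> rfl

private theorem in_pow_nonneg {E : Type*} [NormedAddCommGroup E] [InnerProductSpace ℝ E]
    [FiniteDimensional ℝ E] (M : E →ₗ[ℝ] E) (hM : M.IsSymmetric) {T : ℕ} (hT : Even T) (v : E) :
    0 ≤ ⟪(M ^ T) v, v⟫_ℝ := by
  obtain ⟨k, rfl⟩ := hT
  rw [pow_add, Module.End.mul_apply, (hM.pow k) _ _]
  exact real_inner_self_nonneg

private theorem in_symm {E : Type*} [NormedAddCommGroup E] [InnerProductSpace ℝ E]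
    [FiniteDimensional ℝ E] {G : Type*} [Group G] (π : G →* (E →ₗ[ℝ] E))
    (hπ : ∀ g v, ‖π g v‖ = ‖v‖) {s : ℕ} (hs : 1 ≤ s) (x : Fin s → G) :
    (∑ c, π (RC.letter x c)).IsSymmetric := by
  rw [in_letter π hs x]
  have h1 : (1 - lapl π x : E →ₗ[ℝ] E).IsSymmetric :=
    LinearMap.IsSymmetric.id.sub (lapl_symm π hπ x)
  intro u v
  rw [LinearMap.smul_apply, LinearMap.smul_apply, real_inner_smul_left, real_inner_smul_right,
    h1 u v]

theorem init {n s r t b T : ℕ} {ε θ' : ℝ} (hs : 1 ≤ s) (x : Fin s → alternatingGroup (Fin n))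
    (hx : RC.GapUpTo n s r ε (fun i => (x i : Equiv.Perm (Fin n)))) (hr : 48 ≤ r)
    (hrn : 2 * r ≤ n) (hb : 8 * b ≤ r) (ht : t ≤ r) (htn : 4 * t ≤ n) (hε : 0 ≤ ε)
    (hεs : ε ≤ 2 * s) (hT : Even T) (hθ : 0 < θ') (hθ1 : θ' < 1)
    {E : Type*} [NormedAddCommGroup E] [InnerProductSpace ℝ E]
    [FiniteDimensional ℝ E] (π : alternatingGroup (Fin n) →* (E →ₗ[ℝ] E))
    (hπ : ∀ g v, ‖π g v‖ = ‖v‖) (F : Submodule ℝ E) (hF : ∀ g, ∀ v ∈ F, π g v ∈ F)
    (hno : NoInvA π F (n - r)) :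
    (1 - θ') ^ T * (Module.finrank ℝ (RC.low (lapl π x) θ' ⊓ F : Submodule ℝ E) : ℝ) ≤
      2 * ((4 / (n : ℝ)) ^ t + 4 ^ t * (1 - ε / (2 * s)) ^ T + (1 - (r : ℝ) / (4 * n)) ^ b) *
        Module.finrank ℝ F := by
  classical
  have hs0 : (0 : ℝ) < s := by exact_mod_cast hs
  have hn0 : (0 : ℝ) < n := by
    have : 0 < n := by omega
    exact_mod_cast this
  obtain ⟨A, hAd⟩ : ∃ A, A = lapl π x := ⟨_, rfl⟩
  rw [← hAd]
  have hA : A.IsSymmetric := by
    rw [hAd]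
    exact lapl_symm π hπ x
  have hA1 : (1 - A : E →ₗ[ℝ] E).IsSymmetric := LinearMap.IsSymmetric.id.sub hA
  have h11 : (1 - (1 - A) : E →ₗ[ℝ] E) = A := sub_sub_cancel _ _
  have hlow : ∀ v, (1 - θ') ^ T * ‖(RC.low A θ').starProjection v‖ ^ 2 ≤
      ⟪((1 - A) ^ T) v, v⟫_ℝ := by
    intro v
    have h1 := RC.low_pow (1 - A) hA1 θ' hθ hθ1 T hT v
    rwa [h11] at h1
  -- the dimension of the low space is at most a trace
  have hstep1 : (1 - θ') ^ T *
      (Module.finrank ℝ (RC.low A θ' ⊓ F : Submodule ℝ E) : ℝ) ≤ trP F ((1 - A) ^ T) := by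
    refine (le_trP (RC.low A θ' ⊓ F) ((1 - A) ^ T) ((1 - θ') ^ T) ?_).trans
      (trP_sub_le _ F inf_le_right _ ?_)
    · intro v hv
      have h1 := hlow v
      rwa [Submodule.starProjection_eq_self_iff.2 hv.1] at h1
    · intro v _
      refine le_trans ?_ (hlow v)
      have h2 : (0 : ℝ) ≤ 1 - θ' := by linarith
      positivity
  -- powers as sums over words
  have hM : ∑ c, π (RC.letter x c) = (4 * (s : ℝ)) • (1 - A) := by
    rw [hAd]
    exact in_letter π hs x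
  have hMT : (∑ c, π (RC.letter x c)) ^ T = (4 * (s : ℝ)) ^ T • (1 - A) ^ T := by
    rw [hM, smul_pow]
  have hstep2 : (4 * (s : ℝ)) ^ T * trP F ((1 - A) ^ T) =
      trP F ((∑ c, π (RC.letter x c)) ^ T) := by
    rw [hMT, trP_smul]
  -- induction to the symmetric group
  obtain ⟨E', i1, i2, i3, π', F', ι, hπ', hF', hι, hιF, hιπ, hfin, hno'⟩ :=
    ind (show 2 ≤ n by omega) π hπ F hF (n - r) hno
  obtain ⟨x', hx'⟩ : ∃ x' : Fin s → Equiv.Perm (Fin n),
      x' = fun i => (x i : Equiv.Perm (Fin n)) := ⟨_, rfl⟩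
  rw [← hx'] at hx
  have hwrd : ∀ U : Fin T → Bool × Fin s × Bool,
      ((RC.wrd (RC.letter x) T U : alternatingGroup (Fin n)) : Equiv.Perm (Fin n)) =
        RC.wrd (RC.letter x') T U := by
    intro U
    rw [hx']
    exact in_wrd x T U
  have hpow : (∑ c, π (RC.letter x c)) ^ T =
      ∑ U : Fin T → Bool × Fin s × Bool, π (RC.wrd (RC.letter x) T U) :=
    RC.sum_pow_wrd π (RC.letter x) T
  have hpow' : (∑ c, π' (RC.letter x' c)) ^ T =
      ∑ U : Fin T → Bool × Fin s × Bool, π' (RC.wrd (RC.letter x') T U) :=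
    RC.sum_pow_wrd π' (RC.letter x') T
  have hstep3 : trP F ((∑ c, π (RC.letter x c)) ^ T) ≤
      trP F' ((∑ c, π' (RC.letter x' c)) ^ T) := by
    rw [← trP_map ι hι F ((∑ c, π (RC.letter x c)) ^ T) ((∑ c, π' (RC.letter x' c)) ^ T) ?_]
    · refine trP_sub_le _ F' ?_ _ ?_
      · intro u hu
        obtain ⟨v, hv, rfl⟩ := Submodule.mem_map.1 hu
        exact hιF v hv
      · intro v _
        exact in_pow_nonneg _ (in_symm π' hπ' hs x') hT v
    · intro v _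
      rw [hpow, hpow', LinearMap.sum_apply, LinearMap.sum_apply, map_sum]
      refine Finset.sum_congr rfl fun U _ => ?_
      rw [← hwrd, hιπ]
  -- the traces of the words
  obtain ⟨d, hd⟩ : ∃ d : ℝ, d = Module.finrank ℝ F' := ⟨_, rfl⟩
  have hd0 : 0 ≤ d := by
    rw [hd]
    positivity
  obtain ⟨β, hβ⟩ : ∃ β : ℝ, β = (1 - (r : ℝ) / (4 * n)) ^ b := ⟨_, rfl⟩
  have hβ0 : 0 ≤ β := by
    rw [hβ]
    refine pow_nonneg ?_ _
    rw [sub_nonneg, div_le_one (by positivity)]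
    have h1 : (r : ℝ) ≤ n := by
      have : r ≤ n := by omega
      exact_mod_cast this
    linarith
  obtain ⟨S, hS⟩ : ∃ S : Finset (Fin T → Bool × Fin s × Bool), S = univ.filter (fun U =>
      n < 2 * (univ.filter (fun i => RC.wrd (RC.letter x') T U i = i)).card) := ⟨_, rfl⟩
  have hterm : ∀ U : Fin T → Bool × Fin s × Bool, trP F' (π' (RC.wrd (RC.letter x') T U)) ≤
      (if U ∈ S then d else 0) + β * d := by
    intro U
    by_cases hU : U ∈ S
    · rw [if_pos hU]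
      have h1 : trP F' (π' (RC.wrd (RC.letter x') T U)) ≤ 1 * Module.finrank ℝ F' := by
        refine trP_le_finrank F' _ 1 fun v _ => ?_
        rw [one_mul]
        refine (real_inner_le_norm _ _).trans ?_
        rw [hπ', sq]
      rw [one_mul, ← hd] at h1
      have h2 : 0 ≤ β * d := mul_nonneg hβ0 hd0
      linarith
    · rw [if_neg hU, zero_add]
      rw [hS, Finset.mem_filter, not_and] at hU
      have h1 := not_lt.1 (hU (Finset.mem_univ _))
      have h2 := char_bound π' hπ' F' hF' hr hrn hno' hb _ h1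
      rw [← hβ, ← hd] at h2
      exact h2
  have hcard : (Fintype.card (Fin T → Bool × Fin s × Bool) : ℝ) = (4 * s) ^ T := by
    simp [Fintype.card_prod]
    ring
  have hstep4 : trP F' ((∑ c, π' (RC.letter x' c)) ^ T) ≤
      (S.card : ℝ) * d + (4 * (s : ℝ)) ^ T * (β * d) := by
    rw [hpow', trP_sum]
    refine (Finset.sum_le_sum fun U _ => hterm U).trans ?_
    rw [Finset.sum_add_distrib, Finset.sum_const, Finset.card_univ, nsmul_eq_mul, hcard,
      Finset.sum_ite_mem, Finset.univ_inter, Finset.sum_const, nsmul_eq_mul]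
  have hwalk := walk (t := t) (T := T) hs x' hx ht htn hε hεs
  have hSc : (Nat.card {U : Fin T → Bool × Fin s × Bool //
      n < 2 * (univ.filter (fun i => RC.wrd (RC.letter x') T U i = i)).card} : ℝ) = S.card := by
    rw [Nat.card_eq_fintype_card, Fintype.card_subtype, hS]
  rw [hSc] at hwalk
  have h4s : (0 : ℝ) < (4 * (s : ℝ)) ^ T := by positivity
  have hScard : (S.card : ℝ) ≤ (4 * (s : ℝ)) ^ T *
      ((4 / (n : ℝ)) ^ t + 4 ^ t * (1 - ε / (2 * s)) ^ T) := by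
    have h1 : (S.card : ℝ) = (S.card : ℝ) * ((n : ℝ) / 4) ^ t * (4 / (n : ℝ)) ^ t := by
      rw [mul_assoc, ← mul_pow]
      have : (n : ℝ) / 4 * (4 / n) = 1 := by field_simp
      rw [this, one_pow, mul_one]
    rw [h1]
    refine (mul_le_mul_of_nonneg_right hwalk (by positivity)).trans (le_of_eq ?_)
    have h2 : (4 * (s : ℝ) - 2 * ε) = (4 * s) * (1 - ε / (2 * s)) := by field_simp; ring
    have h3 : (n : ℝ) ^ t * (4 / (n : ℝ)) ^ t = 4 ^ t := by
      rw [← mul_pow]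
      congr 1
      field_simp
    rw [h2, mul_pow (4 * (s : ℝ)) (1 - ε / (2 * s)) T, add_mul]
    calc (4 * (s : ℝ)) ^ T * (4 / (n : ℝ)) ^ t +
          (n : ℝ) ^ t * ((4 * (s : ℝ)) ^ T * (1 - ε / (2 * s)) ^ T) * (4 / (n : ℝ)) ^ t
        = (4 * (s : ℝ)) ^ T * ((4 / (n : ℝ)) ^ t +
          ((n : ℝ) ^ t * (4 / (n : ℝ)) ^ t) * (1 - ε / (2 * s)) ^ T) := by ring
      _ = _ := by rw [h3]
  have hd2 : d = 2 * Module.finrank ℝ F := by
    rw [hd, hfin]
    push_cast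
    ring
  have hfinal : (4 * (s : ℝ)) ^ T * ((1 - θ') ^ T *
      (Module.finrank ℝ (RC.low A θ' ⊓ F : Submodule ℝ E) : ℝ)) ≤ (4 * (s : ℝ)) ^ T *
      (2 * ((4 / (n : ℝ)) ^ t + 4 ^ t * (1 - ε / (2 * s)) ^ T + β) *
        Module.finrank ℝ F) := by
    calc (4 * (s : ℝ)) ^ T * ((1 - θ') ^ T *
          (Module.finrank ℝ (RC.low A θ' ⊓ F : Submodule ℝ E) : ℝ))
        ≤ (4 * (s : ℝ)) ^ T * trP F ((1 - A) ^ T) := mul_le_mul_of_nonneg_left hstep1 h4s.le
      _ = trP F ((∑ c, π (RC.letter x c)) ^ T) := hstep2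
      _ ≤ trP F' ((∑ c, π' (RC.letter x' c)) ^ T) := hstep3
      _ ≤ (S.card : ℝ) * d + (4 * (s : ℝ)) ^ T * (β * d) := hstep4
      _ ≤ (4 * (s : ℝ)) ^ T *
          ((4 / (n : ℝ)) ^ t + 4 ^ t * (1 - ε / (2 * s)) ^ T) * d +
          (4 * (s : ℝ)) ^ T * (β * d) := by
        have := mul_le_mul_of_nonneg_right hScard hd0
        linarith
      _ = _ := by rw [hd2]; ring
  rw [← hβ]
  exact le_of_mul_le_mul_left hfinal h4s

end Pool.Agent.RS
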