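import Pool.Agent.Helper36.RS.Tr

/-!
# ETA-04: the average of the left conjugates is a scalar

PROOF of `scalar_avg`.  `S = ∑ g, L g X L g⁻¹` is symmetric (`L g⁻¹` is the adjoint of `L g`,
`RC.Equiv.inner_pres`), commutes with every `L h` (reindex the sum by `g ↦ h g`) and every `R h`,
and preserves `B`.  `B ≠ ⊥`, so the symmetric operator `S` restricted to `B` has an eigenvalue `μ`
(`LinearMap.IsSymmetric.hasEigenvalue_iSup_of_finiteDimensional` or the eigenvector basis), and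
`F = eigenspace S μ ⊓ B` is nonzero, invariant under both actions, hence `F = B`: `S = μ` on `B`.
Traces: `μ dim B = trP B S = ∑ g, trP B (L g X L g⁻¹) = |G| trP B X` by `trP_comm` (with
`X L g⁻¹` and `L g`, which preserve `B`).

PROOF of `expect_pair`.  `∑ g, trP B (L g X L g⁻¹ Y) = trP B (S Y)`; on `B` (which `Y` preserves)
`S Y = c Y`, `c = |G| trP B X / dim B`; so it is `c trP B Y`.
-/

open Finset

namespace Pool.Agent.RS

open scoped InnerProductSpace

variable {E : Type*} [NormedAddCommGroup E] [InnerProductSpace ℝ E] [FiniteDimensional ℝ E]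

/-- the sum of the left conjugates -/
private noncomputable def sAvg {G : Type*} [Group G] [Fintype G] (L : G →* (E →ₗ[ℝ] E))
    (X : E →ₗ[ℝ] E) : E →ₗ[ℝ] E :=
  ∑ g, L g * X * L g⁻¹

omit [FiniteDimensional ℝ E] in
private theorem sAvg_apply {G : Type*} [Group G] [Fintype G] (L : G →* (E →ₗ[ℝ] E))
    (X : E →ₗ[ℝ] E) (v : E) : sAvg L X v = ∑ g, L g (X (L g⁻¹ v)) := by
  unfold sAvg
  rw [LinearMap.sum_apply]
  rfl

omit [FiniteDimensional ℝ E] in
private theorem L_inv_apply {G : Type*} [Group G] (L : G →* (E →ₗ[ℝ] E)) (g : G) (v : E) :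
    L g (L g⁻¹ v) = v := by
  rw [← Module.End.mul_apply, ← map_mul, mul_inv_cancel, map_one, Module.End.one_apply]

omit [FiniteDimensional ℝ E] in
private theorem L_inv_apply' {G : Type*} [Group G] (L : G →* (E →ₗ[ℝ] E)) (g : G) (v : E) :
    L g⁻¹ (L g v) = v := by
  rw [← Module.End.mul_apply, ← map_mul, inv_mul_cancel, map_one, Module.End.one_apply]

omit [FiniteDimensional ℝ E] in
private theorem sAvg_symm {G : Type*} [Group G] [Fintype G] (L : G →* (E →ₗ[ℝ] E))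
    (hL : ∀ g v, ‖L g v‖ = ‖v‖) (X : E →ₗ[ℝ] E) (hX : X.IsSymmetric) :
    (sAvg L X).IsSymmetric := by
  intro v w
  rw [sAvg_apply, sAvg_apply, sum_inner, inner_sum]
  refine Finset.sum_congr rfl fun g _ => ?_
  have h1 : ⟪L g (X (L g⁻¹ v)), w⟫_ℝ = ⟪X (L g⁻¹ v), L g⁻¹ w⟫_ℝ := by
    conv_lhs => rw [← L_inv_apply L g w]
    exact RC.Equiv.inner_pres (L g) (hL g) _ _
  have h2 : ⟪v, L g (X (L g⁻¹ w))⟫_ℝ = ⟪L g⁻¹ v, X (L g⁻¹ w)⟫_ℝ := by
    conv_lhs => rw [← L_inv_apply L g v]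
    exact RC.Equiv.inner_pres (L g) (hL g) _ _
  rw [h1, h2]
  exact hX _ _

omit [FiniteDimensional ℝ E] in
private theorem sAvg_L {G : Type*} [Group G] [Fintype G] (L : G →* (E →ₗ[ℝ] E))
    (X : E →ₗ[ℝ] E) (h : G) (v : E) : sAvg L X (L h v) = L h (sAvg L X v) := by
  rw [sAvg_apply, sAvg_apply, map_sum, ← Equiv.sum_comp (Equiv.mulLeft h)]
  refine Finset.sum_congr rfl fun g _ => ?_
  have h1 : L (h * g)⁻¹ (L h v) = L g⁻¹ v := by
    rw [← Module.End.mul_apply, ← map_mul]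
    congr 2
    group
  rw [Equiv.coe_mulLeft, h1, map_mul, Module.End.mul_apply]

omit [FiniteDimensional ℝ E] in
private theorem sAvg_R {G : Type*} [Group G] [Fintype G] (L R : G →* (E →ₗ[ℝ] E))
    (hLR : ∀ g h v, L g (R h v) = R h (L g v)) (X : E →ₗ[ℝ] E)
    (hXR : ∀ g v, X (R g v) = R g (X v)) (h : G) (v : E) :
    sAvg L X (R h v) = R h (sAvg L X v) := by
  rw [sAvg_apply, sAvg_apply, map_sum]
  refine Finset.sum_congr rfl fun g _ => ?_
  rw [hLR, hXR, hLR]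

omit [FiniteDimensional ℝ E] in
private theorem sAvg_mem {G : Type*} [Group G] [Fintype G] (L R : G →* (E →ₗ[ℝ] E))
    (B : Submodule ℝ E) (hB : MinInv L R B) (X : E →ₗ[ℝ] E) (hXB : ∀ v ∈ B, X v ∈ B) (v : E)
    (hv : v ∈ B) : sAvg L X v ∈ B := by
  rw [sAvg_apply]
  exact B.sum_mem fun g _ => hB.left g _ (hXB _ (hB.left g⁻¹ v hv))

/-- a symmetric operator commuting with both actions is a scalar on `B` -/
private theorem scalar_of_comm {G : Type*} [Group G] (L R : G →* (E →ₗ[ℝ] E))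
    (B : Submodule ℝ E) (hB : MinInv L R B) (S : E →ₗ[ℝ] E) (hS : S.IsSymmetric)
    (hSL : ∀ h v, S (L h v) = L h (S v)) (hSR : ∀ h v, S (R h v) = R h (S v))
    (hSB : ∀ v ∈ B, S v ∈ B) : ∃ μ : ℝ, ∀ v ∈ B, S v = μ • v := by
  have hT : (S.restrict hSB).IsSymmetric := hS.restrict_invariant hSB
  have hnt : Nontrivial B := (Submodule.nontrivial_iff_ne_bot).2 hB.ne_bot
  obtain ⟨μ, hev⟩ : ∃ μ : ℝ, Module.End.HasEigenvalue (S.restrict hSB) μ :=
    ⟨_, hT.hasEigenvalue_iSup_of_finiteDimensional⟩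
  obtain ⟨w, hw⟩ := hev.exists_hasEigenvector
  refine ⟨μ, ?_⟩
  have hw1 : S (w : E) = μ • (w : E) := by
    have := congrArg Subtype.val hw.apply_eq_smul
    exact this
  have hw0 : (w : E) ≠ 0 := fun h => hw.2 (Subtype.ext h)
  have key : Module.End.eigenspace S μ ⊓ B = ⊥ ∨ Module.End.eigenspace S μ ⊓ B = B := by
    refine hB.min _ inf_le_right ?_ ?_
    · intro g v hv
      refine ⟨?_, hB.left g v hv.2⟩
      have h1 := hv.1
      rw [SetLike.mem_coe, Module.End.mem_eigenspace_iff] at h1 ⊢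
      rw [hSL, h1, map_smul]
    · intro g v hv
      refine ⟨?_, hB.right g v hv.2⟩
      have h1 := hv.1
      rw [SetLike.mem_coe, Module.End.mem_eigenspace_iff] at h1 ⊢
      rw [hSR, h1, map_smul]
  intro v hv
  rcases key with h | h
  · exfalso
    apply hw0
    have : (w : E) ∈ Module.End.eigenspace S μ ⊓ B :=
      ⟨Module.End.mem_eigenspace_iff.2 hw1, w.2⟩
    rw [h] at this
    exact (Submodule.mem_bot ℝ).1 this
  · rw [← h] at hv
    exact Module.End.mem_eigenspace_iff.1 hv.1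

private theorem trP_sAvg {G : Type*} [Group G] [Fintype G] (L R : G →* (E →ₗ[ℝ] E))
    (B : Submodule ℝ E) (hB : MinInv L R B) (X : E →ₗ[ℝ] E) (hXB : ∀ v ∈ B, X v ∈ B) :
    trP B (sAvg L X) = (Fintype.card G : ℝ) * trP B X := by
  unfold sAvg
  rw [trP_sum]
  have h1 : ∀ g ∈ (Finset.univ : Finset G), trP B (L g * X * L g⁻¹) = trP B X := by
    intro g _
    rw [mul_assoc, trP_comm B (L g) (X * L g⁻¹) (hB.left g)
      (fun v hv => hXB _ (hB.left g⁻¹ v hv)), mul_assoc]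
    refine trP_congr B _ _ fun v _ => ?_
    rw [Module.End.mul_apply, Module.End.mul_apply, L_inv_apply']
  rw [Finset.sum_congr rfl h1, Finset.sum_const, Finset.card_univ, nsmul_eq_mul]

private theorem sAvg_scalar {G : Type*} [Group G] [Fintype G] (L R : G →* (E →ₗ[ℝ] E))
    (hL : ∀ g v, ‖L g v‖ = ‖v‖) (hLR : ∀ g h v, L g (R h v) = R h (L g v))
    (B : Submodule ℝ E) (hB : MinInv L R B) (X : E →ₗ[ℝ] E) (hX : X.IsSymmetric)
    (hXR : ∀ g v, X (R g v) = R g (X v)) (hXB : ∀ v ∈ B, X v ∈ B) (v : E) (hv : v ∈ B) :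
    sAvg L X v = ((Fintype.card G : ℝ) * trP B X / Module.finrank ℝ B) • v := by
  obtain ⟨μ, hμ⟩ := scalar_of_comm L R B hB (sAvg L X) (sAvg_symm L hL X hX) (sAvg_L L X)
    (sAvg_R L R hLR X hXR) (sAvg_mem L R B hB X hXB)
  have h1 : trP B (sAvg L X) = μ * Module.finrank ℝ B := by
    rw [← trP_one, ← trP_smul]
    exact trP_congr B _ _ fun u hu => hμ u hu
  have h2 := trP_sAvg L R B hB X hXB
  have hnt : Nontrivial B := (Submodule.nontrivial_iff_ne_bot).2 hB.ne_bot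
  have h3 : (0 : ℝ) < Module.finrank ℝ B := by exact_mod_cast Module.finrank_pos
  have h4 : μ = (Fintype.card G : ℝ) * trP B X / Module.finrank ℝ B := by
    rw [eq_div_iff h3.ne', ← h1, h2]
  rw [hμ v hv, h4]

theorem scalar_avg {G : Type*} [Group G] [Fintype G] (L R : G →* (E →ₗ[ℝ] E))
    (hL : ∀ g v, ‖L g v‖ = ‖v‖) (hLR : ∀ g h v, L g (R h v) = R h (L g v))
    (B : Submodule ℝ E) (hB : MinInv L R B) (X : E →ₗ[ℝ] E) (hX : X.IsSymmetric)
    (hXR : ∀ g v, X (R g v) = R g (X v)) (hXB : ∀ v ∈ B, X v ∈ B) (v : E) (hv : v ∈ B) :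
    ∑ g, L g (X (L g⁻¹ v)) =
      ((Fintype.card G : ℝ) * trP B X / Module.finrank ℝ B) • v := by
  rw [← sAvg_apply]
  exact sAvg_scalar L R hL hLR B hB X hX hXR hXB v hv

theorem expect_pair {G : Type*} [Group G] [Fintype G] (L R : G →* (E →ₗ[ℝ] E))
    (hL : ∀ g v, ‖L g v‖ = ‖v‖) (hLR : ∀ g h v, L g (R h v) = R h (L g v))
    (B : Submodule ℝ E) (hB : MinInv L R B) (X Y : E →ₗ[ℝ] E) (hX : X.IsSymmetric)
    (hXR : ∀ g v, X (R g v) = R g (X v)) (hXB : ∀ v ∈ B, X v ∈ B) (hYB : ∀ v ∈ B, Y v ∈ B) :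
    ∑ g, trP B (L g * X * L g⁻¹ * Y) =
      (Fintype.card G : ℝ) * trP B X * trP B Y / Module.finrank ℝ B := by
  have h1 : ∑ g, trP B (L g * X * L g⁻¹ * Y) = trP B (sAvg L X * Y) := by
    unfold sAvg
    rw [Finset.sum_mul, trP_sum]
  have h2 : trP B (sAvg L X * Y) =
      trP B (((Fintype.card G : ℝ) * trP B X / Module.finrank ℝ B) • Y) := by
    refine trP_congr B _ _ fun v hv => ?_
    rw [Module.End.mul_apply, LinearMap.smul_apply]
    exact sAvg_scalar L R hL hLR B hB X hX hXR hXB _ (hYB v hv)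
  rw [h1, h2, trP_smul]
  ring

end Pool.Agent.RS
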