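import Pool.Agent.Helper36.RS.Double
import Pool.Agent.Helper36.RS.Scalar

set_option autoImplicit false

/-!
# ETA-05: admissible operators and one random averaging step

PROOF of `Adm.avgConj`.  Routine: averages of conjugates by isometries commuting with `R`.

PROOF of `Adm.low_proj_comm`.  The projection onto `low A θ` commutes with `R g`
(`RC.Equiv.proj_conj` with the isometry `R g` and its inverse) and preserves the `B i`
(`RC.Equiv.proj_mem`).

PROOF of `level`.  Fix `i`, write `B = B i`, `P` the projection onto `low A θ`, `d = dim B > 0`,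
`k = dim (low A θ ⊓ B) = trP B P` (`trP_proj`).  By `doubling`, for every `y`:
`4 dim U_y ≤ K^2 ∑_{j ≠ k} trP B (P_j P_k)`.  Sum over all `y : Fin K → G`: for fixed `j ≠ k`,
`∑_y trP B (L (y j) P L (y j)⁻¹ L (y k) P L (y k)⁻¹) = |G|^(K-2) ∑_{a b : G} trP B (P_a P_b)`
`= |G|^(K-2) |G| · |G| k^2/d` by `expect_pair` with `X = P`, `Y = P_b` (for each fixed `b`), and
`trP B P_b = trP B P = k` by `trP_comm`.  (Simplest: for each `y` split off the coordinate `j`:
`∑_y f (y j) (y k) = ∑_y |G|⁻¹ ∑_a f a (y k)`; e.g. use `Function.update`/`Equiv.piSplitAt`, or the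
identity `∑_y F y = |G|⁻¹ ∑_y ∑_a F (Function.update y j a)`.)
So `∑_y 4 dim U_y ≤ K^2 · K^2 · |G|^K k^2/d`.  Let `bad_i` be the set of `y` with
`Z k^2/d < dim U_y`.  If `k = 0` every `U_y = 0` (the sum of nonnegative terms is `0`), and the bad
set is empty.  If `k > 0`: `4 Z (k^2/d) |bad_i| ≤ K^4 |G|^K k^2/d`, divide by `k^2/d > 0`.
Sum over `i : Fin q` (union bound).
-/

open Finset

namespace Pool.Agent.RS

open scoped InnerProductSpace

variable {E : Type*} [NormedAddCommGroup E] [InnerProductSpace ℝ E] [FiniteDimensional ℝ E]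
  {G : Type*} [Group G]

omit [FiniteDimensional ℝ E] in
private theorem inner_left (L : G →* (E →ₗ[ℝ] E)) (hL : ∀ g v, ‖L g v‖ = ‖v‖) (g : G) (v w : E) :
    ⟪L g v, w⟫_ℝ = ⟪v, L g⁻¹ w⟫_ℝ := by
  have h1 : L g (L g⁻¹ w) = w := by
    rw [← Module.End.mul_apply, ← map_mul, mul_inv_cancel, map_one, Module.End.one_apply]
  have h2 := RC.Equiv.inner_pres (L g) (hL g) v (L g⁻¹ w)
  rw [h1] at h2
  exact h2

omit [FiniteDimensional ℝ E] in
private theorem avgConj_apply (L : G →* (E →ₗ[ℝ] E)) {K : ℕ} (y : Fin K → G) (A : E →ₗ[ℝ] E)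
    (v : E) : avgConj L y A v = (K : ℝ)⁻¹ • ∑ j, L (y j) (A (L (y j)⁻¹ v)) := by
  simp [avgConj, LinearMap.sum_apply]

omit [FiniteDimensional ℝ E] in
private theorem inner_avgConj (L : G →* (E →ₗ[ℝ] E)) (hL : ∀ g v, ‖L g v‖ = ‖v‖) {K : ℕ}
    (y : Fin K → G) (A : E →ₗ[ℝ] E) (v w : E) :
    ⟪avgConj L y A v, w⟫_ℝ = (K : ℝ)⁻¹ * ∑ j, ⟪A (L (y j)⁻¹ v), L (y j)⁻¹ w⟫_ℝ := by
  rw [avgConj_apply, real_inner_smul_left, sum_inner]
  congr 1
  exact Finset.sum_congr rfl fun j _ => inner_left L hL _ _ _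

theorem Adm.avg (L R : G →* (E →ₗ[ℝ] E))
    (hL : ∀ g v, ‖L g v‖ = ‖v‖) (hLR : ∀ g h v, L g (R h v) = R h (L g v)) {ι : Type*}
    {B : ι → Submodule ℝ E} (hB : ∀ i, ∀ g, ∀ v ∈ B i, L g v ∈ B i) {A : E →ₗ[ℝ] E}
    (hA : Adm R B A) {K : ℕ} (hK : 0 < K) (y : Fin K → G) : Adm R B (avgConj L y A) := by
  have hK' : (0 : ℝ) < K := by exact_mod_cast hK
  have hKi : (0 : ℝ) ≤ (K : ℝ)⁻¹ := (inv_pos.mpr hK').le
  refine ⟨fun v w => ?_, fun v => ?_, fun v => ?_, fun g v => ?_, fun i v hv => ?_⟩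
  · rw [inner_avgConj L hL, real_inner_comm, inner_avgConj L hL]
    congr 1
    refine Finset.sum_congr rfl fun j _ => ?_
    rw [hA.symm, real_inner_comm]
  · rw [inner_avgConj L hL]
    exact mul_nonneg hKi (Finset.sum_nonneg fun j _ => hA.nonneg _)
  · rw [inner_avgConj L hL]
    have h1 : ∑ j : Fin K, ⟪A (L (y j)⁻¹ v), L (y j)⁻¹ v⟫_ℝ ≤ ∑ j : Fin K, ‖v‖ ^ 2 := by
      refine Finset.sum_le_sum fun j _ => ?_
      refine (hA.le _).trans ?_
      rw [hL]
    rw [Finset.sum_const, Finset.card_univ, Fintype.card_fin, nsmul_eq_mul] at h1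
    calc (K : ℝ)⁻¹ * ∑ j : Fin K, ⟪A (L (y j)⁻¹ v), L (y j)⁻¹ v⟫_ℝ
        ≤ (K : ℝ)⁻¹ * (K * ‖v‖ ^ 2) := mul_le_mul_of_nonneg_left h1 hKi
      _ = ‖v‖ ^ 2 := by
        field_simp
  · rw [avgConj_apply, avgConj_apply, map_smul, map_sum]
    congr 1
    refine Finset.sum_congr rfl fun j _ => ?_
    rw [hLR, hA.comm, hLR]
  · rw [avgConj_apply]
    refine (B i).smul_mem _ ((B i).sum_mem fun j _ => ?_)
    exact hB i _ _ (hA.pres i _ (hB i _ _ hv))

private theorem sum_update [Fintype G] {K : ℕ} (j : Fin K) (F : (Fin K → G) → ℝ) :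
    ∑ y : Fin K → G, ∑ a, F (Function.update y j a) = (Fintype.card G : ℝ) * ∑ y, F y := by
  classical
  let e : (Fin K → G) × G ≃ (Fin K → G) × G :=
    { toFun := fun p => (Function.update p.1 j p.2, p.1 j)
      invFun := fun p => (Function.update p.1 j p.2, p.1 j)
      left_inv := fun p => by
        refine Prod.ext ?_ ?_
        · simp only [Function.update_idem, Function.update_eq_self]
        · simp only [Function.update_self]
      right_inv := fun p => by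
        refine Prod.ext ?_ ?_
        · simp only [Function.update_idem, Function.update_eq_self]
        · simp only [Function.update_self] }
  have h1 : ∑ p : (Fin K → G) × G, F (Function.update p.1 j p.2) =
      ∑ p : (Fin K → G) × G, F p.1 := Equiv.sum_comp e (fun p => F p.1)
  rw [Fintype.sum_prod_type, Fintype.sum_prod_type] at h1
  simp only at h1
  rw [h1, Finset.mul_sum]
  refine Finset.sum_congr rfl fun y _ => ?_
  rw [Finset.sum_const, Finset.card_univ, nsmul_eq_mul]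

private theorem sum_pair [Fintype G] {K : ℕ} {j k : Fin K} (hjk : j ≠ k) (T : G → G → ℝ) (c : ℝ)
    (hT : ∀ b, ∑ a, T a b = (Fintype.card G : ℝ) * c) :
    ∑ y : Fin K → G, T (y j) (y k) = (Fintype.card G : ℝ) ^ K * c := by
  classical
  have h1 := sum_update j (fun y : Fin K → G => T (y j) (y k))
  have h2 : ∀ y : Fin K → G, ∑ a, T (Function.update y j a j) (Function.update y j a k) =
      (Fintype.card G : ℝ) * c := by
    intro y
    rw [← hT (y k)]
    refine Finset.sum_congr rfl fun a _ => ?_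
    rw [Function.update_self, Function.update_of_ne hjk.symm]
  simp only [h2] at h1
  rw [Finset.sum_const, Finset.card_univ, Fintype.card_fun, Fintype.card_fin, nsmul_eq_mul] at h1
  have h3 : (Fintype.card G : ℝ) ≠ 0 := by
    exact_mod_cast Fintype.card_ne_zero
  have h4 : (Fintype.card G : ℝ) * (∑ y : Fin K → G, T (y j) (y k)) =
      (Fintype.card G : ℝ) * ((Fintype.card G : ℝ) ^ K * c) := by
    rw [← h1]
    push_cast
    ring
  exact mul_left_cancel₀ h3 h4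

/-- One subspace: the sum over all `y`. -/
private theorem sum_dim [Fintype G] (L R : G →* (E →ₗ[ℝ] E))
    (hL : ∀ g v, ‖L g v‖ = ‖v‖) (hR : ∀ g v, ‖R g v‖ = ‖v‖)
    (hLR : ∀ g h v, L g (R h v) = R h (L g v)) {q : ℕ} (B : Fin q → Submodule ℝ E)
    (hB : ∀ i, MinInv L R (B i)) {A : E →ₗ[ℝ] E} (hA : Adm R B A) {K : ℕ} (hK : 3 ≤ K)
    (θ : ℝ) (hθ : 0 < θ) (i : Fin q) :
    ∑ y : Fin K → G, 4 * (Module.finrank ℝ
        (RC.low (avgConj L y A) (θ * (1 - 2 / K)) ⊓ B i : Submodule ℝ E) : ℝ) ≤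
      (K : ℝ) ^ 4 * ((Fintype.card G : ℝ) ^ K *
        ((Module.finrank ℝ (RC.low A θ ⊓ B i : Submodule ℝ E) : ℝ) ^ 2 /
          (Module.finrank ℝ (B i) : ℝ))) := by
  classical
  obtain ⟨P, hP⟩ : ∃ P : E →ₗ[ℝ] E, P = (RC.low A θ).starProjection.toLinearMap := ⟨_, rfl⟩
  have hPsym : P.IsSymmetric := by
    rw [hP]
    exact Submodule.starProjection_isSymmetric _
  have hRR : ∀ g v, R g (R g⁻¹ v) = v := by
    intro g v
    simp
  have hRR' : ∀ g v, R g⁻¹ (R g v) = v := by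
    intro g v
    simp
  have hPR : ∀ g v, P (R g v) = R g (P v) := by
    intro g v
    rw [hP]
    exact RC.Equiv.proj_conj (hR g) (hRR g) (hRR' g) (hA.comm g) θ v
  have hPB : ∀ v ∈ B i, P v ∈ B i := by
    intro v hv
    rw [hP]
    exact RC.Equiv.proj_mem hA.symm (hA.pres i) θ hv
  have hLB := (hB i).left
  have hYB : ∀ b : G, ∀ v ∈ B i, (L b * P * L b⁻¹) v ∈ B i := by
    intro b v hv
    exact hLB _ _ (hPB _ (hLB _ _ hv))
  obtain ⟨k, hk⟩ : ∃ k : ℝ, k = (Module.finrank ℝ (RC.low A θ ⊓ B i : Submodule ℝ E) : ℝ) :=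
    ⟨_, rfl⟩
  have htr : trP (B i) P = k := by
    rw [hP, hk]
    apply trP_proj
    intro v hv
    have h := hPB v hv
    rw [hP] at h
    exact h
  have htrb : ∀ b : G, trP (B i) (L b * P * L b⁻¹) = k := by
    intro b
    rw [mul_assoc, trP_comm (B i) (L b) (P * L b⁻¹) (hLB b) (fun v hv => hPB _ (hLB _ _ hv)),
      mul_assoc, ← map_mul, inv_mul_cancel, map_one, mul_one, htr]
  have hT : ∀ b : G, ∑ a, trP (B i) ((L a * P * L a⁻¹) * (L b * P * L b⁻¹)) =
      (Fintype.card G : ℝ) * (k ^ 2 / (Module.finrank ℝ (B i) : ℝ)) := by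
    intro b
    rw [expect_pair L R hL hLR (B i) (hB i) P _ hPsym hPR hPB (hYB b), htr, htrb]
    ring
  have hc : 0 ≤ k ^ 2 / (Module.finrank ℝ (B i) : ℝ) := by positivity
  rw [← hk]
  calc ∑ y : Fin K → G, 4 * (Module.finrank ℝ
        (RC.low (avgConj L y A) (θ * (1 - 2 / K)) ⊓ B i : Submodule ℝ E) : ℝ)
      ≤ ∑ y : Fin K → G, (K : ℝ) ^ 2 * ∑ j, ∑ k ∈ univ.filter (fun k => j ≠ k),
        trP (B i) ((L (y j) * P * L (y j)⁻¹) * (L (y k) * P * L (y k)⁻¹)) := by
        refine Finset.sum_le_sum fun y _ => ?_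
        rw [hP]
        exact doubling L hL hK y A hA.symm hA.nonneg (B i) hLB (hA.pres i) θ hθ
    _ = (K : ℝ) ^ 2 * ∑ j : Fin K, ∑ k' ∈ univ.filter (fun k' => j ≠ k'),
        (Fintype.card G : ℝ) ^ K * (k ^ 2 / (Module.finrank ℝ (B i) : ℝ)) := by
        rw [← Finset.mul_sum, Finset.sum_comm]
        congr 1
        refine Finset.sum_congr rfl fun j _ => ?_
        rw [Finset.sum_comm]
        refine Finset.sum_congr rfl fun k' hk' => ?_
        rw [Finset.mem_filter] at hk'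
        exact sum_pair hk'.2 (fun a b => trP (B i) ((L a * P * L a⁻¹) * (L b * P * L b⁻¹))) _ hT
    _ ≤ (K : ℝ) ^ 2 * ∑ j : Fin K, ∑ k' : Fin K,
        (Fintype.card G : ℝ) ^ K * (k ^ 2 / (Module.finrank ℝ (B i) : ℝ)) := by
        refine mul_le_mul_of_nonneg_left (Finset.sum_le_sum fun j _ => ?_) (by positivity)
        exact Finset.sum_le_sum_of_subset_of_nonneg (Finset.filter_subset _ _)
          (fun _ _ _ => by positivity)
    _ = (K : ℝ) ^ 4 * ((Fintype.card G : ℝ) ^ K * (k ^ 2 / (Module.finrank ℝ (B i) : ℝ))) := by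
        simp only [Finset.sum_const, Finset.card_univ, Fintype.card_fin, nsmul_eq_mul]
        ring

/-- Markov's inequality. -/
private theorem markov {Ω : Type*} [Fintype Ω] (u : Ω → ℝ) (hu : ∀ y, 0 ≤ u y) (c Z M : ℝ)
    (hc : 0 ≤ c) (hM : 0 ≤ M) (hs : ∑ y, 4 * u y ≤ M * c) (S : Finset Ω)
    (hS : ∀ y ∈ S, Z * c < u y) : (S.card : ℝ) * (4 * Z) ≤ M := by
  rcases hc.lt_or_eq with hpos | h0
  · have h1 : ∑ y ∈ S, 4 * (Z * c) ≤ ∑ y, 4 * u y := by
      calc ∑ y ∈ S, 4 * (Z * c) ≤ ∑ y ∈ S, 4 * u y :=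
            Finset.sum_le_sum fun y hy => by linarith [hS y hy]
        _ ≤ ∑ y, 4 * u y := Finset.sum_le_sum_of_subset_of_nonneg (Finset.subset_univ _)
            fun y _ _ => by linarith [hu y]
    rw [Finset.sum_const, nsmul_eq_mul] at h1
    have h2 : ((S.card : ℝ) * (4 * Z)) * c ≤ M * c := by
      calc ((S.card : ℝ) * (4 * Z)) * c = (S.card : ℝ) * (4 * (Z * c)) := by ring
        _ ≤ _ := h1.trans hs
    exact le_of_mul_le_mul_right h2 hpos
  · subst h0
    have h1 : S = ∅ := by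
      rw [Finset.eq_empty_iff_forall_notMem]
      intro y hy
      have h2 := hS y hy
      rw [mul_zero] at h2
      have h3 : 4 * u y ≤ ∑ y, 4 * u y :=
        Finset.single_le_sum (f := fun y => 4 * u y) (fun z _ => by linarith [hu z])
          (Finset.mem_univ y)
      rw [mul_zero] at hs
      linarith
    rw [h1, Finset.card_empty]
    simpa using hM

theorem level [Fintype G] (L R : G →* (E →ₗ[ℝ] E))
    (hL : ∀ g v, ‖L g v‖ = ‖v‖) (hR : ∀ g v, ‖R g v‖ = ‖v‖)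
    (hLR : ∀ g h v, L g (R h v) = R h (L g v)) {q : ℕ} (B : Fin q → Submodule ℝ E)
    (hB : ∀ i, MinInv L R (B i)) {A : E →ₗ[ℝ] E} (hA : Adm R B A) {K : ℕ} (hK : 3 ≤ K)
    (θ : ℝ) (hθ : 0 < θ) (Z : ℝ) (hZ : 0 < Z) :
    (Nat.card {y : Fin K → G // ∃ i : Fin q,
      Z * (Module.finrank ℝ (RC.low A θ ⊓ B i : Submodule ℝ E) : ℝ) ^ 2 /
          (Module.finrank ℝ (B i) : ℝ) <
        (Module.finrank ℝ (RC.low (avgConj L y A) (θ * (1 - 2 / K)) ⊓ B i : Submodule ℝ E) : ℝ)} :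
          ℝ) * (4 * Z) ≤ q * (K : ℝ) ^ 4 * (Fintype.card G : ℝ) ^ K := by
  classical
  obtain ⟨bad, hbad⟩ : ∃ bad : Fin q → Finset (Fin K → G), ∀ i, bad i = univ.filter (fun y =>
      Z * (Module.finrank ℝ (RC.low A θ ⊓ B i : Submodule ℝ E) : ℝ) ^ 2 /
          (Module.finrank ℝ (B i) : ℝ) <
        (Module.finrank ℝ (RC.low (avgConj L y A) (θ * (1 - 2 / K)) ⊓ B i :
          Submodule ℝ E) : ℝ)) := ⟨_, fun _ => rfl⟩
  have hone : ∀ i, ((bad i).card : ℝ) * (4 * Z) ≤ (K : ℝ) ^ 4 * (Fintype.card G : ℝ) ^ K := by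
    intro i
    refine markov (fun y : Fin K → G => (Module.finrank ℝ
        (RC.low (avgConj L y A) (θ * (1 - 2 / K)) ⊓ B i : Submodule ℝ E) : ℝ))
      (fun y => Nat.cast_nonneg _)
      ((Module.finrank ℝ (RC.low A θ ⊓ B i : Submodule ℝ E) : ℝ) ^ 2 /
          (Module.finrank ℝ (B i) : ℝ)) Z _ (by positivity) (by positivity) ?_ (bad i) ?_
    · refine (sum_dim L R hL hR hLR B hB hA hK θ hθ i).trans (le_of_eq ?_)
      ring
    · intro y hy
      rw [hbad, Finset.mem_filter] at hy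
      have h := hy.2
      rw [mul_div_assoc] at h
      exact h
  have hcard : (Nat.card {y : Fin K → G // ∃ i : Fin q,
      Z * (Module.finrank ℝ (RC.low A θ ⊓ B i : Submodule ℝ E) : ℝ) ^ 2 /
          (Module.finrank ℝ (B i) : ℝ) <
        (Module.finrank ℝ (RC.low (avgConj L y A) (θ * (1 - 2 / K)) ⊓ B i :
          Submodule ℝ E) : ℝ)} : ℝ) ≤ ∑ i, ((bad i).card : ℝ) := by
    rw [Nat.card_eq_fintype_card, Fintype.card_subtype]
    have h1 : (univ.filter fun y : Fin K → G => ∃ i : Fin q,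
      Z * (Module.finrank ℝ (RC.low A θ ⊓ B i : Submodule ℝ E) : ℝ) ^ 2 /
          (Module.finrank ℝ (B i) : ℝ) <
        (Module.finrank ℝ (RC.low (avgConj L y A) (θ * (1 - 2 / K)) ⊓ B i :
          Submodule ℝ E) : ℝ)) ⊆ univ.biUnion bad := by
      intro y hy
      rw [Finset.mem_filter] at hy
      obtain ⟨i, hi⟩ := hy.2
      rw [Finset.mem_biUnion]
      refine ⟨i, Finset.mem_univ _, ?_⟩
      rw [hbad, Finset.mem_filter]
      exact ⟨Finset.mem_univ _, hi⟩
    have h2 := (Finset.card_le_card h1).trans Finset.card_biUnion_le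
    exact_mod_cast h2
  calc _ ≤ (∑ i, ((bad i).card : ℝ)) * (4 * Z) :=
        mul_le_mul_of_nonneg_right hcard (by positivity)
    _ = ∑ i, ((bad i).card : ℝ) * (4 * Z) := by rw [Finset.sum_mul]
    _ ≤ ∑ _i : Fin q, (K : ℝ) ^ 4 * (Fintype.card G : ℝ) ^ K :=
        Finset.sum_le_sum fun i _ => hone i
    _ = q * (K : ℝ) ^ 4 * (Fintype.card G : ℝ) ^ K := by
        rw [Finset.sum_const, Finset.card_univ, Fintype.card_fin, nsmul_eq_mul]
        ring

end Pool.Agent.RS
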