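import Pool.Agent.Helper36.RS.NoLeft

set_option autoImplicit false

/-!
# ETA-24: irreducible representations of low degree

PROOF.  Let `u ≠ 0` be fixed by all even permutations fixing the letters outside `A`, `|A| ≥ n - r`,
and let `v ≠ 0` be an eigenvector, `∑_i (π (x i) v + π (x i)⁻¹ v) = μ v`.  Put
`f g = ⟪π g u, v⟫_ℂ` (conjugate linear in the first variable), equal to `⟪u, π g⁻¹ v⟫`.
* `f ((x i)⁻¹ g) = ⟪π (x i)⁻¹ (π g u), v⟫ = ⟪π g u, π (x i) v⟫` and
  `f (x i g) = ⟪π g u, π (x i)⁻¹ v⟫`, so `∑_i (f ((x i)⁻¹ g) + f (x i g)) = μ f g`.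
* `f ∈ degC n r`: `π g u` depends only on the restriction of `g` to the complement of `A` (if
  `g, g'` agree there then `g⁻¹ g'` fixes the letters outside `A`, so `π g' u = π g u`), which has
  at most `r ≤ n` letters; take `a : Fin r → Fin n` whose range contains it and
  `φ z = f g` if `z = g • a`.
* `f ≠ 0`: the span of the vectors `π g u` is an invariant subspace, not `⊥`, so it is `⊤`; if
  `f = 0`, `v` is orthogonal to it, `v = 0`.
* `∑ f g = 0`: `w = ∑ g, π g u` is fixed by all `π h`.  If `w ≠ 0`, the line spanned by `w` is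
  invariant, so it is `⊤`, and every `π h` is the identity, contradicting `hnt`.  So `w = 0` and
  `∑ f g = ⟪w, v⟫ = 0`.
Now `RC.FinalAux.complex_bound` gives `μ ≤ 2 m - 2 ε`.
-/

open Finset

namespace Pool.Agent.RS

open scoped InnerProductSpace

theorem low_deg {n m m₀ r : ℕ} (hrn : r ≤ n) (hm : m₀ ≤ m) {ε : ℝ}
    (x : Fin m → alternatingGroup (Fin n))
    (hx : RC.GapUpTo n m₀ r ε (fun i => (x (Fin.castLE hm i) : Equiv.Perm (Fin n))))
    {E : Type*} [NormedAddCommGroup E] [InnerProductSpace ℂ E] [FiniteDimensional ℂ E]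
    (π : alternatingGroup (Fin n) →* (E →ₗ[ℂ] E)) (hπ : ∀ g v, ‖π g v‖ = ‖v‖)
    (hirr : ∀ W : Submodule ℂ E, (∀ g, ∀ v ∈ W, π g v ∈ W) → W = ⊥ ∨ W = ⊤)
    (hnt : ∃ g v, π g v ≠ v) (A : Finset (Fin n)) (hA : n - r ≤ A.card) (u : E) (hu : u ≠ 0)
    (hinv : ∀ g : alternatingGroup (Fin n), (∀ x, x ∉ A → (g : Equiv.Perm (Fin n)) x = x) →
      π g u = u) (μ : ℝ) (hμ : 2 * (m : ℝ) - 2 * ε < μ) :
    Module.End.eigenspace (∑ i, (π (x i) + π (x i)⁻¹)) (μ : ℂ) = ⊥ := by
  classical
  rw [Submodule.eq_bot_iff]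
  intro v hv
  by_contra hv0
  rw [Module.End.mem_eigenspace_iff] at hv
  -- multiplicativity and unitarity
  have hmul : ∀ g h w, π (g * h) w = π g (π h w) := fun g h w => by rw [map_mul]; rfl
  have hone : ∀ w, π 1 w = w := fun w => by rw [map_one]; rfl
  have hinner : ∀ g a b, ⟪π g a, π g b⟫_ℂ = ⟪a, b⟫_ℂ := by
    intro g a b
    exact LinearIsometry.inner_map_map (⟨π g, hπ g⟩ : E →ₗᵢ[ℂ] E) a b
  have hadj : ∀ g a b, ⟪π g⁻¹ a, b⟫_ℂ = ⟪a, π g b⟫_ℂ := by
    intro g a b
    rw [← hinner g (π g⁻¹ a) b, ← hmul, mul_inv_cancel, hone]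
  have hadj' : ∀ g a b, ⟪π g a, b⟫_ℂ = ⟪a, π g⁻¹ b⟫_ℂ := by
    intro g a b
    rw [← hadj g⁻¹ a b, inv_inv]
  set f : alternatingGroup (Fin n) → ℂ := fun g => ⟪π g u, v⟫_ℂ with hf
  -- the eigenvalue equation
  have heig : ∀ g, ∑ i, (f ((x i)⁻¹ * g) + f (x i * g)) = (μ : ℂ) * f g := by
    intro g
    have h1 : ∀ i, f ((x i)⁻¹ * g) + f (x i * g) = ⟪π g u, (π (x i) + π (x i)⁻¹) v⟫_ℂ := by
      intro i
      simp only [hf, hmul, LinearMap.add_apply, inner_add_right]
      rw [hadj (x i), hadj' (x i)]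
    rw [Finset.sum_congr rfl fun i _ => h1 i, ← inner_sum, ← LinearMap.sum_apply, hv,
      inner_smul_right]
  -- the letters outside `A`
  have hcard : Aᶜ.card ≤ r := by
    rw [Finset.card_compl, Fintype.card_fin]
    omega
  obtain ⟨B, hAB, hB⟩ := Finset.exists_superset_card_eq (s := Aᶜ) (n := r) hcard
    (by rw [Fintype.card_fin]; exact hrn)
  let e : B ≃ Fin r := B.equivFinOfCardEq hB
  let a : Fin r → Fin n := fun i => (e.symm i : Fin n)
  have ha : ∀ y, y ∉ A → ∃ i, a i = y := by
    intro y hy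
    have hyB : y ∈ B := hAB (Finset.mem_compl.mpr hy)
    exact ⟨e ⟨y, hyB⟩, by simp [a]⟩
  have hres : ∀ g g' : alternatingGroup (Fin n),
      (∀ i, (g : Equiv.Perm (Fin n)) (a i) = (g' : Equiv.Perm (Fin n)) (a i)) → f g = f g' := by
    intro g g' hgg
    have h1 : π (g⁻¹ * g') u = u := by
      apply hinv
      intro y hy
      obtain ⟨i, rfl⟩ := ha y hy
      have h2 := hgg i
      rw [Subgroup.coe_mul, Subgroup.coe_inv, Equiv.Perm.mul_apply, ← h2]
      exact Equiv.symm_apply_apply _ _
    have h3 : π g' u = π g u := by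
      have h4 : g' = g * (g⁻¹ * g') := by group
      rw [h4, hmul, h1]
    simp only [hf]
    rw [h3]
  have hdeg : f ∈ RC.FinalAux.degC n r := by
    refine Submodule.subset_span ⟨a, fun z =>
      if h : ∃ g : alternatingGroup (Fin n), (fun i => (g : Equiv.Perm (Fin n)) (a i)) = z
      then f h.choose else 0, ?_⟩
    funext g
    have hex : ∃ g' : alternatingGroup (Fin n), (fun i => (g' : Equiv.Perm (Fin n)) (a i)) =
        fun i => (g : Equiv.Perm (Fin n)) (a i) := ⟨g, rfl⟩
    show f g = if h : ∃ g' : alternatingGroup (Fin n), (fun i => (g' : Equiv.Perm (Fin n)) (a i)) =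
        fun i => (g : Equiv.Perm (Fin n)) (a i) then f h.choose else 0
    rw [dif_pos hex]
    exact (hres _ _ fun i => congrFun hex.choose_spec i).symm
  -- not zero
  have hne : f ≠ 0 := by
    intro hf0
    have h1 : ∀ g, ⟪π g u, v⟫_ℂ = 0 := fun g => congrFun hf0 g
    let W : Submodule ℂ E := Submodule.span ℂ (Set.range fun g => π g u)
    have hW : ∀ g, ∀ w ∈ W, π g w ∈ W := by
      intro g w hw
      induction hw using Submodule.span_induction with
      | mem w hw =>
        obtain ⟨h, rfl⟩ := hw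
        refine Submodule.subset_span ⟨g * h, ?_⟩
        exact hmul g h u
      | zero => rw [map_zero]; exact W.zero_mem
      | add a b _ _ iha ihb => rw [map_add]; exact W.add_mem iha ihb
      | smul c a _ iha => rw [map_smul]; exact W.smul_mem c iha
    have huW : u ∈ W := Submodule.subset_span ⟨1, hone u⟩
    rcases hirr W hW with h | h
    · rw [h, Submodule.mem_bot] at huW
      exact hu huW
    · have hvW : v ∈ W := by rw [h]; exact Submodule.mem_top
      have h2 : ∀ w ∈ W, ⟪w, v⟫_ℂ = 0 := by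
        intro w hw
        induction hw using Submodule.span_induction with
        | mem w hw =>
          obtain ⟨h, rfl⟩ := hw
          exact h1 h
        | zero => exact inner_zero_left _
        | add a b _ _ iha ihb => rw [inner_add_left, iha, ihb, add_zero]
        | smul c a _ iha => rw [inner_smul_left, iha, mul_zero]
      exact hv0 (inner_self_eq_zero.mp (h2 v hvW))
  -- sum zero
  have hsum : ∑ g, f g = 0 := by
    have hw : ∑ g, π g u = 0 := by
      by_contra hw0
      set w : E := ∑ g, π g u with hwdef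
      have hfix : ∀ h, π h w = w := by
        intro h
        rw [hwdef, map_sum]
        simp only [← hmul]
        exact Fintype.sum_equiv (Equiv.mulLeft h) _ _ fun g => rfl
      let W : Submodule ℂ E := Submodule.span ℂ {w}
      have hW : ∀ g, ∀ y ∈ W, π g y = y := by
        intro g y hy
        obtain ⟨c, rfl⟩ := Submodule.mem_span_singleton.mp hy
        rw [map_smul, hfix]
      rcases hirr W (fun g y hy => by rw [hW g y hy]; exact hy) with h | h
      · have : w ∈ W := Submodule.mem_span_singleton_self w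
        rw [h, Submodule.mem_bot] at this
        exact hw0 this
      · obtain ⟨g, y, hy⟩ := hnt
        exact hy (hW g y (by rw [h]; exact Submodule.mem_top))
    calc ∑ g, f g = ⟪∑ g, π g u, v⟫_ℂ := by rw [sum_inner]
      _ = 0 := by rw [hw, inner_zero_left]
  have := RC.FinalAux.complex_bound hm x hx μ f hdeg hsum hne heig
  linarith

end Pool.Agent.RS
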