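import Pool.Agent.Helper36.RS.Defs
import Pool.Agent.Helper46.RC.Final

set_option autoImplicit false

/-!
# ETA-09: no left `Alt(A)`-invariant vectors orthogonal to the functions of low degree

`NoInvA π F k`: the subspace `F` of a representation of `Alt(n)` contains no nonzero vector
invariant under all even permutations moving only letters of `A`, for any set `A` with at least
`k` letters.

PROOF of `no_left`.  Let `f ∈ B`, `|A| ≥ n - r`, `f` invariant: `f (g⁻¹ x) = f x` for all `g` in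
`H = {g even, g fixes all letters outside A}`, a subgroup.  Suppose `f x₀ ≠ 0`.  Put
`f₁ = rt x₀ f`: `f₁ 1 = f x₀ ≠ 0`, `f₁ ∈ B`, still left `H`-invariant.  Let
`f₂ = ∑_{h ∈ H} rt h f₁`, `f₂ x = ∑_{h ∈ H} f₁ (x h)`.  `f₂ ∈ B`; `f₂ 1 = ∑_{h ∈ H} f₁ h = |H| f₁ 1`
is not zero.  `f₂ (x h) = f₂ x` for `h ∈ H`.  So `f₂ x` depends only on the restriction of `x` to
the complement of `A`: if `x, x'` agree there, `x⁻¹ x' ∈ H`.  The complement has at most `r`
letters and `r ≤ n`, so there is `a : Fin r → Fin n` whose range contains it (if `r = 0` the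
complement is empty; otherwise `Fin n` is nonempty), and `f₂ x = φ (x • a)` with
`φ z = f₂ x` if `z = x • a` for some `x` and `φ z = 0` otherwise.  So the function `f₂` is in
`degR n r`, and by `hD` (with `f = f₂`, `h = f₂`) `∑ f₂ g ^ 2 = 0`, `f₂ = 0`: contradiction.
-/

open Finset

namespace Pool.Agent.RS

open scoped InnerProductSpace

def NoInvA {n : ℕ} {E : Type*} [NormedAddCommGroup E] [InnerProductSpace ℝ E]
    (π : alternatingGroup (Fin n) →* (E →ₗ[ℝ] E)) (F : Submodule ℝ E) (k : ℕ) : Prop :=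
  ∀ A : Finset (Fin n), k ≤ A.card → ∀ v ∈ F,
    (∀ g : alternatingGroup (Fin n), (∀ x, x ∉ A → (g : Equiv.Perm (Fin n)) x = x) →
      π g v = v) → v = 0

theorem no_left {n r : ℕ} (hrn : r ≤ n)
    (B : Submodule ℝ (EuclideanSpace ℝ (alternatingGroup (Fin n))))
    (hB : ∀ g, ∀ v ∈ B, rt (alternatingGroup (Fin n)) g v ∈ B)
    (hD : ∀ f ∈ B, ∀ h ∈ RC.FinalAux.degR n r, ∑ g, f g * h g = 0) :
    NoInvA (lt (alternatingGroup (Fin n))) B (n - r) := by
  classical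
  intro A hA f hf hinv
  by_contra hf0
  obtain ⟨x₀, hx₀⟩ : ∃ x₀, f x₀ ≠ 0 := by
    by_contra hcon
    push Not at hcon
    exact hf0 (by ext g; rw [hcon g]; rfl)
  obtain ⟨f₁, hf₁⟩ : ∃ f₁, f₁ = rt (alternatingGroup (Fin n)) x₀ f := ⟨_, rfl⟩
  have hf₁B : f₁ ∈ B := by
    rw [hf₁]
    exact hB x₀ f hf
  have hf₁1 : f₁ 1 ≠ 0 := by
    rw [hf₁, rt_apply, one_mul]
    exact hx₀
  obtain ⟨H, hH⟩ : ∃ H : Finset (alternatingGroup (Fin n)), H = univ.filter
      (fun g : alternatingGroup (Fin n) => ∀ x, x ∉ A → (g : Equiv.Perm (Fin n)) x = x) :=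
    ⟨_, rfl⟩
  have hmem : ∀ g, g ∈ H ↔ ∀ x, x ∉ A → (g : Equiv.Perm (Fin n)) x = x := by
    intro g
    rw [hH, Finset.mem_filter]
    exact ⟨fun h => h.2, fun h => ⟨Finset.mem_univ _, h⟩⟩
  have hf₁H : ∀ h ∈ H, f₁ h = f₁ 1 := by
    intro h hh
    have h1 : lt (alternatingGroup (Fin n)) h f₁ = f₁ := by
      rw [hf₁, lt_rt, hinv h ((hmem h).1 hh)]
    have h2 : lt (alternatingGroup (Fin n)) h f₁ h = f₁ h := by rw [h1]
    rw [lt_apply, inv_mul_cancel] at h2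
    exact h2.symm
  obtain ⟨f₂, hf₂⟩ : ∃ f₂, f₂ = ∑ h ∈ H, rt (alternatingGroup (Fin n)) h f₁ := ⟨_, rfl⟩
  have hf₂B : f₂ ∈ B := by
    rw [hf₂]
    exact B.sum_mem fun h _ => hB h f₁ hf₁B
  have hf₂a : ∀ g, f₂ g = ∑ h ∈ H, f₁ (g * h) := by
    intro g
    rw [hf₂, WithLp.ofLp_sum, Finset.sum_apply]
    rfl
  have h1H : (1 : alternatingGroup (Fin n)) ∈ H := by
    rw [hmem]
    intro x _
    rfl
  have hf₂1 : f₂ 1 ≠ 0 := by
    rw [hf₂a]
    have h1 : ∑ h ∈ H, f₁ (1 * h) = ∑ h ∈ H, f₁ 1 := by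
      refine Finset.sum_congr rfl fun h hh => ?_
      rw [one_mul, hf₁H h hh]
    rw [h1, Finset.sum_const, nsmul_eq_mul]
    refine mul_ne_zero ?_ hf₁1
    rw [Nat.cast_ne_zero]
    exact Finset.card_ne_zero_of_mem h1H
  have hmul : ∀ k ∈ H, ∀ g, f₂ (g * k) = f₂ g := by
    intro k hk g
    rw [hf₂a, hf₂a]
    refine Finset.sum_bij' (fun h _ => k * h) (fun h _ => k⁻¹ * h) ?_ ?_ ?_ ?_ ?_
    · intro h hh
      rw [hmem] at hh hk ⊢
      intro x hx
      rw [Subgroup.coe_mul, Equiv.Perm.mul_apply, hh x hx, hk x hx]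
    · intro h hh
      rw [hmem] at hh hk ⊢
      intro x hx
      rw [Subgroup.coe_mul, Equiv.Perm.mul_apply, hh x hx, Subgroup.coe_inv,
        Equiv.Perm.inv_eq_iff_eq, hk x hx]
    · intro h _
      rw [inv_mul_cancel_left]
    · intro h _
      rw [mul_inv_cancel_left]
    · intro h _
      rw [mul_assoc]
  have hcard : Aᶜ.card ≤ r := by
    rw [Finset.card_compl, Fintype.card_fin]
    omega
  obtain ⟨a, ha⟩ : ∃ a : Fin r → Fin n, ∀ x, x ∉ A → ∃ i, a i = x := by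
    obtain ⟨a, ha⟩ : ∃ a : Fin r → Fin n, ∀ (i : Fin r) (h : (i : ℕ) < Aᶜ.card),
        a i = Aᶜ.orderEmbOfFin rfl ⟨i, h⟩ :=
      ⟨fun i => if h : (i : ℕ) < Aᶜ.card then Aᶜ.orderEmbOfFin rfl ⟨i, h⟩ else
        ⟨0, by have := i.2; omega⟩, fun i h => dif_pos h⟩
    refine ⟨a, ?_⟩
    intro x hx
    have h1 : x ∈ Set.range (Aᶜ.orderEmbOfFin rfl) := by
      rw [Finset.range_orderEmbOfFin]
      exact Finset.mem_coe.2 (Finset.mem_compl.2 hx)
    obtain ⟨i, hi⟩ := h1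
    refine ⟨⟨i, i.2.trans_le hcard⟩, ?_⟩
    rw [ha ⟨i, i.2.trans_le hcard⟩ i.2]
    exact hi
  have hfac : Function.FactorsThrough (fun g => f₂ g)
      (fun g : alternatingGroup (Fin n) => (g : Equiv.Perm (Fin n)) • a) := by
    intro g g' hgg
    have h1 : g⁻¹ * g' ∈ H := by
      rw [hmem]
      intro x hx
      obtain ⟨i, rfl⟩ := ha x hx
      have h2 : (g : Equiv.Perm (Fin n)) (a i) = (g' : Equiv.Perm (Fin n)) (a i) := congrFun hgg i
      rw [Subgroup.coe_mul, Equiv.Perm.mul_apply, ← h2, Subgroup.coe_inv,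
        Equiv.Perm.inv_eq_iff_eq]
    have h2 := hmul _ h1 g
    rw [mul_inv_cancel_left] at h2
    exact h2.symm
  have hdeg : (fun g => f₂ g) ∈ RC.FinalAux.degR n r := by
    refine Submodule.subset_span ⟨a, Function.extend
      (fun g : alternatingGroup (Fin n) => (g : Equiv.Perm (Fin n)) • a) (fun g => f₂ g) 0, ?_⟩
    funext g
    exact (hfac.extend_apply 0 g).symm
  have h0 := hD f₂ hf₂B _ hdeg
  have h1 := (Finset.sum_eq_zero_iff_of_nonneg (fun g _ => mul_self_nonneg (f₂ g))).1 h0 1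
    (Finset.mem_univ _)
  exact hf₂1 (mul_self_eq_zero.1 h1)

end Pool.Agent.RS
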