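import Mathlib

set_option autoImplicit false

/-!
# ETA-20: numbers for the initial bound

PROOF.  `r = ⌊n^γ⌋`, `b = ⌊r/8⌋`, `ν = r b/(4n)`, `t = ⌊ν⌋`, `T = 2 ⌈3 t/(2 θ)⌉` (even,
`3 t/θ ≤ T ≤ 3 t/θ + 2`).  As `n → ∞`: `r → ∞`, `r/n → 0`, `r ≥ n^γ/2`, `b ≥ r/16`, so
`ν ≥ r^2/(64 n) ≥ n^(2γ-1)/256`, and `ν ≤ r/32`, so `t ≤ r`, `4 t ≤ n`.
`(4/n)^t ≤ e^(-t)` for `n ≥ 11`; `(1 - r/(4n))^b ≤ e^(-ν) ≤ e^(-t)`;
`4^t (1-θ)^T ≤ 4^t e^(-θ T) ≤ e^(1.4 t - 3 t) ≤ e^(-t)` (`Real.one_sub_le_exp_neg`).  So the left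
side is at most `6 e^(-t)`.  For `0 ≤ u ≤ 1/2`, `1 - u ≥ e^(-2u)`; so
`(1 - θ/12)^T ≥ e^(-θ T/6) ≥ e^(-t/2 - 1/3)`.  The claim follows from
`t/2 ≥ n^β + 1/3 + log 6`, true for large `n` as `t ≥ n^(2γ-1)/256 - 1` and `β < 2γ - 1`
(if `β ≤ 0`, `n^β ≤ 1`).
-/

open Finset Filter

namespace Pool.Agent.RS

private theorem numA_ev {p : ℝ} (hp : 0 < p) (c : ℝ) : ∀ᶠ n : ℕ in atTop, c ≤ (n : ℝ) ^ p :=
  ((tendsto_rpow_atTop hp).comp tendsto_natCast_atTop_atTop).eventually_ge_atTop c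

private theorem numA_exp {u : ℝ} (h0 : 0 ≤ u) (h1 : u ≤ 1 / 2) : Real.exp (-(2 * u)) ≤ 1 - u := by
  rw [Real.exp_neg, inv_le_comm₀ (Real.exp_pos _) (by linarith)]
  have h2 := Real.add_one_le_exp (2 * u)
  have h3 : 1 ≤ (2 * u + 1) * (1 - u) := by nlinarith
  rw [inv_le_iff_one_le_mul₀ (by linarith)]
  exact h3.trans (mul_le_mul_of_nonneg_right h2 (by linarith))

private theorem numA_six {s : ℝ} (hs : 3 ≤ s) : 6 ≤ Real.exp s := by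
  have h1 : (2.7182818283 : ℝ) < Real.exp 1 := Real.exp_one_gt_d9
  have h2 : Real.exp s = Real.exp 1 * (Real.exp 1 * Real.exp (s - 2)) := by
    rw [← Real.exp_add, ← Real.exp_add]
    congr 1
    ring
  have h3 : Real.exp 1 ≤ Real.exp (s - 2) := Real.exp_le_exp.2 (by linarith)
  rw [h2]
  have h4 : (0 : ℝ) ≤ Real.exp 1 := by linarith
  nlinarith [mul_le_mul_of_nonneg_left h3 h4, mul_nonneg h4 h4]

private theorem numA_core {θ x w y N : ℝ} {r b t T : ℕ} (hθ : 0 < θ) (hθ1 : θ ≤ 1)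
    (hN : 11 ≤ N) (hrx : (r : ℝ) ≤ N / 2) (hxr : x / 2 ≤ r) (hx : 0 ≤ x)
    (hxw : x ^ 2 = w * N) (hb1 : (b : ℝ) ≤ r / 8) (hb2 : (r : ℝ) / 16 ≤ b)
    (ht1 : (t : ℝ) ≤ r * b / (4 * N)) (ht2 : r * b / (4 * N) < (t : ℝ) + 1)
    (hT1 : 3 * (t : ℝ) / θ ≤ T) (hT2 : (T : ℝ) ≤ 3 * t / θ + 2)
    (hw : 4096 ≤ w) (hyw : 1024 * y ≤ w) :
    2 * ((4 / N) ^ t + 4 ^ t * (1 - θ) ^ T + (1 - (r : ℝ) / (4 * N)) ^ b) ≤
      (1 - θ / 12) ^ T * Real.exp (-y) := by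
  have hN0 : 0 < N := by linarith
  have he1 : (2.7182818283 : ℝ) < Real.exp 1 := Real.exp_one_gt_d9
  have he1' : Real.exp 1 < (2.7182818286 : ℝ) := Real.exp_one_lt_d9
  -- three small terms
  have a1 : (4 / N) ^ t ≤ Real.exp (-(t : ℝ)) := by
    have h1 : 4 / N ≤ Real.exp (-1) := by
      rw [Real.exp_neg, div_le_iff₀ hN0, ← div_eq_inv_mul, le_div_iff₀ (by linarith)]
      linarith
    have h2 : Real.exp (-(t : ℝ)) = Real.exp (-1) ^ t := by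
      rw [← Real.exp_nat_mul]
      congr 1
      ring
    rw [h2]
    exact pow_le_pow_left₀ (by positivity) h1 t
  have a2 : 4 ^ t * (1 - θ) ^ T ≤ Real.exp (-(t : ℝ)) := by
    have h1 : (4 : ℝ) ^ t ≤ Real.exp (2 * (t : ℝ)) := by
      have h2 : Real.exp (2 * (t : ℝ)) = (Real.exp 1 * Real.exp 1) ^ t := by
        rw [← Real.exp_add, ← Real.exp_nat_mul]
        congr 1
        ring
      rw [h2]
      exact pow_le_pow_left₀ (by norm_num) (by nlinarith) t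
    have h3 : (1 - θ) ^ T ≤ Real.exp (-(3 * (t : ℝ))) := by
      have h4 : (1 - θ) ^ T ≤ Real.exp (-θ) ^ T :=
        pow_le_pow_left₀ (by linarith) (Real.one_sub_le_exp_neg θ) T
      refine h4.trans ?_
      rw [← Real.exp_nat_mul]
      refine Real.exp_le_exp.2 ?_
      rw [div_le_iff₀ hθ] at hT1
      linarith
    calc 4 ^ t * (1 - θ) ^ T ≤ Real.exp (2 * (t : ℝ)) * Real.exp (-(3 * (t : ℝ))) :=
          mul_le_mul h1 h3 (pow_nonneg (by linarith) _) (Real.exp_pos _).le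
      _ = Real.exp (-(t : ℝ)) := by
          rw [← Real.exp_add]
          congr 1
          ring
  have a3 : (1 - (r : ℝ) / (4 * N)) ^ b ≤ Real.exp (-(t : ℝ)) := by
    have h0 : (r : ℝ) / (4 * N) ≤ 1 := by
      rw [div_le_one (by linarith)]
      linarith
    have h4 : (1 - (r : ℝ) / (4 * N)) ^ b ≤ Real.exp (-((r : ℝ) / (4 * N))) ^ b :=
      pow_le_pow_left₀ (by linarith) (Real.one_sub_le_exp_neg _) b
    refine h4.trans ?_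
    rw [← Real.exp_nat_mul]
    refine Real.exp_le_exp.2 ?_
    have h5 : (b : ℝ) * -((r : ℝ) / (4 * N)) = -(r * b / (4 * N)) := by ring
    rw [h5]
    linarith
  -- the lower bound of the right side
  have b1 : Real.exp (-((t : ℝ) / 2 + 1 / 3)) ≤ (1 - θ / 12) ^ T := by
    have h1 := numA_exp (u := θ / 12) (by linarith) (by linarith)
    have h2 : Real.exp (-(2 * (θ / 12))) ^ T ≤ (1 - θ / 12) ^ T :=
      pow_le_pow_left₀ (Real.exp_pos _).le h1 T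
    refine le_trans ?_ h2
    rw [← Real.exp_nat_mul]
    refine Real.exp_le_exp.2 ?_
    have h3 : (T : ℝ) * θ ≤ 3 * t + 2 * θ := by
      have := mul_le_mul_of_nonneg_right hT2 hθ.le
      have h4 : (3 * (t : ℝ) / θ + 2) * θ = 3 * t + 2 * θ := by
        field_simp
      rw [h4] at this
      exact this
    linarith
  -- t is large
  have b2 : w / 256 < (t : ℝ) + 1 := by
    refine lt_of_le_of_lt ?_ ht2
    rw [le_div_iff₀ (by linarith)]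
    have h1 : (x / 2) * (x / 2) ≤ (r : ℝ) * r := mul_le_mul hxr hxr (by linarith) (by linarith)
    have h2 : (r : ℝ) * (r / 16) ≤ r * b := mul_le_mul_of_nonneg_left hb2 (Nat.cast_nonneg _)
    nlinarith
  have b3 : (6 : ℝ) ≤ Real.exp ((t : ℝ) / 2 - 1 / 3 - y) := numA_six (by linarith)
  have b4 : 6 * Real.exp (-(t : ℝ)) ≤ Real.exp (-((t : ℝ) / 2 + 1 / 3)) * Real.exp (-y) := by
    calc 6 * Real.exp (-(t : ℝ)) ≤ Real.exp ((t : ℝ) / 2 - 1 / 3 - y) * Real.exp (-(t : ℝ)) :=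
          mul_le_mul_of_nonneg_right b3 (Real.exp_pos _).le
      _ = Real.exp (-((t : ℝ) / 2 + 1 / 3)) * Real.exp (-y) := by
          rw [← Real.exp_add, ← Real.exp_add]
          congr 1
          ring
  calc 2 * ((4 / N) ^ t + 4 ^ t * (1 - θ) ^ T + (1 - (r : ℝ) / (4 * N)) ^ b)
      ≤ 6 * Real.exp (-(t : ℝ)) := by linarith
    _ ≤ Real.exp (-((t : ℝ) / 2 + 1 / 3)) * Real.exp (-y) := b4
    _ ≤ (1 - θ / 12) ^ T * Real.exp (-y) := mul_le_mul_of_nonneg_right b1 (Real.exp_pos _).le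

theorem numA {γ β θ : ℝ} (hγ : γ < 1) (hβ : β < 2 * γ - 1) (hγ2 : 1 / 2 < γ) (hθ : 0 < θ)
    (hθ1 : θ ≤ 1) : ∀ᶠ n : ℕ in atTop, ∃ t b T : ℕ, 48 ≤ ⌊(n : ℝ) ^ γ⌋₊ ∧
      2 * ⌊(n : ℝ) ^ γ⌋₊ ≤ n ∧ 8 * b ≤ ⌊(n : ℝ) ^ γ⌋₊ ∧ t ≤ ⌊(n : ℝ) ^ γ⌋₊ ∧ 4 * t ≤ n ∧ Even T ∧
      2 * ((4 / (n : ℝ)) ^ t + 4 ^ t * (1 - θ) ^ T +
        (1 - (⌊(n : ℝ) ^ γ⌋₊ : ℝ) / (4 * n)) ^ b) ≤
          (1 - θ / 12) ^ T * Real.exp (-(n : ℝ) ^ β) := by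
  filter_upwards [numA_ev (p := γ) (by linarith) 48, numA_ev (p := 1 - γ) (by linarith) 2,
    numA_ev (p := 2 * γ - 1 - β) (by linarith) 1024, numA_ev (p := 2 * γ - 1) (by linarith) 4096,
    eventually_ge_atTop 11] with n h1 h2 h3 h4 h5
  have hN : (11 : ℝ) ≤ (n : ℝ) := by exact_mod_cast h5
  have hN0 : (0 : ℝ) < (n : ℝ) := by linarith
  have hr48 : 48 ≤ ⌊(n : ℝ) ^ γ⌋₊ := Nat.le_floor (by exact_mod_cast h1)
  have hrx : (⌊(n : ℝ) ^ γ⌋₊ : ℝ) ≤ (n : ℝ) ^ γ := Nat.floor_le (by positivity)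
  have hxr : (n : ℝ) ^ γ < (⌊(n : ℝ) ^ γ⌋₊ : ℝ) + 1 := Nat.lt_floor_add_one _
  have hx2 : 2 * (n : ℝ) ^ γ ≤ n := by
    have e1 : (n : ℝ) ^ (1 - γ) * (n : ℝ) ^ γ = n := by
      rw [← Real.rpow_add hN0, sub_add_cancel, Real.rpow_one]
    calc 2 * (n : ℝ) ^ γ ≤ (n : ℝ) ^ (1 - γ) * (n : ℝ) ^ γ :=
          mul_le_mul_of_nonneg_right h2 (by positivity)
      _ = n := e1
  have hxw : ((n : ℝ) ^ γ) ^ 2 = (n : ℝ) ^ (2 * γ - 1) * n := by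
    have e1 : (n : ℝ) ^ (2 * γ - 1) * (n : ℝ) = (n : ℝ) ^ (2 * γ - 1) * (n : ℝ) ^ (1 : ℝ) := by
      rw [Real.rpow_one]
    rw [e1, ← Real.rpow_add hN0, ← Real.rpow_natCast, ← Real.rpow_mul hN0.le]
    congr 1
    push_cast
    ring
  have hyw : 1024 * (n : ℝ) ^ β ≤ (n : ℝ) ^ (2 * γ - 1) := by
    calc 1024 * (n : ℝ) ^ β ≤ (n : ℝ) ^ (2 * γ - 1 - β) * (n : ℝ) ^ β :=
          mul_le_mul_of_nonneg_right h3 (by positivity)
      _ = (n : ℝ) ^ (2 * γ - 1) := by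
          rw [← Real.rpow_add hN0, sub_add_cancel]
  generalize hx : (n : ℝ) ^ γ = x at *
  generalize ⌊x⌋₊ = r at *
  generalize (n : ℝ) ^ (2 * γ - 1) = w at *
  generalize (n : ℝ) ^ β = y at *
  have hb1 : ((r / 8 : ℕ) : ℝ) ≤ (r : ℝ) / 8 := Nat.cast_div_le
  have hb2 : (r : ℝ) / 16 ≤ ((r / 8 : ℕ) : ℝ) := by
    have h6 : r ≤ 16 * (r / 8) := by omega
    have h7 : (r : ℝ) ≤ ((16 * (r / 8) : ℕ) : ℝ) := by exact_mod_cast h6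
    push_cast at h7
    linarith
  have hb3 : 8 * (r / 8) ≤ r := Nat.mul_div_le r 8
  generalize r / 8 = b at *
  have hr0 : (0 : ℝ) ≤ (r : ℝ) := Nat.cast_nonneg _
  have hb0 : (0 : ℝ) ≤ (b : ℝ) := Nat.cast_nonneg _
  have hν : 0 ≤ (r : ℝ) * b / (4 * n) := by positivity
  have ht1 : (⌊(r : ℝ) * b / (4 * n)⌋₊ : ℝ) ≤ (r : ℝ) * b / (4 * n) := Nat.floor_le hν
  have ht2 : (r : ℝ) * b / (4 * n) < (⌊(r : ℝ) * b / (4 * n)⌋₊ : ℝ) + 1 := Nat.lt_floor_add_one _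
  generalize ⌊(r : ℝ) * b / (4 * n)⌋₊ = t at ht1 ht2
  have hq : (0 : ℝ) ≤ 3 * (t : ℝ) / (2 * θ) := by positivity
  have hT1 : 3 * (t : ℝ) / (2 * θ) ≤ (⌈3 * (t : ℝ) / (2 * θ)⌉₊ : ℝ) := Nat.le_ceil _
  have hT2 : (⌈3 * (t : ℝ) / (2 * θ)⌉₊ : ℝ) < 3 * (t : ℝ) / (2 * θ) + 1 := Nat.ceil_lt_add_one hq
  have hhalf : 3 * (t : ℝ) / θ = 2 * (3 * (t : ℝ) / (2 * θ)) := by
    field_simp
  have hrb : (r : ℝ) * b / (4 * n) ≤ b / 4 := by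
    rw [div_le_iff₀ (by linarith)]
    nlinarith
  refine ⟨t, b, 2 * ⌈3 * (t : ℝ) / (2 * θ)⌉₊, hr48, ?_, hb3, ?_, ?_, even_two_mul _, ?_⟩
  · have h6 : ((2 * r : ℕ) : ℝ) ≤ (n : ℝ) := by
      push_cast
      linarith
    exact_mod_cast h6
  · have h6 : (t : ℝ) ≤ (r : ℝ) := by linarith
    exact_mod_cast h6
  · have h6 : ((4 * t : ℕ) : ℝ) ≤ (n : ℝ) := by
      push_cast
      linarith
    exact_mod_cast h6
  · refine numA_core (x := x) (w := w) hθ hθ1 hN (by linarith) (by linarith) (by linarith) hxw hb1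
      hb2 ht1 ht2 ?_ ?_ h4 hyw
    · rw [hhalf]
      push_cast
      linarith
    · rw [hhalf]
      push_cast
      linarith

end Pool.Agent.RS
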