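import Mathlib

set_option autoImplicit false

/-!
# ETA-21: numbers for the doubling steps

`s = ⌈δ log n⌉`, `K = 3 s`, `q = 2 ((n+1)^2+1)^(sqrt (2n))`, `Z = n q s K^4`.

PROOF of `numB`.  `log Z ≤ log 2 + log n + 5 log (3 s) + sqrt (2n) log ((n+1)^2+1) ≤ n^(3/4) ≤ n^β/2`
for large `n`, as `β > 3/4`; so `Z e^(-n^β) ≤ e^(-n^β/2)`.  `2^s ≥ 2^(δ log n) = n^(δ log 2)`.  So
`(Z e^(-n^β))^(2^s) ≤ e^(-n^(β + δ log 2)/2)`, and `n! ≤ n^n = e^(n log n)`, with
`n log n < n^(β + δ log 2)/2` for large `n` since `β + δ log 2 > 1`.  `Z ≥ 1`.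
PROOF of `numC`.  `3 s^2 ≤ 3 (δ log n + 1)^2` and `3 δ^2 < η`.
-/

open Finset Filter

namespace Pool.Agent.RS

/-- The number of averaging steps. -/
noncomputable def sN (δ : ℝ) (n : ℕ) : ℕ := ⌈δ * Real.log n⌉₊

/-- The bound for the number of conjugacy classes of `Alt(n)`. -/
noncomputable def qN (n : ℕ) : ℝ := 2 * (((n : ℝ) + 1) ^ 2 + 1) ^ Nat.sqrt (2 * n)

/-- The Markov factor. -/
noncomputable def ZN (δ : ℝ) (n : ℕ) : ℝ :=
  n * qN n * sN δ n * (3 * (sN δ n : ℝ)) ^ 4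

private lemma log_le {r c : ℝ} (hr : 0 < r) (hc : 0 < c) :
    ∀ᶠ n : ℕ in atTop, Real.log n ≤ c * (n : ℝ) ^ r := by
  have h := ((isLittleO_log_rpow_atTop hr).bound hc)
  have h2 := tendsto_natCast_atTop_atTop (R := ℝ) |>.eventually h
  filter_upwards [h2] with n hn
  have h3 : ‖(n : ℝ) ^ r‖ = (n : ℝ) ^ r := by
    rw [Real.norm_eq_abs, abs_of_nonneg (Real.rpow_nonneg (Nat.cast_nonneg n) _)]
  rw [h3] at hn
  exact (le_abs_self _).trans hn

private lemma log_large (A : ℝ) : ∀ᶠ n : ℕ in atTop, A ≤ Real.log n :=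
  (Real.tendsto_log_atTop.comp (tendsto_natCast_atTop_atTop (R := ℝ))).eventually_ge_atTop A

private lemma sN_le {δ : ℝ} (hδ : 0 < δ) (n : ℕ) : (sN δ n : ℝ) ≤ δ * Real.log n + 1 :=
  (Nat.ceil_lt_add_one (mul_nonneg hδ.le (Real.log_natCast_nonneg n))).le

private lemma sN_le_n {δ : ℝ} (hδ : 0 < δ) : ∀ᶠ n : ℕ in atTop, (sN δ n : ℝ) ≤ n := by
  filter_upwards [log_le (r := 1) (c := 1 / (2 * δ)) one_pos (by positivity),
    eventually_ge_atTop 2] with n h1 h2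
  have h3 := sN_le hδ n
  rw [Real.rpow_one] at h1
  have h4 : (2 : ℝ) ≤ n := by exact_mod_cast h2
  have h5 : δ * Real.log n ≤ δ * (1 / (2 * δ) * n) := mul_le_mul_of_nonneg_left h1 hδ.le
  have h6 : δ * (1 / (2 * δ) * n) = n / 2 := by
    field_simp
  linarith

private lemma log_ZN {δ : ℝ} (hδ : 0 < δ) : ∀ᶠ n : ℕ in atTop, 1 ≤ sN δ n ∧ 1 ≤ ZN δ n ∧
    Real.log (ZN δ n) ≤ 9 * ((n : ℝ) ^ (1 / 2 : ℝ) * (1 + Real.log n)) := by
  filter_upwards [sN_le_n hδ, eventually_ge_atTop 2] with n h1 h2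
  have h4 : (2 : ℝ) ≤ n := by exact_mod_cast h2
  have hL : 0 < Real.log n := Real.log_pos (by linarith)
  have hs : 1 ≤ sN δ n := Nat.one_le_ceil_iff.2 (by positivity)
  have hs' : (1 : ℝ) ≤ sN δ n := by exact_mod_cast hs
  have hq1 : 1 ≤ qN n := by
    unfold qN
    have : (1 : ℝ) ≤ (((n : ℝ) + 1) ^ 2 + 1) ^ Nat.sqrt (2 * n) := one_le_pow₀ (by nlinarith)
    linarith
  have hZ : 1 ≤ ZN δ n := by
    unfold ZN
    have h5 : (1 : ℝ) ≤ (3 * (sN δ n : ℝ)) ^ 4 := one_le_pow₀ (by linarith)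
    have h6 : (1 : ℝ) ≤ n * qN n := one_le_mul_of_one_le_of_one_le (by linarith) hq1
    exact one_le_mul_of_one_le_of_one_le (one_le_mul_of_one_le_of_one_le h6 hs') h5
  refine ⟨hs, hZ, ?_⟩
  have hn0 : (0 : ℝ) < n := by linarith
  have hlogq : Real.log (qN n) ≤ 1 + (Nat.sqrt (2 * n) : ℝ) * (2 + 2 * Real.log n) := by
    unfold qN
    rw [Real.log_mul (by norm_num) (by positivity), Real.log_pow]
    have h7 : Real.log ((((n : ℝ) + 1) ^ 2 + 1)) ≤ 2 + 2 * Real.log n := by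
      have h8 : (((n : ℝ) + 1) ^ 2 + 1) ≤ 5 * (n : ℝ) ^ 2 := by nlinarith
      have h9 : Real.log (((n : ℝ) + 1) ^ 2 + 1) ≤ Real.log (5 * (n : ℝ) ^ 2) :=
        Real.log_le_log (by positivity) h8
      rw [Real.log_mul (by norm_num) (by positivity), Real.log_pow] at h9
      have h10 : Real.log 5 ≤ 2 := by
        rw [Real.log_le_iff_le_exp (by norm_num)]
        have := Real.exp_one_gt_d9
        have h11 : Real.exp 2 = Real.exp 1 * Real.exp 1 := by rw [← Real.exp_add]; norm_num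
        rw [h11]
        nlinarith
      push_cast at h9
      linarith
    have h12 : Real.log 2 ≤ 1 := by
      have := Real.log_two_lt_d9
      linarith
    have := mul_le_mul_of_nonneg_left h7 (Nat.cast_nonneg (α := ℝ) (Nat.sqrt (2 * n)))
    linarith
  have hsq : (Nat.sqrt (2 * n) : ℝ) ≤ 3 / 2 * (n : ℝ) ^ (1 / 2 : ℝ) := by
    rw [← Real.sqrt_eq_rpow]
    have h13 : ((Nat.sqrt (2 * n) : ℝ)) ^ 2 ≤ 2 * n := by
      have := Nat.sqrt_le' (2 * n)
      exact_mod_cast this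
    have h14 := Real.sq_sqrt hn0.le
    have h15 := Real.sqrt_nonneg (n : ℝ)
    refine (sq_le_sq₀ (by positivity) (by positivity)).1 ?_
    nlinarith
  have hroot : 1 ≤ (n : ℝ) ^ (1 / 2 : ℝ) := Real.one_le_rpow (by linarith) (by norm_num)
  have hlogs : Real.log (sN δ n) ≤ Real.log n := Real.log_le_log (by linarith) h1
  have e : Real.log (ZN δ n) = Real.log n + Real.log (qN n) + Real.log (sN δ n) +
      4 * (Real.log 3 + Real.log (sN δ n)) := by
    unfold ZN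
    have : (sN δ n : ℝ) ≠ 0 := by linarith
    have hq : qN n ≠ 0 := by linarith
    rw [Real.log_mul (by positivity) (by positivity), Real.log_mul (by positivity) this,
      Real.log_mul hn0.ne' hq, Real.log_pow, Real.log_mul (by norm_num) this]
    push_cast
    ring
  have hlog3 : Real.log 3 ≤ 5 / 4 := by
    rw [Real.log_le_iff_le_exp (by norm_num)]
    have h1 := Real.add_one_le_exp (1 / 4 : ℝ)
    have h2 := Real.exp_one_gt_d9
    have h3 : Real.exp (5 / 4) = Real.exp 1 * Real.exp (1 / 4) := by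
      rw [← Real.exp_add]; norm_num
    rw [h3]
    nlinarith
  rw [e]
  have h16 : (Nat.sqrt (2 * n) : ℝ) * (2 + 2 * Real.log n) ≤
      3 / 2 * (n : ℝ) ^ (1 / 2 : ℝ) * (2 + 2 * Real.log n) :=
    mul_le_mul_of_nonneg_right hsq (by linarith)
  have h17 : 1 + Real.log n ≤ (n : ℝ) ^ (1 / 2 : ℝ) * (1 + Real.log n) :=
    le_mul_of_one_le_left (by linarith) hroot
  nlinarith

theorem numB {δ β : ℝ} (hδ : 0 < δ) (hβ : 3 / 4 < β) (hβδ : 1 < β + δ * Real.log 2) :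
    ∀ᶠ n : ℕ in atTop, 1 ≤ sN δ n ∧ 1 ≤ ZN δ n ∧
      (ZN δ n * Real.exp (-(n : ℝ) ^ β)) ^ (2 ^ sN δ n) / ZN δ n * n.factorial < 1 := by
  have hr : 0 < β - 1 / 2 := by linarith
  have hr2 : 0 < β + δ * Real.log 2 - 1 := by linarith
  filter_upwards [log_ZN hδ, log_le (c := 1 / 36) hr (by norm_num),
    log_le (c := 1 / 4) hr2 (by norm_num), log_large 1, eventually_ge_atTop 2] with
    n h1 h2 h3 h4 h5
  obtain ⟨hs, hZ, hlog⟩ := h1
  refine ⟨hs, hZ, ?_⟩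
  have hn2 : (2 : ℝ) ≤ n := by exact_mod_cast h5
  have hn0 : (0 : ℝ) < n := by linarith
  have hZ0 : 0 < ZN δ n := by linarith
  have hlogZ : Real.log (ZN δ n) ≤ (n : ℝ) ^ β / 2 := by
    have h6 : (n : ℝ) ^ β = (n : ℝ) ^ (1 / 2 : ℝ) * (n : ℝ) ^ (β - 1 / 2) := by
      rw [← Real.rpow_add hn0]
      congr 1
      ring
    have h7 : 1 + Real.log n ≤ 2 * (1 / 36 * (n : ℝ) ^ (β - 1 / 2)) := by linarith
    have h8 : (n : ℝ) ^ (1 / 2 : ℝ) * (1 + Real.log n) ≤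
        (n : ℝ) ^ (1 / 2 : ℝ) * (2 * (1 / 36 * (n : ℝ) ^ (β - 1 / 2))) :=
      mul_le_mul_of_nonneg_left h7 (by positivity)
    rw [h6]
    nlinarith
  have hle : ZN δ n * Real.exp (-(n : ℝ) ^ β) ≤ Real.exp (-((n : ℝ) ^ β / 2)) := by
    calc ZN δ n * Real.exp (-(n : ℝ) ^ β)
        = Real.exp (Real.log (ZN δ n)) * Real.exp (-(n : ℝ) ^ β) := by rw [Real.exp_log hZ0]
      _ = Real.exp (Real.log (ZN δ n) - (n : ℝ) ^ β) := by rw [← Real.exp_add]; ring_nf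
      _ ≤ Real.exp (-((n : ℝ) ^ β / 2)) := Real.exp_le_exp.2 (by linarith)
  have h2s : (n : ℝ) ^ (δ * Real.log 2) ≤ (2 : ℝ) ^ sN δ n := by
    rw [Real.rpow_def_of_pos hn0, ← Real.rpow_natCast, Real.rpow_def_of_pos (by norm_num)]
    apply Real.exp_le_exp.2
    have h9 : δ * Real.log n ≤ sN δ n := Nat.le_ceil _
    have h10 : 0 < Real.log 2 := Real.log_pos (by norm_num)
    nlinarith
  have hpow : (ZN δ n * Real.exp (-(n : ℝ) ^ β)) ^ (2 ^ sN δ n) ≤
      Real.exp (-((n : ℝ) ^ (β + δ * Real.log 2) / 2)) := by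
    calc (ZN δ n * Real.exp (-(n : ℝ) ^ β)) ^ (2 ^ sN δ n)
        ≤ Real.exp (-((n : ℝ) ^ β / 2)) ^ (2 ^ sN δ n) :=
          pow_le_pow_left₀ (by positivity) hle _
      _ = Real.exp (-((n : ℝ) ^ β / 2) * (2 : ℝ) ^ sN δ n) := by
          rw [← Real.exp_nat_mul]
          push_cast
          ring_nf
      _ ≤ Real.exp (-((n : ℝ) ^ (β + δ * Real.log 2) / 2)) := by
          apply Real.exp_le_exp.2
          rw [Real.rpow_add hn0]
          have h11 : 0 ≤ (n : ℝ) ^ β := by positivity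
          nlinarith
  have hfac : (n.factorial : ℝ) ≤ Real.exp (n * Real.log n) := by
    have h12 : (n.factorial : ℝ) ≤ (n : ℝ) ^ n := by
      exact_mod_cast Nat.factorial_le_pow n
    calc (n.factorial : ℝ) ≤ (n : ℝ) ^ n := h12
      _ = Real.exp (n * Real.log n) := by
          rw [Real.exp_nat_mul, Real.exp_log hn0]
  have hlt : (n : ℝ) * Real.log n < (n : ℝ) ^ (β + δ * Real.log 2) / 2 := by
    have h13 : (n : ℝ) ^ (β + δ * Real.log 2) = n * (n : ℝ) ^ (β + δ * Real.log 2 - 1) := by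
      rw [← Real.rpow_one_add' hn0.le (by linarith)]
      congr 1
      ring
    rw [h13]
    have h14 : 0 < (n : ℝ) ^ (β + δ * Real.log 2 - 1) := by positivity
    have h15 : Real.log n < (n : ℝ) ^ (β + δ * Real.log 2 - 1) / 2 := by linarith
    nlinarith
  calc (ZN δ n * Real.exp (-(n : ℝ) ^ β)) ^ (2 ^ sN δ n) / ZN δ n * n.factorial
      ≤ Real.exp (-((n : ℝ) ^ (β + δ * Real.log 2) / 2)) * Real.exp (n * Real.log n) := by
        apply mul_le_mul _ hfac (by positivity) (by positivity)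
        exact (div_le_self (by positivity) hZ).trans hpow
    _ = Real.exp (n * Real.log n - (n : ℝ) ^ (β + δ * Real.log 2) / 2) := by
        rw [← Real.exp_add]
        ring_nf
    _ < 1 := by
        rw [Real.exp_lt_one_iff]
        linarith

theorem numC {δ η : ℝ} (hδ : 0 < δ) (hη : 3 * δ ^ 2 < η) (m₀ : ℕ) :
    ∀ᶠ n : ℕ in atTop, (m₀ : ℝ) + sN δ n * (3 * sN δ n) ≤ η * Real.log n ^ 2 := by
  have hd : 0 < η - 3 * δ ^ 2 := by linarith
  filter_upwards [log_large (max 1 ((m₀ + 3 + 6 * δ) / (η - 3 * δ ^ 2)))] with n hn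
  have h1 : 1 ≤ Real.log n := (le_max_left _ _).trans hn
  have h2 : (m₀ + 3 + 6 * δ) / (η - 3 * δ ^ 2) ≤ Real.log n := (le_max_right _ _).trans hn
  rw [div_le_iff₀ hd] at h2
  have h3 := sN_le hδ n
  have h4 : (0 : ℝ) ≤ sN δ n := Nat.cast_nonneg _
  have h5 : (sN δ n : ℝ) * (3 * sN δ n) ≤ 3 * (δ * Real.log n + 1) ^ 2 := by nlinarith
  have h6 : (0 : ℝ) ≤ m₀ := Nat.cast_nonneg _
  have h7 : (m₀ + 3 + 6 * δ) * Real.log n ≤ Real.log n * (η - 3 * δ ^ 2) * Real.log n :=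
    mul_le_mul_of_nonneg_right h2 (by linarith)
  nlinarith

end Pool.Agent.RS
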