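import Mathlib

set_option autoImplicit false

/-!
# ETA-08b: a crude bound for the number of partitions

PROOF.  A partition `p` of `n` is determined by the finset `Φ p` of pairs `(a, count a)` where `a`
runs over the distinct parts, a subset of `Fin (n+1) × Fin (n+1)`.  It has at most
`k = Nat.sqrt (2 n)` elements: the distinct parts are distinct positive integers with sum `≤ n`; if
there are `m` of them, `m (m+1)/2 ≤ n`, so `m^2 ≤ 2 n`.  A finset of at most `k` elements of a type
with `M = (n+1)^2` elements is the set of `some` values of a function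
`Fin k → Option (Fin (n+1) × Fin (n+1))`, and there are `(M+1)^k` such functions.  (So the map
`p ↦` a chosen such function is injective.)
-/

open Finset

namespace Pool.Agent.RS

private theorem card_mul_le (s : Finset ℕ) (h0 : 0 ∉ s) :
    s.card * (s.card + 1) ≤ 2 * ∑ x ∈ s, x := by
  induction s using Finset.induction_on_max with
  | empty => simp
  | insert a s hlt ih =>
    have has : a ∉ s := fun h => lt_irrefl _ (hlt a h)
    have h0s : 0 ∉ s := fun h => h0 (mem_insert_of_mem h)
    have hsub : s ⊆ Finset.Ico 1 a := by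
      intro x hx
      rw [Finset.mem_Ico]
      refine ⟨Nat.one_le_iff_ne_zero.2 fun h => ?_, hlt x hx⟩
      rw [h] at hx
      exact h0s hx
    have hc := card_le_card hsub
    rw [Nat.card_Ico] at hc
    have ha : 0 < a := Nat.pos_of_ne_zero fun h => by
      rw [h] at h0
      exact h0 (mem_insert_self 0 s)
    rw [card_insert_of_notMem has, sum_insert has]
    have := ih h0s
    have hc' : s.card + 1 ≤ a := by omega
    nlinarith

private theorem part_le {n : ℕ} (p : Nat.Partition n) {a : ℕ} (ha : a ∈ p.parts) : a ≤ n := by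
  have h := Multiset.single_le_sum (fun x _ => Nat.zero_le x) a ha
  rwa [p.parts_sum] at h

private theorem sum_count {n : ℕ} (p : Nat.Partition n) :
    ∑ a ∈ p.parts.toFinset, p.parts.count a * a = n := by
  have h := Finset.sum_multiset_count p.parts
  rw [p.parts_sum] at h
  simp only [smul_eq_mul] at h
  exact h.symm

private theorem count_le {n : ℕ} (p : Nat.Partition n) {a : ℕ} (ha : a ∈ p.parts) :
    p.parts.count a ≤ n := by
  have h1 : p.parts.count a * a ≤ ∑ a ∈ p.parts.toFinset, p.parts.count a * a :=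
    Finset.single_le_sum (f := fun a => p.parts.count a * a) (fun _ _ => Nat.zero_le _)
      (Multiset.mem_toFinset.2 ha)
  rw [sum_count] at h1
  have h2 : 1 ≤ a := p.parts_pos ha
  nlinarith [Nat.zero_le (p.parts.count a)]

private theorem card_distinct {n : ℕ} (p : Nat.Partition n) :
    p.parts.toFinset.card ≤ Nat.sqrt (2 * n) := by
  rw [Nat.le_sqrt]
  have h1 : ∑ a ∈ p.parts.toFinset, a ≤ n := by
    have h2 : ∑ a ∈ p.parts.toFinset, a ≤ ∑ a ∈ p.parts.toFinset, p.parts.count a * a := by
      refine Finset.sum_le_sum fun a ha => ?_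
      have h3 : 1 ≤ p.parts.count a := Multiset.one_le_count_iff_mem.2 (Multiset.mem_toFinset.1 ha)
      nlinarith [Nat.zero_le a]
    rwa [sum_count] at h2
  have h0 : 0 ∉ p.parts.toFinset := fun h =>
    lt_irrefl _ (p.parts_pos (Multiset.mem_toFinset.1 h))
  have h2 := card_mul_le p.parts.toFinset h0
  nlinarith

private theorem exists_fun {α : Type*} [DecidableEq α] (T : Finset α) (k : ℕ) (h : T.card ≤ k) :
    ∃ f : Fin k → Option α, ∀ x, (∃ i, f i = some x) ↔ x ∈ T := by
  refine ⟨fun i => if hi : (i : ℕ) < T.card then some (T.equivFin.symm ⟨i, hi⟩ : α) else none,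
    fun x => ⟨?_, fun hx => ?_⟩⟩
  · rintro ⟨i, hi⟩
    by_cases h1 : (i : ℕ) < T.card
    · simp only [h1, dif_pos, Option.some.injEq] at hi
      rw [← hi]
      exact (T.equivFin.symm ⟨i, h1⟩).2
    · simp only [h1, dif_neg, not_false_eq_true, reduceCtorEq] at hi
  · have h1 := (T.equivFin ⟨x, hx⟩).2
    refine ⟨⟨(T.equivFin ⟨x, hx⟩ : ℕ), lt_of_lt_of_le h1 h⟩, ?_⟩
    simp only [h1, dif_pos, Fin.eta, Equiv.symm_apply_apply]

theorem card_partition (n : ℕ) :
    Fintype.card (Nat.Partition n) ≤ ((n + 1) ^ 2 + 1) ^ Nat.sqrt (2 * n) := by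
  classical
  have hex : ∀ p : Nat.Partition n, ∃ f : Fin (Nat.sqrt (2 * n)) → Option (Fin (n + 1) × Fin (n + 1)),
      ∀ x : Fin (n + 1) × Fin (n + 1), (∃ i, f i = some x) ↔
        ((x.1 : ℕ) ∈ p.parts ∧ p.parts.count (x.1 : ℕ) = (x.2 : ℕ)) := by
    intro p
    have hcard : (univ.filter fun x : Fin (n + 1) × Fin (n + 1) =>
        (x.1 : ℕ) ∈ p.parts ∧ p.parts.count (x.1 : ℕ) = (x.2 : ℕ)).card ≤ Nat.sqrt (2 * n) := by
      refine le_trans ?_ (card_distinct p)
      refine card_le_card_of_injOn (fun x => (x.1 : ℕ)) ?_ ?_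
      · intro x hx
        have := (mem_filter.1 hx).2.1
        exact Multiset.mem_toFinset.2 this
      · intro x hx y hy hxy
        have h1 := (mem_filter.1 hx).2.2
        have h2 := (mem_filter.1 hy).2.2
        have hxy' : (x.1 : ℕ) = (y.1 : ℕ) := hxy
        refine Prod.ext (Fin.ext hxy') (Fin.ext ?_)
        rw [← h1, ← h2, hxy']
    obtain ⟨f, hf⟩ := exists_fun _ _ hcard
    refine ⟨f, fun x => (hf x).trans ?_⟩
    rw [mem_filter]
    exact ⟨fun h => h.2, fun h => ⟨mem_univ _, h⟩⟩
  choose f hf using hex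
  have hsame : ∀ p q : Nat.Partition n, f p = f q → ∀ a ∈ p.parts,
      p.parts.count a = q.parts.count a := by
    intro p q hpq a ha
    have h1 := part_le p ha
    have h2 := count_le p ha
    have h3 := (hf p (⟨a, Nat.lt_succ_of_le h1⟩, ⟨p.parts.count a, Nat.lt_succ_of_le h2⟩)).2
      ⟨ha, rfl⟩
    rw [hpq] at h3
    exact ((hf q _).1 h3).2.symm
  have hinj : Function.Injective f := by
    intro p q hpq
    apply Nat.Partition.ext
    rw [Multiset.ext]
    intro a
    by_cases ha : a ∈ p.parts
    · exact hsame p q hpq a ha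
    · by_cases hb : a ∈ q.parts
      · exact (hsame q p hpq.symm a hb).symm
      · rw [Multiset.count_eq_zero_of_notMem ha, Multiset.count_eq_zero_of_notMem hb]
  have h := Fintype.card_le_of_injective f hinj
  rw [Fintype.card_fun, Fintype.card_option, Fintype.card_prod, Fintype.card_fin,
    Fintype.card_fin] at h
  rw [pow_two]
  exact h

end Pool.Agent.RS
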