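import Pool.Agent.Helper46.RC.Final

set_option autoImplicit false

/-!
# ETA: counting tuples (background family, averaging elements, remaining elements)
-/

open Finset Filter Topology

namespace Pool.Agent.RS

/-- The first `m₀` entries. -/
def fstP {α : Type*} {m₀ s K : ℕ} (z : Fin (m₀ + s * K) → α) : Fin m₀ → α :=
  fun i => z (Fin.castAdd (s * K) i)

/-- The last `s K` entries, as a matrix. -/
def sndP {α : Type*} {m₀ s K : ℕ} (z : Fin (m₀ + s * K) → α) : Fin s → Fin K → α :=
  fun i j => z (Fin.natAdd m₀ (finProdFinEquiv (i, j)))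

/-- The decomposition of the tuples. -/
def splitP (α : Type*) (m₀ s K : ℕ) :
    (Fin (m₀ + s * K) → α) ≃ (Fin m₀ → α) × (Fin s → Fin K → α) :=
  (Fin.appendEquiv (α := α) m₀ (s * K)).symm.trans
    (Equiv.prodCongr (Equiv.refl _)
      ((Equiv.arrowCongr (finProdFinEquiv (m := s) (n := K)).symm (Equiv.refl α)).trans
        (Equiv.curry (Fin s) (Fin K) α)))

theorem splitP_apply {α : Type*} {m₀ s K : ℕ} (z : Fin (m₀ + s * K) → α) :
    splitP α m₀ s K z = (fstP z, sndP z) := rfl

theorem count_two {α : Type*} [Fintype α] {m₀ s K : ℕ} (P : (Fin m₀ → α) → Prop)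
    (Q : (Fin m₀ → α) → (Fin s → Fin K → α) → Prop) (a b : ℝ) (hb : 0 ≤ b)
    (hP : (Nat.card {x : Fin m₀ → α // P x} : ℝ) ≤ a * (Fintype.card α : ℝ) ^ m₀)
    (hQ : ∀ x, ¬ P x → (Nat.card {y : Fin s → Fin K → α // Q x y} : ℝ) ≤
      b * (Fintype.card α : ℝ) ^ (s * K)) :
    (Nat.card {z : Fin (m₀ + s * K) → α // P (fstP z) ∨ Q (fstP z) (sndP z)} : ℝ) ≤
      (a + b) * (Fintype.card α : ℝ) ^ (m₀ + s * K) := by
  classical
  have e : {z : Fin (m₀ + s * K) → α // P (fstP z) ∨ Q (fstP z) (sndP z)} ≃
      {w : (Fin m₀ → α) × (Fin s → Fin K → α) // P w.1 ∨ Q w.1 w.2} :=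
    (splitP α m₀ s K).subtypeEquiv fun z => Iff.rfl
  rw [Nat.card_congr e, Nat.card_eq_fintype_card, Fintype.card_subtype]
  have h1 : (univ.filter (fun w : (Fin m₀ → α) × (Fin s → Fin K → α) => P w.1 ∨ Q w.1 w.2)).card =
      ∑ x : Fin m₀ → α, (univ.filter (fun y : Fin s → Fin K → α => P x ∨ Q x y)).card := by
    simp only [Finset.card_filter]
    rw [Fintype.sum_prod_type]
  rw [h1]
  push_cast
  have h2 : ∀ x : Fin m₀ → α,
      ((univ.filter (fun y : Fin s → Fin K → α => P x ∨ Q x y)).card : ℝ) ≤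
        (if P x then (Fintype.card α : ℝ) ^ (s * K) else 0) +
          b * (Fintype.card α : ℝ) ^ (s * K) := by
    intro x
    have hcard : (Fintype.card (Fin s → Fin K → α) : ℝ) = (Fintype.card α : ℝ) ^ (s * K) := by
      rw [Fintype.card_fun, Fintype.card_fun, Fintype.card_fin, Fintype.card_fin, ← pow_mul,
        mul_comm K s]
      push_cast
      rfl
    by_cases hx : P x
    · rw [if_pos hx]
      have h3 : ((univ.filter (fun y : Fin s → Fin K → α => P x ∨ Q x y)).card : ℝ) ≤
          (Fintype.card (Fin s → Fin K → α) : ℝ) := by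
        exact_mod_cast Finset.card_le_univ _
      rw [hcard] at h3
      have : 0 ≤ b * (Fintype.card α : ℝ) ^ (s * K) := by positivity
      linarith
    · rw [if_neg hx, zero_add]
      have h3 := hQ x hx
      rw [Nat.card_eq_fintype_card, Fintype.card_subtype] at h3
      refine le_trans (le_of_eq ?_) h3
      congr 2
      ext y
      simp [hx]
  refine (Finset.sum_le_sum fun x _ => h2 x).trans ?_
  rw [Finset.sum_add_distrib, Finset.sum_const, Finset.card_univ, nsmul_eq_mul,
    ← Finset.sum_filter, Finset.sum_const, nsmul_eq_mul]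
  rw [Nat.card_eq_fintype_card, Fintype.card_subtype] at hP
  have h4 : (Fintype.card (Fin m₀ → α) : ℝ) = (Fintype.card α : ℝ) ^ m₀ := by
    rw [Fintype.card_fun, Fintype.card_fin]
    push_cast
    rfl
  rw [h4, pow_add]
  have h5 : (0 : ℝ) ≤ (Fintype.card α : ℝ) ^ (s * K) := by positivity
  have h6 := mul_le_mul_of_nonneg_right hP h5
  nlinarith

/-- Passing from the symmetric group to the alternating group. -/
theorem card_bad_alt {n m r : ℕ} {ε : ℝ} (hn : 2 ≤ n) :
    (Nat.card {x : Fin m → alternatingGroup (Fin n) //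
      ¬ RC.GapUpTo n m r ε (fun i => (x i : Equiv.Perm (Fin n)))} : ℝ) ≤
      2 ^ m * ((Nat.card {x : Fin m → Equiv.Perm (Fin n) // ¬ RC.GapUpTo n m r ε x} : ℝ) /
        (n.factorial : ℝ) ^ m) * (Fintype.card (alternatingGroup (Fin n)) : ℝ) ^ m := by
  have : Nontrivial (Fin n) := Fin.nontrivial_iff_two_le.mpr hn
  have hA : 2 * Fintype.card (alternatingGroup (Fin n)) = n.factorial := by
    rw [two_mul_card_alternatingGroup, Fintype.card_perm, Fintype.card_fin]
  have hA' : (n.factorial : ℝ) = 2 * Fintype.card (alternatingGroup (Fin n)) := by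
    exact_mod_cast hA.symm
  have hApos : (0 : ℝ) < Fintype.card (alternatingGroup (Fin n)) := by
    exact_mod_cast Fintype.card_pos
  have h3 : Nat.card {x : Fin m → alternatingGroup (Fin n) //
        ¬ RC.GapUpTo n m r ε (fun i => (x i : Equiv.Perm (Fin n)))} ≤
      Nat.card {x : Fin m → Equiv.Perm (Fin n) // ¬ RC.GapUpTo n m r ε x} :=
    Nat.card_le_card_of_injective
      (fun x => ⟨fun i => (x.1 i : Equiv.Perm (Fin n)), x.2⟩)
      (fun x x' h => Subtype.ext (funext fun i => Subtype.ext (by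
        have := congrFun (congrArg Subtype.val h) i
        simpa using this)))
  have h3' : (Nat.card {x : Fin m → alternatingGroup (Fin n) //
        ¬ RC.GapUpTo n m r ε (fun i => (x i : Equiv.Perm (Fin n)))} : ℝ) ≤
      Nat.card {x : Fin m → Equiv.Perm (Fin n) // ¬ RC.GapUpTo n m r ε x} := by
    exact_mod_cast h3
  refine h3'.trans (le_of_eq ?_)
  rw [hA', mul_pow]
  field_simp

/-- If the fraction of bad tuples tends to zero, the fraction of good ones tends to one. -/
theorem tendsto_good {m : ℕ → ℕ}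
    (Good : (n : ℕ) → (Fin (m n) → alternatingGroup (Fin n)) → Prop) (b : ℕ → ℝ)
    (hb : Tendsto b atTop (𝓝 0))
    (h : ∀ᶠ n in atTop, (Nat.card {x : Fin (m n) → alternatingGroup (Fin n) // ¬ Good n x} : ℝ) ≤
      b n * (Fintype.card (alternatingGroup (Fin n)) : ℝ) ^ (m n)) :
    Tendsto (fun n : ℕ => (Nat.card {x : Fin (m n) → alternatingGroup (Fin n) // Good n x} : ℝ) /
      (Nat.card (alternatingGroup (Fin n)) : ℝ) ^ (m n)) atTop (𝓝 1) := by
  have hsplit : ∀ n, (Nat.card {x : Fin (m n) → alternatingGroup (Fin n) // Good n x} : ℝ) /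
      (Nat.card (alternatingGroup (Fin n)) : ℝ) ^ (m n) =
      1 - (Nat.card {x : Fin (m n) → alternatingGroup (Fin n) // ¬ Good n x} : ℝ) /
      (Nat.card (alternatingGroup (Fin n)) : ℝ) ^ (m n) := by
    intro n
    classical
    have hApos : (0 : ℝ) < Fintype.card (alternatingGroup (Fin n)) := by
      exact_mod_cast Fintype.card_pos
    have h1 := Fintype.card_subtype_compl
      (fun x : Fin (m n) → alternatingGroup (Fin n) => Good n x)
    have h2 := Fintype.card_subtype_le
      (fun x : Fin (m n) → alternatingGroup (Fin n) => Good n x)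
    rw [Fintype.card_fun, Fintype.card_fin] at h1 h2
    simp only [Nat.card_eq_fintype_card]
    rw [h1, Nat.cast_sub h2]
    push_cast
    field_simp
    ring
  have hbad : Tendsto (fun n : ℕ =>
      (Nat.card {x : Fin (m n) → alternatingGroup (Fin n) // ¬ Good n x} : ℝ) /
      (Nat.card (alternatingGroup (Fin n)) : ℝ) ^ (m n)) atTop (𝓝 0) := by
    refine squeeze_zero' (Eventually.of_forall fun n => by positivity) ?_ hb
    filter_upwards [h] with n hn
    rw [Nat.card_eq_fintype_card (α := alternatingGroup (Fin n))]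
    have hApos : (0 : ℝ) < Fintype.card (alternatingGroup (Fin n)) := by
      exact_mod_cast Fintype.card_pos
    rw [div_le_iff₀ (by positivity)]
    exact hn
  have := (tendsto_const_nhds (x := (1 : ℝ))).sub hbad
  rw [sub_zero] at this
  refine this.congr fun n => ?_
  rw [hsplit]

end Pool.Agent.RS
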