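import Pool.Agent.Helper36.RS.Det
import Pool.Agent.Helper36.RS.Prob
import Pool.Agent.Helper36.RS.Init
import Pool.Agent.Helper36.RS.NumA
import Pool.Agent.Helper36.RS.NumB
import Pool.Agent.Helper36.RS.Classes
import Pool.Agent.Helper36.RS.Parts

set_option autoImplicit false

/-!
# ETA: assembly of T2
-/

open Finset Filter Topology

namespace Pool.Agent.RS

open scoped InnerProductSpace

/-- The energy of a real eigenfunction. -/
theorem eig_energy {n m : ℕ} (x : Fin m → alternatingGroup (Fin n)) (μ : ℝ)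
    (h : EuclideanSpace ℝ (alternatingGroup (Fin n)))
    (hμ : ∀ g, ∑ i, (h ((x i)⁻¹ * g) + h (x i * g)) = μ * h g) :
    ∑ i, ‖lt (alternatingGroup (Fin n)) (x i) h - h‖ ^ 2 = (2 * m - μ) * ‖h‖ ^ 2 := by
  have h1 : ∀ i, ‖lt (alternatingGroup (Fin n)) (x i) h - h‖ ^ 2 =
      2 * ‖h‖ ^ 2 - ⟪lt (alternatingGroup (Fin n)) (x i) h, h⟫_ℝ -
        ⟪lt (alternatingGroup (Fin n)) (x i)⁻¹ h, h⟫_ℝ := fun i =>
    (two_sub_inner (lt (alternatingGroup (Fin n))) (lt_norm _) (x i) h).symm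
  have h2 : ∑ i, (⟪lt (alternatingGroup (Fin n)) (x i) h, h⟫_ℝ +
      ⟪lt (alternatingGroup (Fin n)) (x i)⁻¹ h, h⟫_ℝ) = μ * ‖h‖ ^ 2 := by
    have h3 : ∑ i, (lt (alternatingGroup (Fin n)) (x i) h +
        lt (alternatingGroup (Fin n)) (x i)⁻¹ h) = μ • h := by
      ext g
      have := hμ g
      simp only [WithLp.ofLp_sum, Finset.sum_apply, PiLp.add_apply, PiLp.smul_apply, lt_apply,
        inv_inv, smul_eq_mul]
      exact this
    have h4 : ⟪∑ i, (lt (alternatingGroup (Fin n)) (x i) h +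
        lt (alternatingGroup (Fin n)) (x i)⁻¹ h), h⟫_ℝ = μ * ‖h‖ ^ 2 := by
      rw [h3, real_inner_smul_left, real_inner_self_eq_norm_sq]
    rw [sum_inner] at h4
    rw [← h4]
    exact Finset.sum_congr rfl fun i _ => (inner_add_left _ _ _).symm
  have h5 : ∑ i, ‖lt (alternatingGroup (Fin n)) (x i) h - h‖ ^ 2 =
      ∑ i : Fin m, 2 * ‖h‖ ^ 2 - ∑ i, (⟪lt (alternatingGroup (Fin n)) (x i) h, h⟫_ℝ +
      ⟪lt (alternatingGroup (Fin n)) (x i)⁻¹ h, h⟫_ℝ) := by
    rw [← Finset.sum_sub_distrib]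
    refine Finset.sum_congr rfl fun i _ => ?_
    rw [h1 i]
    ring
  rw [h5, h2, Finset.sum_const, Finset.card_univ, Fintype.card_fin, nsmul_eq_mul]
  ring

/-- A family has gap `ε` if its energy on the functions of sum zero is at least `ε`. -/
def EnergyGap {n m : ℕ} (ε : ℝ) (x : Fin m → alternatingGroup (Fin n)) : Prop :=
  ∀ f : EuclideanSpace ℝ (alternatingGroup (Fin n)), ∑ g, f g = 0 →
    ε * ‖f‖ ^ 2 ≤ ∑ i, ‖lt (alternatingGroup (Fin n)) (x i) f - f‖ ^ 2

theorem EnergyGap.real {n m : ℕ} {ε : ℝ} {x : Fin m → alternatingGroup (Fin n)}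
    (hx : EnergyGap ε x) (f : alternatingGroup (Fin n) → ℝ) (h0 : ∑ g, f g = 0) (hf : f ≠ 0)
    (μ : ℝ) (hμ : ∀ g, ∑ i, (f ((x i)⁻¹ * g) + f (x i * g)) = μ * f g) : μ ≤ 2 * m - ε := by
  have h1 := hx (WithLp.toLp 2 f) h0
  rw [eig_energy x μ (WithLp.toLp 2 f) hμ] at h1
  have hpos : 0 < ‖(WithLp.toLp 2 f : EuclideanSpace ℝ (alternatingGroup (Fin n)))‖ ^ 2 := by
    have : (WithLp.toLp 2 f : EuclideanSpace ℝ (alternatingGroup (Fin n))) ≠ 0 := by
      intro h
      apply hf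
      funext g
      exact congrArg (fun F : EuclideanSpace ℝ (alternatingGroup (Fin n)) => F g) h
    positivity
  have := le_of_mul_le_mul_right h1 hpos
  linarith

theorem EnergyGap.complex {n m : ℕ} {ε : ℝ} {x : Fin m → alternatingGroup (Fin n)}
    (hx : EnergyGap ε x) (f : alternatingGroup (Fin n) → ℂ) (h0 : ∑ g, f g = 0) (hf : f ≠ 0)
    (μ : ℝ) (hμ : ∀ g, ∑ i, (f ((x i)⁻¹ * g) + f (x i * g)) = (μ : ℂ) * f g) :
    μ ≤ 2 * m - ε := by
  by_cases hr : (fun g => (f g).re) = 0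
  · have hi : (fun g => (f g).im) ≠ 0 := by
      intro hi
      apply hf
      funext g
      exact Complex.ext (congrFun hr g) (congrFun hi g)
    refine hx.real _ ?_ hi μ ?_
    · have := congrArg Complex.im h0
      simpa using this
    · intro g
      have := congrArg Complex.im (hμ g)
      simpa using this
  · refine hx.real _ ?_ hr μ ?_
    · have := congrArg Complex.re h0
      simpa using this
    · intro g
      have := congrArg Complex.re (hμ g)
      simpa using this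

/-- More generators have more energy. -/
theorem EnergyGap.mono {n m N : ℕ} (hN : N ≤ m) {ε : ℝ} {x : Fin m → alternatingGroup (Fin n)}
    (hx : EnergyGap ε (fun i : Fin N => x (Fin.castLE hN i))) : EnergyGap ε x := by
  intro f h0
  refine (hx f h0).trans ?_
  obtain ⟨d, rfl⟩ := Nat.exists_eq_add_of_le hN
  rw [Fin.sum_univ_add]
  have : 0 ≤ ∑ i : Fin d, ‖lt (alternatingGroup (Fin n)) (x (Fin.natAdd N i)) f - f‖ ^ 2 :=
    Finset.sum_nonneg fun _ _ => by positivity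
  have h2 : ∑ i : Fin N, ‖lt (alternatingGroup (Fin n)) (x (Fin.castLE hN i)) f - f‖ ^ 2 =
    ∑ i : Fin N, ‖lt (alternatingGroup (Fin n)) (x (Fin.castAdd d i)) f - f‖ ^ 2 := rfl
  rw [h2]
  linarith

theorem qN_bound (n : ℕ) {q : ℕ} (hq : q ≤ Nat.card (ConjClasses (alternatingGroup (Fin n)))) :
    (q : ℝ) ≤ qN n := by
  have h1 := hq.trans (card_classes n)
  have h2 := card_partition n
  have h3 : q ≤ 2 * ((n + 1) ^ 2 + 1) ^ Nat.sqrt (2 * n) := h1.trans (Nat.mul_le_mul_left 2 h2)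
  unfold qN
  exact_mod_cast h3

theorem finrank_le_factorial {n : ℕ}
    (B : Submodule ℝ (EuclideanSpace ℝ (alternatingGroup (Fin n)))) :
    (Module.finrank ℝ B : ℝ) ≤ n.factorial := by
  have h1 : Module.finrank ℝ B ≤ Fintype.card (alternatingGroup (Fin n)) := by
    refine (Submodule.finrank_le B).trans ?_
    rw [finrank_euclideanSpace]
  have h2 : Fintype.card (alternatingGroup (Fin n)) ≤ Fintype.card (Equiv.Perm (Fin n)) :=
    Fintype.card_subtype_le _
  rw [Fintype.card_perm, Fintype.card_fin] at h2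
  exact_mod_cast h1.trans h2

/-- The initial low spaces are small. -/
theorem low_small {n m₀ : ℕ} {γ β ε : ℝ} (hm₀ : 1 ≤ m₀) (hε : 0 < ε) (hε1 : ε ≤ 1)
    (hnum : ∃ t b T : ℕ, 48 ≤ ⌊(n : ℝ) ^ γ⌋₊ ∧
      2 * ⌊(n : ℝ) ^ γ⌋₊ ≤ n ∧ 8 * b ≤ ⌊(n : ℝ) ^ γ⌋₊ ∧ t ≤ ⌊(n : ℝ) ^ γ⌋₊ ∧ 4 * t ≤ n ∧ Even T ∧
      2 * ((4 / (n : ℝ)) ^ t + 4 ^ t * (1 - ε / (2 * m₀)) ^ T +
        (1 - (⌊(n : ℝ) ^ γ⌋₊ : ℝ) / (4 * n)) ^ b) ≤
          (1 - ε / (2 * m₀) / 12) ^ T * Real.exp (-(n : ℝ) ^ β))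
    (x : Fin m₀ → alternatingGroup (Fin n))
    (hx : RC.GapUpTo n m₀ ⌊(n : ℝ) ^ γ⌋₊ ε (fun i => (x i : Equiv.Perm (Fin n))))
    {E : Type*} [NormedAddCommGroup E] [InnerProductSpace ℝ E]
    [FiniteDimensional ℝ E] (π : alternatingGroup (Fin n) →* (E →ₗ[ℝ] E))
    (hπ : ∀ g v, ‖π g v‖ = ‖v‖) (F : Submodule ℝ E) (hF : ∀ g, ∀ v ∈ F, π g v ∈ F)
    (hno : NoInvA π F (n - ⌊(n : ℝ) ^ γ⌋₊)) :
    (Module.finrank ℝ (RC.low (lapl π x) (ε / (2 * m₀) / 12) ⊓ F : Submodule ℝ E) : ℝ) ≤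
      Real.exp (-(n : ℝ) ^ β) * Module.finrank ℝ F := by
  obtain ⟨t, b, T, h1, h2, h3, h4, h5, h6, h7⟩ := hnum
  have hm1 : (1 : ℝ) ≤ m₀ := by exact_mod_cast hm₀
  have hθ0 : 0 < ε / (2 * m₀) := by positivity
  have hθ1 : ε / (2 * m₀) ≤ 1 := by
    rw [div_le_one (by positivity)]
    linarith
  have h8 := init hm₀ x hx h1 h2 h3 h4 h5 hε.le (by linarith) h6
    (θ' := ε / (2 * m₀) / 12) (by positivity) (by linarith) π hπ F hF hno
  have hpow : 0 < (1 - ε / (2 * m₀) / 12) ^ T := by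
    apply pow_pos
    linarith
  have h9 := h8.trans (mul_le_mul_of_nonneg_right h7 (Nat.cast_nonneg (Module.finrank ℝ F)))
  rw [mul_assoc] at h9
  exact le_of_mul_le_mul_left h9 hpow

theorem t2_main {η : ℝ} (hη : 0 < η) : ∃ ε : ℝ, 0 < ε ∧ ∀ m : ℕ → ℕ,
    (∀ᶠ n : ℕ in atTop, η * Real.log n ^ 2 ≤ m n) →
    ∀ Good : (n : ℕ) → (Fin (m n) → alternatingGroup (Fin n)) → Prop,
      (∀ n x, (∀ f : alternatingGroup (Fin n) → ℂ, ∑ g, f g = 0 → f ≠ 0 → ∀ μ : ℝ,
        (∀ g, ∑ i, (f ((x i)⁻¹ * g) + f (x i * g)) = (μ : ℂ) * f g) → μ ≤ 2 * m n - ε) →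
          Good n x) →
      Tendsto (fun n : ℕ => (Nat.card {x : Fin (m n) → alternatingGroup (Fin n) // Good n x} : ℝ) /
          (Nat.card (alternatingGroup (Fin n)) : ℝ) ^ (m n)) atTop (𝓝 1) := by
  -- parameters
  obtain ⟨δ, hδ, hδη, hδ4⟩ : ∃ δ : ℝ, 0 < δ ∧ 3 * δ ^ 2 < η ∧ δ ≤ 1 / 4 := by
    refine ⟨min (Real.sqrt η / 2) (1 / 4), lt_min (by positivity) (by norm_num), ?_,
      min_le_right _ _⟩
    have h1 : min (Real.sqrt η / 2) (1 / 4) ^ 2 ≤ (Real.sqrt η / 2) ^ 2 :=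
      pow_le_pow_left₀ (le_min (by positivity) (by norm_num)) (min_le_left _ _) 2
    have h2 : (Real.sqrt η / 2) ^ 2 = η / 4 := by
      rw [div_pow, Real.sq_sqrt hη.le]
      norm_num
    rw [h2] at h1
    linarith
  set κ := δ * Real.log 2 with hκ
  have hlog0 : 0 < Real.log 2 := Real.log_pos (by norm_num)
  have hlog1 : Real.log 2 < 1 := by
    have := Real.log_two_lt_d9
    linarith
  have hκ0 : 0 < κ := by positivity
  have hκ1 : κ < 1 / 4 := by
    rw [hκ]
    nlinarith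
  set β := 1 - κ / 2 with hβ
  set γ := 1 - κ / 8 with hγ
  obtain ⟨m₀, hm₀, ε₀, hε₀, hlim⟩ := RC.lev_all (γ := γ) (by linarith)
  set ε₁ := min ε₀ 1 with hε₁
  have hε₁0 : 0 < ε₁ := lt_min hε₀ one_pos
  have hε₁1 : ε₁ ≤ 1 := min_le_right _ _
  have hm₀1 : (1 : ℝ) ≤ m₀ := by exact_mod_cast hm₀
  have hgapmono : ∀ {n r : ℕ} (x : Fin m₀ → Equiv.Perm (Fin n)), RC.GapUpTo n m₀ r ε₀ x →
      RC.GapUpTo n m₀ r ε₁ x := by
    intro n r x hx j hj hjr f hf
    refine (hx j hj hjr f hf).trans ?_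
    apply mul_le_mul_of_nonneg_right _ (Finset.sum_nonneg fun y _ => sq_nonneg _)
    have := min_le_left ε₀ (1 : ℝ)
    linarith
  set θ := ε₁ / (2 * m₀) with hθ
  have hθ0 : 0 < θ := by positivity
  have hθ1 : θ ≤ 1 := by
    rw [hθ, div_le_one (by positivity)]
    linarith
  set ε := min (θ / 12 / 9) (2 * ε₁) with hε
  have hεpos : 0 < ε := lt_min (by positivity) (by positivity)
  refine ⟨ε, hεpos, fun m hm Good hGood => ?_⟩
  set p : ℕ → ℝ := fun n =>
    (Nat.card {x : Fin m₀ → Equiv.Perm (Fin n) // ¬ RC.GapUpTo n m₀ ⌊(n : ℝ) ^ γ⌋₊ ε₀ x} : ℝ) /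
      (n.factorial : ℝ) ^ m₀ with hp
  refine tendsto_good Good (fun n => 2 ^ m₀ * p n + 1 / (4 * (n : ℝ))) ?_ ?_
  · have h1 : Tendsto (fun n => 2 ^ m₀ * p n) atTop (𝓝 (2 ^ m₀ * 0)) := hlim.const_mul _
    have h2 : Tendsto (fun n : ℕ => 1 / (4 * (n : ℝ))) atTop (𝓝 0) := by
      have h3 := (tendsto_one_div_atTop_nhds_zero_nat (𝕜 := ℝ)).const_mul (1 / 4)
      rw [mul_zero] at h3
      refine h3.congr fun n => ?_
      rw [div_mul_div_comm]
      norm_num
    simpa using h1.add h2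
  have hA := numA (γ := γ) (β := β) (θ := θ) (by linarith) (by linarith) (by linarith) hθ0 hθ1
  have hB := numB (δ := δ) (β := β) hδ (by linarith) (by linarith)
  have hC := numC hδ hδη m₀
  filter_upwards [hA, hB, hC, hm, eventually_ge_atTop 2] with n hnA hnB hnC hnm hn2
  obtain ⟨hs1, hZ1, hnB⟩ := hnB
  set r := ⌊(n : ℝ) ^ γ⌋₊ with hr
  have hrn : r ≤ n := by
    obtain ⟨t, b, T, h1, h2, -⟩ := hnA
    omega
  set s := sN δ n with hs
  set Z := ZN δ n with hZ
  have hZ0 : 0 < Z := by linarith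
  have hn0 : (0 : ℝ) < n := by
    have : 0 < n := by omega
    exact_mod_cast this
  have hs0 : (0 : ℝ) < s := by exact_mod_cast hs1
  obtain ⟨q, B, hq, hBmin, hBsup⟩ := two_sided (alternatingGroup (Fin n)) (degE n r)ᗮ
    (degE_orth_lt n r) (degE_orth_rt n r)
  have hqN := qN_bound n hq
  have hBle : ∀ i, B i ≤ (degE n r)ᗮ := fun i => by
    rw [← hBsup]
    exact le_iSup B i
  -- the bad sets
  set K := 3 * s with hK
  set P : (Fin m₀ → alternatingGroup (Fin n)) → Prop := fun x =>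
    ¬ RC.GapUpTo n m₀ r ε₀ (fun i => (x i : Equiv.Perm (Fin n))) with hP
  set Q : (Fin m₀ → alternatingGroup (Fin n)) → (Fin s → Fin K → alternatingGroup (Fin n)) →
      Prop := fun x y => ∃ i : Fin q,
        (Z * Real.exp (-(n : ℝ) ^ β)) ^ (2 ^ s) / Z * (Module.finrank ℝ (B i) : ℝ) <
          (Module.finrank ℝ (RC.low (iter (lt (alternatingGroup (Fin n))) s y
            (lapl (lt (alternatingGroup (Fin n))) x)) (θ / 12 * (1 - 2 / K) ^ s) ⊓ B i :
            Submodule ℝ (EuclideanSpace ℝ (alternatingGroup (Fin n)))) : ℝ) with hQ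
  have hPc : (Nat.card {x // P x} : ℝ) ≤
      2 ^ m₀ * p n * (Fintype.card (alternatingGroup (Fin n)) : ℝ) ^ m₀ := card_bad_alt hn2
  have hadm : ∀ x : Fin m₀ → alternatingGroup (Fin n),
      Adm (rt (alternatingGroup (Fin n))) B (lapl (lt (alternatingGroup (Fin n))) x) := fun x =>
    lapl_adm (lt (alternatingGroup (Fin n))) (rt (alternatingGroup (Fin n))) (lt_norm _)
      (fun g h v => lt_rt _ g h v) B (fun i => (hBmin i).left) x
  have hQc : ∀ x, ¬ P x → (Nat.card {y : Fin s → Fin K → alternatingGroup (Fin n) // Q x y} : ℝ) ≤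
      1 / (4 * (n : ℝ)) * (Fintype.card (alternatingGroup (Fin n)) : ℝ) ^ (s * K) := by
    intro x hx
    have hx' : RC.GapUpTo n m₀ r ε₁ (fun i => (x i : Equiv.Perm (Fin n))) := by
      apply hgapmono
      by_contra h
      exact hx h
    have hlow : ∀ i, (Module.finrank ℝ (RC.low (lapl (lt (alternatingGroup (Fin n))) x) (θ / 12) ⊓
        B i : Submodule ℝ (EuclideanSpace ℝ (alternatingGroup (Fin n)))) : ℝ) ≤
        Real.exp (-(n : ℝ) ^ β) * Module.finrank ℝ (B i) := by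
      intro i
      refine low_small hm₀ hε₁0 hε₁1 hnA x hx' (lt (alternatingGroup (Fin n))) (lt_norm _) (B i)
        (hBmin i).left ?_
      refine no_left hrn (B i) (hBmin i).right fun f hf h hh => ?_
      exact orth_sum f (hBle i hf) h hh
    have h1 := chain (lt (alternatingGroup (Fin n))) (rt (alternatingGroup (Fin n))) (lt_norm _)
      (rt_norm _) (fun g h v => lt_rt _ g h v) B hBmin (K := K) (by omega) Z hZ0 s
      (lapl (lt (alternatingGroup (Fin n))) x) (θ / 12) (Real.exp (-(n : ℝ) ^ β)) (hadm x)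
      (by positivity) (Real.exp_pos _).le hlow
    have hcardpos : (0 : ℝ) < Fintype.card (alternatingGroup (Fin n)) := by
      exact_mod_cast Fintype.card_pos
    have h2 : (Nat.card {y : Fin s → Fin K → alternatingGroup (Fin n) // Q x y} : ℝ) * (4 * Z) ≤
        s * qN n * (K : ℝ) ^ 4 * (Fintype.card (alternatingGroup (Fin n)) : ℝ) ^ (s * K) := by
      refine h1.trans ?_
      rw [mul_comm s K]
      gcongr
    have h3 : Z = n * (s * qN n * (K : ℝ) ^ 4) := by
      rw [hZ, ZN, hK]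
      push_cast
      ring
    have h4 : 0 < s * qN n * (K : ℝ) ^ 4 := by
      have : 0 < n * (s * qN n * (K : ℝ) ^ 4) := by rw [← h3]; exact hZ0
      exact pos_of_mul_pos_right this hn0.le
    have h5 : (s * qN n * (K : ℝ) ^ 4 *
        (Fintype.card (alternatingGroup (Fin n)) : ℝ) ^ (s * K)) =
        (1 / (4 * (n : ℝ)) * (Fintype.card (alternatingGroup (Fin n)) : ℝ) ^ (s * K)) *
          (4 * Z) := by
      rw [h3]
      field_simp
    rw [h5] at h2
    exact le_of_mul_le_mul_right h2 (by positivity)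
  have hcount := count_two P Q (2 ^ m₀ * p n) (1 / (4 * (n : ℝ))) (by positivity) hPc hQc
  -- the number of generators used
  have hN : m₀ + s * K ≤ m n := by
    have h1 := hnC.trans hnm
    have h2 : ((m₀ + s * K : ℕ) : ℝ) ≤ m n := by
      rw [hK]
      push_cast
      exact h1
    exact_mod_cast h2
  -- good tuples
  have hgood : ∀ z : Fin (m₀ + s * K) → alternatingGroup (Fin n),
      ¬ (P (fstP z) ∨ Q (fstP z) (sndP z)) → EnergyGap ε z := by
    intro z hz f h0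
    rw [not_or] at hz
    obtain ⟨hz1, hz2⟩ := hz
    have hx' : RC.GapUpTo n m₀ r ε₁ (fun i => ((fstP z i : alternatingGroup (Fin n)) : Equiv.Perm (Fin n))) := by
      apply hgapmono
      by_contra h
      exact hz1 h
    have hbot : ∀ i, RC.low (iter (lt (alternatingGroup (Fin n))) s (sndP z)
        (lapl (lt (alternatingGroup (Fin n))) (fstP z)))
          (θ / 12 * (1 - 2 / ((3 * s : ℕ) : ℝ)) ^ s) ⊓ B i = ⊥ := by
      intro i
      by_contra hne
      apply hz2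
      refine ⟨i, ?_⟩
      have h1 : (1 : ℝ) ≤ (Module.finrank ℝ (RC.low (iter (lt (alternatingGroup (Fin n))) s
          (sndP z) (lapl (lt (alternatingGroup (Fin n))) (fstP z)))
          (θ / 12 * (1 - 2 / K) ^ s) ⊓ B i :
            Submodule ℝ (EuclideanSpace ℝ (alternatingGroup (Fin n)))) : ℝ) := by
        have := Submodule.one_le_finrank_iff.2 hne
        exact_mod_cast this
      refine lt_of_lt_of_le ?_ h1
      refine lt_of_le_of_lt ?_ hnB
      apply mul_le_mul_of_nonneg_left (finrank_le_factorial (B i))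
      positivity
    have h1 := total_energy hs1 hrn (θ := θ / 12) (by positivity) (fstP z) (sndP z) hx' B hBmin
      hBsup hbot f h0
    rw [Fin.sum_univ_add]
    have h2 : ∑ i : Fin (s * K), ‖lt (alternatingGroup (Fin n)) (z (Fin.natAdd m₀ i)) f - f‖ ^ 2 =
        ∑ i, ∑ j, ‖lt (alternatingGroup (Fin n)) (sndP z i j) f - f‖ ^ 2 := by
      rw [← Equiv.sum_comp finProdFinEquiv, Fintype.sum_prod_type]
      rfl
    rw [h2]
    exact h1
  -- conclusion
  have h1 : Nat.card {x : Fin (m n) → alternatingGroup (Fin n) // ¬ Good n x} ≤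
      Nat.card {x : Fin (m n) → alternatingGroup (Fin n) //
        (fun z : Fin (m₀ + s * K) → alternatingGroup (Fin n) =>
          P (fstP z) ∨ Q (fstP z) (sndP z)) (fun i => x (Fin.castLE hN i))} := by
    refine Nat.card_le_card_of_injective (fun x => ⟨x.1, ?_⟩) (fun x x' h =>
      Subtype.ext (by simpa using h))
    by_contra hcon
    apply x.2
    refine hGood n x.1 fun f h0 hf μ hμ => ?_
    exact (EnergyGap.mono hN (hgood _ hcon)).complex f h0 hf μ hμ
  have h2 := RC.FinalAux.card_restrict (α := alternatingGroup (Fin n)) hN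
    (fun z : Fin (m₀ + s * K) → alternatingGroup (Fin n) => P (fstP z) ∨ Q (fstP z) (sndP z))
  have h3 : (Nat.card {x : Fin (m n) → alternatingGroup (Fin n) // ¬ Good n x} : ℝ) ≤
      (Nat.card {z : Fin (m₀ + s * K) → alternatingGroup (Fin n) //
        P (fstP z) ∨ Q (fstP z) (sndP z)} : ℝ) *
        (Fintype.card (alternatingGroup (Fin n)) : ℝ) ^ (m n - (m₀ + s * K)) := by
    exact_mod_cast h1.trans (le_of_eq h2)
  refine h3.trans ?_
  refine (mul_le_mul_of_nonneg_right hcount (by positivity)).trans (le_of_eq ?_)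
  rw [mul_assoc, ← pow_add, Nat.add_sub_cancel' hN]

end Pool.Agent.RS
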