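import Mathlib

set_option autoImplicit false

/-!
# ETA-22: a finite dimensional complex representation is unitary

PROOF.  Map `v` to the element `(g, k) ↦ (ρ g⁻¹ v) k` of `EuclideanSpace ℂ (G × Fin d)`: injective
(`g = 1`), linear, and `ρ x v ↦ (g, k) ↦ (ρ (g⁻¹ x) v) k`, the left translate by `x`, which is
norm preserving (reindexing).  Take `E` = range (a submodule), `π x` = left translation restricted.
-/

namespace Pool.Agent.RS

theorem unitary {G : Type} [Group G] [Fintype G] {d : ℕ}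
    (ρ : G →* ((Fin d → ℂ) →ₗ[ℂ] (Fin d → ℂ))) :
    ∃ (E : Type) (_ : NormedAddCommGroup E) (_ : InnerProductSpace ℂ E)
      (_ : FiniteDimensional ℂ E) (π : G →* (E →ₗ[ℂ] E)) (e : (Fin d → ℂ) ≃ₗ[ℂ] E),
      (∀ g v, ‖π g v‖ = ‖v‖) ∧ ∀ g v, e (ρ g v) = π g (e v) := by
  classical
  let Φ : (Fin d → ℂ) →ₗ[ℂ] EuclideanSpace ℂ (G × Fin d) :=
    { toFun := fun v => WithLp.toLp 2 (fun x : G × Fin d => (ρ x.1⁻¹ v) x.2)
      map_add' := fun v w => by
        ext x
        simp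
      map_smul' := fun c v => by
        ext x
        simp }
  have hΦ : ∀ v x, Φ v x = (ρ x.1⁻¹ v) x.2 := fun v x => rfl
  have hinj : Function.Injective Φ := by
    intro v w h
    funext k
    have := congrArg (fun f : EuclideanSpace ℂ (G × Fin d) => f (1, k)) h
    simpa [hΦ] using this
  let e : (Fin d → ℂ) ≃ₗ[ℂ] LinearMap.range Φ := LinearEquiv.ofInjective Φ hinj
  refine ⟨LinearMap.range Φ, inferInstance, inferInstance, inferInstance,
    { toFun := fun g => e.toLinearMap ∘ₗ ρ g ∘ₗ e.symm.toLinearMap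
      map_one' := by
        ext v
        simp
      map_mul' := fun g h => by
        ext v
        simp }, e, ?_, ?_⟩
  · intro g v
    obtain ⟨w, rfl⟩ := e.surjective v
    have h1 : (e.toLinearMap ∘ₗ ρ g ∘ₗ e.symm.toLinearMap) (e w) = e (ρ g w) := by simp
    change ‖(e.toLinearMap ∘ₗ ρ g ∘ₗ e.symm.toLinearMap) (e w)‖ = ‖e w‖
    rw [h1]
    change ‖Φ (ρ g w)‖ = ‖Φ w‖
    rw [EuclideanSpace.norm_eq, EuclideanSpace.norm_eq]
    congr 1
    refine Fintype.sum_equiv ((Equiv.mulLeft g⁻¹).prodCongr (Equiv.refl (Fin d))) _ _ ?_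
    rintro ⟨x, k⟩
    simp [hΦ, mul_inv_rev]
  · intro g v
    change e (ρ g v) = (e.toLinearMap ∘ₗ ρ g ∘ₗ e.symm.toLinearMap) (e v)
    simp

end Pool.Agent.RS
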