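import Pool.Agent.Helper36.RS.T2
import Pool.Agent.Helper36.RS.Unit
import Pool.Agent.Helper36.RS.High
import Pool.Agent.Helper36.RS.LowDeg

set_option autoImplicit false

/-!
# ETA: assembly of T3
-/

open Finset Filter Topology

namespace Pool.Agent.RS

open scoped InnerProductSpace

attribute [local instance] InnerProductSpace.complexToReal

/-- The span of the eigenvectors of `∑ (ρ (x i) + ρ (x i)⁻¹)` with real eigenvalue above
`2 m - ε`. -/
noncomputable def exc {G V : Type*} [Group G] [AddCommGroup V] [Module ℂ V]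
    (ρ : G →* (V →ₗ[ℂ] V)) {m : ℕ} (x : Fin m → G) (ε : ℝ) : Submodule ℂ V :=
  ⨆ μ : {μ : ℝ // 2 * (m : ℝ) - ε < μ},
    Module.End.eigenspace (∑ i, (ρ (x i) + ρ (x i)⁻¹)) (μ.1 : ℂ)

theorem exc_equiv {G V V' : Type*} [Group G] [AddCommGroup V] [Module ℂ V]
    [AddCommGroup V'] [Module ℂ V'] [FiniteDimensional ℂ V']
    (ρ : G →* (V →ₗ[ℂ] V)) (π : G →* (V' →ₗ[ℂ] V')) (e : V ≃ₗ[ℂ] V')
    (he : ∀ g v, e (ρ g v) = π g (e v)) {m : ℕ} (x : Fin m → G) (ε : ℝ) :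
    Module.finrank ℂ (exc ρ x ε) ≤ Module.finrank ℂ (exc π x ε) := by
  have h1 : (exc ρ x ε).map e.toLinearMap ≤ exc π x ε := by
    unfold exc
    rw [Submodule.map_iSup]
    refine iSup_mono fun μ => ?_
    rintro _ ⟨v, hv, rfl⟩
    have hv' : (∑ i, (ρ (x i) + ρ (x i)⁻¹)) v = (μ.1 : ℂ) • v :=
      Module.End.mem_eigenspace_iff.1 hv
    rw [Module.End.mem_eigenspace_iff]
    have h2 := congrArg e hv'
    rw [LinearMap.sum_apply, map_sum, map_smul] at h2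
    rw [LinearMap.sum_apply]
    refine Eq.trans (Finset.sum_congr rfl fun i _ => ?_) h2
    rw [LinearMap.add_apply, LinearMap.add_apply, map_add, he, he]
    rfl
  calc Module.finrank ℂ (exc ρ x ε) = Module.finrank ℂ ((exc ρ x ε).map e.toLinearMap) :=
        (LinearEquiv.finrank_map_eq e _).symm
    _ ≤ _ := Submodule.finrank_mono h1

/-- Few exceptional eigenvalues in every nontrivial irreducible representation. -/
def FewExc (n m : ℕ) (γ ε : ℝ) (x : Fin m → alternatingGroup (Fin n)) : Prop :=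
  ∀ (d : ℕ) (ρ : alternatingGroup (Fin n) →* ((Fin d → ℂ) →ₗ[ℂ] (Fin d → ℂ))),
    (∀ W : Submodule ℂ (Fin d → ℂ), (∀ g, ∀ v ∈ W, ρ g v ∈ W) → W = ⊥ ∨ W = ⊤) →
    (∃ g v, ρ g v ≠ v) →
    (Module.finrank ℂ (exc ρ x ε) : ℝ) ≤ Real.exp (-(n : ℝ) ^ γ) * d

theorem few_exc {n m₁ m : ℕ} {γ' β ε : ℝ} (hm₁ : 1 ≤ m₁) (hm : m₁ ≤ m) (hε : 0 < ε)
    (hε1 : ε ≤ 1)
    (hnum : ∃ t b T : ℕ, 48 ≤ ⌊(n : ℝ) ^ γ'⌋₊ ∧
      2 * ⌊(n : ℝ) ^ γ'⌋₊ ≤ n ∧ 8 * b ≤ ⌊(n : ℝ) ^ γ'⌋₊ ∧ t ≤ ⌊(n : ℝ) ^ γ'⌋₊ ∧ 4 * t ≤ n ∧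
      Even T ∧ 2 * ((4 / (n : ℝ)) ^ t + 4 ^ t * (1 - ε / (2 * m₁)) ^ T +
        (1 - (⌊(n : ℝ) ^ γ'⌋₊ : ℝ) / (4 * n)) ^ b) ≤
          (1 - ε / (2 * m₁) / 12) ^ T * Real.exp (-(n : ℝ) ^ β))
    (x : Fin m → alternatingGroup (Fin n))
    (hx : RC.GapUpTo n m₁ ⌊(n : ℝ) ^ γ'⌋₊ ε
      (fun i => (x (Fin.castLE hm i) : Equiv.Perm (Fin n)))) :
    FewExc n m β (ε / 6) x := by
  intro d ρ hirr hnt
  have hm1 : (1 : ℝ) ≤ m₁ := by exact_mod_cast hm₁
  have hrn : ⌊(n : ℝ) ^ γ'⌋₊ ≤ n := by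
    obtain ⟨t, b, T, h1, h2, -⟩ := hnum
    omega
  obtain ⟨E, _, _, _, π, e, hπ, he⟩ := unitary ρ
  have hcard : Module.finrank ℂ E = d := by
    rw [← LinearEquiv.finrank_eq e]
    simp
  have hfe := exc_equiv ρ π e he x (ε / 6)
  have hirr' : ∀ W : Submodule ℂ E, (∀ g, ∀ v ∈ W, π g v ∈ W) → W = ⊥ ∨ W = ⊤ := by
    intro W hW
    rcases hirr (W.comap e.toLinearMap) (fun g v hv => by
      rw [Submodule.mem_comap] at hv ⊢
      change e (ρ g v) ∈ W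
      rw [he]
      exact hW g _ hv) with h | h
    · left
      rw [eq_bot_iff]
      intro w hw
      have h1 : e.symm w ∈ W.comap e.toLinearMap := by
        rw [Submodule.mem_comap]
        change e (e.symm w) ∈ W
        rw [e.apply_symm_apply]
        exact hw
      rw [h, Submodule.mem_bot] at h1
      rw [Submodule.mem_bot, ← e.apply_symm_apply w, h1, map_zero]
    · right
      rw [eq_top_iff]
      intro w _
      have h1 : e.symm w ∈ W.comap e.toLinearMap := by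
        rw [h]
        trivial
      rw [Submodule.mem_comap] at h1
      change e (e.symm w) ∈ W at h1
      rwa [e.apply_symm_apply] at h1
  have hnt' : ∃ g v, π g v ≠ v := by
    obtain ⟨g, v, hv⟩ := hnt
    refine ⟨g, e v, fun h => hv ?_⟩
    rw [← he] at h
    exact e.injective h
  refine le_trans (Nat.cast_le.2 hfe) ?_
  by_cases hno : NoInvA (realRep π) (⊤ : Submodule ℝ E) (n - ⌊(n : ℝ) ^ γ'⌋₊)
  · have h1 := low_small hm₁ hε hε1 hnum (fun i => x (Fin.castLE hm i)) hx (realRep π)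
      (fun g v => hπ g v) (⊤ : Submodule ℝ E) (fun _ _ _ => Submodule.mem_top) hno
    rw [inf_top_eq, finrank_top] at h1
    have h2 := high π hπ hm₁ hm x (ε := ε / 6) (θ := ε / (2 * m₁) / 12)
      (c := Real.exp (-(n : ℝ) ^ β)) (by positivity) (by
        have : 4 * (m₁ : ℝ) * (ε / (2 * m₁) / 12) = ε / 6 := by
          field_simp
          norm_num
        rw [this]) h1
    rw [hcard] at h2
    exact h2
  · unfold NoInvA at hno
    push Not at hno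
    obtain ⟨A, hA, u, -, hinv, hu⟩ := hno
    have h1 : exc π x (ε / 6) = ⊥ := by
      unfold exc
      rw [iSup_eq_bot]
      rintro ⟨μ, hμ⟩
      exact low_deg hrn hm x hx π hπ hirr' hnt' A hA u hu hinv μ (by
        have : ε / 6 ≤ 2 * ε := by linarith
        linarith)
    rw [h1, finrank_bot]
    simp only [Nat.cast_zero]
    positivity

theorem t3_main {γ : ℝ} (hγ : γ < 1) : ∃ m₀ : ℕ, 2 ≤ m₀ ∧ ∃ ε : ℝ, 0 < ε ∧ ∀ m ≥ m₀,
    ∀ Good : (n : ℕ) → (Fin m → alternatingGroup (Fin n)) → Prop,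
      (∀ n x, FewExc n m γ ε x → Good n x) →
      Tendsto (fun n : ℕ => (Nat.card {x : Fin m → alternatingGroup (Fin n) // Good n x} : ℝ) /
          (Nat.card (alternatingGroup (Fin n)) : ℝ) ^ m) atTop (𝓝 1) := by
  set γ₁ := max γ (1 / 2) with hγ₁
  have hγ₁1 : γ₁ < 1 := max_lt hγ (by norm_num)
  have hγ₁2 : 1 / 2 ≤ γ₁ := le_max_right _ _
  set γ' := (3 + γ₁) / 4 with hγ'
  obtain ⟨m₁, hm₁, ε₀, hε₀, hlim⟩ := RC.lev_all (γ := γ') (by linarith)
  set ε₁ := min ε₀ 1 with hε₁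
  have hε₁0 : 0 < ε₁ := lt_min hε₀ one_pos
  have hε₁1 : ε₁ ≤ 1 := min_le_right _ _
  have hm₁1 : (1 : ℝ) ≤ m₁ := by exact_mod_cast hm₁
  have hgapmono : ∀ {n r : ℕ} (x : Fin m₁ → Equiv.Perm (Fin n)), RC.GapUpTo n m₁ r ε₀ x →
      RC.GapUpTo n m₁ r ε₁ x := by
    intro n r x hx j hj hjr f hf
    refine (hx j hj hjr f hf).trans ?_
    apply mul_le_mul_of_nonneg_right _ (Finset.sum_nonneg fun y _ => sq_nonneg _)
    have := min_le_left ε₀ (1 : ℝ)
    linarith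
  refine ⟨m₁ + 1, by omega, ε₁ / 6, by positivity, fun m hm Good hGood => ?_⟩
  have hmm : m₁ ≤ m := by omega
  set p : ℕ → ℝ := fun n =>
    (Nat.card {x : Fin m₁ → Equiv.Perm (Fin n) // ¬ RC.GapUpTo n m₁ ⌊(n : ℝ) ^ γ'⌋₊ ε₀ x} : ℝ) /
      (n.factorial : ℝ) ^ m₁ with hp
  refine tendsto_good (m := fun _ => m) Good (fun n => 2 ^ m₁ * p n) ?_ ?_
  · have h1 : Tendsto (fun n => 2 ^ m₁ * p n) atTop (𝓝 (2 ^ m₁ * 0)) := hlim.const_mul _
    simpa using h1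
  have hA := numA (γ := γ') (β := γ₁) (θ := ε₁ / (2 * m₁)) (by linarith) (by linarith)
    (by linarith) (by positivity) (by
      rw [div_le_one (by positivity)]
      linarith)
  filter_upwards [hA, eventually_ge_atTop 2] with n hnA hn2
  have h1 : Nat.card {x : Fin m → alternatingGroup (Fin n) // ¬ Good n x} ≤
      Nat.card {x : Fin m → alternatingGroup (Fin n) //
        (fun z : Fin m₁ → alternatingGroup (Fin n) =>
          ¬ RC.GapUpTo n m₁ ⌊(n : ℝ) ^ γ'⌋₊ ε₀ (fun i => (z i : Equiv.Perm (Fin n))))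
          (fun i => x (Fin.castLE hmm i))} := by
    refine Nat.card_le_card_of_injective (fun x => ⟨x.1, ?_⟩) (fun x x' h =>
      Subtype.ext (by simpa using h))
    intro hgap
    apply x.2
    refine hGood n x.1 fun d ρ hirr hnt => ?_
    have h2 := few_exc hm₁ hmm hε₁0 hε₁1 hnA x.1 (hgapmono _ hgap) d ρ hirr hnt
    refine h2.trans ?_
    apply mul_le_mul_of_nonneg_right _ (Nat.cast_nonneg d)
    apply Real.exp_le_exp.2
    apply neg_le_neg
    apply Real.rpow_le_rpow_of_exponent_le _ (le_max_left _ _)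
    have : 1 ≤ n := by omega
    exact_mod_cast this
  have h2 := RC.FinalAux.card_restrict (α := alternatingGroup (Fin n)) hmm
    (fun z : Fin m₁ → alternatingGroup (Fin n) =>
      ¬ RC.GapUpTo n m₁ ⌊(n : ℝ) ^ γ'⌋₊ ε₀ (fun i => (z i : Equiv.Perm (Fin n))))
  have h3 := card_bad_alt (m := m₁) (r := ⌊(n : ℝ) ^ γ'⌋₊) (ε := ε₀) hn2
  have h4 : (Nat.card {x : Fin m → alternatingGroup (Fin n) // ¬ Good n x} : ℝ) ≤
      (Nat.card {z : Fin m₁ → alternatingGroup (Fin n) //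
        ¬ RC.GapUpTo n m₁ ⌊(n : ℝ) ^ γ'⌋₊ ε₀ (fun i => (z i : Equiv.Perm (Fin n)))} : ℝ) *
        (Fintype.card (alternatingGroup (Fin n)) : ℝ) ^ (m - m₁) := by
    exact_mod_cast h1.trans (le_of_eq h2)
  refine h4.trans ?_
  refine (mul_le_mul_of_nonneg_right h3 (by positivity)).trans (le_of_eq ?_)
  rw [mul_assoc, ← pow_add, Nat.add_sub_cancel' hmm]

end Pool.Agent.RS
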