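import Pool.Agent.Helper36.RS.Defs

set_option autoImplicit false

/-!
# ETA-10: the sum of the transpositions is at most `N a`

`π` is an orthogonal representation of `Perm (Fin n)`; `X` a set of letters, `N = |X|`; the
subspace `F` is invariant under the transpositions of letters of `X` and contains no nonzero vector
invariant under the transpositions of letters of `A`, for any `A ⊆ X` with more than `a` elements.
CLAIM: `∑_{i, j ∈ X} ⟪π (swap i j) v, v⟫ ≤ N a ‖v‖^2` on `F` (the diagonal terms are `‖v‖^2`).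

PROOF.  Strong induction on `N = |X|`, for all `a ≥ 1` and all `F`.  `X = ∅`: the sum is `0`.
Let `N ≥ 1`, `S = ∑_{i,j ∈ X} π (swap i j)`: symmetric (`π (swap i j)` is an isometric involution),
preserves `F`.  It suffices to bound the eigenvalues of `S` on `F` (if `S` restricted to `F` has
all eigenvalues `≤ c` then `⟪S v, v⟫ ≤ c ‖v‖^2` on `F`: eigenvector basis of
`hS.restrict_invariant`, as in `RC.low_inner_pow`).  Let `S` have the eigenvalue `l` on `F`,
`V = eigenspace S l ⊓ F ≠ ⊥`.  `S` commutes with `π (swap p q)`, `p, q ∈ X` (conjugation by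
`swap p q` permutes the pairs of `X × X`: `swap p q * swap i j * swap p q = swap (i') (j')` with
`i' = swap p q i`, `Equiv.swap_apply_apply` or `Equiv.Perm` conj lemmas), so `V` is invariant
under the transpositions of `X`.  Let `a'` be the largest size of a set `A ⊆ X` for which `V` has a
nonzero vector invariant under the transpositions of `A`; `1 ≤ a'` (singletons; `V ≠ ⊥`, `X ≠ ∅`) and
`a' ≤ a`.  Fix such `A`, `|A| = a'`, and `0 ≠ v ∈ V`.
(1) For `k ∈ X \ A`: `u = v + ∑_{i ∈ A} π (swap i k) v` is in `V` and is invariant under the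
transpositions of `insert k A`: for `p, q ∈ A`: `swap p q * swap i k = swap i' k * swap p q` with
`i' = swap p q i ∈ A` (also when `p = q`); for `q = k`: `swap p k` exchanges `v` and
`π (swap p k) v`, and for `i ∈ A`, `i ≠ p`: `swap p k * swap i k = swap i k * swap p i` and
`π (swap p i) v = v`, so it fixes `π (swap i k) v`.  So `u = 0` by maximality of `a'`, that is
`∑_{i ∈ A} π (swap i k) v = - v`.
(2) `S v = ∑_{i,j ∈ A} v + 2 ∑_{k ∈ X \ A} ∑_{i ∈ A} π (swap i k) v + S_{X \ A} v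
        = a'^2 v - 2 (N - a') v + S_{X \ A} v`.
(3) `V' = {w ∈ V : π (swap i j) w = w for i, j ∈ A}` is a subspace invariant under the
transpositions of `X \ A` (they commute with those of `A`), and has no nonzero vector invariant
under the transpositions of `A'' ⊆ X \ A` with `|A''| > a'`.  By the induction hypothesis
(`|X \ A| = N - a' < N`) `⟪S_{X \ A} v, v⟫ ≤ (N - a') a' ‖v‖^2`.
So `l ‖v‖^2 = ⟪S v, v⟫ ≤ (a'^2 - 2 (N - a') + (N - a') a') ‖v‖^2 ≤ N a' ‖v‖^2 ≤ N a ‖v‖^2`.
-/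

open Finset

namespace Pool.Agent.RS

open scoped InnerProductSpace

section Aux

variable {E : Type*} [NormedAddCommGroup E] [InnerProductSpace ℝ E]

/-- Bounding the quadratic form of a symmetric operator on an invariant subspace by its
eigenvalues there. -/
theorem transp_eig [FiniteDimensional ℝ E] (S : E →ₗ[ℝ] E) (hS : S.IsSymmetric)
    (F : Submodule ℝ E) (hF : ∀ v ∈ F, S v ∈ F) (c : ℝ)
    (h : ∀ (l : ℝ), (∃ v ∈ F, v ≠ 0 ∧ S v = l • v) → l ≤ c) (v : E) (hv : v ∈ F) :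
    ⟪S v, v⟫_ℝ ≤ c * ‖v‖ ^ 2 := by
  have hS' : (S.restrict hF).IsSymmetric := hS.restrict_invariant hF
  have hn : Module.finrank ℝ F = Module.finrank ℝ F := rfl
  have key : ∀ w : F, ⟪(S.restrict hF) w, w⟫_ℝ ≤ c * ‖w‖ ^ 2 := by
    intro w
    rw [RC.low_inner_pow (S.restrict hF) (S.restrict hF) hS' hS' hn _
      (fun i => hS'.apply_eigenvectorBasis hn i) w,
      RC.low_norm_sq (S.restrict hF) hS' hn, Finset.mul_sum]
    refine Finset.sum_le_sum (fun i _ => ?_)
    refine mul_le_mul_of_nonneg_right (h _ ⟨(hS'.eigenvectorBasis hn i : F), ?_, ?_, ?_⟩)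
      (sq_nonneg _)
    · exact (hS'.eigenvectorBasis hn i).2
    · intro h0
      have h1 := (hS'.eigenvectorBasis hn).norm_eq_one i
      have h2 : (hS'.eigenvectorBasis hn i : F) = 0 := Subtype.ext h0
      rw [h2, norm_zero] at h1
      exact zero_ne_one h1
    · have h1 := hS'.apply_eigenvectorBasis hn i
      exact congrArg Subtype.val h1
  exact key ⟨v, hv⟩

variable {n : ℕ} (π : Equiv.Perm (Fin n) →* (E →ₗ[ℝ] E))

theorem transp_mul (g h : Equiv.Perm (Fin n)) (v : E) : π g (π h v) = π (g * h) v := by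
  rw [map_mul]; rfl

theorem transp_one (v : E) : π 1 v = v := by
  rw [map_one]; rfl

theorem transp_self (i : Fin n) (v : E) : π (Equiv.swap i i) v = v := by
  rw [Equiv.swap_self]
  exact transp_one π v

theorem transp_invol (i j : Fin n) (v : E) : π (Equiv.swap i j) (π (Equiv.swap i j) v) = v := by
  rw [transp_mul, Equiv.swap_mul_self]
  exact transp_one π v

theorem transp_conj (p q i j : Fin n) (v : E) :
    π (Equiv.swap p q) (π (Equiv.swap i j) v) =
      π (Equiv.swap (Equiv.swap p q i) (Equiv.swap p q j)) (π (Equiv.swap p q) v) := by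
  rw [transp_mul, transp_mul, Equiv.mul_swap_eq_swap_mul]

/-- The sum of the transpositions of the letters of `X`. -/
noncomputable def transpSum (X : Finset (Fin n)) : E →ₗ[ℝ] E :=
  ∑ i ∈ X, ∑ j ∈ X, π (Equiv.swap i j)

theorem transpSum_apply (X : Finset (Fin n)) (v : E) :
    transpSum π X v = ∑ i ∈ X, ∑ j ∈ X, π (Equiv.swap i j) v := by
  simp [transpSum, LinearMap.sum_apply]

theorem swap_mem_iff (X : Finset (Fin n)) {p q : Fin n} (hp : p ∈ X) (hq : q ∈ X) (i : Fin n) :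
    i ∈ X ↔ Equiv.swap p q i ∈ X := by
  rcases eq_or_ne i p with rfl | h1
  · simp [hp, hq]
  · rcases eq_or_ne i q with rfl | h2
    · simp [hp, hq]
    · rw [Equiv.swap_apply_of_ne_of_ne h1 h2]

theorem transpSum_comm (X : Finset (Fin n)) {p q : Fin n} (hp : p ∈ X) (hq : q ∈ X) (v : E) :
    π (Equiv.swap p q) (transpSum π X v) = transpSum π X (π (Equiv.swap p q) v) := by
  rw [transpSum_apply, transpSum_apply, map_sum]
  refine Finset.sum_equiv (Equiv.swap p q) (fun i => swap_mem_iff X hp hq i) (fun i _ => ?_)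
  rw [map_sum]
  refine Finset.sum_equiv (Equiv.swap p q) (fun j => swap_mem_iff X hp hq j) (fun j _ => ?_)
  exact transp_conj π p q i j v

theorem transp_symm (hπ : ∀ g v, ‖π g v‖ = ‖v‖) (i j : Fin n) :
    (π (Equiv.swap i j)).IsSymmetric := by
  intro v w
  have h1 : ∀ x y : E, ⟪π (Equiv.swap i j) x, π (Equiv.swap i j) y⟫_ℝ = ⟪x, y⟫_ℝ :=
    fun x y => (⟨π (Equiv.swap i j), hπ _⟩ : E →ₗᵢ[ℝ] E).inner_map_map x y
  rw [← h1 v (π (Equiv.swap i j) w), transp_invol]

theorem transpSum_symm (hπ : ∀ g v, ‖π g v‖ = ‖v‖) (X : Finset (Fin n)) :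
    (transpSum π X).IsSymmetric := by
  intro v w
  rw [transpSum_apply, transpSum_apply, sum_inner, inner_sum]
  refine Finset.sum_congr rfl (fun i _ => ?_)
  rw [sum_inner, inner_sum]
  exact Finset.sum_congr rfl (fun j _ => transp_symm π hπ i j v w)

/-- Adding one letter to an invariant vector. -/
theorem transp_insert (A : Finset (Fin n)) (k : Fin n) (hk : k ∉ A) (v : E)
    (hv : ∀ i ∈ A, ∀ j ∈ A, π (Equiv.swap i j) v = v) :
    ∀ p ∈ insert k A, ∀ q ∈ insert k A,
      π (Equiv.swap p q) (v + ∑ i ∈ A, π (Equiv.swap i k) v) =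
        v + ∑ i ∈ A, π (Equiv.swap i k) v := by
  have hA : ∀ p ∈ A, ∀ q ∈ A, π (Equiv.swap p q) (v + ∑ i ∈ A, π (Equiv.swap i k) v) =
      v + ∑ i ∈ A, π (Equiv.swap i k) v := by
    intro p hp q hq
    rw [map_add, hv p hp q hq, map_sum]
    congr 1
    refine Finset.sum_equiv (Equiv.swap p q) (fun i => swap_mem_iff A hp hq i) (fun i _ => ?_)
    rw [transp_conj, hv p hp q hq,
      Equiv.swap_apply_of_ne_of_ne (ne_of_mem_of_not_mem hp hk).symm
        (ne_of_mem_of_not_mem hq hk).symm]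
  have hB : ∀ p ∈ A, π (Equiv.swap p k) (v + ∑ i ∈ A, π (Equiv.swap i k) v) =
      v + ∑ i ∈ A, π (Equiv.swap i k) v := by
    intro p hp
    rw [map_add, map_sum, ← Finset.add_sum_erase A _ hp, ← Finset.add_sum_erase A _ hp,
      transp_invol]
    have h1 : ∑ i ∈ A.erase p, π (Equiv.swap p k) (π (Equiv.swap i k) v) =
        ∑ i ∈ A.erase p, π (Equiv.swap i k) v := by
      refine Finset.sum_congr rfl (fun i hi => ?_)
      have hip : i ≠ p := Finset.ne_of_mem_erase hi
      have hiA : i ∈ A := Finset.mem_of_mem_erase hi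
      have hik : i ≠ k := fun h => hk (h ▸ hiA)
      have hpk : p ≠ k := fun h => hk (h ▸ hp)
      have h2 := transp_conj π i k p i v
      rw [Equiv.swap_apply_of_ne_of_ne hip.symm hpk, Equiv.swap_apply_left,
        hv p hp i hiA] at h2
      exact h2.symm
    rw [h1]
    abel
  intro p hp q hq
  rcases Finset.mem_insert.1 hp with hp' | hp'
  · rcases Finset.mem_insert.1 hq with hq' | hq'
    · rw [hp', hq']
      exact transp_self π _ _
    · rw [hp', Equiv.swap_comm]
      exact hB q hq'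
  · rcases Finset.mem_insert.1 hq with hq' | hq'
    · rw [hq']
      exact hB p hp'
    · exact hA p hp' q hq'

end Aux

theorem transp_aux {E : Type*} [NormedAddCommGroup E] [InnerProductSpace ℝ E]
    [FiniteDimensional ℝ E] {n : ℕ} (π : Equiv.Perm (Fin n) →* (E →ₗ[ℝ] E))
    (hπ : ∀ g v, ‖π g v‖ = ‖v‖) (N : ℕ) : ∀ (X : Finset (Fin n)), X.card = N → ∀ (a : ℕ), 1 ≤ a →
    ∀ (F : Submodule ℝ E),
    (∀ i ∈ X, ∀ j ∈ X, ∀ v ∈ F, π (Equiv.swap i j) v ∈ F) →
    (∀ A ⊆ X, a < A.card → ∀ v ∈ F,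
      (∀ i ∈ A, ∀ j ∈ A, π (Equiv.swap i j) v = v) → v = 0) →
    ∀ v ∈ F, ⟪transpSum π X v, v⟫_ℝ ≤ (X.card : ℝ) * a * ‖v‖ ^ 2 := by
  classical
  induction N using Nat.strong_induction_on with
  | _ N ih =>
  intro X hXN a ha F hF hno
  rcases X.eq_empty_or_nonempty with rfl | ⟨x0, hx0⟩
  · intro v _
    simp [transpSum]
  have hSF : ∀ v ∈ F, transpSum π X v ∈ F := by
    intro v hv
    rw [transpSum_apply]
    exact F.sum_mem (fun i hi => F.sum_mem (fun j hj => hF i hi j hj v hv))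
  refine transp_eig (transpSum π X) (transpSum_symm π hπ X) F hSF _ ?_
  rintro l ⟨v0, hv0F, hv00, hv0l⟩
  let P : Finset (Fin n) → Prop := fun A => ∃ v ∈ F, v ≠ 0 ∧ transpSum π X v = l • v ∧
    ∀ i ∈ A, ∀ j ∈ A, π (Equiv.swap i j) v = v
  have hne : (X.powerset.filter P).Nonempty := by
    refine ⟨{x0}, Finset.mem_filter.2 ⟨Finset.mem_powerset.2 (Finset.singleton_subset_iff.2 hx0),
      v0, hv0F, hv00, hv0l, ?_⟩⟩
    intro i hi j hj
    rw [Finset.mem_singleton] at hi hj
    subst hi; subst hj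
    exact transp_self π _ _
  obtain ⟨A, hAm, hmax⟩ := Finset.exists_max_image _ Finset.card hne
  obtain ⟨hAX, v, hvF, hv0, hvl, hvA⟩ := Finset.mem_filter.1 hAm
  rw [Finset.mem_powerset] at hAX
  have hmax' : ∀ B ⊆ X, P B → B.card ≤ A.card := fun B hB hPB =>
    hmax B (Finset.mem_filter.2 ⟨Finset.mem_powerset.2 hB, hPB⟩)
  have hA1 : 1 ≤ A.card := by
    have := hmax' {x0} (Finset.singleton_subset_iff.2 hx0) ⟨v0, hv0F, hv00, hv0l, by
      intro i hi j hj
      rw [Finset.mem_singleton] at hi hj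
      subst hi; subst hj
      exact transp_self π _ _⟩
    simpa using this
  have hAa : A.card ≤ a := by
    by_contra hcon
    exact hv0 (hno A hAX (not_le.1 hcon) v hvF hvA)
  -- step (1)
  have h1 : ∀ k ∈ X \ A, ∑ i ∈ A, π (Equiv.swap i k) v = - v := by
    intro k hk
    obtain ⟨hkX, hkA⟩ := Finset.mem_sdiff.1 hk
    have hu := transp_insert π A k hkA v hvA
    by_contra hcon
    have hu0 : v + ∑ i ∈ A, π (Equiv.swap i k) v ≠ 0 := by
      intro h0
      apply hcon
      rw [eq_neg_iff_add_eq_zero, add_comm]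
      exact h0
    have huF : v + ∑ i ∈ A, π (Equiv.swap i k) v ∈ F :=
      F.add_mem hvF (F.sum_mem (fun i hi => hF i (hAX hi) k hkX v hvF))
    have hul : transpSum π X (v + ∑ i ∈ A, π (Equiv.swap i k) v) =
        l • (v + ∑ i ∈ A, π (Equiv.swap i k) v) := by
      rw [map_add, map_sum, smul_add, hvl, Finset.smul_sum]
      congr 1
      refine Finset.sum_congr rfl (fun i hi => ?_)
      rw [← transpSum_comm π X (hAX hi) hkX, hvl, map_smul]
    have h2 := hmax' (insert k A) (Finset.insert_subset hkX hAX) ⟨_, huF, hu0, hul, hu⟩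
    rw [Finset.card_insert_of_notMem hkA] at h2
    omega
  -- step (3)
  have hcard : (X \ A).card = X.card - A.card := Finset.card_sdiff_of_subset hAX
  have hle : A.card ≤ X.card := Finset.card_le_card hAX
  let F' : Submodule ℝ E :=
    { carrier := {w | w ∈ F ∧ transpSum π X w = l • w ∧
        ∀ i ∈ A, ∀ j ∈ A, π (Equiv.swap i j) w = w}
      add_mem' := fun {x y} hx hy => ⟨F.add_mem hx.1 hy.1, by
          rw [map_add, hx.2.1, hy.2.1, smul_add], fun i hi j hj => by
          rw [map_add, hx.2.2 i hi j hj, hy.2.2 i hi j hj]⟩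
      zero_mem' := ⟨F.zero_mem, by simp, fun i _ j _ => by simp⟩
      smul_mem' := fun c x hx => ⟨F.smul_mem c hx.1, by
          rw [map_smul, hx.2.1, smul_comm], fun i hi j hj => by
          rw [map_smul, hx.2.2 i hi j hj]⟩ }
  have h3 := ih (X \ A).card (by omega) (X \ A) rfl A.card hA1 F' (by
      rintro p hp q hq w ⟨hw1, hw2, hw3⟩
      obtain ⟨hpX, hpA⟩ := Finset.mem_sdiff.1 hp
      obtain ⟨hqX, hqA⟩ := Finset.mem_sdiff.1 hq
      refine ⟨hF p hpX q hqX w hw1, ?_, ?_⟩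
      · rw [← transpSum_comm π X hpX hqX, hw2, map_smul]
      · intro i hi j hj
        rw [transp_conj, hw3 i hi j hj,
          Equiv.swap_apply_of_ne_of_ne (ne_of_mem_of_not_mem hi hpA).symm
            (ne_of_mem_of_not_mem hj hpA).symm,
          Equiv.swap_apply_of_ne_of_ne (ne_of_mem_of_not_mem hi hqA).symm
            (ne_of_mem_of_not_mem hj hqA).symm])
    (by
      rintro B hB hBc w ⟨hw1, hw2, hw3⟩ hwB
      by_contra hw0
      have := hmax' B (hB.trans Finset.sdiff_subset) ⟨w, hw1, hw0, hw2, hwB⟩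
      omega) v ⟨hvF, hvl, hvA⟩
  -- step (2)
  have hsplit : ∀ f : Fin n → E, ∑ i ∈ X, f i = ∑ i ∈ X \ A, f i + ∑ i ∈ A, f i :=
    fun f => (Finset.sum_sdiff hAX).symm
  have h4 : transpSum π X v = transpSum π (X \ A) v +
      ((A.card : ℝ) ^ 2 - 2 * ((X \ A).card : ℝ)) • v := by
    rw [transpSum_apply, transpSum_apply, hsplit]
    have e1 : ∑ i ∈ X \ A, ∑ j ∈ X, π (Equiv.swap i j) v =
        ∑ i ∈ X \ A, ∑ j ∈ X \ A, π (Equiv.swap i j) v - ((X \ A).card : ℝ) • v := by
      rw [show ((X \ A).card : ℝ) • v = ∑ i ∈ X \ A, v by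
        rw [Finset.sum_const, ← Nat.cast_smul_eq_nsmul ℝ], ← Finset.sum_sub_distrib]
      refine Finset.sum_congr rfl (fun i hi => ?_)
      rw [hsplit, sub_eq_add_neg, ← h1 i hi]
      congr 1
      exact Finset.sum_congr rfl (fun j _ => by rw [Equiv.swap_comm])
    have e2 : ∑ i ∈ A, ∑ j ∈ X, π (Equiv.swap i j) v =
        ((A.card : ℝ) ^ 2) • v - ((X \ A).card : ℝ) • v := by
      have e3 : ∑ i ∈ A, ∑ j ∈ X, π (Equiv.swap i j) v =
          ∑ i ∈ A, ∑ j ∈ X \ A, π (Equiv.swap i j) v + ∑ i ∈ A, ∑ j ∈ A, π (Equiv.swap i j) v := by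
        rw [← Finset.sum_add_distrib]
        exact Finset.sum_congr rfl (fun i _ => hsplit _)
      rw [e3, Finset.sum_comm, Finset.sum_congr rfl (fun k hk => h1 k hk),
        Finset.sum_congr rfl (fun i hi => Finset.sum_congr rfl (fun j hj => hvA i hi j hj))]
      simp only [Finset.sum_const, ← Nat.cast_smul_eq_nsmul ℝ, smul_smul, smul_neg]
      rw [sq]
      abel
    rw [e1, e2, sub_smul, two_mul, add_smul]
    abel
  have hvpos : 0 < ‖v‖ ^ 2 := by positivity
  have h5 : l * ‖v‖ ^ 2 = ⟪transpSum π X v, v⟫_ℝ := by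
    rw [hvl, real_inner_smul_left, real_inner_self_eq_norm_sq]
  have h6 : l * ‖v‖ ^ 2 ≤ (((X \ A).card : ℝ) * A.card + ((A.card : ℝ) ^ 2 -
      2 * ((X \ A).card : ℝ))) * ‖v‖ ^ 2 := by
    rw [h5, h4, inner_add_left, real_inner_smul_left, real_inner_self_eq_norm_sq, add_mul]
    linarith
  have h7 := le_of_mul_le_mul_right h6 hvpos
  have h8 : ((X \ A).card : ℝ) = (X.card : ℝ) - A.card := by
    rw [hcard, Nat.cast_sub hle]
  have h9 : (0 : ℝ) ≤ ((X \ A).card : ℝ) := Nat.cast_nonneg _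
  have h10 : (A.card : ℝ) ≤ a := by exact_mod_cast hAa
  have h11 : (0 : ℝ) ≤ (X.card : ℝ) := Nat.cast_nonneg _
  calc l ≤ ((X \ A).card : ℝ) * A.card + ((A.card : ℝ) ^ 2 - 2 * ((X \ A).card : ℝ)) := h7
    _ ≤ ((X \ A).card : ℝ) * A.card + (A.card : ℝ) ^ 2 := by linarith
    _ = (X.card : ℝ) * A.card := by rw [h8]; ring
    _ ≤ (X.card : ℝ) * a := mul_le_mul_of_nonneg_left h10 h11

theorem transp_le {E : Type*} [NormedAddCommGroup E] [InnerProductSpace ℝ E]
    [FiniteDimensional ℝ E] {n : ℕ} (π : Equiv.Perm (Fin n) →* (E →ₗ[ℝ] E))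
    (hπ : ∀ g v, ‖π g v‖ = ‖v‖) (X : Finset (Fin n)) (a : ℕ) (ha : 1 ≤ a) (F : Submodule ℝ E)
    (hF : ∀ i ∈ X, ∀ j ∈ X, ∀ v ∈ F, π (Equiv.swap i j) v ∈ F)
    (hno : ∀ A ⊆ X, a < A.card → ∀ v ∈ F,
      (∀ i ∈ A, ∀ j ∈ A, π (Equiv.swap i j) v = v) → v = 0)
    (v : E) (hv : v ∈ F) :
    ∑ i ∈ X, ∑ j ∈ X, ⟪π (Equiv.swap i j) v, v⟫_ℝ ≤ (X.card : ℝ) * a * ‖v‖ ^ 2 := by
  have h := transp_aux π hπ X.card X rfl a ha F hF hno v hv
  rw [transpSum_apply, sum_inner] at h
  simpa only [sum_inner] using h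

end Pool.Agent.RS
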