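import Pool.Agent.Helper36.RS.Defs

set_option autoImplicit false

/-!
# ETA-07: decomposition of a two-sided invariant subspace of `L²(G)` into minimal ones

PROOF.  Both translations are isometries (reindex the sum of squares), so the orthogonal
complement inside `F` of a two-sided invariant subspace is two-sided invariant.  Strong induction
on `dim F`: if `F = ⊥` take `q = 0`.  Otherwise choose a two-sided invariant `B₀ ≤ F`, `B₀ ≠ ⊥`, of
least dimension (`Nat.find` or well-founded minimum); it is `MinInv`; apply the induction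
hypothesis to `B₀ᗮ ⊓ F`.  So there are pairwise orthogonal `MinInv` subspaces `B i`, `i : Fin q`,
with supremum `F`.
NUMBER: each `B i` contains a nonzero class function: take `f ∈ B i`, `f g₀ ≠ 0`; then
`f₁ = rt g₀ f ∈ B i` has `f₁ 1 = f g₀ ≠ 0`; `f₂ = ∑ h, lt h (rt h f₁)`, that is
`f₂ g = ∑ h, f₁ (h⁻¹ g h) ∈ B i`, is a class function with `f₂ 1 = |G| f₁ 1 ≠ 0`.
The `q` class functions obtained are nonzero and pairwise orthogonal, hence linearly independent
(`linearIndependent_of_ne_zero_of_inner_eq_zero`), and they factor through the finite type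
`ConjClasses G` (they are images of functions `ConjClasses G → ℝ` under the injective linear map
`u ↦ (g ↦ u (ConjClasses.mk g))`), so `q ≤ Nat.card (ConjClasses G)`.
-/

open Finset

namespace Pool.Agent.RS

open scoped InnerProductSpace

theorem lt_norm (G : Type*) [Group G] [Fintype G] (x : G) (f : EuclideanSpace ℝ G) :
    ‖lt G x f‖ = ‖f‖ := by
  rw [EuclideanSpace.norm_eq, EuclideanSpace.norm_eq]
  congr 1
  exact Fintype.sum_equiv (Equiv.mulLeft x⁻¹) _ _ fun g => rfl

theorem rt_norm (G : Type*) [Group G] [Fintype G] (x : G) (f : EuclideanSpace ℝ G) :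
    ‖rt G x f‖ = ‖f‖ := by
  rw [EuclideanSpace.norm_eq, EuclideanSpace.norm_eq]
  congr 1
  exact Fintype.sum_equiv (Equiv.mulRight x) _ _ fun g => rfl

section Aux

variable {E : Type*} [NormedAddCommGroup E] [InnerProductSpace ℝ E]

private theorem orth_inv {G : Type*} [Group G] (L : G →* (E →ₗ[ℝ] E)) (hL : ∀ g v, ‖L g v‖ = ‖v‖)
    {B : Submodule ℝ E} (hB : ∀ g, ∀ v ∈ B, L g v ∈ B) (g : G) (v : E) (hv : v ∈ Bᗮ) :
    L g v ∈ Bᗮ := by
  rw [Submodule.mem_orthogonal] at hv ⊢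
  intro u hu
  have h1 : L g (L g⁻¹ u) = u := by
    rw [← Module.End.mul_apply, ← map_mul, mul_inv_cancel, map_one, Module.End.one_apply]
  rw [← h1, RC.Equiv.inner_pres (L g) (hL g)]
  exact hv _ (hB _ _ hu)

variable [FiniteDimensional ℝ E]

private theorem decomp {G : Type*} [Group G] (L R : G →* (E →ₗ[ℝ] E))
    (hL : ∀ g v, ‖L g v‖ = ‖v‖) (hR : ∀ g v, ‖R g v‖ = ‖v‖) (n : ℕ) :
    ∀ F : Submodule ℝ E, Module.finrank ℝ F = n → (∀ g, ∀ v ∈ F, L g v ∈ F) →
      (∀ g, ∀ v ∈ F, R g v ∈ F) →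
      ∃ (q : ℕ) (B : Fin q → Submodule ℝ E), (∀ i, MinInv L R (B i)) ∧
        (∀ i j, i ≠ j → B i ⟂ B j) ∧ (⨆ i, B i) = F := by
  induction n using Nat.strong_induction_on with
  | _ n ih =>
  intro F hF hl hr
  by_cases hF0 : F = ⊥
  · refine ⟨0, fun _ => ⊥, fun i => i.elim0, fun i => i.elim0, ?_⟩
    rw [hF0, iSup_of_empty]
  classical
  have hP : ∃ m : ℕ, ∃ B : Submodule ℝ E, B ≤ F ∧ B ≠ ⊥ ∧ (∀ g, ∀ v ∈ B, L g v ∈ B) ∧
      (∀ g, ∀ v ∈ B, R g v ∈ B) ∧ Module.finrank ℝ B = m :=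
    ⟨_, F, le_rfl, hF0, hl, hr, rfl⟩
  obtain ⟨B0, hB0F, hB0, hB0l, hB0r, hB0m⟩ := Nat.find_spec hP
  have hmin : MinInv L R B0 := by
    refine ⟨hB0, hB0l, hB0r, fun F' hF' hl' hr' => ?_⟩
    by_cases hF'0 : F' = ⊥
    · exact Or.inl hF'0
    · right
      have h1 : Nat.find hP ≤ Module.finrank ℝ F' :=
        Nat.find_min' hP ⟨F', hF'.trans hB0F, hF'0, hl', hr', rfl⟩
      have h2 : Module.finrank ℝ F' ≤ Module.finrank ℝ B0 := Submodule.finrank_mono hF'
      refine Submodule.eq_of_le_of_finrank_eq hF' (le_antisymm h2 ?_)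
      rw [hB0m]
      exact h1
  have hF1l : ∀ g, ∀ v ∈ B0ᗮ ⊓ F, L g v ∈ B0ᗮ ⊓ F := fun g v hv =>
    ⟨orth_inv L hL hB0l g v hv.1, hl g v hv.2⟩
  have hF1r : ∀ g, ∀ v ∈ B0ᗮ ⊓ F, R g v ∈ B0ᗮ ⊓ F := fun g v hv =>
    ⟨orth_inv R hR hB0r g v hv.1, hr g v hv.2⟩
  have hlt : B0ᗮ ⊓ F < F := by
    refine lt_of_le_of_ne inf_le_right fun h => hB0 ?_
    have h1 : B0 ≤ B0ᗮ := by
      calc B0 ≤ F := hB0F
        _ = B0ᗮ ⊓ F := h.symm
        _ ≤ B0ᗮ := inf_le_left
    exact Submodule.isOrtho_self.mp h1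
  have hfr : Module.finrank ℝ (B0ᗮ ⊓ F : Submodule ℝ E) < n := by
    rw [← hF]
    exact Submodule.finrank_lt_finrank_of_lt hlt
  obtain ⟨q, B, hB1, hB2, hB3⟩ := ih _ hfr (B0ᗮ ⊓ F) rfl hF1l hF1r
  have hle : ∀ i, B i ≤ B0ᗮ ⊓ F := fun i => by
    rw [← hB3]
    exact le_iSup B i
  have hor : ∀ i, B i ⟂ B0 := fun i => (hle i).trans inf_le_left
  refine ⟨q + 1, Fin.cons B0 B, ?_, ?_, ?_⟩
  · intro i
    refine Fin.cases ?_ (fun i => ?_) i
    · simpa using hmin
    · simpa using hB1 i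
  · intro i j
    refine Fin.cases ?_ (fun i => ?_) i
    · refine Fin.cases ?_ (fun j => ?_) j
      · intro h
        exact absurd rfl h
      · intro _
        simpa using (hor j).symm
    · refine Fin.cases ?_ (fun j => ?_) j
      · intro _
        simpa using hor i
      · intro h
        have h1 : i ≠ j := fun h2 => h (by rw [h2])
        simpa using hB2 i j h1
  · have hsup : B0 ⊔ B0ᗮ ⊓ F = F :=
      Submodule.sup_orthogonal_inf_of_hasOrthogonalProjection hB0F
    apply le_antisymm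
    · refine iSup_le fun i => ?_
      refine Fin.cases ?_ (fun i => ?_) i
      · simpa using hB0F
      · simpa using (hle i).trans inf_le_right
    · nth_rewrite 1 [← hsup]
      refine sup_le ?_ ?_
      · have h1 := le_iSup (Fin.cons B0 B : Fin (q + 1) → Submodule ℝ E) 0
        simpa using h1
      · rw [← hB3]
        refine iSup_le fun i => ?_
        have h1 := le_iSup (Fin.cons B0 B : Fin (q + 1) → Submodule ℝ E) i.succ
        simpa using h1

end Aux

private theorem class_fun (G : Type*) [Group G] [Fintype G] {B : Submodule ℝ (EuclideanSpace ℝ G)}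
    (hB : MinInv (lt G) (rt G) B) :
    ∃ u ∈ B, u ≠ 0 ∧ ∀ k g : G, u (k⁻¹ * g * k) = u g := by
  obtain ⟨f, hf, hf0⟩ := (Submodule.ne_bot_iff _).mp hB.ne_bot
  obtain ⟨g₀, hg₀⟩ : ∃ g, f g ≠ 0 := by
    by_contra h
    push Not at h
    apply hf0
    ext g
    exact h g
  have h1 : rt G g₀ f ∈ B := hB.right _ _ hf
  have happ : ∀ g : G, (∑ h : G, lt G h (rt G h (rt G g₀ f))) g =
      ∑ h : G, (rt G g₀ f) (h⁻¹ * g * h) := by
    intro g
    have h2 : (∑ h : G, lt G h (rt G h (rt G g₀ f))) g =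
        ∑ h : G, (lt G h (rt G h (rt G g₀ f))) g := by
      simp
    rw [h2]
    rfl
  refine ⟨∑ h : G, lt G h (rt G h (rt G g₀ f)), ?_, ?_, ?_⟩
  · exact Submodule.sum_mem _ fun h _ => hB.left _ _ (hB.right _ _ h1)
  · intro h0
    have h2 := happ 1
    rw [h0] at h2
    have h3 : ∀ h : G, (rt G g₀ f) (h⁻¹ * 1 * h) = f g₀ := by
      intro h
      rw [mul_one, inv_mul_cancel, rt_apply, one_mul]
    simp only [h3] at h2
    rw [Finset.sum_const, Finset.card_univ, nsmul_eq_mul] at h2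
    have h4 : (0 : EuclideanSpace ℝ G) 1 = 0 := rfl
    rw [h4] at h2
    have h5 : (Fintype.card G : ℝ) ≠ 0 := by
      exact_mod_cast Fintype.card_ne_zero
    exact (mul_ne_zero h5 hg₀) h2.symm
  · intro k g
    rw [happ, happ]
    refine Fintype.sum_equiv (Equiv.mulLeft k) _ _ fun h => ?_
    simp [mul_assoc]

theorem two_sided (G : Type*) [Group G] [Fintype G] (F : Submodule ℝ (EuclideanSpace ℝ G))
    (hl : ∀ g, ∀ v ∈ F, lt G g v ∈ F) (hr : ∀ g, ∀ v ∈ F, rt G g v ∈ F) :
    ∃ (q : ℕ) (B : Fin q → Submodule ℝ (EuclideanSpace ℝ G)), q ≤ Nat.card (ConjClasses G) ∧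
      (∀ i, MinInv (lt G) (rt G) (B i)) ∧ (⨆ i, B i) = F := by
  classical
  obtain ⟨q, B, hB1, hB2, hB3⟩ := decomp (lt G) (rt G) (lt_norm G) (rt_norm G) _ F rfl hl hr
  refine ⟨q, B, ?_, hB1, hB3⟩
  choose u hu hu0 huc using fun i => class_fun G (hB1 i)
  have hlin : LinearIndependent ℝ u := by
    refine linearIndependent_of_ne_zero_of_inner_eq_zero hu0 fun i j hij => ?_
    exact (hB2 i j hij).inner_eq (hu i) (hu j)
  have : Fintype (ConjClasses G) := Fintype.ofFinite _
  let T : (ConjClasses G → ℝ) →ₗ[ℝ] EuclideanSpace ℝ G :=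
    { toFun := fun c => WithLp.toLp 2 (fun g => c (ConjClasses.mk g))
      map_add' := fun c c' => by ext g; simp
      map_smul' := fun r c => by ext g; simp }
  let c : Fin q → ConjClasses G → ℝ := fun i x => u i (Quotient.out x)
  have hT : ∀ i, T (c i) = u i := by
    intro i
    ext g
    change u i (Quotient.out (ConjClasses.mk g)) = u i g
    have h1 : IsConj (Quotient.out (ConjClasses.mk g)) g := by
      rw [← ConjClasses.mk_eq_mk_iff_isConj]
      exact Quotient.out_eq _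
    rw [isConj_iff] at h1
    obtain ⟨k, hk⟩ := h1
    generalize Quotient.out (ConjClasses.mk g) = o at hk ⊢
    have h2 := huc i k g
    rw [← h2, ← hk]
    congr 1
    group
  have hc : LinearIndependent ℝ c := by
    refine LinearIndependent.of_comp T ?_
    have h3 : T ∘ c = u := funext hT
    rw [h3]
    exact hlin
  have h4 := hc.fintype_card_le_finrank
  rw [Fintype.card_fin, Module.finrank_fintype_fun_eq_card] at h4
  rw [Nat.card_eq_fintype_card]
  exact h4

end Pool.Agent.RS
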